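import Mathlib
import Pool.Agent.EllSch.Defs

/-!
# LGO (A): multiplicity estimate, definitions

`P(u₁(z), u₂(ξ z))` with `u₁ = 1 / ℘₁`, `u₂ = 1 / ℘₂` for two lattices `Λ₁ = ℤ a + ℤ b`,
`Λ₂ = ℤ a' + ℤ b'`.  Final theorem: `LGO/A/MulFin.lean`.
-/

namespace Pool.Agent.LGO.Mul

open Polynomial Pool.Agent.EllSch
open scoped Polynomial.Bivariate

noncomputable section

/-- `1 / ℘` (it has the value `0` at the lattice points) -/
def iu (a b z : ℂ) : ℂ := (wp a b z)⁻¹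

/-- `f(X) = 4 X - g₂ X³ - g₃ X⁴`, so that `u = 1 / ℘` satisfies `u'² = f(u)` -/
def ff (g2 g3 : ℂ) : ℂ[X] := 4 * X - C g2 * X ^ 3 - C g3 * X ^ 4

/-- the degree in `X` of an element of `ℂ[X][Y]` -/
def dX (P : ℂ[X][Y]) : ℕ := (Bivariate.swap P).natDegree

/-- the degree in `Y` of an element of `ℂ[X][Y]` -/
def dY (P : ℂ[X][Y]) : ℕ := P.natDegree

/-- the derivative with respect to `X` -/
def pX (P : ℂ[X][Y]) : ℂ[X][Y] := Bivariate.swap (derivative (Bivariate.swap P))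

/-- the derivative with respect to `Y` -/
def pY (P : ℂ[X][Y]) : ℂ[X][Y] := derivative P

/-- `Q = P_X² f₁(X) - ξ² P_Y² f₂(Y)` with `f₁ = ff g2 g3`, `f₂ = ff h2 h3` -/
def QQ (g2 g3 h2 h3 ξ : ℂ) (P : ℂ[X][Y]) : ℂ[X][Y] :=
  pX P ^ 2 * C (ff g2 g3) - C (C (ξ ^ 2)) * pY P ^ 2 * (ff h2 h3).map C

/-- the lattices `ξ Λ₁` and `Λ₂` are commensurable -/
def Comm (a b a' b' ξ : ℂ) : Prop :=
  ∃ n : ℕ, 0 < n ∧ ∀ x : ℤ × ℤ, ∃ y : ℤ × ℤ, (n : ℂ) * (ξ * lat a b x) = lat a' b' y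

end

end Pool.Agent.LGO.Mul
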