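import Mathlib
import Pool.Agent.LGO.EDefs
import Pool.Agent.LGO.A.MulDefs
import Pool.Agent.Schn.HurwitzInt

/-!
# LGO: common base of the engines, definitions

`u = 1 / ℘ = Mul.iu a b` satisfies `u'' = 2 - A u² - B u³`, `u(0) = u'(0) = 0`, with
`A = (3/2) g₂`, `B = 2 g₃` (from `℘'' = 6 ℘² - g₂ / 2`, `℘'² = 4 ℘³ - g₂ ℘ - g₃`).
-/

namespace Pool.Agent.LGO.Bs

open Pool.Agent.EllSch NumberField

noncomputable section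

/-- the derivatives at `0` of the solution of `u'' = 2 - A u² - B u³`, `u(0) = u'(0) = 0` -/
def hs {R : Type*} [CommRing R] (A B : R) : ℕ → R
  | 0 => 0
  | 1 => 0
  | (m + 2) => (if m = 0 then 2 else 0)
      - A * ∑ i : Fin (m + 1), (m.choose i : R) * hs A B i * hs A B (m - i)
      - B * ∑ i : Fin (m + 1), ∑ j : Fin (m - i + 1),
          (m.choose i : R) * ((m - i).choose j : R) * hs A B i * hs A B j * hs A B (m - i - j)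
termination_by m => m
decreasing_by all_goals omega

/-- the power series of `u` -/
def us {F : Type*} [Field F] (A B : F) : PowerSeries F :=
  PowerSeries.mk fun m => hs A B m / (m.factorial : F)

/-- two curves and two multipliers: `x₂ / x₁ = ξ` -/
structure D2 (K : Type*) [Field K] where
  A₁ : 𝓞 K
  B₁ : 𝓞 K
  A₂ : 𝓞 K
  B₂ : 𝓞 K
  x₁ : 𝓞 K
  x₂ : 𝓞 K

variable {K : Type*} [Field K]

/-- the series of `u₁ (x₁ t) ^ i * u₂ (x₂ t) ^ j` -/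
def mon (D : D2 K) (i j : ℕ) : PowerSeries K :=
  PowerSeries.rescale (D.x₁ : K) (us (D.A₁ : K) (D.B₁ : K)) ^ i *
    PowerSeries.rescale (D.x₂ : K) (us (D.A₂ : K) (D.B₂ : K)) ^ j

/-- the `n`-th coefficient of `P (u₁ (x₁ t), u₂ (x₂ t))`, `P = ∑ c i j X ^ i Y ^ j`, `i, j < L` -/
def gm (D : D2 K) (L : ℕ) (c : ℕ → ℕ → ℤ) (n : ℕ) : K :=
  ∑ i ∈ Finset.range L, ∑ j ∈ Finset.range L, (c i j : K) * PowerSeries.coeff n (mon D i j)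

/-- all conjugates of the data are bounded: `‖A‖, ‖B‖ ≤ X ^ 4`, `‖x‖ ≤ Z` -/
structure Bdd (D : D2 K) (X Z : ℝ) : Prop where
  hX : 1 ≤ X
  hZ : 1 ≤ Z
  A₁ : ∀ σ : K →+* ℂ, ‖σ D.A₁‖ ≤ X ^ 4
  B₁ : ∀ σ : K →+* ℂ, ‖σ D.B₁‖ ≤ X ^ 4
  A₂ : ∀ σ : K →+* ℂ, ‖σ D.A₂‖ ≤ X ^ 4
  B₂ : ∀ σ : K →+* ℂ, ‖σ D.B₂‖ ≤ X ^ 4
  x₁ : ∀ σ : K →+* ℂ, ‖σ D.x₁‖ ≤ Z
  x₂ : ∀ σ : K →+* ℂ, ‖σ D.x₂‖ ≤ Z

/-- `D` is the data of two lattices and of `ξ` (at the place `φ`) -/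
structure IsD (D : D2 K) (φ : K →+* ℂ) (a b a' b' ξ : ℂ) : Prop where
  A₁ : φ D.A₁ = 3 / 2 * G2 a b
  B₁ : φ D.B₁ = 2 * G3 a b
  A₂ : φ D.A₂ = 3 / 2 * G2 a' b'
  B₂ : φ D.B₂ = 2 * G3 a' b'
  x₂ : φ D.x₂ = ξ * φ D.x₁
  ne : D.x₁ ≠ 0

/-- the auxiliary function `P (u₁ (y), u₂ (ξ y))` -/
def Ph (a b a' b' ξ : ℂ) (L : ℕ) (c : ℕ → ℕ → ℤ) (y : ℂ) : ℂ :=
  ∑ i ∈ Finset.range L, ∑ j ∈ Finset.range L,
    (c i j : ℂ) * Mul.iu a b y ^ i * Mul.iu a' b' (ξ * y) ^ j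

end

end Pool.Agent.LGO.Bs
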