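import Mathlib
import Pool.Agent.LGO.A.Bs

/-!
# LGO base: the power series of `u`

* `hs_map`: strong induction on `m` (unfold the recursion on both sides, `map_sum`, `map_mul`, ...).
* `us_rec`: `coeff m (U ^ 2) = ∑ coeff i U * coeff (m - i) U` (`pow_two`, `coeff_mul`,
  `Finset.Nat.sum_antidiagonal_eq_sum_range_succ_mk`), `coeff i U = hs i / i!`,
  `m.choose i * i! * (m - i)! = m!`; the same twice for `U ^ 3 = U * (U * U)`.
  So `m! * coeff m (U ^ 2) = ∑ i, choose m i * hs i * hs (m - i)` etc., divide the recursion of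
  `hs (m + 2)` by `m!`, and `(m + 2)! = (m + 2) (m + 1) m!`.
* `us_unique`: strong induction on the index (coefficients of `f ^ 2`, `f ^ 3` of index `m` involve
  only coefficients of `f` of index `≤ m`).
* `us_int`: `m! * coeff m (rescale x U) = x ^ m * hs m` with `hs m` the image of the element
  `hs A B m` of `𝓞 K` (`hs_map` for `algebraMap (𝓞 K) K`).  `HurInt` is in `Schn/HurwitzInt.lean`.
* `mon_int`: `HurInt.mul`, `HurInt.pow`.
* `gm_int`: sum of integers times integers.
-/

namespace Pool.Agent.LGO.Bs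

open Pool.Agent.EllSch Pool.Agent.Schn NumberField

private lemma BsSer_hs_succ {R : Type*} [CommRing R] (A B : R) (m : ℕ) :
    hs A B (m + 2) = (if m = 0 then 2 else 0)
      - A * ∑ i : Fin (m + 1), (m.choose i : R) * hs A B i * hs A B (m - i)
      - B * ∑ i : Fin (m + 1), ∑ j : Fin (m - i + 1),
          (m.choose i : R) * ((m - i).choose j : R) * hs A B i * hs A B j * hs A B (m - i - j) := by
  rw [hs]

private lemma BsSer_hs_zero {R : Type*} [CommRing R] (A B : R) : hs A B 0 = 0 := by
  rw [hs]

private lemma BsSer_hs_one {R : Type*} [CommRing R] (A B : R) : hs A B 1 = 0 := by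
  rw [hs]

theorem hs_map {R S : Type*} [CommRing R] [CommRing S] (f : R →+* S) (A B : R) (m : ℕ) :
    f (hs A B m) = hs (f A) (f B) m := by
  induction m using Nat.strong_induction_on with
  | _ m ih =>
    rcases m with _ | _ | m
    · rw [BsSer_hs_zero, BsSer_hs_zero, map_zero]
    · rw [BsSer_hs_one, BsSer_hs_one, map_zero]
    · rw [BsSer_hs_succ, BsSer_hs_succ]
      have e1 : f (if m = 0 then (2 : R) else 0) = if m = 0 then (2 : S) else 0 := by
        split_ifs
        · exact map_ofNat f 2
        · exact map_zero f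
      have e2 : f (∑ i : Fin (m + 1), (m.choose i : R) * hs A B i * hs A B (m - i)) =
          ∑ i : Fin (m + 1), (m.choose i : S) * hs (f A) (f B) i * hs (f A) (f B) (m - i) := by
        rw [map_sum]
        refine Finset.sum_congr rfl fun i _ => ?_
        rw [map_mul, map_mul, map_natCast, ih i (by omega), ih (m - i) (by omega)]
      have e3 : f (∑ i : Fin (m + 1), ∑ j : Fin (m - i + 1),
          (m.choose i : R) * ((m - i).choose j : R) * hs A B i * hs A B j * hs A B (m - i - j)) =
          ∑ i : Fin (m + 1), ∑ j : Fin (m - i + 1),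
          (m.choose i : S) * ((m - i).choose j : S) * hs (f A) (f B) i * hs (f A) (f B) j *
            hs (f A) (f B) (m - i - j) := by
        rw [map_sum]
        refine Finset.sum_congr rfl fun i _ => ?_
        rw [map_sum]
        refine Finset.sum_congr rfl fun j _ => ?_
        rw [map_mul, map_mul, map_mul, map_mul, map_natCast, map_natCast, ih i (by omega),
          ih j (by omega), ih (m - i - j) (by omega)]
      rw [map_sub, map_sub, map_mul, map_mul, e1, e2, e3]

theorem us_zero {F : Type*} [Field F] (A B : F) : PowerSeries.coeff 0 (us A B) = 0 := by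
  rw [us, PowerSeries.coeff_mk, BsSer_hs_zero, zero_div]

theorem us_one {F : Type*} [Field F] (A B : F) : PowerSeries.coeff 1 (us A B) = 0 := by
  rw [us, PowerSeries.coeff_mk, BsSer_hs_one, zero_div]

private lemma BsSer_mul {F : Type*} [Field F] [CharZero F] (a b : ℕ → F) (m : ℕ) :
    (m.factorial : F) * PowerSeries.coeff m (PowerSeries.mk (fun n => a n / (n.factorial : F)) *
      PowerSeries.mk (fun n => b n / (n.factorial : F))) =
      ∑ i : Fin (m + 1), (m.choose i : F) * a i * b (m - i) := by
  rw [PowerSeries.coeff_mul, Finset.Nat.sum_antidiagonal_eq_sum_range_succ_mk, Finset.mul_sum,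
    Finset.sum_range]
  refine Finset.sum_congr rfl fun i _ => ?_
  have hi : (i : ℕ) ≤ m := by omega
  have h := congrArg (Nat.cast (R := F)) (Nat.choose_mul_factorial_mul_factorial hi)
  push_cast at h
  have h1 : ((i : ℕ).factorial : F) ≠ 0 := Nat.cast_ne_zero.mpr (Nat.factorial_ne_zero _)
  have h2 : ((m - (i : ℕ)).factorial : F) ≠ 0 := Nat.cast_ne_zero.mpr (Nat.factorial_ne_zero _)
  simp only [PowerSeries.coeff_mk]
  rw [← h]
  field_simp

private lemma BsSer_us_sq {F : Type*} [Field F] [CharZero F] (A B : F) (m : ℕ) :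
    (m.factorial : F) * PowerSeries.coeff m (us A B ^ 2) =
      ∑ i : Fin (m + 1), (m.choose i : F) * hs A B i * hs A B (m - i) := by
  rw [pow_two]
  exact BsSer_mul (fun n => hs A B n) (fun n => hs A B n) m

private lemma BsSer_us_sq_eq {F : Type*} [Field F] [CharZero F] (A B : F) :
    us A B ^ 2 = PowerSeries.mk (fun n => (∑ i : Fin (n + 1), (n.choose i : F) * hs A B i *
      hs A B (n - i)) / (n.factorial : F)) := by
  ext n
  have h : (n.factorial : F) ≠ 0 := Nat.cast_ne_zero.mpr (Nat.factorial_ne_zero _)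
  rw [PowerSeries.coeff_mk, ← BsSer_us_sq]
  field_simp

private lemma BsSer_us_cube {F : Type*} [Field F] [CharZero F] (A B : F) (m : ℕ) :
    (m.factorial : F) * PowerSeries.coeff m (us A B ^ 3) =
      ∑ i : Fin (m + 1), ∑ j : Fin (m - i + 1),
          (m.choose i : F) * ((m - i).choose j : F) * hs A B i * hs A B j *
            hs A B (m - i - j) := by
  rw [pow_succ', BsSer_us_sq_eq]
  refine (BsSer_mul (fun n => hs A B n) (fun n => ∑ i : Fin (n + 1), (n.choose i : F) *
    hs A B i * hs A B (n - i)) m).trans ?_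
  refine Finset.sum_congr rfl fun i _ => ?_
  rw [Finset.mul_sum]
  refine Finset.sum_congr rfl fun j _ => ?_
  ring

theorem us_rec {F : Type*} [Field F] [CharZero F] (A B : F) (m : ℕ) :
    ((m : F) + 1) * (m + 2) * PowerSeries.coeff (m + 2) (us A B) =
      (if m = 0 then 2 else 0) - A * PowerSeries.coeff m (us A B ^ 2)
        - B * PowerSeries.coeff m (us A B ^ 3) := by
  have h0 : (m.factorial : F) ≠ 0 := Nat.cast_ne_zero.mpr (Nat.factorial_ne_zero _)
  have h1 : (((m + 2).factorial : ℕ) : F) = ((m : F) + 1) * (m + 2) * (m.factorial : F) := by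
    rw [Nat.factorial_succ, Nat.factorial_succ]
    push_cast
    ring
  have h2 : ((m : F) + 1) ≠ 0 := by exact_mod_cast Nat.succ_ne_zero m
  have h3 : ((m : F) + 2) ≠ 0 := by exact_mod_cast Nat.succ_ne_zero (m + 1)
  have h4 : (m.factorial : F) * (((m : F) + 1) * (m + 2) * PowerSeries.coeff (m + 2) (us A B)) =
      hs A B (m + 2) := by
    rw [us, PowerSeries.coeff_mk, h1]
    field_simp
  have h5 : (m.factorial : F) * (if m = 0 then 2 else 0) = if m = 0 then 2 else 0 := by
    split_ifs with h
    · subst h; simp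
    · rw [mul_zero]
  refine mul_left_cancel₀ h0 ?_
  rw [h4, BsSer_hs_succ, mul_sub, mul_sub, h5, mul_left_comm, mul_left_comm _ B, BsSer_us_sq,
    BsSer_us_cube]

private lemma BsSer_congr {F : Type*} [Field F] {f f' g g' : PowerSeries F} {m : ℕ}
    (hf : ∀ i ≤ m, PowerSeries.coeff i f = PowerSeries.coeff i f')
    (hg : ∀ i ≤ m, PowerSeries.coeff i g = PowerSeries.coeff i g') :
    ∀ i ≤ m, PowerSeries.coeff i (f * g) = PowerSeries.coeff i (f' * g') := by
  intro i hi
  rw [PowerSeries.coeff_mul, PowerSeries.coeff_mul]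
  refine Finset.sum_congr rfl fun p hp => ?_
  rw [Finset.HasAntidiagonal.mem_antidiagonal] at hp
  rw [hf p.1 (by omega), hg p.2 (by omega)]

theorem us_unique {F : Type*} [Field F] [CharZero F] {A B : F} {f : PowerSeries F}
    (h0 : PowerSeries.coeff 0 f = 0) (h1 : PowerSeries.coeff 1 f = 0)
    (h : ∀ m : ℕ, ((m : F) + 1) * (m + 2) * PowerSeries.coeff (m + 2) f =
      (if m = 0 then 2 else 0) - A * PowerSeries.coeff m (f ^ 2)
        - B * PowerSeries.coeff m (f ^ 3)) : f = us A B := by
  ext n
  induction n using Nat.strong_induction_on with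
  | _ n ih =>
    rcases n with _ | _ | m
    · rw [h0, us_zero]
    · exact h1.trans (us_one A B).symm
    · have e0 : ∀ i ≤ m, PowerSeries.coeff i f = PowerSeries.coeff i (us A B) :=
        fun i hi => ih i (by omega)
      have e1 : ∀ i ≤ m, PowerSeries.coeff i (f * f) = PowerSeries.coeff i (us A B * us A B) :=
        BsSer_congr e0 e0
      have e2 := BsSer_congr e0 e1
      have e3 : PowerSeries.coeff m (f ^ 2) = PowerSeries.coeff m (us A B ^ 2) := by
        rw [pow_two, pow_two]
        exact e1 m le_rfl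
      have e4 : PowerSeries.coeff m (f ^ 3) = PowerSeries.coeff m (us A B ^ 3) := by
        have e5 := e2 m le_rfl
        have e6 : ∀ g : PowerSeries F, g ^ 3 = g * (g * g) := fun g => by ring
        rw [e6, e6, e5]
      have h2 : ((m : F) + 1) ≠ 0 := by exact_mod_cast Nat.succ_ne_zero m
      have h3 : ((m : F) + 2) ≠ 0 := by exact_mod_cast Nat.succ_ne_zero (m + 1)
      refine mul_left_cancel₀ (mul_ne_zero h2 h3) ?_
      rw [us_rec, h m, e3, e4]

theorem us_map {F G : Type*} [Field F] [Field G] (φ : F →+* G) (A B : F) :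
    PowerSeries.map φ (us A B) = us (φ A) (φ B) := by
  ext n
  rw [PowerSeries.coeff_map, us, us, PowerSeries.coeff_mk, PowerSeries.coeff_mk, map_div₀,
    map_natCast, hs_map]

theorem us_int {K : Type*} [Field K] [CharZero K] (A B x : 𝓞 K) :
    HurInt (PowerSeries.rescale (x : K) (us (A : K) (B : K))) := by
  intro n
  refine ⟨x ^ n * hs A B n, ?_⟩
  have h : (n.factorial : K) ≠ 0 := Nat.cast_ne_zero.mpr n.factorial_ne_zero
  have h1 : ((hs A B n : 𝓞 K) : K) = hs (A : K) (B : K) n := hs_map (algebraMap (𝓞 K) K) A B n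
  have h2 : ((x ^ n * hs A B n : 𝓞 K) : K) = (x : K) ^ n * ((hs A B n : 𝓞 K) : K) := by
    rw [RingOfIntegers.coe_eq_algebraMap, map_mul, map_pow]
  rw [h2, h1, PowerSeries.coeff_rescale, us, PowerSeries.coeff_mk]
  field_simp

theorem mon_int {K : Type*} [Field K] [CharZero K] (D : D2 K) (i j : ℕ) : HurInt (mon D i j) :=
  ((us_int D.A₁ D.B₁ D.x₁).pow i).mul ((us_int D.A₂ D.B₂ D.x₂).pow j)

theorem gm_int {K : Type*} [Field K] [CharZero K] (D : D2 K) (L : ℕ) (c : ℕ → ℕ → ℤ) (n : ℕ) :
    ∃ β : 𝓞 K, (β : K) = (n.factorial : K) * gm D L c n := by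
  have h := fun i j => mon_int D i j n
  choose y hy using h
  refine ⟨∑ i ∈ Finset.range L, ∑ j ∈ Finset.range L, (c i j : 𝓞 K) * y i j, ?_⟩
  rw [gm, RingOfIntegers.coe_eq_algebraMap, map_sum, Finset.mul_sum]
  refine Finset.sum_congr rfl fun i _ => ?_
  rw [map_sum, Finset.mul_sum]
  refine Finset.sum_congr rfl fun j _ => ?_
  rw [map_mul, map_intCast, ← RingOfIntegers.coe_eq_algebraMap, hy]
  ring

end Pool.Agent.LGO.Bs
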