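import Mathlib
import Pool.Agent.LGO.A.MulDefs
import Pool.Agent.EllSch.Basic

/-!
# LGO (A): the function `u = 1 / ℘`

Near `0`: `z² ℘(z) → 1` (`EllSch.Basic.tendsto_sq_mul_wp`), so `u(z) = z² / (z² ℘(z))` is analytic
at `0` (differentiable in a punctured neighbourhood, `Off` holds there by
`EllSch.Basic.eventually_off` and `℘ ≠ 0` there, and continuous at `0`:
`Complex.analyticAt_of_differentiable_on_punctured_nhds_of_continuousAt`; note `u(0) = 0`, because
`wp a b 0 = 0`: every term of the sum is `0`), of order exactly `2`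
(`analyticOrderAt_eq_natCast`/ the limit of `u(z) / z²` is `1`).  The differential equation
`u' = - ℘' / ℘²`, `℘'² = 4 ℘³ - g₂ ℘ - g₃` (`EllSch.ode`), so `u'² = 4 u - g₂ u³ - g₃ u⁴` where
`℘ ≠ 0` and off the lattice; at `0` both sides are continuous.
-/

namespace Pool.Agent.LGO.Mul

open Polynomial Pool.Agent.EllSch Filter Topology
open scoped Polynomial.Bivariate

variable {a b : ℂ}

theorem iu_zero (a b : ℂ) : iu a b 0 = 0 := by
  have h : wp a b 0 = 0 := by
    unfold wp
    have : ∀ x : ℤ × ℤ, (1 / (0 - lat a b x) ^ 2 - 1 / lat a b x ^ 2) = 0 := by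
      intro x
      rw [zero_sub, neg_sq, sub_self]
    simp only [this, tsum_zero]
  rw [iu, h, inv_zero]

theorem iu_add_lat (h : Ind a b) (z : ℂ) (x : ℤ × ℤ) : iu a b (z + lat a b x) = iu a b z := by
  rw [iu, iu, wp_add_lat h z x]

theorem iu_neg (h : Ind a b) (z : ℂ) : iu a b (-z) = iu a b z := by
  rw [iu, iu, wp_neg h]

/-- `z² ℘(z) → 1`, so `u(z) / z² → 1` -/
theorem MulIu_tendsto (h : Ind a b) :
    Tendsto (fun z => iu a b z / z ^ 2) (𝓝[≠] 0) (𝓝 1) := by
  have h1 := (Basic.tendsto_sq_mul_wp h).inv₀ one_ne_zero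
  rw [inv_one] at h1
  refine h1.congr fun z => ?_
  rw [iu, mul_inv, div_eq_mul_inv, mul_comm]

theorem MulIu_tendsto_zero (h : Ind a b) : Tendsto (iu a b) (𝓝[≠] 0) (𝓝 0) := by
  have h0 : Tendsto (fun z : ℂ => z) (𝓝[≠] 0) (𝓝 0) := tendsto_nhdsWithin_of_tendsto_nhds tendsto_id
  have h1 := (MulIu_tendsto h).mul (h0.pow 2)
  have e : (1 : ℂ) * 0 ^ 2 = 0 := by norm_num
  rw [e] at h1
  refine h1.congr' ?_
  filter_upwards [self_mem_nhdsWithin] with z hz
  have hz' : z ≠ 0 := hz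
  field_simp

theorem MulIu_eventually_ne (h : Ind a b) : ∀ᶠ z in 𝓝[≠] (0 : ℂ), wp a b z ≠ 0 := by
  filter_upwards [(Basic.tendsto_sq_mul_wp h).eventually_ne one_ne_zero] with z hz hw
  exact hz (by rw [hw, mul_zero])

/-- at a point off the lattice where `℘ ≠ 0` -/
theorem MulIu_hasDerivAt (h : Ind a b) {z : ℂ} (hz : Off a b z) (h0 : wp a b z ≠ 0) :
    HasDerivAt (iu a b) (-wq a b z / wp a b z ^ 2) z :=
  (hasDerivAt_wp h hz).inv h0

theorem analyticAt_iu_zero (h : Ind a b) : AnalyticAt ℂ (iu a b) 0 := by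
  apply Complex.analyticAt_of_differentiable_on_punctured_nhds_of_continuousAt
  · filter_upwards [Basic.eventually_off h 0, MulIu_eventually_ne h] with z hz h0
    exact (MulIu_hasDerivAt h hz h0).differentiableAt
  · rw [continuousAt_iff_punctured_nhds, iu_zero]
    exact MulIu_tendsto_zero h

theorem order_iu_zero (h : Ind a b) : analyticOrderAt (iu a b) 0 = 2 := by
  have hA := analyticAt_iu_zero h
  set g : ℂ → ℂ := Function.update (fun z => iu a b z / z ^ 2) 0 1 with hg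
  have hgc : ContinuousAt g 0 := by
    rw [hg, continuousAt_update_same]
    exact MulIu_tendsto h
  have hgA : AnalyticAt ℂ g 0 := by
    apply Complex.analyticAt_of_differentiable_on_punctured_nhds_of_continuousAt _ hgc
    filter_upwards [Basic.eventually_off h 0, MulIu_eventually_ne h, self_mem_nhdsWithin]
      with z hz h0 hne
    have hne' : z ≠ 0 := hne
    have h1 : DifferentiableAt ℂ (fun z => iu a b z / z ^ 2) z :=
      (MulIu_hasDerivAt h hz h0).differentiableAt.div (differentiableAt_pow 2)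
        (pow_ne_zero 2 hne')
    refine h1.congr_of_eventuallyEq ?_
    filter_upwards [isOpen_ne.mem_nhds hne'] with u hu
    have hu' : u ≠ 0 := hu
    rw [hg, Function.update_of_ne hu']
  have h2 : analyticOrderAt (iu a b) 0 = ((2 : ℕ) : ℕ∞) := by
    rw [hA.analyticOrderAt_eq_natCast]
    refine ⟨g, hgA, ?_, ?_⟩
    · rw [hg, Function.update_self]
      exact one_ne_zero
    · refine Eventually.of_forall fun z => ?_
      by_cases hz : z = 0
      · rw [hz, iu_zero]
        simp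
      · rw [hg, Function.update_of_ne hz, sub_zero, smul_eq_mul]
        field_simp
  rw [h2]
  rfl

/-- at a point off the lattice where `℘ ≠ 0` -/
theorem hasDerivAt_iu (h : Ind a b) {z : ℂ} (hz : Off a b z) (h0 : wp a b z ≠ 0) :
    HasDerivAt (iu a b) (-wq a b z / wp a b z ^ 2) z :=
  MulIu_hasDerivAt h hz h0

theorem sq_deriv (h : Ind a b) {z : ℂ} (hz : Off a b z) (h0 : wp a b z ≠ 0) :
    (-wq a b z / wp a b z ^ 2) ^ 2 = (ff (G2 a b) (G3 a b)).eval (iu a b z) := by
  have h1 := ode h hz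
  have h2 : (ff (G2 a b) (G3 a b)).eval (iu a b z) =
      4 * (wp a b z)⁻¹ - G2 a b * (wp a b z)⁻¹ ^ 3 - G3 a b * (wp a b z)⁻¹ ^ 4 := by
    simp [ff, iu]
  rw [h2, div_pow, neg_sq, h1]
  field_simp

theorem analyticAt_iu (h : Ind a b) {z : ℂ} (hz : Off a b z) (h0 : wp a b z ≠ 0) :
    AnalyticAt ℂ (iu a b) z := by
  have h1 : AnalyticAt ℂ (wp a b) z := by
    have a1 : AnalyticOnNhd ℂ (wp a b) {z | Off a b z} := by
      refine DifferentiableOn.analyticOnNhd (fun u hu => ?_) (isOpen_off h)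
      exact (Basic.differentiableAt_wp h hu).differentiableWithinAt
    exact a1 z hz
  exact h1.inv h0

/-- the differential equation near `0` -/
theorem ode_iu (h : Ind a b) : ∀ᶠ z in 𝓝 (0 : ℂ),
    deriv (iu a b) z ^ 2 = (ff (G2 a b) (G3 a b)).eval (iu a b z) := by
  have h1 : ∀ᶠ z in 𝓝[≠] (0 : ℂ),
      deriv (iu a b) z ^ 2 = (ff (G2 a b) (G3 a b)).eval (iu a b z) := by
    filter_upwards [Basic.eventually_off h 0, MulIu_eventually_ne h] with z hz h0
    rw [(hasDerivAt_iu h hz h0).deriv, sq_deriv h hz h0]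
  have hA := analyticAt_iu_zero h
  have hL : ContinuousAt (fun z => deriv (iu a b) z ^ 2) 0 := (hA.deriv.continuousAt).pow 2
  have hR : ContinuousAt (fun z => (ff (G2 a b) (G3 a b)).eval (iu a b z)) 0 :=
    ((ff (G2 a b) (G3 a b)).continuous.continuousAt).comp hA.continuousAt
  have h0 : deriv (iu a b) 0 ^ 2 = (ff (G2 a b) (G3 a b)).eval (iu a b 0) := by
    have t1 : Tendsto (fun z => deriv (iu a b) z ^ 2) (𝓝[≠] 0) (𝓝 (deriv (iu a b) 0 ^ 2)) :=
      hL.tendsto.mono_left nhdsWithin_le_nhds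
    have t2 : Tendsto (fun z => (ff (G2 a b) (G3 a b)).eval (iu a b z)) (𝓝[≠] 0)
        (𝓝 ((ff (G2 a b) (G3 a b)).eval (iu a b 0))) :=
      hR.tendsto.mono_left nhdsWithin_le_nhds
    exact tendsto_nhds_unique (t1.congr' h1) t2
  rw [eventually_nhdsWithin_iff] at h1
  filter_upwards [h1] with z hz
  by_cases hz0 : z = 0
  · rw [hz0, h0]
  · exact hz hz0

/-- `u` takes every nonzero value, off the lattice -/
theorem exists_iu_eq (h : Ind a b) {x : ℂ} (hx : x ≠ 0) :
    ∃ z, Off a b z ∧ wp a b z ≠ 0 ∧ iu a b z = x := by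
  obtain ⟨y, hy⟩ := IsAlgClosed.exists_pow_nat_eq
    (4 * (x⁻¹) ^ 3 - G2 a b * x⁻¹ - G3 a b) (n := 2) (by norm_num)
  obtain ⟨z, hz, h1, _⟩ := exists_wp_eq h hy
  refine ⟨z, hz, ?_, ?_⟩
  · rw [h1]
    exact inv_ne_zero hx
  · rw [iu, h1, inv_inv]

end Pool.Agent.LGO.Mul
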