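import Mathlib
import Pool.Agent.LGO.A.BsSer
import Pool.Agent.LGO.A.MulIu
import Pool.Agent.Schn.TayBasic

/-!
# LGO base: the Taylor series of `u = 1 / ℘` at `0`

`u = iu a b` is analytic at `0` (`Mul.analyticAt_iu_zero`), `u(0) = 0` (`Mul.iu_zero`), of order `2`
(`Mul.order_iu_zero`), so `u'(0) = 0`.  Off the lattice and where `℘ ≠ 0` (a punctured neighbourhood
of `0`: `Mul.MulIu_eventually_ne`, `EllSch.Basic.eventually_off`) `u' = - ℘' / ℘²`
(`Mul.MulIu_hasDerivAt`) and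
`u'' = - ℘'' / ℘² + 2 ℘'² / ℘³ = - (6 ℘² - g₂ / 2) / ℘² + 2 (4 ℘³ - g₂ ℘ - g₃) / ℘³
= 2 - (3/2) g₂ u² - 2 g₃ u³` (`EllSch.hasDerivAt_wq`, `EllSch.ode`); both sides are analytic at `0`, so
the equation holds in a neighbourhood of `0`.  Taking `tay` of both sides (`Schn.tay_mul`,
`Schn.tay_pow`, `Schn.tay_congr`; `coeff m (tay (deriv (deriv f))) = (m + 1) (m + 2) coeff (m + 2)
(tay f)` from `iteratedDeriv_succ'`) gives the recursion of `us_unique`.

* `iu_tay_comp`: `iteratedDeriv_comp_const_mul` (or directly `tay` of a composition with `c z`).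
* `Ph_tay`: `tay` is additive and multiplicative; `Ph (x₁ t) = ∑ c u₁(x₁ t)^i u₂(ξ x₁ t)^j`,
  `ξ x₁ = x₂`; `us_map`, `PowerSeries.map` of a rescale.
-/

namespace Pool.Agent.LGO.Bs

open Pool.Agent.EllSch Pool.Agent.Schn NumberField Filter Topology

/-- iterated derivatives of `z ↦ f (c z)` (no differentiability needed) -/
private lemma BsAn_iter_comp (c : ℂ) (n : ℕ) : ∀ (f : ℂ → ℂ) (x : ℂ),
    iteratedDeriv n (fun z => f (c * z)) x = c ^ n * iteratedDeriv n f (c * x) := by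
  induction n with
  | zero => intro f x; simp
  | succ n ih =>
    intro f x
    have e : deriv (fun z => f (c * z)) = fun z => c * deriv f (c * z) := by
      funext z
      rw [deriv_comp_mul_left c f z, smul_eq_mul]
    rw [iteratedDeriv_succ', iteratedDeriv_succ', e,
      iteratedDeriv_const_mul_field c (fun z => deriv f (c * z)), ih (deriv f) x, pow_succ']
    ring

private lemma BsAn_tay_comp (c : ℂ) (f : ℂ → ℂ) :
    tay (fun z => f (c * z)) = PowerSeries.rescale c (tay f) := by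
  ext n
  rw [PowerSeries.coeff_rescale, tay, tay, PowerSeries.coeff_mk, PowerSeries.coeff_mk,
    BsAn_iter_comp, mul_zero]
  ring

private lemma BsAn_tay_deriv2 (f : ℂ → ℂ) (m : ℕ) :
    PowerSeries.coeff m (tay (deriv (deriv f))) =
      ((m : ℂ) + 1) * (m + 2) * PowerSeries.coeff (m + 2) (tay f) := by
  have h0 : (m.factorial : ℂ) ≠ 0 := Nat.cast_ne_zero.mpr (Nat.factorial_ne_zero _)
  have h1 : (((m + 2).factorial : ℕ) : ℂ) = ((m : ℂ) + 1) * (m + 2) * (m.factorial : ℂ) := by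
    rw [Nat.factorial_succ, Nat.factorial_succ]
    push_cast
    ring
  have h2 : ((m : ℂ) + 1) ≠ 0 := by exact_mod_cast Nat.succ_ne_zero m
  have h3 : ((m : ℂ) + 2) ≠ 0 := by exact_mod_cast Nat.succ_ne_zero (m + 1)
  rw [tay, tay, PowerSeries.coeff_mk, PowerSeries.coeff_mk, h1, ← iteratedDeriv_succ',
    ← iteratedDeriv_succ']
  field_simp

/-- the equation `u'' = 2 - A u² - B u³` at a point off the lattice where `℘ ≠ 0` -/
private lemma BsAn_ode_pt {a b : ℂ} (h : Ind a b) {z : ℂ} (hz : Off a b z) (h0 : wp a b z ≠ 0) :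
    deriv (deriv (Mul.iu a b)) z =
      2 + (-(3 / 2 * G2 a b) * Mul.iu a b z ^ 2 + -(2 * G3 a b) * Mul.iu a b z ^ 3) := by
  have hev : deriv (Mul.iu a b) =ᶠ[𝓝 z] fun w => -wq a b w / wp a b w ^ 2 := by
    filter_upwards [(isOpen_off h).mem_nhds hz,
      (hasDerivAt_wp h hz).continuousAt.eventually_ne h0] with w hw hw0
    exact (Mul.MulIu_hasDerivAt h hw hw0).deriv
  have hd : HasDerivAt (fun w => -wq a b w / wp a b w ^ 2)
      ((-(6 * wp a b z ^ 2 - G2 a b / 2) * wp a b z ^ 2 -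
        -wq a b z * (2 * wp a b z * wq a b z)) / (wp a b z ^ 2) ^ 2) z := by
    have h1 := (hasDerivAt_wq h hz).fun_neg
    have h2 : HasDerivAt (fun w => wp a b w ^ 2) (2 * wp a b z * wq a b z) z := by
      have h3 := (hasDerivAt_wp h hz).fun_pow 2
      simpa using h3
    exact h1.fun_div h2 (pow_ne_zero 2 h0)
  rw [hev.deriv_eq, hd.deriv]
  have h4 := ode h hz
  have h5 : -wq a b z * (2 * wp a b z * wq a b z) =
      -(2 * wp a b z * (4 * wp a b z ^ 3 - G2 a b * wp a b z - G3 a b)) := by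
    rw [← h4]; ring
  rw [h5, Mul.iu]
  field_simp
  ring

private lemma BsAn_ode {a b : ℂ} (h : Ind a b) : ∀ᶠ z in 𝓝 (0 : ℂ),
    deriv (deriv (Mul.iu a b)) z =
      2 + (-(3 / 2 * G2 a b) * Mul.iu a b z ^ 2 + -(2 * G3 a b) * Mul.iu a b z ^ 3) := by
  have hA := Mul.analyticAt_iu_zero h
  have h1 : ∀ᶠ z in 𝓝[≠] (0 : ℂ), deriv (deriv (Mul.iu a b)) z =
      2 + (-(3 / 2 * G2 a b) * Mul.iu a b z ^ 2 + -(2 * G3 a b) * Mul.iu a b z ^ 3) := by
    filter_upwards [Basic.eventually_off h 0, Mul.MulIu_eventually_ne h] with z hz h0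
    exact BsAn_ode_pt h hz h0
  have hL : AnalyticAt ℂ (deriv (deriv (Mul.iu a b))) 0 := hA.deriv.deriv
  have hR : AnalyticAt ℂ (fun z => 2 + (-(3 / 2 * G2 a b) * Mul.iu a b z ^ 2 +
      -(2 * G3 a b) * Mul.iu a b z ^ 3)) 0 :=
    analyticAt_const.add ((analyticAt_const.mul (hA.pow 2)).add (analyticAt_const.mul (hA.pow 3)))
  exact (hL.frequently_eq_iff_eventually_eq hR).1 h1.frequently

theorem iu_tay {a b : ℂ} (h : Ind a b) :
    tay (Mul.iu a b) = us (3 / 2 * G2 a b) (2 * G3 a b) := by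
  have hA := Mul.analyticAt_iu_zero h
  have hc : ∀ c : ℂ, AnalyticAt ℂ (fun _ : ℂ => c) 0 := fun c => analyticAt_const
  have h2 : AnalyticAt ℂ (fun z => Mul.iu a b z ^ 2) 0 := hA.pow 2
  have h3 : AnalyticAt ℂ (fun z => Mul.iu a b z ^ 3) 0 := hA.pow 3
  have e : tay (deriv (deriv (Mul.iu a b))) = PowerSeries.C (2 : ℂ) +
      (PowerSeries.C (-(3 / 2 * G2 a b)) * tay (Mul.iu a b) ^ 2 +
        PowerSeries.C (-(2 * G3 a b)) * tay (Mul.iu a b) ^ 3) := by
    have k2 : AnalyticAt ℂ (fun z => -(3 / 2 * G2 a b) * Mul.iu a b z ^ 2) 0 := (hc _).mul h2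
    have k3 : AnalyticAt ℂ (fun z => -(2 * G3 a b) * Mul.iu a b z ^ 3) 0 := (hc _).mul h3
    have k5 : AnalyticAt ℂ (fun z => -(3 / 2 * G2 a b) * Mul.iu a b z ^ 2 +
      -(2 * G3 a b) * Mul.iu a b z ^ 3) 0 := k2.add k3
    rw [tay_congr (BsAn_ode h), tay_add (hc 2) k5, tay_add k2 k3, tay_mul (hc _) h2,
      tay_mul (hc _) h3, tay_const, tay_const, tay_const, tay_pow hA, tay_pow hA]
  refine us_unique ?_ ?_ fun m => ?_
  · rw [tay, PowerSeries.coeff_mk, iteratedDeriv_zero, Mul.iu_zero, zero_div]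
  · have h1 : deriv (Mul.iu a b) 0 = 0 := by
      by_contra hne
      have h4 : analyticOrderAt (Mul.iu a b) 0 = 2 := Mul.order_iu_zero h
      have h5 : analyticOrderAt (Mul.iu a b) 0 = ((2 : ℕ) : ℕ∞) := h4
      obtain ⟨g, hg, -, hgz⟩ := (hA.analyticOrderAt_eq_natCast).1 h5
      have h6 : HasDerivAt (fun z : ℂ => (z - 0) ^ 2 • g z) 0 0 := by
        have h7 : HasDerivAt (fun z : ℂ => (z - 0) ^ 2) 0 0 := by
          have h8 := ((hasDerivAt_id (0 : ℂ)).sub_const 0).fun_pow 2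
          simpa using h8
        have h9 := h7.fun_smul hg.differentiableAt.hasDerivAt
        simpa using h9
      have h10 : Mul.iu a b =ᶠ[𝓝 0] fun z : ℂ => (z - 0) ^ 2 • g z := hgz
      exact hne (h10.deriv_eq.trans h6.deriv)
    rw [tay, PowerSeries.coeff_mk, iteratedDeriv_one, h1, zero_div]
  · rw [← BsAn_tay_deriv2, e, map_add, map_add, PowerSeries.coeff_C, PowerSeries.coeff_C_mul,
      PowerSeries.coeff_C_mul]
    ring

theorem iu_comp_an {a b : ℂ} (h : Ind a b) (c : ℂ) :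
    AnalyticAt ℂ (fun z => Mul.iu a b (c * z)) 0 := by
  have h1 : AnalyticAt ℂ (fun z : ℂ => c * z) 0 := analyticAt_const.mul analyticAt_id
  have h2 : AnalyticAt ℂ (Mul.iu a b) ((fun z : ℂ => c * z) 0) := by
    simpa using Mul.analyticAt_iu_zero h
  exact h2.comp h1

theorem iu_tay_comp {a b : ℂ} (h : Ind a b) (c : ℂ) :
    tay (fun z => Mul.iu a b (c * z)) =
      PowerSeries.rescale c (us (3 / 2 * G2 a b) (2 * G3 a b)) := by
  rw [BsAn_tay_comp, iu_tay h]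

private lemma BsAn_term {a b a' b' : ℂ} (h : Ind a b) (h' : Ind a' b') (x y : ℂ) (i j : ℕ) :
    AnalyticAt ℂ (fun t => Mul.iu a b (x * t) ^ i) 0 ∧
      AnalyticAt ℂ (fun t => Mul.iu a' b' (y * t) ^ j) 0 :=
  ⟨(iu_comp_an h x).pow i, (iu_comp_an h' y).pow j⟩

private lemma BsAn_Ph_eq (a b a' b' ξ : ℂ) (L : ℕ) (c : ℕ → ℕ → ℤ) (x : ℂ) :
    (fun t => Ph a b a' b' ξ L c (x * t)) = fun t =>
      ∑ i ∈ Finset.range L, ∑ j ∈ Finset.range L,
        (c i j : ℂ) * (Mul.iu a b (x * t) ^ i * Mul.iu a' b' (ξ * x * t) ^ j) := by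
  funext t
  rw [Ph]
  refine Finset.sum_congr rfl fun i _ => Finset.sum_congr rfl fun j _ => ?_
  rw [mul_assoc ξ x t, mul_assoc]

private lemma BsAn_term_an {a b a' b' : ℂ} (h : Ind a b) (h' : Ind a' b') (x y : ℂ)
    (c : ℕ → ℕ → ℤ) (i j : ℕ) : AnalyticAt ℂ (fun t =>
      (c i j : ℂ) * (Mul.iu a b (x * t) ^ i * Mul.iu a' b' (y * t) ^ j)) 0 :=
  analyticAt_const.mul ((BsAn_term h h' x y i j).1.mul (BsAn_term h h' x y i j).2)

theorem Ph_an {a b a' b' ξ : ℂ} (h : Ind a b) (h' : Ind a' b') (L : ℕ) (c : ℕ → ℕ → ℤ) (x : ℂ) :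
    AnalyticAt ℂ (fun t => Ph a b a' b' ξ L c (x * t)) 0 := by
  rw [BsAn_Ph_eq]
  exact Finset.analyticAt_fun_sum _ fun i _ => Finset.analyticAt_fun_sum _ fun j _ =>
    BsAn_term_an h h' x (ξ * x) c i j

theorem Ph_tay {K : Type*} [Field K] [CharZero K] {D : D2 K} {φ : K →+* ℂ} {a b a' b' ξ : ℂ}
    (h : Ind a b) (h' : Ind a' b') (hD : IsD D φ a b a' b' ξ) (L : ℕ) (c : ℕ → ℕ → ℤ) (n : ℕ) :
    PowerSeries.coeff n (tay (fun t => Ph a b a' b' ξ L c (φ D.x₁ * t))) = φ (gm D L c n) := by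
  have hmap : ∀ (A B x : K), PowerSeries.map φ (PowerSeries.rescale x (us A B)) =
      PowerSeries.rescale (φ x) (us (φ A) (φ B)) := by
    intro A B x
    rw [← us_map, PowerSeries.rescale_map]
  have hterm : ∀ i j : ℕ, tay (fun t => (c i j : ℂ) *
      (Mul.iu a b (φ D.x₁ * t) ^ i * Mul.iu a' b' (ξ * φ D.x₁ * t) ^ j)) =
      PowerSeries.C (c i j : ℂ) * PowerSeries.map φ (mon D i j) := by
    intro i j
    have t := BsAn_term h h' (φ D.x₁) (ξ * φ D.x₁) i j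
    have hc : AnalyticAt ℂ (fun _ : ℂ => (c i j : ℂ)) 0 := analyticAt_const
    have t3 : AnalyticAt ℂ (fun t => Mul.iu a b (φ D.x₁ * t) ^ i *
      Mul.iu a' b' (ξ * φ D.x₁ * t) ^ j) 0 := t.1.mul t.2
    rw [tay_mul hc t3, tay_mul t.1 t.2, tay_const, tay_pow (iu_comp_an h _),
      tay_pow (iu_comp_an h' _), iu_tay_comp h, iu_tay_comp h', mon, map_mul, map_pow, map_pow,
      hmap, hmap, hD.A₁, hD.B₁, hD.A₂, hD.B₂, hD.x₂]
  rw [BsAn_Ph_eq, tay_sum _ _ fun i _ => Finset.analyticAt_fun_sum _ fun j _ =>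
    BsAn_term_an h h' _ _ c i j, map_sum, gm, map_sum]
  refine Finset.sum_congr rfl fun i _ => ?_
  rw [tay_sum _ _ fun j _ => BsAn_term_an h h' _ _ c i j, map_sum, map_sum]
  refine Finset.sum_congr rfl fun j _ => ?_
  rw [hterm, PowerSeries.coeff_C_mul, PowerSeries.coeff_map, map_mul, map_intCast]

end Pool.Agent.LGO.Bs
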