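import Mathlib
import Pool.Agent.LGO.A.BsSer

/-!
# LGO base: size of the coefficients

* `us_bd`: strong induction with `us_rec`.  `m = 2`: `coeff 2 = 1`.  For `m + 2`, `m ≥ 1`:
  `coeff m (U ^ 2)` is a sum of `m - 3` nonzero terms, each at most `X ^ (m - 4)`, and
  `coeff m (U ^ 3)` is a sum of `(m - 4) (m - 5) / 2` nonzero terms, each at most `X ^ (m - 6)`
  (all indices `≥ 2`).  It is convenient to use the weaker uniform bounds: with `X ≥ 1`,
  `‖coeff m (U ^ 2)‖ ≤ (m + 1) X ^ (m - 4)` and `‖coeff m (U ^ 3)‖ ≤ (m + 1) (m + 2) / 2 X ^ (m - 4)`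
  (real powers or multiply by `X ^ 4`), so `‖A‖, ‖B‖ ≤ X ^ 4` give
  `(m + 1) (m + 2) ‖coeff (m + 2)‖ ≤ ((m - 3) + (m - 4) (m - 5) / 2) X ^ m ≤ (m + 1) (m + 2) X ^ m`.
  A clean way: prove `X ^ 2 * ‖coeff m U‖ ≤ X ^ m` for all `m` (true for `m = 0, 1` because the
  coefficient is zero); then `X ^ 4 * ‖coeff m (U ^ 2)‖ ≤ (m - 3)⁺ X ^ m` where only the indices
  `2 ≤ i ≤ m - 2` count, `X ^ 6 ‖coeff m (U ^ 3)‖ ≤ C(m - 4, 2) X ^ m`.
* `pow_bd`: if `‖coeff k f‖ ≤ Y ^ k` for `k ≥ 2` and `coeff 0 f = coeff 1 f = 0`, then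
  `‖coeff n (f ^ i)‖ ≤ (2 Y) ^ n`; more generally multiplication by `f` preserves the bound
  `(2 Y) ^ n`: `∑_(k ≥ 2) (2 Y) ^ (n - k) Y ^ k ≤ (2 Y) ^ n ∑_(k ≥ 2) 2 ^ (-k) ≤ (2 Y) ^ n`.
* `mon_bd`: apply `σ` (`us_map`, `PowerSeries.map` of a rescale), `us_bd`, `pow_bd`, `Y = X Z`.
* `gm_bd`: triangle inequality, `L ^ 2` terms.
-/

namespace Pool.Agent.LGO.Bs

open Pool.Agent.EllSch Pool.Agent.Schn NumberField

/-- bound for the coefficients of a product, given bounds up to the index -/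
theorem BsBd_mul {f g : PowerSeries ℂ} {X a b : ℝ} (hX : 0 ≤ X) (w : ℕ → ℝ) (m : ℕ)
    (ha : 0 ≤ a) (hb : 0 ≤ b)
    (hf : ∀ k ≤ m, a * ‖PowerSeries.coeff k f‖ ≤ X ^ k)
    (hg : ∀ k ≤ m, b * ‖PowerSeries.coeff k g‖ ≤ w k * X ^ k) :
    a * b * ‖PowerSeries.coeff m (f * g)‖ ≤ (∑ k ∈ Finset.range (m + 1), w k) * X ^ m := by
  rw [PowerSeries.coeff_mul]
  have h1 : ‖∑ p ∈ Finset.HasAntidiagonal.antidiagonal m, PowerSeries.coeff p.1 f * PowerSeries.coeff p.2 g‖ ≤
      ∑ p ∈ Finset.HasAntidiagonal.antidiagonal m, ‖PowerSeries.coeff p.1 f‖ * ‖PowerSeries.coeff p.2 g‖ := by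
    refine (norm_sum_le _ _).trans (Finset.sum_le_sum fun p _ => ?_)
    rw [norm_mul]
  calc a * b * ‖∑ p ∈ Finset.HasAntidiagonal.antidiagonal m, PowerSeries.coeff p.1 f * PowerSeries.coeff p.2 g‖
      ≤ a * b * ∑ p ∈ Finset.HasAntidiagonal.antidiagonal m,
        ‖PowerSeries.coeff p.1 f‖ * ‖PowerSeries.coeff p.2 g‖ :=
        mul_le_mul_of_nonneg_left h1 (mul_nonneg ha hb)
    _ = ∑ p ∈ Finset.HasAntidiagonal.antidiagonal m,
        (a * ‖PowerSeries.coeff p.1 f‖) * (b * ‖PowerSeries.coeff p.2 g‖) := by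
        rw [Finset.mul_sum]
        exact Finset.sum_congr rfl fun p _ => by ring
    _ ≤ ∑ p ∈ Finset.HasAntidiagonal.antidiagonal m, w p.2 * X ^ m := by
        refine Finset.sum_le_sum fun p hp => ?_
        have hp' := Finset.HasAntidiagonal.mem_antidiagonal.1 hp
        have h2 := hf p.1 (by omega)
        have h3 := hg p.2 (by omega)
        calc (a * ‖PowerSeries.coeff p.1 f‖) * (b * ‖PowerSeries.coeff p.2 g‖)
            ≤ X ^ p.1 * (w p.2 * X ^ p.2) :=
              mul_le_mul h2 h3 (mul_nonneg hb (norm_nonneg _)) (pow_nonneg hX _)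
          _ = w p.2 * X ^ m := by rw [← hp', pow_add]; ring
    _ = (∑ k ∈ Finset.range (m + 1), w k) * X ^ m := by
        rw [← Finset.sum_mul]
        congr 1
        rw [Finset.Nat.sum_antidiagonal_eq_sum_range_succ_mk, ← Finset.sum_range_reflect]
        refine Finset.sum_congr rfl fun k hk => ?_
        have := Finset.mem_range.1 hk
        congr 1
        show m - (m + 1 - 1 - k) = k
        omega

theorem BsBd_key {A B : ℂ} {X : ℝ} (hX : 1 ≤ X) (hA : ‖A‖ ≤ X ^ 4) (hB : ‖B‖ ≤ X ^ 4) (k : ℕ) :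
    X ^ 2 * ‖PowerSeries.coeff k (us A B)‖ ≤ X ^ k := by
  have hX0 : 0 < X := by linarith
  induction k using Nat.strong_induction_on with
  | _ k ih =>
    match k, ih with
    | 0, _ => rw [us_zero]; simp
    | 1, _ => rw [us_one]; simp [hX0.le]
    | m + 2, ih =>
      have hf : ∀ k ≤ m, X ^ 2 * ‖PowerSeries.coeff k (us A B)‖ ≤ X ^ k :=
        fun k hk => ih k (by omega)
      have h2 : ∀ k ≤ m, X ^ 2 * X ^ 2 * ‖PowerSeries.coeff k (us A B ^ 2)‖ ≤
          ((k : ℝ) + 1) * X ^ k := by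
        intro k hk
        rw [pow_two (us A B)]
        refine (BsBd_mul hX0.le (fun _ => 1) k (by positivity) (by positivity)
          (fun l hl => hf l (by omega)) (fun l hl => by rw [one_mul]; exact hf l (by omega))).trans ?_
        simp
      have h3 : X ^ 2 * (X ^ 2 * X ^ 2) * ‖PowerSeries.coeff m (us A B ^ 3)‖ ≤
          (((m : ℝ) + 1) * (m + 2) / 2) * X ^ m := by
        have e : us A B ^ 3 = us A B * us A B ^ 2 := by ring
        rw [e]
        refine (BsBd_mul hX0.le (fun k => (k : ℝ) + 1) m (by positivity) (by positivity)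
          hf h2).trans ?_
        have e2 : ∑ k ∈ Finset.range (m + 1), ((k : ℝ) + 1) = ((m : ℝ) + 1) * (m + 2) / 2 := by
          clear ih hf h2 e
          induction m with
          | zero => norm_num
          | succ m ih => rw [Finset.sum_range_succ, ih]; push_cast; ring
        rw [e2]
      have h2m := h2 m le_rfl
      have hrec := us_rec A B m
      have hn : (((m : ℝ) + 1) * (m + 2)) * ‖PowerSeries.coeff (m + 2) (us A B)‖ ≤
          ‖(if m = 0 then (2 : ℂ) else 0)‖ + X ^ 4 * ‖PowerSeries.coeff m (us A B ^ 2)‖ +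
            X ^ 4 * ‖PowerSeries.coeff m (us A B ^ 3)‖ := by
        have h5 : (((m : ℝ) + 1) * (m + 2)) * ‖PowerSeries.coeff (m + 2) (us A B)‖ =
            ‖((m : ℂ) + 1) * (m + 2) * PowerSeries.coeff (m + 2) (us A B)‖ := by
          rw [norm_mul]
          congr 1
          have : ((m : ℂ) + 1) * (m + 2) = (((m + 1) * (m + 2) : ℕ) : ℂ) := by push_cast; ring
          rw [this, Complex.norm_natCast]
          push_cast
          ring
        rw [h5, hrec]
        refine (norm_sub_le _ _).trans (add_le_add ((norm_sub_le _ _).trans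
          (add_le_add le_rfl ?_)) ?_)
        · rw [norm_mul]; exact mul_le_mul_of_nonneg_right hA (norm_nonneg _)
        · rw [norm_mul]; exact mul_le_mul_of_nonneg_right hB (norm_nonneg _)
      have h6 : X ^ 4 * ‖PowerSeries.coeff m (us A B ^ 3)‖ ≤
          X ^ 2 * (X ^ 2 * X ^ 2) * ‖PowerSeries.coeff m (us A B ^ 3)‖ := by
        refine mul_le_mul_of_nonneg_right ?_ (norm_nonneg _)
        have h7 : (1 : ℝ) ≤ X ^ 2 := one_le_pow₀ hX
        have h8 : 0 ≤ X ^ 4 := by positivity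
        nlinarith
      have h9 : X ^ 4 * ‖PowerSeries.coeff m (us A B ^ 2)‖ ≤ ((m : ℝ) + 1) * X ^ m := by
        have : X ^ 4 = X ^ 2 * X ^ 2 := by ring
        rw [this]; exact h2m
      have hXm : (1 : ℝ) ≤ X ^ m := one_le_pow₀ hX
      have hgoal : ‖PowerSeries.coeff (m + 2) (us A B)‖ ≤ X ^ m := by
        have hpos : (0 : ℝ) < ((m : ℝ) + 1) * (m + 2) := by positivity
        refine le_of_mul_le_mul_left ?_ hpos
        refine hn.trans ?_
        rcases Nat.eq_zero_or_pos m with rfl | hm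
        · have z2 : PowerSeries.coeff 0 (us A B ^ 2) = 0 := by
            rw [PowerSeries.coeff_zero_eq_constantCoeff_apply, map_pow,
              ← PowerSeries.coeff_zero_eq_constantCoeff_apply, us_zero]
            simp
          have z3 : PowerSeries.coeff 0 (us A B ^ 3) = 0 := by
            rw [PowerSeries.coeff_zero_eq_constantCoeff_apply, map_pow,
              ← PowerSeries.coeff_zero_eq_constantCoeff_apply, us_zero]
            simp
          rw [z2, z3]
          simp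
        · rw [if_neg hm.ne', norm_zero, zero_add]
          have hm1 : (1 : ℝ) ≤ m := by exact_mod_cast hm
          calc X ^ 4 * ‖PowerSeries.coeff m (us A B ^ 2)‖ +
                X ^ 4 * ‖PowerSeries.coeff m (us A B ^ 3)‖
              ≤ ((m : ℝ) + 1) * X ^ m + (((m : ℝ) + 1) * (m + 2) / 2) * X ^ m :=
                add_le_add h9 (h6.trans h3)
            _ = (((m : ℝ) + 1) * (m + 4) / 2) * X ^ m := by ring
            _ ≤ ((m : ℝ) + 1) * (m + 2) * X ^ m := by
                refine mul_le_mul_of_nonneg_right ?_ (by positivity)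
                nlinarith
      calc X ^ 2 * ‖PowerSeries.coeff (m + 2) (us A B)‖ ≤ X ^ 2 * X ^ m :=
            mul_le_mul_of_nonneg_left hgoal (by positivity)
        _ = X ^ (m + 2) := by ring

theorem us_bd {A B : ℂ} {X : ℝ} (hX : 1 ≤ X) (hA : ‖A‖ ≤ X ^ 4) (hB : ‖B‖ ≤ X ^ 4) (m : ℕ) :
    ‖PowerSeries.coeff (m + 2) (us A B)‖ ≤ X ^ m := by
  have h := BsBd_key hX hA hB (m + 2)
  have hX0 : 0 < X := by linarith
  have h2 : (0 : ℝ) < X ^ 2 := by positivity
  rw [pow_add, mul_comm (X ^ m)] at h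
  exact le_of_mul_le_mul_left h h2

theorem mul_bd {f g : PowerSeries ℂ} {Y : ℝ} (hY : 0 ≤ Y) (h0 : PowerSeries.coeff 0 f = 0)
    (h : ∀ k, ‖PowerSeries.coeff k f‖ ≤ Y ^ k) (hg : ∀ n, ‖PowerSeries.coeff n g‖ ≤ (2 * Y) ^ n)
    (n : ℕ) : ‖PowerSeries.coeff n (f * g)‖ ≤ (2 * Y) ^ n := by
  rw [PowerSeries.coeff_mul]
  cases n with
  | zero => simp [h0]
  | succ m =>
    rw [Finset.Nat.sum_antidiagonal_succ, h0, zero_mul, zero_add]
    calc ‖∑ p ∈ Finset.HasAntidiagonal.antidiagonal m, PowerSeries.coeff (p.1 + 1) f * PowerSeries.coeff p.2 g‖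
        ≤ ∑ p ∈ Finset.HasAntidiagonal.antidiagonal m, Y ^ (m + 1) * 2 ^ p.2 := by
          refine (norm_sum_le _ _).trans (Finset.sum_le_sum fun p hp => ?_)
          have hp' := Finset.HasAntidiagonal.mem_antidiagonal.1 hp
          rw [norm_mul]
          calc ‖PowerSeries.coeff (p.1 + 1) f‖ * ‖PowerSeries.coeff p.2 g‖
              ≤ Y ^ (p.1 + 1) * (2 * Y) ^ p.2 :=
                mul_le_mul (h _) (hg _) (norm_nonneg _) (pow_nonneg hY _)
            _ = Y ^ (m + 1) * 2 ^ p.2 := by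
                rw [mul_pow, ← hp']; ring
      _ = Y ^ (m + 1) * (2 ^ (m + 1) - 1) := by
          rw [← Finset.mul_sum]
          congr 1
          rw [Finset.Nat.sum_antidiagonal_eq_sum_range_succ_mk]
          have e1 : ∑ k ∈ Finset.range m.succ, (2 : ℝ) ^ (m - k) =
              ∑ k ∈ Finset.range (m + 1), (2 : ℝ) ^ k := by
            rw [← Finset.sum_range_reflect (fun k => (2 : ℝ) ^ k)]
            rfl
          have e2 := geom_sum_eq (x := (2 : ℝ)) (by norm_num) (m + 1)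
          rw [e1, e2]
          norm_num
      _ ≤ (2 * Y) ^ (m + 1) := by
          rw [mul_pow]
          have : 0 ≤ Y ^ (m + 1) := pow_nonneg hY _
          nlinarith

theorem BsBd_pow_bd {f g : PowerSeries ℂ} {Y : ℝ} (hY : 0 ≤ Y) (h0 : PowerSeries.coeff 0 f = 0)
    (h : ∀ k, ‖PowerSeries.coeff k f‖ ≤ Y ^ k) (hg : ∀ n, ‖PowerSeries.coeff n g‖ ≤ (2 * Y) ^ n)
    (i n : ℕ) : ‖PowerSeries.coeff n (f ^ i * g)‖ ≤ (2 * Y) ^ n := by
  induction i generalizing n with
  | zero => simpa using hg n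
  | succ i ih =>
    rw [pow_succ', mul_assoc]
    exact mul_bd hY h0 h ih n

theorem BsBd_map_rescale {K : Type*} [Field K] (σ : K →+* ℂ) (x : K) (f : PowerSeries K) :
    PowerSeries.map σ (PowerSeries.rescale x f) =
      PowerSeries.rescale (σ x) (PowerSeries.map σ f) := by
  ext n
  simp [PowerSeries.coeff_rescale]

theorem BsBd_resc {A B x : ℂ} {X Z : ℝ} (hX : 1 ≤ X) (hZ : 1 ≤ Z) (hA : ‖A‖ ≤ X ^ 4)
    (hB : ‖B‖ ≤ X ^ 4) (hx : ‖x‖ ≤ Z) (k : ℕ) :
    ‖PowerSeries.coeff k (PowerSeries.rescale x (us A B))‖ ≤ (X * Z) ^ k := by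
  rw [PowerSeries.coeff_rescale, norm_mul, norm_pow, mul_pow, mul_comm (X ^ k)]
  have h1 : ‖x‖ ^ k ≤ Z ^ k := pow_le_pow_left₀ (norm_nonneg _) hx k
  have h2 : ‖PowerSeries.coeff k (us A B)‖ ≤ X ^ k := by
    have h3 := BsBd_key hX hA hB k
    have h4 : (1 : ℝ) ≤ X ^ 2 := one_le_pow₀ hX
    have h5 := norm_nonneg (PowerSeries.coeff k (us A B))
    nlinarith
  exact mul_le_mul h1 h2 (norm_nonneg _) (by positivity)

theorem mon_bd {K : Type*} [Field K] [CharZero K] {D : D2 K} {X Z : ℝ} (h : Bdd D X Z)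
    (σ : K →+* ℂ) (i j n : ℕ) : ‖σ (PowerSeries.coeff n (mon D i j))‖ ≤ (2 * X * Z) ^ n := by
  have e1 : σ (PowerSeries.coeff n (mon D i j)) =
      PowerSeries.coeff n (PowerSeries.rescale (σ D.x₁) (us (σ D.A₁) (σ D.B₁)) ^ i *
        (PowerSeries.rescale (σ D.x₂) (us (σ D.A₂) (σ D.B₂)) ^ j * 1)) := by
    have e2 : PowerSeries.map σ (mon D i j) =
        PowerSeries.rescale (σ D.x₁) (us (σ D.A₁) (σ D.B₁)) ^ i *
        PowerSeries.rescale (σ D.x₂) (us (σ D.A₂) (σ D.B₂)) ^ j := by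
      unfold mon
      rw [map_mul (PowerSeries.map σ), map_pow (PowerSeries.map σ), map_pow (PowerSeries.map σ),
        BsBd_map_rescale, BsBd_map_rescale, us_map, us_map]
    rw [mul_one, ← e2, PowerSeries.coeff_map]
  have hX := h.hX
  have hZ := h.hZ
  have hY : (0 : ℝ) ≤ X * Z := by positivity
  have c0 : ∀ A B x : ℂ, PowerSeries.coeff 0 (PowerSeries.rescale x (us A B)) = 0 := by
    intro A B x
    rw [PowerSeries.coeff_rescale, us_zero, mul_zero]
  have hone : ∀ n, ‖PowerSeries.coeff n (1 : PowerSeries ℂ)‖ ≤ (2 * (X * Z)) ^ n := by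
    intro n
    rw [PowerSeries.coeff_one]
    split_ifs with hn
    · subst hn; simp
    · rw [norm_zero]; positivity
  rw [e1, mul_assoc 2 X Z]
  refine BsBd_pow_bd hY (c0 _ _ _) (BsBd_resc hX hZ (h.A₁ σ) (h.B₁ σ) (h.x₁ σ)) ?_ i n
  exact BsBd_pow_bd hY (c0 _ _ _) (BsBd_resc hX hZ (h.A₂ σ) (h.B₂ σ) (h.x₂ σ)) hone j

theorem gm_bd {K : Type*} [Field K] [CharZero K] {D : D2 K} {X Z : ℝ} (h : Bdd D X Z)
    (σ : K →+* ℂ) {L : ℕ} {c : ℕ → ℕ → ℤ} {Y : ℝ} (hc : ∀ i < L, ∀ j < L, |(c i j : ℝ)| ≤ Y)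
    (n : ℕ) : ‖σ (gm D L c n)‖ ≤ L ^ 2 * Y * (2 * X * Z) ^ n := by
  have hX := h.hX
  have hZ := h.hZ
  have hW : (0 : ℝ) ≤ (2 * X * Z) ^ n := by positivity
  have hterm : ∀ i < L, ∀ j < L,
      ‖σ ((c i j : K) * PowerSeries.coeff n (mon D i j))‖ ≤ Y * (2 * X * Z) ^ n := by
    intro i hi j hj
    rw [map_mul, map_intCast, norm_mul, Complex.norm_intCast]
    exact mul_le_mul (hc i hi j hj) (mon_bd h σ i j n) (norm_nonneg _)
      ((abs_nonneg _).trans (hc i hi j hj))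
  unfold gm
  rw [map_sum]
  refine (norm_sum_le _ _).trans ?_
  have hrow : ∀ i ∈ Finset.range L, ‖σ (∑ j ∈ Finset.range L,
      (c i j : K) * PowerSeries.coeff n (mon D i j))‖ ≤ L * (Y * (2 * X * Z) ^ n) := by
    intro i hi
    rw [map_sum]
    refine (norm_sum_le _ _).trans ?_
    refine (Finset.sum_le_sum fun j hj =>
      hterm i (Finset.mem_range.1 hi) j (Finset.mem_range.1 hj)).trans ?_
    rw [Finset.sum_const, Finset.card_range, nsmul_eq_mul]
  refine (Finset.sum_le_sum hrow).trans ?_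
  rw [Finset.sum_const, Finset.card_range, nsmul_eq_mul]
  apply le_of_eq
  ring

end Pool.Agent.LGO.Bs
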