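import Mathlib
import Pool.Agent.LGO.A.BsAn
import Pool.Agent.LGO.A.BsBd

/-!
# LGO base: `u = 1 / ℘` on a disc of explicit radius

Let `‖(3/2) g₂‖, ‖2 g₃‖ ≤ X ^ 4`, `X ≥ 1`, and `V(z) = ∑ coeff m U z ^ m`, `U = us ..` (convergent for
`‖z‖ < 1 / X` by `us_bd`: the coefficients of index `m ≥ 2` are at most `X ^ (m - 2)`, the first two
are zero).  `V = iu` near `0` (`iu_tay`: an analytic function is the sum of its Taylor series near
`0`).  Claim: `V = iu` on the whole disc.  The function `V ℘ - 1` is analytic on the connected set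
disc minus lattice (a countable closed set is removed: `Set.Countable.isPreconnected_compl..`, cf.
`EllSch.isPreconnected_off`; or: the disc minus a finite set) and vanishes near `0`, so it vanishes
identically: `℘ ≠ 0` and `V = 1 / ℘ = iu` at all points of the disc off the lattice.  At a lattice
point `l ≠ 0` of the disc, `V(l) = lim 1 / ℘ = 0` (`EllSch.Basic.tendsto_norm_wp`, periodicity) and
`iu l = iu 0 = 0` (`Mul.iu_add_lat`, `Mul.iu_zero`).

* `disc_sum`: this claim.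
* `disc_diff`, `disc_le`: `‖V z‖ ≤ ∑_(m ≥ 2) X ^ (m - 2) ‖z‖ ^ m = ‖z‖² / (1 - X ‖z‖) ≤ 2 ‖z‖²`.
* `disc_ne`: `‖V z - z²‖ ≤ X ‖z‖³ / (1 - X ‖z‖) < ‖z‖²` for `0 < ‖z‖ ≤ 1 / (4 X)` (`coeff 2 U = 1`).
* `disc_lip`: `V(z) - V(z') = (z - z') ∑_m coeff m U ∑_(i + j = m - 1) z ^ i z' ^ j`, at most
  `‖z - z'‖ ∑_(m ≥ 2) m X ^ (m - 2) (1 / (4 X)) ^ (m - 1) ≤ ‖z - z'‖` (or the mean value inequality).
* `lat_lower`: a lattice vector `l ≠ 0` with `‖l‖ ≤ 1 / (4 X)` contradicts `disc_ne`, `iu l = iu 0 = 0`.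
-/

namespace Pool.Agent.LGO.Bs

open Pool.Agent.EllSch Pool.Agent.Schn NumberField Filter Topology

variable {a b : ℂ} {X : ℝ}

/-- the coefficients of `U` -/
private noncomputable def BsDisc_c (a b : ℂ) (m : ℕ) : ℂ :=
  PowerSeries.coeff m (us (3 / 2 * G2 a b) (2 * G3 a b))

private lemma BsDisc_c0 (a b : ℂ) : BsDisc_c a b 0 = 0 := us_zero _ _

private lemma BsDisc_c1 (a b : ℂ) : BsDisc_c a b 1 = 0 := us_one _ _

private lemma BsDisc_c2 (a b : ℂ) : BsDisc_c a b 2 = 1 := by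
  have h := us_rec (3 / 2 * G2 a b) (2 * G3 a b) 0
  have z2 : PowerSeries.coeff 0 (us (3 / 2 * G2 a b) (2 * G3 a b) ^ 2) = 0 := by
    rw [PowerSeries.coeff_zero_eq_constantCoeff_apply, map_pow,
      ← PowerSeries.coeff_zero_eq_constantCoeff_apply, us_zero]
    simp
  have z3 : PowerSeries.coeff 0 (us (3 / 2 * G2 a b) (2 * G3 a b) ^ 3) = 0 := by
    rw [PowerSeries.coeff_zero_eq_constantCoeff_apply, map_pow,
      ← PowerSeries.coeff_zero_eq_constantCoeff_apply, us_zero]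
    simp
  rw [z2, z3] at h
  simp only [Nat.cast_zero, zero_add, one_mul, if_true, mul_zero, sub_zero] at h
  have h2 : (2 : ℂ) ≠ 0 := two_ne_zero
  have h3 : (2 : ℂ) * BsDisc_c a b 2 = 2 * 1 := by
    rw [mul_one]
    exact h
  exact mul_left_cancel₀ h2 h3

private lemma BsDisc_cbd (hX : 1 ≤ X) (hA : ‖3 / 2 * G2 a b‖ ≤ X ^ 4)
    (hB : ‖2 * G3 a b‖ ≤ X ^ 4) (m : ℕ) : ‖BsDisc_c a b m‖ ≤ X ^ m := by
  rcases m with _ | _ | m
  · rw [BsDisc_c0, norm_zero]; positivity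
  · rw [BsDisc_c1, norm_zero]; positivity
  · refine (us_bd hX hA hB m).trans ?_
    exact pow_le_pow_right₀ hX (by omega)

/-- the power series `U` -/
private noncomputable def BsDisc_p (a b : ℂ) : FormalMultilinearSeries ℂ ℂ ℂ :=
  FormalMultilinearSeries.ofScalars ℂ (BsDisc_c a b)

private lemma BsDisc_p_apply (a b z : ℂ) (n : ℕ) :
    (BsDisc_p a b n fun _ => z) = BsDisc_c a b n * z ^ n := by
  rw [BsDisc_p, FormalMultilinearSeries.ofScalars_apply_eq, smul_eq_mul]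

private lemma BsDisc_p_norm (a b : ℂ) (n : ℕ) : ‖BsDisc_p a b n‖ = ‖BsDisc_c a b n‖ := by
  rw [BsDisc_p, FormalMultilinearSeries.ofScalars_norm]

private lemma BsDisc_radius (hX : 1 ≤ X) (hA : ‖3 / 2 * G2 a b‖ ≤ X ^ 4)
    (hB : ‖2 * G3 a b‖ ≤ X ^ 4) : ENNReal.ofReal (1 / X) ≤ (BsDisc_p a b).radius := by
  have hX0 : 0 < X := by linarith
  rw [ENNReal.ofReal]
  refine FormalMultilinearSeries.le_radius_of_bound _ 1 fun n => ?_
  rw [BsDisc_p_norm, Real.coe_toNNReal _ (by positivity)]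
  have h := BsDisc_cbd hX hA hB n
  calc ‖BsDisc_c a b n‖ * (1 / X) ^ n ≤ X ^ n * (1 / X) ^ n :=
        mul_le_mul_of_nonneg_right h (by positivity)
    _ = 1 := by
        rw [← mul_pow, mul_one_div_cancel hX0.ne', one_pow]

private lemma BsDisc_ball (hX : 1 ≤ X) (hA : ‖3 / 2 * G2 a b‖ ≤ X ^ 4)
    (hB : ‖2 * G3 a b‖ ≤ X ^ 4) {z : ℂ} (hz : ‖z‖ < 1 / X) :
    z ∈ Metric.eball (0 : ℂ) (BsDisc_p a b).radius := by
  refine Metric.eball_subset_eball (BsDisc_radius hX hA hB) ?_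
  rw [Metric.eball_ofReal]
  simpa using hz

private lemma BsDisc_pos (hX : 1 ≤ X) (hA : ‖3 / 2 * G2 a b‖ ≤ X ^ 4)
    (hB : ‖2 * G3 a b‖ ≤ X ^ 4) : 0 < (BsDisc_p a b).radius := by
  have hX0 : 0 < X := by linarith
  refine lt_of_lt_of_le ?_ (BsDisc_radius hX hA hB)
  rw [ENNReal.ofReal_pos]
  positivity

private lemma BsDisc_hasSum (hX : 1 ≤ X) (hA : ‖3 / 2 * G2 a b‖ ≤ X ^ 4)
    (hB : ‖2 * G3 a b‖ ≤ X ^ 4) {z : ℂ} (hz : ‖z‖ < 1 / X) :
    HasSum (fun m => BsDisc_c a b m * z ^ m) ((BsDisc_p a b).sum z) := by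
  have h := (BsDisc_p a b).hasSum (BsDisc_ball hX hA hB hz)
  simpa only [BsDisc_p_apply] using h

private lemma BsDisc_an (hX : 1 ≤ X) (hA : ‖3 / 2 * G2 a b‖ ≤ X ^ 4)
    (hB : ‖2 * G3 a b‖ ≤ X ^ 4) {z : ℂ} (hz : ‖z‖ < 1 / X) :
    AnalyticAt ℂ (BsDisc_p a b).sum z := by
  have h := (BsDisc_p a b).hasFPowerSeriesOnBall (BsDisc_pos hX hA hB)
  exact h.analyticAt_of_mem (BsDisc_ball hX hA hB hz)

/-- near `0` the series is `u` -/
private lemma BsDisc_near (h : Ind a b) (hX : 1 ≤ X) (hA : ‖3 / 2 * G2 a b‖ ≤ X ^ 4)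
    (hB : ‖2 * G3 a b‖ ≤ X ^ 4) :
    (BsDisc_p a b).sum =ᶠ[𝓝 0] Mul.iu a b := by
  have h1 := (Mul.analyticAt_iu_zero h).hasFPowerSeriesAt
  have h2 : (fun n : ℕ => iteratedDeriv n (Mul.iu a b) 0 / (n.factorial : ℂ)) =
      BsDisc_c a b := by
    funext n
    rw [BsDisc_c, ← iu_tay h, tay, PowerSeries.coeff_mk]
  rw [h2] at h1
  have h3 := (BsDisc_p a b).hasFPowerSeriesOnBall (BsDisc_pos hX hA hB)
  have h4 : HasFPowerSeriesAt (Mul.iu a b) (BsDisc_p a b) 0 := h1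
  have e1 := h3.hasFPowerSeriesAt.eventually_hasSum
  have e2 := h4.eventually_hasSum
  filter_upwards [e1, e2] with z hz1 hz2
  have := hz1.unique hz2
  simpa using this

/-- the disc without the lattice is preconnected -/
private lemma BsDisc_preconn {r : ℝ} (hr : 0 < r) :
    IsPreconnected (Metric.ball (0 : ℂ) r ∩ {z | Off a b z}) := by
  have hc : {w : ℂ | ¬ Off a b (OpenPartialHomeomorph.univBall (0 : ℂ) r w)}.Countable := by
    have h1 : (Set.range fun x : ℤ × ℤ => lat a b x).Countable := Set.countable_range _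
    have h2 : Set.InjOn (OpenPartialHomeomorph.univBall (0 : ℂ) r)
        {w : ℂ | ¬ Off a b (OpenPartialHomeomorph.univBall (0 : ℂ) r w)} := by
      refine (OpenPartialHomeomorph.univBall (0 : ℂ) r).injOn.mono ?_
      rw [OpenPartialHomeomorph.univBall_source]
      exact Set.subset_univ _
    refine Set.MapsTo.countable_of_injOn (t := Set.range fun x : ℤ × ℤ => lat a b x) ?_ h2 h1
    intro w hw
    obtain ⟨x, hx⟩ := (Basic.not_off_iff a b _).1 hw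
    exact ⟨x, hx.symm⟩
  have h3 := (hc.isConnected_compl_of_one_lt_rank (E := ℂ) (by
    rw [Complex.rank_real_complex]; exact_mod_cast (one_lt_two : (1 : ℕ) < 2))).isPreconnected
  have h4 := h3.image (OpenPartialHomeomorph.univBall (0 : ℂ) r)
    (OpenPartialHomeomorph.continuous_univBall (0 : ℂ) r).continuousOn
  have h5 : (OpenPartialHomeomorph.univBall (0 : ℂ) r) ''
      {w : ℂ | ¬ Off a b (OpenPartialHomeomorph.univBall (0 : ℂ) r w)}ᶜ =
      Metric.ball (0 : ℂ) r ∩ {z | Off a b z} := by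
    ext z
    constructor
    · rintro ⟨w, hw, rfl⟩
      refine ⟨?_, not_not.1 hw⟩
      rw [← OpenPartialHomeomorph.univBall_target (0 : ℂ) hr]
      exact (OpenPartialHomeomorph.univBall (0 : ℂ) r).map_source (by simp)
    · rintro ⟨hz1, hz2⟩
      rw [← OpenPartialHomeomorph.univBall_target (0 : ℂ) hr] at hz1
      refine ⟨(OpenPartialHomeomorph.univBall (0 : ℂ) r).symm z, ?_,
        (OpenPartialHomeomorph.univBall (0 : ℂ) r).right_inv hz1⟩
      intro hn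
      refine hn ?_
      rw [(OpenPartialHomeomorph.univBall (0 : ℂ) r).right_inv hz1]
      exact hz2
  rw [h5] at h4
  exact h4

/-- off the lattice the series times `℘` is `1` -/
private lemma BsDisc_mul (h : Ind a b) (hX : 1 ≤ X) (hA : ‖3 / 2 * G2 a b‖ ≤ X ^ 4)
    (hB : ‖2 * G3 a b‖ ≤ X ^ 4) {z : ℂ} (hz : ‖z‖ < 1 / X) (ho : Off a b z) :
    (BsDisc_p a b).sum z * wp a b z - 1 = 0 := by
  have hX0 : 0 < X := by linarith
  have hr : 0 < 1 / X := by positivity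
  have hwp : AnalyticOnNhd ℂ (wp a b) {z | Off a b z} := by
    refine DifferentiableOn.analyticOnNhd (fun u hu => ?_) (isOpen_off h)
    exact (Basic.differentiableAt_wp h hu).differentiableWithinAt
  have hF : AnalyticOnNhd ℂ (fun w => (BsDisc_p a b).sum w * wp a b w - 1)
      (Metric.ball (0 : ℂ) (1 / X) ∩ {z | Off a b z}) := by
    intro w hw
    have hw1 : ‖w‖ < 1 / X := by simpa using hw.1
    exact ((BsDisc_an hX hA hB hw1).mul (hwp w hw.2)).sub analyticAt_const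
  -- a point near `0` where the function vanishes identically
  have h1 : ∀ᶠ w in 𝓝 (0 : ℂ), (BsDisc_p a b).sum w = Mul.iu a b w := BsDisc_near h hX hA hB
  have h2 : ∀ᶠ w in 𝓝[≠] (0 : ℂ), ∀ᶠ w' in 𝓝 w, (BsDisc_p a b).sum w' = Mul.iu a b w' :=
    h1.eventually_nhds.filter_mono nhdsWithin_le_nhds
  have h3 := eventually_eventually_nhdsWithin.2 (Mul.MulIu_eventually_ne h)
  have h3' : ∀ᶠ w in 𝓝[≠] (0 : ℂ), ∀ᶠ w' in 𝓝 w, wp a b w' ≠ 0 := by
    filter_upwards [h3, self_mem_nhdsWithin] with w hw hw0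
    rwa [isOpen_compl_singleton.nhdsWithin_eq hw0] at hw
  have h4 := Basic.eventually_off h 0
  have h5 : ∀ᶠ w in 𝓝[≠] (0 : ℂ), w ∈ Metric.ball (0 : ℂ) (1 / X) :=
    nhdsWithin_le_nhds (Metric.ball_mem_nhds _ hr)
  obtain ⟨w, hw2, hw3, hw4, hw5⟩ := (h2.and (h3'.and (h4.and h5))).exists
  have h6 : (fun w => (BsDisc_p a b).sum w * wp a b w - 1) =ᶠ[𝓝 w] 0 := by
    filter_upwards [hw2, hw3] with w' e1 e2
    show (BsDisc_p a b).sum w' * wp a b w' - 1 = 0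
    rw [e1, Mul.iu, inv_mul_cancel₀ e2, sub_self]
  have h7 := hF.eqOn_zero_of_preconnected_of_eventuallyEq_zero (BsDisc_preconn hr) ⟨hw5, hw4⟩ h6
  have hz' : z ∈ Metric.ball (0 : ℂ) (1 / X) ∩ {z | Off a b z} := ⟨by simpa using hz, ho⟩
  exact h7 hz'

private lemma BsDisc_off (h : Ind a b) (hX : 1 ≤ X) (hA : ‖3 / 2 * G2 a b‖ ≤ X ^ 4)
    (hB : ‖2 * G3 a b‖ ≤ X ^ 4) {z : ℂ} (hz : ‖z‖ < 1 / X) (ho : Off a b z) :
    (BsDisc_p a b).sum z = Mul.iu a b z := by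
  have h1 := BsDisc_mul h hX hA hB hz ho
  rw [Mul.iu]
  exact eq_inv_of_mul_eq_one_left (sub_eq_zero.1 h1)

private lemma BsDisc_eq (h : Ind a b) (hX : 1 ≤ X) (hA : ‖3 / 2 * G2 a b‖ ≤ X ^ 4)
    (hB : ‖2 * G3 a b‖ ≤ X ^ 4) {z : ℂ} (hz : ‖z‖ < 1 / X) :
    (BsDisc_p a b).sum z = Mul.iu a b z := by
  by_cases ho : Off a b z
  · exact BsDisc_off h hX hA hB hz ho
  · obtain ⟨x, hx⟩ := (Basic.not_off_iff a b z).1 ho
    have hiu : Mul.iu a b z = 0 := by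
      rw [hx, ← zero_add (lat a b x), Mul.iu_add_lat h, Mul.iu_zero]
    rw [hiu]
    have t1 : Tendsto (BsDisc_p a b).sum (𝓝[≠] z) (𝓝 ((BsDisc_p a b).sum z)) :=
      ((BsDisc_an hX hA hB hz).continuousAt.tendsto).mono_left nhdsWithin_le_nhds
    have t2 : Tendsto (Mul.iu a b) (𝓝[≠] z) (𝓝 0) := by
      have t3 : Tendsto (fun w : ℂ => w - z) (𝓝[≠] z) (𝓝[≠] 0) := by
        refine tendsto_nhdsWithin_iff.2 ⟨?_, ?_⟩
        · have : Tendsto (fun w : ℂ => w - z) (𝓝 z) (𝓝 (z - z)) :=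
            (continuous_id.sub continuous_const).tendsto z
          rw [sub_self] at this
          exact this.mono_left nhdsWithin_le_nhds
        · filter_upwards [self_mem_nhdsWithin] with w hw
          exact sub_ne_zero.2 hw
      refine ((Mul.MulIu_tendsto_zero h).comp t3).congr fun w => ?_
      show Mul.iu a b (w - z) = Mul.iu a b w
      conv_rhs => rw [← sub_add_cancel w z]
      rw [hx, Mul.iu_add_lat h]
    have t4 : (BsDisc_p a b).sum =ᶠ[𝓝[≠] z] Mul.iu a b := by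
      have h5 : ∀ᶠ w in 𝓝[≠] z, ‖w‖ < 1 / X :=
        nhdsWithin_le_nhds ((isOpen_lt continuous_norm continuous_const).mem_nhds hz)
      filter_upwards [Basic.eventually_off h z, h5] with w hw1 hw2
      exact BsDisc_off h hX hA hB hw2 hw1
    exact tendsto_nhds_unique t1 (t2.congr' t4.symm)

theorem disc_sum (h : Ind a b) (hX : 1 ≤ X) (hA : ‖3 / 2 * G2 a b‖ ≤ X ^ 4)
    (hB : ‖2 * G3 a b‖ ≤ X ^ 4) {z : ℂ} (hz : ‖z‖ < 1 / X) :
    HasSum (fun m => PowerSeries.coeff m (us (3 / 2 * G2 a b) (2 * G3 a b)) * z ^ m)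
      (Mul.iu a b z) := by
  rw [← BsDisc_eq h hX hA hB hz]
  exact BsDisc_hasSum hX hA hB hz

theorem disc_diff (h : Ind a b) (hX : 1 ≤ X) (hA : ‖3 / 2 * G2 a b‖ ≤ X ^ 4)
    (hB : ‖2 * G3 a b‖ ≤ X ^ 4) :
    DifferentiableOn ℂ (Mul.iu a b) (Metric.ball 0 (1 / X)) := by
  have h1 : DifferentiableOn ℂ (BsDisc_p a b).sum (Metric.ball 0 (1 / X)) := by
    intro z hz
    have hz' : ‖z‖ < 1 / X := by simpa using hz
    exact (BsDisc_an hX hA hB hz').differentiableAt.differentiableWithinAt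
  refine h1.congr fun z hz => ?_
  have hz' : ‖z‖ < 1 / X := by simpa using hz
  exact (BsDisc_eq h hX hA hB hz').symm

/-- the remainder after the terms of index `< k`, `k ≥ 2` -/
private lemma BsDisc_rem (h : Ind a b) (hX : 1 ≤ X) (hA : ‖3 / 2 * G2 a b‖ ≤ X ^ 4)
    (hB : ‖2 * G3 a b‖ ≤ X ^ 4) {z : ℂ} (hz : ‖z‖ < 1 / X) (k : ℕ) :
    ‖Mul.iu a b z - ∑ m ∈ Finset.range (k + 2), BsDisc_c a b m * z ^ m‖ ≤
      X ^ k * ‖z‖ ^ (k + 2) * (1 - X * ‖z‖)⁻¹ := by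
  have hX0 : 0 < X := by linarith
  have hq : X * ‖z‖ < 1 := by
    rw [lt_div_iff₀ hX0] at hz
    linarith [mul_comm X ‖z‖]
  have h1 : HasSum (fun m => BsDisc_c a b m * z ^ m) (Mul.iu a b z) := disc_sum h hX hA hB hz
  have h2 := (hasSum_nat_add_iff' (k + 2)).2 h1
  have h3 : HasSum (fun n : ℕ => X ^ k * ‖z‖ ^ (k + 2) * (X * ‖z‖) ^ n)
      (X ^ k * ‖z‖ ^ (k + 2) * (1 - X * ‖z‖)⁻¹) :=
    (hasSum_geometric_of_lt_one (by positivity) hq).mul_left _
  have h4 := h2.norm_le_of_bounded h3 ?_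
  · exact h4
  · intro n
    have e : BsDisc_c a b (n + (k + 2)) = BsDisc_c a b (n + k + 2) := rfl
    have hb : ‖BsDisc_c a b (n + (k + 2))‖ ≤ X ^ (n + k) := by
      rw [e]; exact us_bd hX hA hB (n + k)
    rw [norm_mul, norm_pow]
    calc ‖BsDisc_c a b (n + (k + 2))‖ * ‖z‖ ^ (n + (k + 2))
        ≤ X ^ (n + k) * ‖z‖ ^ (n + (k + 2)) :=
          mul_le_mul_of_nonneg_right hb (by positivity)
      _ = X ^ k * ‖z‖ ^ (k + 2) * (X * ‖z‖) ^ n := by
          rw [mul_pow, pow_add, pow_add]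
          ring

theorem disc_le (h : Ind a b) (hX : 1 ≤ X) (hA : ‖3 / 2 * G2 a b‖ ≤ X ^ 4)
    (hB : ‖2 * G3 a b‖ ≤ X ^ 4) {z : ℂ} (hz : ‖z‖ ≤ 1 / (2 * X)) :
    ‖Mul.iu a b z‖ ≤ 2 * ‖z‖ ^ 2 := by
  have hX0 : 0 < X := by linarith
  have hz1 : ‖z‖ < 1 / X := by
    refine hz.trans_lt ?_
    rw [one_div_lt_one_div (by positivity) hX0]
    linarith
  have hq : X * ‖z‖ ≤ 1 / 2 := by
    rw [le_div_iff₀ (by positivity)] at hz
    nlinarith
  have h1 := BsDisc_rem h hX hA hB hz1 0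
  rw [Finset.sum_range_succ, Finset.sum_range_succ, Finset.sum_range_zero, BsDisc_c0, BsDisc_c1,
    zero_mul, zero_mul, add_zero, add_zero, sub_zero, pow_zero, one_mul, zero_add] at h1
  refine h1.trans ?_
  rw [mul_comm]
  refine mul_le_mul_of_nonneg_right ?_ (by positivity)
  rw [inv_le_comm₀ (by linarith) (by norm_num)]
  linarith

theorem disc_ne (h : Ind a b) (hX : 1 ≤ X) (hA : ‖3 / 2 * G2 a b‖ ≤ X ^ 4)
    (hB : ‖2 * G3 a b‖ ≤ X ^ 4) {z : ℂ} (hz0 : z ≠ 0) (hz : ‖z‖ ≤ 1 / (4 * X)) :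
    Mul.iu a b z ≠ 0 := by
  intro h0
  have hX0 : 0 < X := by linarith
  have hn : 0 < ‖z‖ := norm_pos_iff.2 hz0
  have hz1 : ‖z‖ < 1 / X := by
    refine hz.trans_lt ?_
    rw [one_div_lt_one_div (by positivity) hX0]
    linarith
  have hq : X * ‖z‖ ≤ 1 / 4 := by
    rw [le_div_iff₀ (by positivity)] at hz
    nlinarith
  have h1 := BsDisc_rem h hX hA hB hz1 1
  rw [Finset.sum_range_succ, Finset.sum_range_succ, Finset.sum_range_succ, Finset.sum_range_zero,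
    BsDisc_c0, BsDisc_c1, BsDisc_c2, zero_mul, zero_mul, add_zero, zero_add, zero_add, one_mul, h0,
    zero_sub, norm_neg, norm_pow, pow_one] at h1
  have h2 : (1 - X * ‖z‖)⁻¹ ≤ 2 := by
    rw [inv_le_comm₀ (by linarith) (by norm_num)]
    linarith
  have h3 : X * ‖z‖ ^ (1 + 2) * (1 - X * ‖z‖)⁻¹ ≤ X * ‖z‖ ^ (1 + 2) * 2 :=
    mul_le_mul_of_nonneg_left h2 (by positivity)
  have h4 : X * ‖z‖ ^ (1 + 2) * 2 = (X * ‖z‖ * 2) * ‖z‖ ^ 2 := by ring
  have h5 : (X * ‖z‖ * 2) * ‖z‖ ^ 2 ≤ (1 / 2) * ‖z‖ ^ 2 :=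
    mul_le_mul_of_nonneg_right (by linarith) (by positivity)
  have h6 : 0 < ‖z‖ ^ 2 := by positivity
  linarith

theorem disc_lip (h : Ind a b) (hX : 1 ≤ X) (hA : ‖3 / 2 * G2 a b‖ ≤ X ^ 4)
    (hB : ‖2 * G3 a b‖ ≤ X ^ 4) {z z' : ℂ} (hz : ‖z‖ ≤ 1 / (4 * X)) (hz' : ‖z'‖ ≤ 1 / (4 * X)) :
    ‖Mul.iu a b z - Mul.iu a b z'‖ ≤ 4 * ‖z - z'‖ := by
  have hX0 : 0 < X := by linarith
  have hr : 0 < 1 / (4 * X) := by positivity
  have hlt : 1 / (2 * X) < 1 / X := by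
    rw [one_div_lt_one_div (by positivity) hX0]
    linarith
  have hsum : 1 / (4 * X) + 1 / (4 * X) = 1 / (2 * X) := by
    field_simp
    norm_num
  have hd : ∀ w : ℂ, ‖w‖ < 1 / X → DifferentiableAt ℂ (Mul.iu a b) w := fun w hw =>
    (disc_diff h hX hA hB).differentiableAt (Metric.isOpen_ball.mem_nhds (by simpa using hw))
  have hcl : ∀ w ∈ Metric.closedBall (0 : ℂ) (1 / (4 * X)), ∀ y ∈ Metric.closedBall w (1 / (4 * X)),
      ‖y‖ ≤ 1 / (2 * X) := by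
    intro w hw y hy
    have hw' : ‖w‖ ≤ 1 / (4 * X) := by simpa using hw
    have hy' : ‖y - w‖ ≤ 1 / (4 * X) := by simpa [dist_eq_norm] using hy
    calc ‖y‖ = ‖(y - w) + w‖ := by rw [sub_add_cancel]
      _ ≤ ‖y - w‖ + ‖w‖ := norm_add_le _ _
      _ ≤ 1 / (2 * X) := by linarith
  have hderiv : ∀ w ∈ Metric.closedBall (0 : ℂ) (1 / (4 * X)), ‖deriv (Mul.iu a b) w‖ ≤ 4 := by
    intro w hw
    have h1 : DiffContOnCl ℂ (Mul.iu a b) (Metric.ball w (1 / (4 * X))) := by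
      refine DifferentiableOn.diffContOnCl fun y hy => ?_
      have hy' : y ∈ Metric.closedBall w (1 / (4 * X)) := Metric.closure_ball_subset_closedBall hy
      exact (hd y ((hcl w hw y hy').trans_lt hlt)).differentiableWithinAt
    have h2 : ∀ y ∈ Metric.sphere w (1 / (4 * X)), ‖Mul.iu a b y‖ ≤ 2 * (1 / (2 * X)) ^ 2 := by
      intro y hy
      have h3 := hcl w hw y (Metric.sphere_subset_closedBall hy)
      exact (disc_le h hX hA hB h3).trans (mul_le_mul_of_nonneg_left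
        (pow_le_pow_left₀ (norm_nonneg _) h3 2) (by norm_num))
    refine (Complex.norm_deriv_le_of_forall_mem_sphere_norm_le hr h1 h2).trans ?_
    have e : 2 * (1 / (2 * X)) ^ 2 / (1 / (4 * X)) = 2 / X := by
      field_simp
      norm_num
    rw [e, div_le_iff₀ hX0]
    linarith
  have hmem : ∀ w ∈ Metric.closedBall (0 : ℂ) (1 / (4 * X)), DifferentiableAt ℂ (Mul.iu a b) w := by
    intro w hw
    have hw' : ‖w‖ ≤ 1 / (4 * X) := by simpa using hw
    exact hd w (by linarith)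
  exact (convex_closedBall (0 : ℂ) (1 / (4 * X))).norm_image_sub_le_of_norm_deriv_le hmem hderiv
    (by simpa using hz') (by simpa using hz)

theorem lat_lower (h : Ind a b) (hX : 1 ≤ X) (hA : ‖3 / 2 * G2 a b‖ ≤ X ^ 4)
    (hB : ‖2 * G3 a b‖ ≤ X ^ 4) {x : ℤ × ℤ} (hx : x ≠ 0) : 1 / (4 * X) < ‖lat a b x‖ := by
  by_contra hc
  have hc' : ‖lat a b x‖ ≤ 1 / (4 * X) := not_lt.1 hc
  have hne : lat a b x ≠ 0 := by
    intro h0
    refine hx (lat_injective h ?_)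
    rw [h0]
    exact (Basic.lat_zero a b).symm
  refine disc_ne h hX hA hB hne hc' ?_
  rw [← zero_add (lat a b x), Mul.iu_add_lat h, Mul.iu_zero]

end Pool.Agent.LGO.Bs
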