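import Mathlib
import Pool.Agent.LGO.A.BsBd
import Pool.Agent.Schn.Lower

/-!
# LGO base: Liouville inequality

* `liou`: `Schn.liouville_aux` (`1 ≤ ‖φ β‖ * house β ^ (d - 1)`), with `house β ≤ exp Λ` (the house
  is the supremum of the absolute values of the conjugates: `NumberField.house`), and
  `(exp Λ) ^ (d - 1) ≤ exp (D Λ)` (`Λ ≥ 0`, `d ≤ D`).
* `gm_lower`: apply it to `β = n! gm D L c n` (`gm_int`), all conjugates of `β` are at most
  `n! L² Y (2 X Z)^n` by `gm_bd`.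
-/

namespace Pool.Agent.LGO.Bs

open Pool.Agent.EllSch Pool.Agent.Schn NumberField

theorem liou {K : Type*} [Field K] [NumberField K] (φ : K →+* ℂ) {β : 𝓞 K} (hβ : β ≠ 0)
    {D Λ : ℝ} (hD : (Module.finrank ℚ K : ℝ) ≤ D) (hΛ : 0 ≤ Λ)
    (h : ∀ σ : K →+* ℂ, ‖σ (β : K)‖ ≤ Real.exp Λ) : Real.exp (-(D * Λ)) ≤ ‖φ (β : K)‖ := by
  have hβ' : (β : K) ≠ 0 := by
    intro h0
    exact hβ (RingOfIntegers.coe_eq_zero_iff.mp h0)
  have h1 := liouville_aux φ β hβ'
  have h2 : house (β : K) ≤ Real.exp Λ := by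
    rw [house]
    exact (pi_norm_le_iff_of_nonneg (Real.exp_pos _).le).mpr h
  have h3 : house (β : K) ^ (Module.finrank ℚ K - 1) ≤ Real.exp (D * Λ) := by
    refine (pow_le_pow_left₀ (house_nonneg _) h2 _).trans ?_
    rw [← Real.exp_nat_mul]
    refine Real.exp_le_exp.mpr (mul_le_mul_of_nonneg_right ?_ hΛ)
    refine le_trans ?_ hD
    exact_mod_cast Nat.sub_le _ _
  rw [Real.exp_neg, inv_eq_one_div, div_le_iff₀ (Real.exp_pos _)]
  exact h1.trans (mul_le_mul_of_nonneg_left h3 (norm_nonneg _))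

theorem gm_lower {K : Type*} [Field K] [NumberField K] (φ : K →+* ℂ) {D : D2 K} {X Z : ℝ}
    (h : Bdd D X Z) {L : ℕ} {c : ℕ → ℕ → ℤ} {Y : ℝ} (hY : 1 ≤ Y)
    (hc : ∀ i < L, ∀ j < L, |(c i j : ℝ)| ≤ Y) {n : ℕ} (hn : gm D L c n ≠ 0) {d : ℝ}
    (hd : (Module.finrank ℚ K : ℝ) ≤ d) :
    Real.exp (-((d + 1) * Real.log (n.factorial * (L ^ 2 * Y * (2 * X * Z) ^ n)))) ≤
      ‖φ (gm D L c n)‖ := by
  have hL : 1 ≤ L := by
    rcases Nat.eq_zero_or_pos L with h0 | h0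
    · exfalso
      apply hn
      rw [h0, gm]
      simp
    · exact h0
  have hLR : (1 : ℝ) ≤ (L : ℝ) ^ 2 := one_le_pow₀ (by exact_mod_cast hL)
  have hXZ : (1 : ℝ) ≤ 2 * X * Z := by
    have h1 := h.hX
    have h2 := h.hZ
    nlinarith
  have hR : (1 : ℝ) ≤ (L : ℝ) ^ 2 * Y * (2 * X * Z) ^ n :=
    one_le_mul_of_one_le_of_one_le (one_le_mul_of_one_le_of_one_le hLR hY) (one_le_pow₀ hXZ)
  have hfac : (1 : ℝ) ≤ (n.factorial : ℝ) := by exact_mod_cast n.factorial_pos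
  set R : ℝ := (L : ℝ) ^ 2 * Y * (2 * X * Z) ^ n with hRdef
  have hQ1 : (1 : ℝ) ≤ n.factorial * R := one_le_mul_of_one_le_of_one_le hfac hR
  have hQ0 : (0 : ℝ) < n.factorial * R := by linarith
  obtain ⟨β, hβ⟩ := gm_int D L c n
  have hβ0 : β ≠ 0 := by
    intro h0
    rw [h0, RingOfIntegers.coe_eq_algebraMap, map_zero] at hβ
    have h1 : (n.factorial : K) ≠ 0 := by exact_mod_cast n.factorial_ne_zero
    exact (mul_ne_zero h1 hn) hβ.symm
  have hconj : ∀ σ : K →+* ℂ, ‖σ (β : K)‖ ≤ Real.exp (Real.log (n.factorial * R)) := by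
    intro σ
    rw [Real.exp_log hQ0, hβ, map_mul, map_natCast, norm_mul, Complex.norm_natCast]
    exact mul_le_mul_of_nonneg_left (gm_bd h σ hc n) (by positivity)
  have h1 := liou φ hβ0 hd (Real.log_nonneg hQ1) hconj
  rw [hβ, map_mul, map_natCast, norm_mul, Complex.norm_natCast] at h1
  have h2 : (n.factorial : ℝ) ≤ n.factorial * R := by nlinarith
  have h3 : Real.exp (-(d * Real.log (n.factorial * R))) ≤
      (n.factorial * R) * ‖φ (gm D L c n)‖ :=
    h1.trans (mul_le_mul_of_nonneg_right h2 (norm_nonneg _))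
  have h4 : Real.exp (-((d + 1) * Real.log (n.factorial * R))) =
      Real.exp (-(d * Real.log (n.factorial * R))) / (n.factorial * R) := by
    rw [add_mul, one_mul, neg_add, Real.exp_add, Real.exp_neg (Real.log _), Real.exp_log hQ0]
    rfl
  rw [h4, div_le_iff₀ hQ0, mul_comm ‖φ (gm D L c n)‖]
  exact h3

end Pool.Agent.LGO.Bs
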