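import Mathlib
import Pool.Agent.LGO.Defs
import Pool.Agent.LGO.A.MulDefs

/-!
# LGO (A): no complex multiplication and `ξ` irrational give lattices `ξ Λ`, `Λ` which are not
commensurable

If `n ξ w = m₁ w + m₂ w τ` and `n ξ w τ = m₃ w + m₄ w τ` with `n > 0`, then
`(m₁ + m₂ τ) τ = m₃ + m₄ τ`, so `m₂ = 0` (`NonCM` with `(m₂, m₁ - m₄, -m₃)`), and `ξ = m₁ / n`.
-/

namespace Pool.Agent.LGO.Mul

open Pool.Agent.EllSch

theorem not_comm {w τ ξ : ℂ} (hw : w ≠ 0) (hτ : NonCM τ) (hξ : ∀ q : ℚ, ξ ≠ q) :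
    ¬ Comm w (w * τ) w (w * τ) ξ := by
  rintro ⟨n, hn, h⟩
  obtain ⟨y, hy⟩ := h (1, 0)
  obtain ⟨z, hz⟩ := h (0, 1)
  simp only [lat] at hy hz
  push_cast at hy hz
  have e1 : (n : ℂ) * ξ = y.1 + y.2 * τ := by
    refine mul_left_cancel₀ hw ?_
    linear_combination hy
  have e2 : (n : ℂ) * ξ * τ = z.1 + z.2 * τ := by
    refine mul_left_cancel₀ hw ?_
    linear_combination hz
  have e3 : ((y.2 : ℤ) : ℂ) * τ ^ 2 + ((y.1 - z.2 : ℤ) : ℂ) * τ + ((-z.1 : ℤ) : ℂ) = 0 := by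
    push_cast
    linear_combination e2 - τ * e1
  obtain ⟨h1, -, -⟩ := hτ _ _ _ e3
  rw [h1] at e1
  have hn' : (n : ℂ) ≠ 0 := by exact_mod_cast hn.ne'
  refine hξ ((y.1 : ℚ) / n) ?_
  push_cast
  rw [eq_div_iff hn']
  push_cast at e1
  linear_combination e1

theorem ind_of_im {w τ : ℂ} (hw : w ≠ 0) (hτ : 0 < τ.im) : Ind w (w * τ) := by
  have h1 : w.re * (w * τ).im - w.im * (w * τ).re = Complex.normSq w * τ.im := by
    rw [Complex.mul_im, Complex.mul_re, Complex.normSq_apply]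
    ring
  unfold Ind
  rw [h1]
  exact mul_ne_zero (by rwa [Ne, Complex.normSq_eq_zero]) hτ.ne'

end Pool.Agent.LGO.Mul
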