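import Mathlib
import Pool.Agent.LGO.EngDefs
import Pool.Agent.LGO.A.NotComm
import Pool.Agent.LGO.A.BsDisc
import Pool.Agent.LGO.A.BsLi
import Pool.Agent.EllSch.Cusp

/-!
# LGO base: curves with integral coefficients, sizes of the periods, series of `u`

`Cu K H t w τ`: `(3/2) G2 w (w τ)` and `2 G3 w (w τ)` are integral elements of `K`, all of whose
conjugates are at most `(exp H)^4`; `Im τ ≥ t`; `τ` is NOT reduced.

* `cu_ind`: `Ind w (w τ)`, this is `Mul.ind_of_im` (`NotComm.lean`).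
* `cu_X`: the hypotheses of `BsDisc` with `X = exp H` (`σ` = the inclusion of `K`).
* `cu_lower`: `lat_lower` with `X = exp H`, `1 / (4 exp H) ≥ exp(-(H + 2))`.
* `cu_upper`: let `μ = min 1 t`.  Replacing `τ` by `τ + k` (`k` an integer) does not change the
  lattice (`EllSch.G2_change`, `G3_change`), so let `|Re τ| ≤ 1/2`.  Then
  `‖m + n τ‖ ≥ (μ / 2) max(|m|, |n|)` (`|m| ≤ |n|`: `≥ |n| Im τ`; otherwise `≥ |m| - |n|/2`).
  `G2 ≠ 0` or `G3 ≠ 0` (`EllSch.Basic.disc_ne_zero`).  If `G2 ≠ 0`: by Liouville (`liou` for the ring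
  of integers of `K`, with the inclusion as the place) `‖(3/2) G2‖ ≥ exp(- 4 D H)`; and
  `G2 w (w τ) = G2 1 τ / w^4` (`EllSch.G2_smul`), `‖G2 1 τ‖ ≤ 60 ∑_(x ≠ 0) 1 / ‖lat 1 τ x‖^4
  ≤ C₀ / μ^4`; so `‖w‖^4 ≤ C₀ exp(4 D H) / μ^4`.  The same with `G3` and `w^6`
  (`exp(4 D H / 6) ≤ exp(D H)`).
* `cu_ser`: `U = us a b` in `K⟦X⟧` with `a = (3/2) G2`, `b = 2 G3`; integrality as in `us_int`
  (with `x = 1`), sizes from `us_bd` at every embedding (`us_map`), `iu_tay`.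
* `cur_den`: `ν = 2 n₂ n₃` with the denominators `n₂, n₃` of `G2`, `G3`; for `ν ∣ c` the numbers
  `c^4 (3/2) G2` and `c^6 2 G3` are integral with conjugates at most `exp(4 E) (3/2) exp B`,
  `exp(6 E) 2 exp B`, both `≤ exp(4 (B + 2 E))`; `EllSch.G2_smul` with the factor `1 / c`.
* `mp_scale`: `x ∈ Lt (w / c) τ ↔ c x ∈ Lt w τ`.
-/

namespace Pool.Agent.LGO.Bs

open Pool.Agent.EllSch Pool.Agent.Schn NumberField

/-- a lattice `ℤ w + ℤ w τ` with `Im τ ≥ t` whose invariants are integral elements of `K` -/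
structure Cu (K : IntermediateField ℚ ℂ) (H t : ℝ) (w τ : ℂ) : Prop where
  w0 : w ≠ 0
  im_pos : 0 < τ.im
  im : t ≤ τ.im
  g2 : ∃ a : K, IsIntegral ℤ a ∧ (a : ℂ) = 3 / 2 * G2 w (w * τ) ∧
    ∀ σ : K →+* ℂ, ‖σ a‖ ≤ Real.exp H ^ 4
  g3 : ∃ b : K, IsIntegral ℤ b ∧ (b : ℂ) = 2 * G3 w (w * τ) ∧
    ∀ σ : K →+* ℂ, ‖σ b‖ ≤ Real.exp H ^ 4

variable {K : IntermediateField ℚ ℂ} {H t : ℝ} {w τ : ℂ}

theorem cu_ind (h : Cu K H t w τ) : Ind w (w * τ) := Mul.ind_of_im h.w0 h.im_pos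

theorem cu_X (h : Cu K H t w τ) :
    ‖3 / 2 * G2 w (w * τ)‖ ≤ Real.exp H ^ 4 ∧ ‖2 * G3 w (w * τ)‖ ≤ Real.exp H ^ 4 := by
  obtain ⟨a, _, ha, ha'⟩ := h.g2
  obtain ⟨b, _, hb, hb'⟩ := h.g3
  exact ⟨by rw [← ha]; exact ha' (algebraMap K ℂ), by rw [← hb]; exact hb' (algebraMap K ℂ)⟩

private theorem BsCu_exp {H : ℝ} (hH : 1 ≤ H) : 2 ≤ Real.exp H := by
  have := Real.add_one_le_exp H
  linarith

theorem cu_lower (h : Cu K H t w τ) (hH : 0 ≤ H) {v : ℂ} (hv : v ∈ Lt w τ) (h0 : v ≠ 0) :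
    Real.exp (-(H + 2)) ≤ ‖v‖ := by
  obtain ⟨m, n, hmn⟩ := hv
  have hl0 : lat w (w * τ) (m, n) = v := by
    rw [hmn]
    rfl
  have hx0 : ((m, n) : ℤ × ℤ) ≠ 0 := by
    intro hx
    apply h0
    rw [← hl0, hx]
    simp [lat]
  obtain ⟨hA, hB⟩ := cu_X h
  have hl := lat_lower (cu_ind h) (Real.one_le_exp hH) hA hB hx0
  rw [hl0] at hl
  refine le_trans ?_ hl.le
  have h4 := Real.exp_pos H
  rw [le_div_iff₀ (by positivity), Real.exp_neg, inv_mul_le_iff₀ (Real.exp_pos _), mul_one,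
    Real.exp_add]
  have h5 : (4 : ℝ) ≤ Real.exp 2 := by
    have h6 : (2 : ℝ) ≤ Real.exp 1 := BsCu_exp le_rfl
    have h7 : Real.exp 2 = Real.exp 1 * Real.exp 1 := by rw [← Real.exp_add]; norm_num
    rw [h7]
    nlinarith
  rw [mul_comm]
  exact mul_le_mul_of_nonneg_left h5 h4.le

private theorem BsCu_norm {τ : ℂ} {μ : ℝ} (hμ1 : μ ≤ 1) (hμ : μ ≤ τ.im)
    (hi : 0 < τ.im) (hr : |τ.re| ≤ 1 / 2) (x : ℤ × ℤ) : μ / 2 * ‖x‖ ≤ ‖lat 1 τ x‖ := by
  obtain ⟨m, n⟩ := x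
  rw [Prod.norm_def, Int.norm_eq_abs, Int.norm_eq_abs]
  have hre : (lat 1 τ (m, n)).re = m + n * τ.re := by simp [lat]
  have him' : (lat 1 τ (m, n)).im = n * τ.im := by simp [lat]
  rcases le_total |(m : ℝ)| |(n : ℝ)| with hc | hc
  · have h1 := Complex.abs_im_le_norm (lat 1 τ (m, n))
    rw [him', abs_mul, abs_of_pos hi] at h1
    rw [max_eq_right hc]
    have h2 : μ / 2 * |(n : ℝ)| ≤ τ.im * |(n : ℝ)| :=
      mul_le_mul_of_nonneg_right (by linarith) (abs_nonneg _)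
    linarith [mul_comm τ.im |(n : ℝ)|]
  · have h1 := Complex.abs_re_le_norm (lat 1 τ (m, n))
    rw [hre] at h1
    have h2 : |(m : ℝ)| - |(n : ℝ)| * |τ.re| ≤ |(m : ℝ) + n * τ.re| := by
      rw [← abs_mul]
      have h5 := abs_sub_abs_le_abs_sub (m : ℝ) (-(n * τ.re))
      rwa [abs_neg, sub_neg_eq_add] at h5
    rw [max_eq_left hc]
    have h3 : |(n : ℝ)| * |τ.re| ≤ |(m : ℝ)| * (1 / 2) :=
      mul_le_mul hc hr (abs_nonneg _) (abs_nonneg _)
    have h4 : μ / 2 * |(m : ℝ)| ≤ 1 / 2 * |(m : ℝ)| :=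
      mul_le_mul_of_nonneg_right (by linarith) (abs_nonneg _)
    linarith

private theorem BsCu_one_le {x : ℤ × ℤ} (hx : x ≠ 0) : 1 ≤ ‖x‖ := by
  obtain ⟨m, n⟩ := x
  rw [Prod.norm_def, Int.norm_eq_abs, Int.norm_eq_abs]
  by_cases hm : m = 0
  · have hn : n ≠ 0 := by
      rintro rfl
      exact hx (by rw [hm]; rfl)
    exact le_max_of_le_right (by exact_mod_cast Int.one_le_abs hn)
  · exact le_max_of_le_left (by exact_mod_cast Int.one_le_abs hm)

private theorem BsCu_sum {τ : ℂ} {μ : ℝ} (h0 : 0 < μ) (hμ1 : μ ≤ 1) (hμ : μ ≤ τ.im)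
    (hr : |τ.re| ≤ 1 / 2) (k : ℕ) (hk : 3 ≤ k) :
    ‖∑' x : ℤ × ℤ, 1 / lat 1 τ x ^ k‖ ≤ (2 / μ) ^ k * ∑' x : ℤ × ℤ, 1 / ‖x‖ ^ 3 := by
  rw [← tsum_mul_left]
  refine tsum_of_norm_bounded (Cusp.summable_norm_cube.mul_left _).hasSum fun x => ?_
  by_cases hx : x = 0
  · subst hx
    have h1 : lat 1 τ (0 : ℤ × ℤ) = 0 := by simp [lat]
    rw [h1, zero_pow (by omega), div_zero, norm_zero]
    positivity
  · have h1 := BsCu_one_le hx
    have h2 := BsCu_norm hμ1 hμ (h0.trans_le hμ) hr x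
    rw [norm_div, norm_one, norm_pow]
    have h3 : 0 < μ / 2 * ‖x‖ := mul_pos (by linarith) (by linarith)
    calc 1 / ‖lat 1 τ x‖ ^ k ≤ 1 / (μ / 2 * ‖x‖) ^ k :=
          one_div_le_one_div_of_le (by positivity) (pow_le_pow_left₀ h3.le h2 k)
      _ = (2 / μ) ^ k * (1 / ‖x‖ ^ k) := by
          rw [mul_pow, div_pow, div_pow, one_div, mul_inv, inv_div, one_div]
      _ ≤ (2 / μ) ^ k * (1 / ‖x‖ ^ 3) := by
          refine mul_le_mul_of_nonneg_left ?_ (by positivity)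
          exact one_div_le_one_div_of_le (by positivity) (pow_le_pow_right₀ h1 hk)

/-- replacing `τ` by `τ - k` -/
private theorem BsCu_shift (τ : ℂ) : ∃ τ' : ℂ, τ'.im = τ.im ∧ |τ'.re| ≤ 1 / 2 ∧
    G2 1 τ' = G2 1 τ ∧ G3 1 τ' = G3 1 τ := by
  have hd : (1 : ℤ) * 1 - 0 * (-round τ.re) = 1 := by ring
  have e2 := G2_change (a := 1) (b := τ) hd
  have e3 := G3_change (a := 1) (b := τ) hd
  have e1 : ((1 : ℤ) : ℂ) * 1 + ((0 : ℤ) : ℂ) * τ = 1 := by push_cast; ring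
  rw [e1] at e2 e3
  refine ⟨((-round τ.re : ℤ) : ℂ) * 1 + ((1 : ℤ) : ℂ) * τ, by simp, ?_, e2, e3⟩
  have h1 : (((-round τ.re : ℤ) : ℂ) * 1 + ((1 : ℤ) : ℂ) * τ).re = τ.re - round τ.re := by
    simp
    ring
  rw [h1]
  exact abs_sub_round τ.re

private theorem BsCu_G (τ : ℂ) {t : ℝ} (ht : 0 < t) (him : t ≤ τ.im) :
    ‖G2 1 τ‖ ≤ 60 * ((2 / min 1 t) ^ 4 * ∑' x : ℤ × ℤ, 1 / ‖x‖ ^ 3) ∧
    ‖G3 1 τ‖ ≤ 140 * ((2 / min 1 t) ^ 6 * ∑' x : ℤ × ℤ, 1 / ‖x‖ ^ 3) := by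
  obtain ⟨τ', h1, h2, h3, h4⟩ := BsCu_shift τ
  have hμ0 : 0 < min 1 t := lt_min one_pos ht
  have hμ1 : min 1 t ≤ 1 := min_le_left _ _
  have hμ : min 1 t ≤ τ'.im := (min_le_right _ _).trans (by rw [h1]; exact him)
  constructor
  · rw [← h3, G2, norm_mul, Complex.norm_ofNat]
    exact mul_le_mul_of_nonneg_left (BsCu_sum hμ0 hμ1 hμ h2 4 (by norm_num)) (by norm_num)
  · rw [← h4, G3, norm_mul, Complex.norm_ofNat]
    exact mul_le_mul_of_nonneg_left (BsCu_sum hμ0 hμ1 hμ h2 6 (by norm_num)) (by norm_num)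

private theorem BsCu_key {C E W μ : ℝ} {k : ℕ} (hC : 0 ≤ C) (hμ : 0 < μ)
    (hk : k ≠ 0) (h : (W * μ * Real.exp (-E)) ^ k ≤ C) :
    W ≤ (1 + C) * Real.exp E / μ := by
  have h1 : W * μ * Real.exp (-E) ≤ 1 + C := by
    rcases le_total (W * μ * Real.exp (-E)) 1 with h1 | h1
    · linarith
    · have h2 := le_self_pow₀ h1 hk
      linarith
  rw [le_div_iff₀ hμ]
  rw [Real.exp_neg, ← div_eq_mul_inv, div_le_iff₀ (Real.exp_pos _)] at h1
  exact h1

private theorem BsCu_liou (K : IntermediateField ℚ ℂ) [NumberField K] {D H : ℝ}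
    (hD : (Module.finrank ℚ K : ℝ) ≤ D) (hH : 0 ≤ H) {a : K} (ha : IsIntegral ℤ a) (h0 : a ≠ 0)
    (hb : ∀ σ : K →+* ℂ, ‖σ a‖ ≤ Real.exp H ^ 4) : Real.exp (-(4 * (D * H))) ≤ ‖(a : ℂ)‖ := by
  have hβ : (⟨a, ha⟩ : 𝓞 K) ≠ 0 := by
    intro h
    exact h0 (congrArg Subtype.val h)
  have e : Real.exp H ^ 4 = Real.exp (4 * H) := by rw [← Real.exp_nat_mul]; norm_num
  have h1 := liou (algebraMap K ℂ) hβ hD (Λ := 4 * H) (by linarith) (fun σ => by
    rw [← e]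
    exact hb σ)
  have e' : 4 * (D * H) = D * (4 * H) := by ring
  rw [e']
  exact h1

theorem cu_upper : ∃ C : ℝ, 1 ≤ C ∧ ∀ (K : IntermediateField ℚ ℂ) [FiniteDimensional ℚ K]
    (D H t : ℝ) (w τ : ℂ), (Module.finrank ℚ K : ℝ) ≤ D → 0 ≤ H → 0 < t → Cu K H t w τ →
    ‖w‖ ≤ C * Real.exp (D * H) / min 1 t := by
  set S : ℝ := ∑' x : ℤ × ℤ, 1 / ‖x‖ ^ 3 with hS
  have hS0 : 0 ≤ S := tsum_nonneg fun x => by positivity
  have hC0 : 0 ≤ 17920 * S := by positivity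
  refine ⟨1 + 17920 * S, by linarith, ?_⟩
  intro K _ D H t w τ hD hH ht h
  have : NumberField K := { }
  have hD0 : 0 ≤ D := le_trans (Nat.cast_nonneg _) hD
  have hDH : 0 ≤ D * H := mul_nonneg hD0 hH
  have hdisc := disc_ne_zero (cu_ind h)
  have hw := h.w0
  have hw0 : 0 < ‖w‖ := norm_pos_iff.2 hw
  have hμ0 : 0 < min 1 t := lt_min one_pos ht
  obtain ⟨hG2, hG3⟩ := BsCu_G τ ht h.im
  obtain ⟨a, hai, ha, hab⟩ := h.g2
  obtain ⟨b, hbi, hb, hbb⟩ := h.g3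
  rw [← hS] at hG2 hG3
  set μ : ℝ := min 1 t with hμdef
  have hμn := hμ0.ne'
  have e2 : G2 1 τ = G2 w (w * τ) * w ^ 4 := by
    have := G2_smul (a := 1) (b := τ) hw
    rw [mul_one] at this
    rw [this]
    field_simp
  have e3 : G3 1 τ = G3 w (w * τ) * w ^ 6 := by
    have := G3_smul (a := 1) (b := τ) hw
    rw [mul_one] at this
    rw [this]
    field_simp
  by_cases h2 : a = 0
  · have h3 : b ≠ 0 := by
      rintro rfl
      apply hdisc
      have ha0 : G2 w (w * τ) = 0 := by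
        have h5 : (0 : ℂ) = 3 / 2 * G2 w (w * τ) := by rw [← ha, h2]; rfl
        linear_combination (-2 / 3 : ℂ) * h5
      have hb0 : G3 w (w * τ) = 0 := by
        have h5 : (0 : ℂ) = 2 * G3 w (w * τ) := by rw [← hb]; rfl
        linear_combination (-1 / 2 : ℂ) * h5
      rw [ha0, hb0]
      ring
    refine BsCu_key hC0 hμ0 (k := 6) (by norm_num) ?_
    have h4 := BsCu_liou K hD hH hbi h3 hbb
    have h5 : Real.exp (-(D * H)) ^ 6 ≤ Real.exp (-(4 * (D * H))) := by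
      rw [← Real.exp_nat_mul]
      refine Real.exp_le_exp.2 ?_
      push_cast
      linarith
    have h6 : ‖w‖ ^ 6 * ‖(b : ℂ)‖ = 2 * ‖G3 1 τ‖ := by
      rw [e3, hb, norm_mul, norm_mul, norm_pow, Complex.norm_ofNat]
      ring
    calc (‖w‖ * μ * Real.exp (-(D * H))) ^ 6
        = μ ^ 6 * (‖w‖ ^ 6 * Real.exp (-(D * H)) ^ 6) := by ring
      _ ≤ μ ^ 6 * (‖w‖ ^ 6 * ‖(b : ℂ)‖) := by
          refine mul_le_mul_of_nonneg_left ?_ (by positivity)
          exact mul_le_mul_of_nonneg_left (h5.trans h4) (by positivity)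
      _ = μ ^ 6 * (2 * ‖G3 1 τ‖) := by rw [h6]
      _ ≤ μ ^ 6 * (2 * (140 * ((2 / μ) ^ 6 * S))) := by
          refine mul_le_mul_of_nonneg_left ?_ (by positivity)
          exact mul_le_mul_of_nonneg_left hG3 (by norm_num)
      _ = 17920 * S := by
          field_simp
          ring
  · refine BsCu_key hC0 hμ0 (k := 4) (by norm_num) ?_
    have h4 := BsCu_liou K hD hH hai h2 hab
    have h5 : Real.exp (-(D * H)) ^ 4 ≤ Real.exp (-(4 * (D * H))) := by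
      rw [← Real.exp_nat_mul]
      refine Real.exp_le_exp.2 ?_
      push_cast
      linarith
    have h6 : ‖w‖ ^ 4 * ‖(a : ℂ)‖ = 3 / 2 * ‖G2 1 τ‖ := by
      rw [e2, ha, norm_mul, norm_mul, norm_pow, norm_div, Complex.norm_ofNat, Complex.norm_ofNat]
      ring
    calc (‖w‖ * μ * Real.exp (-(D * H))) ^ 4
        = μ ^ 4 * (‖w‖ ^ 4 * Real.exp (-(D * H)) ^ 4) := by ring
      _ ≤ μ ^ 4 * (‖w‖ ^ 4 * ‖(a : ℂ)‖) := by
          refine mul_le_mul_of_nonneg_left ?_ (by positivity)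
          exact mul_le_mul_of_nonneg_left (h5.trans h4) (by positivity)
      _ = μ ^ 4 * (3 / 2 * ‖G2 1 τ‖) := by rw [h6]
      _ ≤ μ ^ 4 * (3 / 2 * (60 * ((2 / μ) ^ 4 * S))) := by
          refine mul_le_mul_of_nonneg_left ?_ (by positivity)
          exact mul_le_mul_of_nonneg_left hG2 (by norm_num)
      _ = 1440 * S := by
          field_simp
          ring
      _ ≤ 17920 * S := by linarith

theorem cu_ser (h : Cu K H t w τ) (hH : 0 ≤ H) :
    ∃ U : PowerSeries K, PowerSeries.map (algebraMap K ℂ) U =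
        us (3 / 2 * G2 w (w * τ)) (2 * G3 w (w * τ)) ∧
      tay (Mul.iu w (w * τ)) = PowerSeries.map (algebraMap K ℂ) U ∧
      PowerSeries.coeff 0 U = 0 ∧ PowerSeries.coeff 1 U = 0 ∧
      (∀ n : ℕ, IsIntegral ℤ ((n.factorial : K) * PowerSeries.coeff n U)) ∧
      ∀ (n : ℕ) (σ : K →+* ℂ), ‖σ (PowerSeries.coeff n U)‖ ≤ Real.exp (H * n) := by
  obtain ⟨a, hai, ha, hab⟩ := h.g2
  obtain ⟨b, hbi, hb, hbb⟩ := h.g3
  have hmap : PowerSeries.map (algebraMap K ℂ) (us a b) =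
      us (3 / 2 * G2 w (w * τ)) (2 * G3 w (w * τ)) := by
    rw [us_map]
    have e1 : (algebraMap K ℂ) a = 3 / 2 * G2 w (w * τ) := ha
    have e2 : (algebraMap K ℂ) b = 2 * G3 w (w * τ) := hb
    rw [e1, e2]
  refine ⟨us a b, hmap, ?_, us_zero _ _, us_one _ _, ?_, ?_⟩
  · rw [hmap]
    exact iu_tay (cu_ind h)
  · intro n
    obtain ⟨y, hy⟩ := us_int (K := K) ⟨a, hai⟩ ⟨b, hbi⟩ 1 n
    change (y : K) = _ * PowerSeries.coeff n (PowerSeries.rescale ((1 : 𝓞 K) : K) (us a b)) at hy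
    rw [PowerSeries.coeff_rescale] at hy
    have e3 : ((1 : 𝓞 K) : K) = 1 := by
      rw [RingOfIntegers.coe_eq_algebraMap, map_one]
    rw [e3, one_pow, one_mul] at hy
    rw [← hy]
    exact RingOfIntegers.isIntegral_coe y
  · intro n σ
    have e : σ (PowerSeries.coeff n (us a b)) = PowerSeries.coeff n (us (σ a) (σ b)) := by
      rw [← PowerSeries.coeff_map, us_map]
    rw [e]
    have hX : 1 ≤ Real.exp H := Real.one_le_exp hH
    have h4 := Real.exp_pos H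
    have hn : Real.exp (H * n) = Real.exp H ^ n := by
      rw [mul_comm, Real.exp_nat_mul]
    rw [hn]
    match n with
    | 0 => rw [us_zero, norm_zero]; positivity
    | 1 => rw [us_one, norm_zero]; positivity
    | m + 2 => exact (us_bd hX (hab σ) (hbb σ) m).trans (pow_le_pow_right₀ hX (by omega))

/-- scaling makes the invariants integral -/
theorem cur_den {M B : ℝ} (h : Cur K M B t w τ) (hB : 1 ≤ B) :
    ∃ ν : ℕ, 0 < ν ∧ (ν : ℝ) ≤ Real.exp (3 * B) ∧ ∀ c : ℕ, 0 < c → ν ∣ c → ∀ E : ℝ, 0 ≤ E →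
      (c : ℝ) ≤ Real.exp E → Cu K (B + 2 * E) t (w / c) τ := by
  have h2 := h.g2
  have h3 := h.g3
  obtain ⟨n₂, hn₂, hn₂', hi₂⟩ := h2.den
  obtain ⟨n₃, hn₃, hn₃', hi₃⟩ := h3.den
  have hexp := BsCu_exp hB
  have hexp0 := Real.exp_pos B
  refine ⟨2 * n₂ * n₃, by positivity, ?_, ?_⟩
  · have e : Real.exp (3 * B) = Real.exp B * Real.exp B * Real.exp B := by
      rw [← Real.exp_add, ← Real.exp_add]
      congr 1
      ring
    rw [e]
    push_cast
    exact mul_le_mul (mul_le_mul hexp hn₂' (Nat.cast_nonneg _) hexp0.le) hn₃'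
      (Nat.cast_nonneg _) (by positivity)
  · intro c hc hνc E hE hcE
    obtain ⟨m, hm⟩ := hνc
    have hc0 : (c : ℂ) ≠ 0 := by exact_mod_cast hc.ne'
    have hmC : (c : ℂ) = 2 * n₂ * n₃ * m := by exact_mod_cast hm
    have ewt : w / (c : ℂ) * τ = (1 / (c : ℂ)) * (w * τ) := by ring
    have ew : w / (c : ℂ) = (1 / (c : ℂ)) * w := by ring
    have hc1 : (1 / (c : ℂ)) ≠ 0 := one_div_ne_zero hc0
    have eG2 : G2 (w / c) (w / c * τ) = (c : ℂ) ^ 4 * G2 w (w * τ) := by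
      rw [ewt, ew, G2_smul hc1]
      field_simp
    have eG3 : G3 (w / c) (w / c * τ) = (c : ℂ) ^ 6 * G3 w (w * τ) := by
      rw [ewt, ew, G3_smul hc1]
      field_simp
    have key : ∀ (g : K) (q : ℕ) (hq : IsIntegral ℤ ((q : ℂ) * (g : ℂ))) (N : ℕ),
        IsIntegral ℤ ((N : K) * ((q : K) * g)) := by
      intro g q hq N
      have h5 : IsIntegral ℤ ((q : K) * g) := by
        refine (isIntegral_algHom_iff (K.val.restrictScalars ℤ) K.val.injective).1 ?_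
        exact hq
      have h6 : IsIntegral ℤ (N : K) := by
        have := isIntegral_algebraMap (R := ℤ) (A := K) (x := (N : ℤ))
        simpa using this
      exact h6.mul h5
    have hcE4 : (c : ℝ) ^ 4 ≤ Real.exp E ^ 4 := pow_le_pow_left₀ (Nat.cast_nonneg _) hcE 4
    have hcE6 : (c : ℝ) ^ 6 ≤ Real.exp E ^ 6 := pow_le_pow_left₀ (Nat.cast_nonneg _) hcE 6
    refine ⟨div_ne_zero h.w0 hc0, h.im_pos, h.im, ?_, ?_⟩
    · refine ⟨(c : K) ^ 4 * (3 / 2) * ⟨_, h2.mem⟩, ?_, ?_, ?_⟩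
      · have e : (c : K) ^ 4 * (3 / 2) * ⟨_, h2.mem⟩ =
            ((3 * c ^ 3 * (n₃ * m) : ℕ) : K) * ((n₂ : K) * ⟨_, h2.mem⟩) := by
          have hmK : (c : K) = 2 * n₂ * n₃ * m := by exact_mod_cast hm
          push_cast
          have : (c : K) ^ 4 = (c : K) ^ 3 * (2 * n₂ * n₃ * m) := by
            rw [← hmK]
            ring
          rw [this]
          ring
        rw [e]
        exact key _ _ hi₂ _
      · have e : (((c : K) ^ 4 * (3 / 2) * ⟨_, h2.mem⟩ : K) : ℂ) =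
            (c : ℂ) ^ 4 * (3 / 2) * G2 w (w * τ) := by
          rw [MulMemClass.coe_mul, MulMemClass.coe_mul]
          rfl
        rw [e, eG2]
        ring
      · intro σ
        rw [map_mul, map_mul, map_pow, map_natCast, map_div₀, map_ofNat, map_ofNat, norm_mul,
          norm_mul, norm_pow, norm_div, Complex.norm_natCast, Complex.norm_ofNat,
          Complex.norm_ofNat]
        have h5 := h2.house σ
        calc (c : ℝ) ^ 4 * (3 / 2) * ‖σ ⟨_, h2.mem⟩‖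
            ≤ Real.exp E ^ 4 * Real.exp B * Real.exp B := by
              refine mul_le_mul ?_ h5 (norm_nonneg _) (by positivity)
              exact mul_le_mul hcE4 (by linarith) (by norm_num) (by positivity)
          _ = Real.exp (4 * E + B + B) := by
              rw [← Real.exp_nat_mul, ← Real.exp_add, ← Real.exp_add]
              norm_num
          _ ≤ Real.exp (4 * (B + 2 * E)) := Real.exp_le_exp.2 (by linarith)
          _ = Real.exp (B + 2 * E) ^ 4 := by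
              rw [← Real.exp_nat_mul]
              norm_num
    · refine ⟨(c : K) ^ 6 * 2 * ⟨_, h3.mem⟩, ?_, ?_, ?_⟩
      · have e : (c : K) ^ 6 * 2 * ⟨_, h3.mem⟩ =
            ((2 * c ^ 5 * (2 * n₂ * m) : ℕ) : K) * ((n₃ : K) * ⟨_, h3.mem⟩) := by
          have hmK : (c : K) = 2 * n₂ * n₃ * m := by exact_mod_cast hm
          push_cast
          have : (c : K) ^ 6 = (c : K) ^ 5 * (2 * n₂ * n₃ * m) := by
            rw [← hmK]
            ring
          rw [this]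
          ring
        rw [e]
        exact key _ _ hi₃ _
      · have e : (((c : K) ^ 6 * 2 * ⟨_, h3.mem⟩ : K) : ℂ) =
            (c : ℂ) ^ 6 * 2 * G3 w (w * τ) := by
          rw [MulMemClass.coe_mul, MulMemClass.coe_mul]
          rfl
        rw [e, eG3]
        ring
      · intro σ
        rw [map_mul, map_mul, map_pow, map_natCast, map_ofNat, norm_mul,
          norm_mul, norm_pow, Complex.norm_natCast, Complex.norm_ofNat]
        have h5 := h3.house σ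
        calc (c : ℝ) ^ 6 * 2 * ‖σ ⟨_, h3.mem⟩‖
            ≤ Real.exp E ^ 6 * Real.exp B * Real.exp B := by
              refine mul_le_mul ?_ h5 (norm_nonneg _) (by positivity)
              exact mul_le_mul hcE6 hexp (by norm_num) (by positivity)
          _ = Real.exp (6 * E + B + B) := by
              rw [← Real.exp_nat_mul, ← Real.exp_add, ← Real.exp_add]
              norm_num
          _ ≤ Real.exp (4 * (B + 2 * E)) := Real.exp_le_exp.2 (by linarith)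
          _ = Real.exp (B + 2 * E) ^ 4 := by
              rw [← Real.exp_nat_mul]
              norm_num

private theorem BsCu_lt {w τ c x : ℂ} (hc : c ≠ 0) : x ∈ Lt (w / c) τ ↔ c * x ∈ Lt w τ := by
  constructor
  · rintro ⟨m, n, hmn⟩
    refine ⟨m, n, ?_⟩
    rw [hmn]
    field_simp
  · rintro ⟨m, n, hmn⟩
    refine ⟨m, n, ?_⟩
    have e : x = c * x / c := by field_simp
    rw [e, hmn]
    ring

theorem mp_scale {w₁ τ₁ w₂ τ₂ ξ c : ℂ} (hc : c ≠ 0) :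
    Mp ξ (Lt (w₁ / c) τ₁) (Lt (w₂ / c) τ₂) ↔ Mp ξ (Lt w₁ τ₁) (Lt w₂ τ₂) := by
  constructor
  · intro h x hx
    have h1 := (BsCu_lt hc).1 (h (x / c) ((BsCu_lt hc).2 (by rwa [mul_div_cancel₀ x hc])))
    have e : c * (ξ * (x / c)) = ξ * x := by field_simp
    rwa [e] at h1
  · intro h x hx
    have h1 := h (c * x) ((BsCu_lt hc).1 hx)
    refine (BsCu_lt hc).2 ?_
    have e : c * (ξ * x) = ξ * (c * x) := by ring
    rwa [e]

end Pool.Agent.LGO.Bs
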