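import Mathlib
import Pool.Agent.LGO.A.BsLi

/-!
# LGO base: numerical form of the lower bound and of the size of the coefficients

Let `X = exp (13 M T)`, `Z = exp (2 M T)`, `Y = 5 L² N! (2 X Z)^N`, `1 ≤ L ≤ N ≤ O`, `M T ≥ 1`.

* `coef_log`: `L² Y ≤ exp (O (log O + 22 M T))`: `N! ≤ N^N ≤ exp(O log O)`;
  `(2 X Z)^N ≤ exp(16 M T O)` (`log 2 ≤ 1 ≤ M T`); `5 L⁴ ≤ exp(6 O)` (`x^4 ≤ 24 exp x`... or
  `L ≤ O`, `log L ≤ L - 1`: `5 L^4 ≤ exp(2 + 4 (O - 1)) ≤ exp(6 O)`), `6 O ≤ 6 M T O`.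
* `low_log`: `gm_lower` with `d = M`: the exponent is
  `(M + 1) log(O! L² Y (2 X Z)^O) ≤ (M + 1) (O log O + O (log O + 22 M T) + 16 M T O)
  ≤ 2 M O (2 log O + 38 M T)`.
-/

namespace Pool.Agent.LGO.Bs

open Pool.Agent.EllSch NumberField

private lemma BsLow_two {u : ℝ} (hu : 1 ≤ u) (n : ℕ) :
    (2 * Real.exp (13 * u) * Real.exp (2 * u)) ^ n ≤ Real.exp (16 * u * n) := by
  have h2 : (2 : ℝ) ≤ Real.exp u := by
    have := Real.add_one_le_exp u
    linarith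
  have h3 : 2 * Real.exp (13 * u) * Real.exp (2 * u) ≤ Real.exp (16 * u) := by
    have e : Real.exp (16 * u) = Real.exp u * Real.exp (13 * u) * Real.exp (2 * u) := by
      rw [← Real.exp_add, ← Real.exp_add]
      congr 1
      ring
    rw [e]
    exact mul_le_mul_of_nonneg_right (mul_le_mul_of_nonneg_right h2 (Real.exp_pos _).le) (Real.exp_pos _).le
  calc (2 * Real.exp (13 * u) * Real.exp (2 * u)) ^ n ≤ Real.exp (16 * u) ^ n :=
        pow_le_pow_left₀ (by positivity) h3 n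
    _ = Real.exp (16 * u * n) := by rw [← Real.exp_nat_mul, mul_comm]

private lemma BsLow_fac {N O : ℕ} (hN : 1 ≤ N) (hNO : N ≤ O) :
    (N.factorial : ℝ) ≤ Real.exp (O * Real.log O) := by
  have hO : (0 : ℝ) < O := by exact_mod_cast lt_of_lt_of_le hN hNO
  have e : Real.exp (O * Real.log O) = (O : ℝ) ^ O := by
    rw [Real.exp_nat_mul, Real.exp_log hO]
  rw [e]
  have h1 : N.factorial ≤ O ^ O :=
    (Nat.factorial_le hNO).trans (Nat.factorial_le_pow O)
  exact_mod_cast h1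

private lemma BsLow_four {u : ℝ} (hu : 1 ≤ u) {L O : ℕ} (hO : 1 ≤ O) (hLO : L ≤ O) :
    5 * (L : ℝ) ^ 4 ≤ Real.exp (6 * u * O) := by
  have hO' : (1 : ℝ) ≤ O := by exact_mod_cast hO
  have hL' : (L : ℝ) ≤ O := by exact_mod_cast hLO
  have h1 : (L : ℝ) ≤ Real.exp O := by
    have := Real.add_one_le_exp (O : ℝ)
    linarith
  have h2 : (5 : ℝ) ≤ Real.exp 2 := by
    have := Real.quadratic_le_exp_of_nonneg (x := (2 : ℝ)) (by norm_num)
    linarith
  have h3 : (L : ℝ) ^ 4 ≤ Real.exp (4 * O) := by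
    calc (L : ℝ) ^ 4 ≤ Real.exp O ^ 4 := pow_le_pow_left₀ (Nat.cast_nonneg _) h1 4
      _ = Real.exp (4 * O) := by rw [← Real.exp_nat_mul]; norm_num
  calc 5 * (L : ℝ) ^ 4 ≤ Real.exp 2 * Real.exp (4 * O) :=
        mul_le_mul h2 h3 (by positivity) (Real.exp_pos _).le
    _ = Real.exp (2 + 4 * O) := (Real.exp_add _ _).symm
    _ ≤ Real.exp (6 * u * O) := by
        refine Real.exp_le_exp.mpr ?_
        nlinarith

theorem coef_log {M T : ℝ} (hM : 1 ≤ M * T) {L N O : ℕ} (hL : 1 ≤ L) (hLN : L ≤ N) (hNO : N ≤ O) :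
    (L : ℝ) ^ 2 * (5 * L ^ 2 * (N.factorial *
      (2 * Real.exp (13 * (M * T)) * Real.exp (2 * (M * T))) ^ N)) ≤
      Real.exp (O * (Real.log O + 22 * (M * T))) := by
  have hN : 1 ≤ N := hL.trans hLN
  have hO : 1 ≤ O := hN.trans hNO
  have h1 := BsLow_two hM N
  have h2 := BsLow_fac hN hNO
  have h3 := BsLow_four hM hO (hLN.trans hNO)
  have h4 : Real.exp (16 * (M * T) * N) ≤ Real.exp (16 * (M * T) * O) := by
    refine Real.exp_le_exp.mpr (mul_le_mul_of_nonneg_left (by exact_mod_cast hNO) (by linarith))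
  have e1 : (L : ℝ) ^ 2 * (5 * L ^ 2 * (N.factorial *
      (2 * Real.exp (13 * (M * T)) * Real.exp (2 * (M * T))) ^ N)) =
      (5 * (L : ℝ) ^ 4) * (N.factorial *
      (2 * Real.exp (13 * (M * T)) * Real.exp (2 * (M * T))) ^ N) := by ring
  have e2 : Real.exp (O * (Real.log O + 22 * (M * T))) =
      Real.exp (6 * (M * T) * O) * (Real.exp (O * Real.log O) * Real.exp (16 * (M * T) * O)) := by
    rw [← Real.exp_add, ← Real.exp_add]
    congr 1
    ring
  rw [e1, e2]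
  exact mul_le_mul h3 (mul_le_mul h2 (h1.trans h4) (by positivity) (Real.exp_pos _).le)
    (by positivity) (Real.exp_pos _).le

theorem low_log {K : Type*} [Field K] [NumberField K] (φ : K →+* ℂ) {D : D2 K} {M T : ℝ}
    (hM1 : 1 ≤ M) (hMT : 1 ≤ M * T) (hK : (Module.finrank ℚ K : ℝ) ≤ M)
    (h : Bdd D (Real.exp (13 * (M * T))) (Real.exp (2 * (M * T)))) {L N O : ℕ} (hL : 1 ≤ L)
    (hLN : L ≤ N) (hNO : N ≤ O) {c : ℕ → ℕ → ℤ}
    (hc : ∀ i j, |(c i j : ℝ)| ≤ 5 * L ^ 2 * (N.factorial *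
      (2 * Real.exp (13 * (M * T)) * Real.exp (2 * (M * T))) ^ N))
    (hO : gm D L c O ≠ 0) :
    Real.exp (-(2 * M * (O * (2 * Real.log O + 38 * (M * T))))) ≤ ‖φ (gm D L c O)‖ := by
  have hN : 1 ≤ N := hL.trans hLN
  have hO1 : 1 ≤ O := hN.trans hNO
  set X : ℝ := Real.exp (13 * (M * T)) with hX
  set Z : ℝ := Real.exp (2 * (M * T)) with hZ
  set Y : ℝ := 5 * (L : ℝ) ^ 2 * (N.factorial * (2 * X * Z) ^ N) with hYdef
  have hX1 : 1 ≤ X := h.hX
  have hZ1 : 1 ≤ Z := h.hZ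
  have hLR : (1 : ℝ) ≤ (L : ℝ) ^ 2 := one_le_pow₀ (by exact_mod_cast hL)
  have hXZ : (1 : ℝ) ≤ 2 * X * Z := by nlinarith
  have hfac : (1 : ℝ) ≤ (N.factorial : ℝ) := by exact_mod_cast N.factorial_pos
  have hY : 1 ≤ Y :=
    one_le_mul_of_one_le_of_one_le (by linarith)
      (one_le_mul_of_one_le_of_one_le hfac (one_le_pow₀ hXZ))
  have h0 := gm_lower φ h hY (fun i _ j _ => hc i j) hO hK
  refine le_trans (Real.exp_le_exp.mpr (neg_le_neg ?_)) h0
  have hfO : (1 : ℝ) ≤ (O.factorial : ℝ) := by exact_mod_cast O.factorial_pos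
  have hpos : (0 : ℝ) < O.factorial * (L ^ 2 * Y * (2 * X * Z) ^ O) := by positivity
  have h1 := coef_log hMT hL hLN hNO
  have h2 := BsLow_fac hO1 (le_refl O)
  have h3 := BsLow_two hMT O
  have h4 : O.factorial * (L ^ 2 * Y * (2 * X * Z) ^ O) ≤
      Real.exp (O * (2 * Real.log O + 38 * (M * T))) := by
    have e : Real.exp (O * (2 * Real.log O + 38 * (M * T))) =
        Real.exp (O * Real.log O) * (Real.exp (O * (Real.log O + 22 * (M * T))) *
          Real.exp (16 * (M * T) * O)) := by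
      rw [← Real.exp_add, ← Real.exp_add]
      congr 1
      ring
    rw [e]
    exact mul_le_mul h2 (mul_le_mul h1 h3 (by positivity) (Real.exp_pos _).le)
      (by positivity) (Real.exp_pos _).le
  have h5 : Real.log (O.factorial * (L ^ 2 * Y * (2 * X * Z) ^ O)) ≤
      O * (2 * Real.log O + 38 * (M * T)) := by
    rw [Real.log_le_iff_le_exp hpos]
    exact h4
  have h6 : (0 : ℝ) ≤ O * (2 * Real.log O + 38 * (M * T)) := by
    have : (0 : ℝ) ≤ Real.log O := Real.log_nonneg (by exact_mod_cast hO1)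
    have hOR : (0 : ℝ) ≤ O := Nat.cast_nonneg O
    exact mul_nonneg hOR (by linarith)
  calc (M + 1) * Real.log (O.factorial * (L ^ 2 * Y * (2 * X * Z) ^ O))
      ≤ (M + 1) * (O * (2 * Real.log O + 38 * (M * T))) :=
        mul_le_mul_of_nonneg_left h5 (by linarith)
    _ ≤ 2 * M * (O * (2 * Real.log O + 38 * (M * T))) :=
        mul_le_mul_of_nonneg_right (by linarith) h6

end Pool.Agent.LGO.Bs
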