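import Mathlib

/-!
# LGO base: the sine product

`q = exp(2 π i τ)`, `r = ‖q‖ = exp(- 2 π Im τ) ≤ exp(- 2 π t) < 1`, `c_n = q ^ n / (1 - q ^ n) ^ 2`
(`n ≥ 1`), `G(s) = ∏_(n ≥ 1) (1 + c_n s)`, `S(z) = sin(π z) / π * G(4 sin(π z) ^ 2)`.
(This is the usual product `sin(π z)/π ∏ (1 - q^n w)(1 - q^n / w) / (1 - q^n)²`, `w = exp(2 π i z)`,
because `2 - w - 1 / w = 4 sin(π z)²`.)

* `G` is entire: `∑ ‖c_n‖ < ∞` and locally uniform convergence (`Summable`/`tprod` lemmas of Mathlib,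
  e.g. `Summable.hasProdLocallyUniformlyOn_nat_one_add`, `HasProdLocallyUniformlyOn.differentiableOn`).
* `S(z + 1) = - S(z)`; `S(0) = 0`, `S'(0) = G(0) = 1`.
* `S(m + n τ) = 0`: `n = 0`: `sin(π m) = 0`.  `n ≠ 0`: with `k = |n|`, `w = exp(2 π i (m + n τ)) = q ^ n`,
  `4 sin² = 2 - w - 1 / w = 2 - q ^ k - q ^ (-k)`, so `1 + c_k 4 sin² = 0` and the product vanishes.
* growth, `‖z‖ ≤ R`, `R ≥ 1`: `‖sin(π z)‖ ≤ exp(π R)`, so `‖s‖ ≤ 4 exp(2 π R)`;
  `‖c_n‖ ≤ r^n / (1 - r^n)² ≤ 1 / (2 π n t)²` (with `r` replaced by `exp(-2 π t)`;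
  `x / (1 - x)² = 1 / (4 sinh²(π n t))`, `sinh y ≥ y`).  For `n ≤ R / t`:
  `log(1 + ‖c_n s‖) ≤ log(1 + exp(2 π R) / (n t)²) ≤ 2 π R + log(1 + 1/(n t)²) ≤ 2 π R + 4 (n t)^(-1/2)`,
  and `∑_(n ≤ R/t) ≤ 2 π R² / t + 8 (R/t)^(1/2) t^(-1/2) ≤ C R² / t`.  For `n > R / t ≥ 1 / t`:
  `r^n ≤ exp(-2 π) ≤ 1/2`, `‖c_n‖ ≤ 4 exp(-2 π n t)` and
  `∑ ‖c_n s‖ ≤ 16 ∑_(n > R/t) exp(-2 π (n t - R)) ≤ 16 / (1 - exp(-2 π t)) ≤ 16 (1 + 1 / t)`.
  Total `≤ C (R² / t + R)`.
-/

namespace Pool.Agent.LGO.Bs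

open Filter Topology

theorem BsProd_entire (c : ℕ → ℂ) (hc : Summable fun n => ‖c n‖) :
    Differentiable ℂ (fun s : ℂ => ∏' n, (1 + c n * s)) := by
  have key : ∀ ρ : ℝ, DifferentiableOn ℂ (fun s : ℂ => ∏' n, (1 + c n * s)) (Metric.ball 0 ρ) := by
    intro ρ
    have h := Summable.hasProdLocallyUniformlyOn_nat_one_add (f := fun n (s : ℂ) => c n * s)
      (K := Metric.ball (0 : ℂ) ρ) Metric.isOpen_ball (u := fun n => ‖c n‖ * ρ) (hc.mul_right ρ)
      (by
        refine Filter.Eventually.of_forall fun n x hx => ?_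
        rw [norm_mul]
        rw [Metric.mem_ball, dist_zero_right] at hx
        exact mul_le_mul_of_nonneg_left hx.le (norm_nonneg _))
      (fun n => by fun_prop)
    exact h.tendstoLocallyUniformlyOn_finsetRange.differentiableOn
      (Filter.Eventually.of_forall fun n => by fun_prop) Metric.isOpen_ball
  intro s
  exact (key (‖s‖ + 1)).differentiableAt (Metric.isOpen_ball.mem_nhds (by
    rw [Metric.mem_ball, dist_zero_right]; linarith))

theorem BsProd_tendsto (c : ℕ → ℂ) (hc : Summable fun n => ‖c n‖) (s : ℂ) :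
    Tendsto (fun N => ∏ n ∈ Finset.range N, (1 + c n * s)) atTop (𝓝 (∏' n, (1 + c n * s))) := by
  have h : Multipliable fun n => 1 + c n * s := by
    apply multipliable_one_add_of_summable
    simp only [norm_mul]
    exact hc.mul_right _
  exact h.hasProd.tendsto_prod_nat

theorem BsProd_norm_sin (z : ℂ) : ‖Complex.sin z‖ ≤ Real.exp ‖z‖ := by
  rw [Complex.sin, norm_div, norm_mul, Complex.norm_I, mul_one]
  have h1 : ‖Complex.exp (-z * Complex.I)‖ ≤ Real.exp ‖z‖ := by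
    refine (Complex.norm_exp_le_exp_norm _).trans (Real.exp_le_exp.2 ?_)
    rw [norm_mul, norm_neg, Complex.norm_I, mul_one]
  have h2 : ‖Complex.exp (z * Complex.I)‖ ≤ Real.exp ‖z‖ := by
    refine (Complex.norm_exp_le_exp_norm _).trans (Real.exp_le_exp.2 ?_)
    rw [norm_mul, Complex.norm_I, mul_one]
  have h3 : ‖(2 : ℂ)‖ = 2 := by norm_num
  rw [h3, div_le_iff₀ (by norm_num)]
  refine (norm_sub_le _ _).trans ?_
  linarith

theorem BsProd_choose (k N : ℕ) :
    ∏ n ∈ Finset.range N, (((n : ℝ) + 1 + k) / ((n : ℝ) + 1)) = ((N + k).choose k : ℝ) := by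
  induction N with
  | zero => simp
  | succ N ih =>
    rw [Finset.prod_range_succ, ih]
    have h := Nat.choose_mul_succ_eq (N + k) k
    have h1 : N + k + 1 - k = N + 1 := by omega
    rw [h1] at h
    have h2 : (((N + k).choose k : ℕ) : ℝ) * ((N : ℝ) + k + 1) =
        (((N + k + 1).choose k : ℕ) : ℝ) * ((N : ℝ) + 1) := by
      exact_mod_cast h
    have h3 : N + 1 + k = N + k + 1 := by omega
    rw [h3, ← mul_div_assoc, div_eq_iff (by positivity), ← h2]
    ring

theorem BsProd_choose_le (k N : ℕ) :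
    ∏ n ∈ Finset.range N, (((n : ℝ) + 1 + k) / ((n : ℝ) + 1)) ≤ Real.exp (N + k) := by
  rw [BsProd_choose]
  have h1 : (((N + k).choose k : ℕ) : ℝ) ≤ 2 ^ (N + k) := by
    exact_mod_cast Nat.choose_le_two_pow (N + k) k
  refine h1.trans ?_
  have h2 : (2 : ℝ) ≤ Real.exp 1 := by
    have := Real.add_one_le_exp (1 : ℝ); linarith
  calc (2 : ℝ) ^ (N + k) ≤ (Real.exp 1) ^ (N + k) := by gcongr
    _ = Real.exp (N + k) := by
      rw [← Real.exp_nat_mul]; push_cast; rw [mul_one]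

/-- growth of the finite products -/
theorem BsProd_fin {t R : ℝ} (ht : 0 < t) (hR : 1 ≤ R) (c : ℕ → ℂ)
    (hc : ∀ n, ‖c n‖ ≤ 1 / (4 * Real.sinh (Real.pi * ((n : ℝ) + 1) * t) ^ 2)) (s : ℂ)
    (hs : ‖s‖ ≤ 4 * Real.exp (2 * Real.pi * R)) (J : ℕ) :
    ‖∏ n ∈ Finset.range (⌊R / t⌋₊ + J), (1 + c n * s)‖ ≤ Real.exp (27 * R ^ 2 / t + 18 * R) := by
  have hpi : (3 : ℝ) < Real.pi := Real.pi_gt_three
  have hpi4 : Real.pi ≤ 3.15 := Real.pi_lt_d2.le
  set N := ⌊R / t⌋₊ with hN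
  set k := ⌈1 / t⌉₊ with hk
  have hNle : (N : ℝ) ≤ R / t := Nat.floor_le (by positivity)
  have hNlt : R / t < (N : ℝ) + 1 := Nat.lt_floor_add_one _
  have hkle : (k : ℝ) ≤ 1 / t + 1 := (Nat.ceil_lt_add_one (by positivity)).le
  have hkge : 1 / t ≤ (k : ℝ) := Nat.le_ceil _
  have hfac : ∀ n, ‖1 + c n * s‖ ≤ 1 + ‖c n‖ * ‖s‖ := by
    intro n
    refine (norm_add_le _ _).trans ?_
    rw [norm_one, norm_mul]
  have hexp1 : 1 ≤ Real.exp (2 * Real.pi * R) := Real.one_le_exp (by positivity)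
  -- first part
  have h1 : ∀ n : ℕ, ‖1 + c n * s‖ ≤
      Real.exp (2 * Real.pi * R) * (((n : ℝ) + 1 + k) / ((n : ℝ) + 1)) ^ 2 := by
    intro n
    have hn : (0 : ℝ) < (n : ℝ) + 1 := by positivity
    have hy : 0 < Real.pi * ((n : ℝ) + 1) * t := by positivity
    have hsinh : Real.pi * ((n : ℝ) + 1) * t ≤ Real.sinh (Real.pi * ((n : ℝ) + 1) * t) :=
      Real.self_le_sinh_iff.2 hy.le
    have ha : ‖c n‖ ≤ 1 / (4 * (((n : ℝ) + 1) * t) ^ 2) := by
      refine (hc n).trans ?_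
      apply one_div_le_one_div_of_le (by positivity)
      have : ((n : ℝ) + 1) * t ≤ Real.sinh (Real.pi * ((n : ℝ) + 1) * t) := by
        refine le_trans ?_ hsinh
        nlinarith [mul_pos hn ht]
      gcongr
    have hb : ‖c n‖ * ‖s‖ ≤ Real.exp (2 * Real.pi * R) * (1 / (((n : ℝ) + 1) * t)) ^ 2 := by
      calc ‖c n‖ * ‖s‖ ≤ (1 / (4 * (((n : ℝ) + 1) * t) ^ 2)) * (4 * Real.exp (2 * Real.pi * R)) := by
            gcongr
        _ = Real.exp (2 * Real.pi * R) * (1 / (((n : ℝ) + 1) * t)) ^ 2 := by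
            field_simp
    have hd : 1 / (((n : ℝ) + 1) * t) ≤ k / ((n : ℝ) + 1) := by
      rw [div_le_div_iff₀ (by positivity) hn]
      have : 1 ≤ k * t := by
        rw [div_le_iff₀ ht] at hkge; exact hkge
      nlinarith
    have he : (((n : ℝ) + 1 + k) / ((n : ℝ) + 1)) = 1 + k / ((n : ℝ) + 1) := by
      field_simp
    rw [he]
    have hf : 0 ≤ 1 / (((n : ℝ) + 1) * t) := by positivity
    have hg : (1 / (((n : ℝ) + 1) * t)) ^ 2 ≤ (k / ((n : ℝ) + 1)) ^ 2 := by gcongr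
    have hh : 0 ≤ (k : ℝ) / ((n : ℝ) + 1) := by positivity
    calc ‖1 + c n * s‖ ≤ 1 + ‖c n‖ * ‖s‖ := hfac n
      _ ≤ 1 + Real.exp (2 * Real.pi * R) * (k / ((n : ℝ) + 1)) ^ 2 := by
          refine add_le_add le_rfl (hb.trans ?_)
          gcongr
      _ ≤ Real.exp (2 * Real.pi * R) * (1 + k / ((n : ℝ) + 1)) ^ 2 := by nlinarith
  -- second part
  have h2 : ∀ j : ℕ, ‖1 + c (N + j) * s‖ ≤
      Real.exp (16 * Real.exp (-(2 * Real.pi * t)) ^ j) := by
    intro j
    have hn1 : R + j * t ≤ ((N + j : ℕ) + 1 : ℝ) * t := by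
      rw [div_lt_iff₀ ht] at hNlt
      push_cast
      nlinarith
    have hn0 : 1 ≤ ((N + j : ℕ) + 1 : ℝ) * t := by
      have : (0 : ℝ) ≤ j * t := by positivity
      linarith
    set y := Real.pi * (((N + j : ℕ) : ℝ) + 1) * t with hy
    have hy1 : 1 ≤ y := by
      have : y = Real.pi * ((((N + j : ℕ) : ℝ) + 1) * t) := by rw [hy]; ring
      rw [this]; nlinarith
    have hsinh : Real.exp y / 4 ≤ Real.sinh y := by
      rw [Real.sinh_eq]
      have e1 : 2 ≤ Real.exp y := by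
        have := Real.add_one_le_exp y; linarith
      have e2 : Real.exp (-y) ≤ 1 := Real.exp_le_one_iff.2 (by linarith)
      linarith
    have ha : ‖c (N + j)‖ ≤ 4 * Real.exp (-(2 * y)) := by
      refine (hc _).trans ?_
      rw [← hy, Real.exp_neg, ← div_eq_mul_inv, div_le_div_iff₀ (by positivity) (by positivity)]
      have : Real.exp (2 * y) = Real.exp y ^ 2 := by
        rw [← Real.exp_nat_mul]; norm_num
      rw [this]
      have h0 : 0 < Real.exp y := Real.exp_pos y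
      nlinarith [hsinh, h0]
    have hb : ‖c (N + j)‖ * ‖s‖ ≤ 16 * Real.exp (-(2 * Real.pi * t)) ^ j := by
      calc ‖c (N + j)‖ * ‖s‖ ≤ (4 * Real.exp (-(2 * y))) * (4 * Real.exp (2 * Real.pi * R)) := by
            gcongr
        _ = 16 * Real.exp (-(2 * y) + 2 * Real.pi * R) := by rw [Real.exp_add]; ring
        _ ≤ 16 * Real.exp (j * (-(2 * Real.pi * t))) := by
            have : -(2 * y) + 2 * Real.pi * R ≤ j * (-(2 * Real.pi * t)) := by
              have e : y = Real.pi * ((((N + j : ℕ) : ℝ) + 1) * t) := by rw [hy]; ring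
              rw [e]
              nlinarith
            gcongr
        _ = 16 * Real.exp (-(2 * Real.pi * t)) ^ j := by rw [Real.exp_nat_mul]
    refine (hfac _).trans ?_
    have := Real.add_one_le_exp (‖c (N + j)‖ * ‖s‖)
    calc 1 + ‖c (N + j)‖ * ‖s‖ ≤ Real.exp (‖c (N + j)‖ * ‖s‖) := by linarith
      _ ≤ _ := Real.exp_le_exp.2 hb
  rw [Finset.prod_range_add, norm_mul, norm_prod, norm_prod]
  have hA : ∏ n ∈ Finset.range N, ‖1 + c n * s‖ ≤
      Real.exp (2 * Real.pi * R * N + 2 * (N + k)) := by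
    calc ∏ n ∈ Finset.range N, ‖1 + c n * s‖ ≤ ∏ n ∈ Finset.range N,
          (Real.exp (2 * Real.pi * R) * (((n : ℝ) + 1 + k) / ((n : ℝ) + 1)) ^ 2) :=
          Finset.prod_le_prod (fun _ _ => norm_nonneg _) (fun n _ => h1 n)
      _ = Real.exp (2 * Real.pi * R) ^ N *
          (∏ n ∈ Finset.range N, (((n : ℝ) + 1 + k) / ((n : ℝ) + 1))) ^ 2 := by
          rw [Finset.prod_mul_distrib, Finset.prod_pow, Finset.prod_const, Finset.card_range]
      _ ≤ Real.exp (2 * Real.pi * R) ^ N * (Real.exp (N + k)) ^ 2 := by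
          gcongr
          exact BsProd_choose_le k N
      _ = Real.exp (2 * Real.pi * R * N + 2 * (N + k)) := by
          rw [← Real.exp_nat_mul, ← Real.exp_nat_mul, ← Real.exp_add]
          congr 1
          push_cast
          ring
  set x := Real.exp (-(2 * Real.pi * t)) with hx
  have hx0 : 0 ≤ x := (Real.exp_pos _).le
  have hx1 : x < 1 := by
    rw [hx, Real.exp_lt_one_iff]
    have : 0 < 2 * Real.pi * t := by positivity
    linarith
  have hB : ∏ j ∈ Finset.range J, ‖1 + c (N + j) * s‖ ≤ Real.exp (16 * (1 + 1 / t)) := by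
    calc ∏ j ∈ Finset.range J, ‖1 + c (N + j) * s‖ ≤ ∏ j ∈ Finset.range J,
          Real.exp (16 * x ^ j) := Finset.prod_le_prod (fun _ _ => norm_nonneg _) (fun j _ => h2 j)
      _ = Real.exp (16 * ∑ j ∈ Finset.range J, x ^ j) := by
          rw [← Real.exp_sum, Finset.mul_sum]
      _ ≤ Real.exp (16 * (1 + 1 / t)) := by
          have e1 : ∑ j ∈ Finset.range J, x ^ j ≤ (1 - x)⁻¹ := by
            rw [← tsum_geometric_of_lt_one hx0 hx1]
            exact (summable_geometric_of_lt_one hx0 hx1).sum_le_tsum _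
              (fun j _ => pow_nonneg hx0 j)
          have e2 : (1 - x)⁻¹ ≤ 1 + 1 / t := by
            have e3 : x ≤ 1 / (1 + t) := by
              rw [hx, Real.exp_neg, one_div]
              apply inv_anti₀ (by positivity)
              have := Real.add_one_le_exp (2 * Real.pi * t)
              nlinarith
            have e4 : t / (1 + t) ≤ 1 - x := by
              have : t / (1 + t) = 1 - 1 / (1 + t) := by field_simp; ring
              rw [this]; linarith
            calc (1 - x)⁻¹ ≤ (t / (1 + t))⁻¹ := inv_anti₀ (by positivity) e4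
              _ = 1 + 1 / t := by field_simp; ring
          gcongr
          exact e1.trans e2
  calc (∏ n ∈ Finset.range N, ‖1 + c n * s‖) * ∏ j ∈ Finset.range J, ‖1 + c (N + j) * s‖
      ≤ Real.exp (2 * Real.pi * R * N + 2 * (N + k)) * Real.exp (16 * (1 + 1 / t)) :=
        mul_le_mul hA hB (Finset.prod_nonneg fun _ _ => norm_nonneg _) (Real.exp_pos _).le
    _ = Real.exp (2 * Real.pi * R * N + 2 * (N + k) + 16 * (1 + 1 / t)) :=
        (Real.exp_add _ _).symm
    _ ≤ Real.exp (27 * R ^ 2 / t + 18 * R) := by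
        apply Real.exp_le_exp.2
        have ht' : 0 < 1 / t := by positivity
        have e1 : 2 * Real.pi * R * N ≤ 6.3 * (R ^ 2 * (1 / t)) := by
          have : 2 * Real.pi * R * N ≤ 2 * 3.15 * R * (R / t) := by gcongr
          refine this.trans (le_of_eq ?_)
          ring
        have e2 : (N : ℝ) ≤ R * (1 / t) := by rw [mul_one_div]; exact hNle
        have e3 : R * (1 / t) ≤ R ^ 2 * (1 / t) := by
          apply mul_le_mul_of_nonneg_right _ ht'.le
          nlinarith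
        have e4 : 1 / t ≤ R ^ 2 * (1 / t) := by
          have : 1 ≤ R ^ 2 := by nlinarith
          nlinarith
        have e5 : 27 * R ^ 2 / t = 27 * (R ^ 2 * (1 / t)) := by ring
        rw [e5]
        nlinarith

theorem BsProd_exp_zpow (τ : ℂ) (m n : ℤ) :
    Complex.exp (2 * Real.pi * Complex.I * (m + n * τ)) =
      Complex.exp (2 * Real.pi * Complex.I * τ) ^ n := by
  rw [← Complex.exp_int_mul, mul_add, Complex.exp_add]
  have h : Complex.exp (2 * Real.pi * Complex.I * m) = 1 := by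
    rw [mul_comm]; exact Complex.exp_int_mul_two_pi_mul_I m
  rw [h, one_mul]
  congr 1
  ring

theorem BsProd_sin_sq (z : ℂ) : 4 * Complex.sin (Real.pi * z) ^ 2 =
    2 - Complex.exp (2 * Real.pi * Complex.I * z) - (Complex.exp (2 * Real.pi * Complex.I * z))⁻¹ := by
  have h1 : Complex.exp (2 * Real.pi * Complex.I * z) =
      Complex.exp (Real.pi * z * Complex.I) ^ 2 := by
    rw [← Complex.exp_nat_mul]; congr 1; push_cast; ring
  have h2 : Complex.exp (-(Real.pi * z) * Complex.I) = (Complex.exp (Real.pi * z * Complex.I))⁻¹ := by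
    rw [← Complex.exp_neg]; congr 1; ring
  rw [h1, Complex.sin, h2]
  have h0 : Complex.exp (Real.pi * z * Complex.I) ≠ 0 := Complex.exp_ne_zero _
  field_simp
  rw [Complex.I_sq]
  ring

theorem BsProd_coeff (x : ℂ) (hx0 : x ≠ 0) (hx1 : x ≠ 1) :
    1 + x / (1 - x) ^ 2 * (2 - x - x⁻¹) = 0 := by
  have : (1 - x) ≠ 0 := sub_ne_zero.2 (Ne.symm hx1)
  field_simp
  ring

theorem sprod : ∃ C : ℝ, 1 ≤ C ∧ ∀ (τ : ℂ) (t : ℝ), 0 < t → t ≤ τ.im →
    ∃ S : ℂ → ℂ, Differentiable ℂ S ∧ (∀ z, S (z + 1) = -S z) ∧ (∀ m n : ℤ, S (m + n * τ) = 0) ∧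
      deriv S 0 = 1 ∧
      ∀ R : ℝ, 1 ≤ R → ∀ z : ℂ, ‖z‖ ≤ R → ‖S z‖ ≤ Real.exp (C * (R ^ 2 / t + R)) := by
  refine ⟨30, by norm_num, fun τ t ht hτ => ?_⟩
  have hpi : (3 : ℝ) < Real.pi := Real.pi_gt_three
  have hpi4 : Real.pi ≤ 3.15 := Real.pi_lt_d2.le
  have him : 0 < τ.im := ht.trans_le hτ
  set q : ℂ := Complex.exp (2 * Real.pi * Complex.I * τ) with hq
  have hq0 : q ≠ 0 := Complex.exp_ne_zero _
  have hqn : ‖q‖ = Real.exp (-(2 * Real.pi * τ.im)) := by
    rw [hq, Complex.norm_exp]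
    congr 1
    simp
  have hqpow : ∀ n : ℕ, ‖q ^ (n + 1)‖ = Real.exp (-(2 * (Real.pi * ((n : ℝ) + 1) * τ.im))) := by
    intro n
    rw [norm_pow, hqn, ← Real.exp_nat_mul]
    congr 1
    push_cast
    ring
  have hqlt : ∀ n : ℕ, ‖q ^ (n + 1)‖ < 1 := by
    intro n
    rw [hqpow, Real.exp_lt_one_iff]
    have : 0 < Real.pi * ((n : ℝ) + 1) * τ.im := by positivity
    linarith
  set c : ℕ → ℂ := fun n => q ^ (n + 1) / (1 - q ^ (n + 1)) ^ 2 with hcdef
  have hc : ∀ n, ‖c n‖ ≤ 1 / (4 * Real.sinh (Real.pi * ((n : ℝ) + 1) * t) ^ 2) := by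
    intro n
    have h1 : 1 - ‖q ^ (n + 1)‖ ≤ ‖1 - q ^ (n + 1)‖ := by
      have := norm_sub_norm_le (1 : ℂ) (q ^ (n + 1))
      rwa [norm_one] at this
    have h2 : 0 < 1 - ‖q ^ (n + 1)‖ := by linarith [hqlt n]
    have h3 : ‖c n‖ ≤ ‖q ^ (n + 1)‖ / (1 - ‖q ^ (n + 1)‖) ^ 2 := by
      rw [hcdef]
      simp only [norm_div, norm_pow]
      rw [← norm_pow]
      gcongr
    refine h3.trans ?_
    rw [hqpow n]
    set y := Real.pi * ((n : ℝ) + 1) * τ.im with hy
    have hy' : Real.pi * ((n : ℝ) + 1) * t ≤ y := by rw [hy]; gcongr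
    have h4 : Real.exp (-(2 * y)) / (1 - Real.exp (-(2 * y))) ^ 2 = 1 / (4 * Real.sinh y ^ 2) := by
      have e1 : Real.exp (-(2 * y)) = (Real.exp y)⁻¹ ^ 2 := by
        rw [← Real.exp_neg, ← Real.exp_nat_mul]; congr 1; push_cast; ring
      have hy0 : 0 < y := by rw [hy]; positivity
      have e2 : 1 < Real.exp y := Real.one_lt_exp_iff.2 hy0
      have e3 : Real.exp y ^ 2 - 1 ≠ 0 := by nlinarith
      rw [e1, Real.sinh_eq, Real.exp_neg]
      field_simp
      ring
    rw [h4]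
    have h5 : 0 < Real.pi * ((n : ℝ) + 1) * t := by positivity
    have h6 : 0 < Real.sinh (Real.pi * ((n : ℝ) + 1) * t) := Real.sinh_pos_iff.2 h5
    apply one_div_le_one_div_of_le (by positivity)
    have h7 : Real.sinh (Real.pi * ((n : ℝ) + 1) * t) ≤ Real.sinh y := Real.sinh_le_sinh.2 hy'
    gcongr
  have hsum : Summable fun n => ‖c n‖ := by
    have h1 : Summable fun n : ℕ => 1 / (4 * t ^ 2) * (1 / ((n : ℝ) + 1) ^ 2) := by
      apply Summable.mul_left
      have := (summable_nat_add_iff 1).2 (Real.summable_one_div_nat_pow.2 (one_lt_two))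
      simpa using this
    refine Summable.of_nonneg_of_le (fun n => norm_nonneg _) (fun n => (hc n).trans ?_) h1
    have hn : (0 : ℝ) < (n : ℝ) + 1 := by positivity
    have hy : 0 < Real.pi * ((n : ℝ) + 1) * t := by positivity
    have hsinh : Real.pi * ((n : ℝ) + 1) * t ≤ Real.sinh (Real.pi * ((n : ℝ) + 1) * t) :=
      Real.self_le_sinh_iff.2 hy.le
    have h2 : ((n : ℝ) + 1) * t ≤ Real.sinh (Real.pi * ((n : ℝ) + 1) * t) := by
      refine le_trans ?_ hsinh
      nlinarith [mul_pos hn ht]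
    have h3 : 1 / (4 * t ^ 2) * (1 / ((n : ℝ) + 1) ^ 2) = 1 / (4 * (((n : ℝ) + 1) * t) ^ 2) := by
      field_simp
    rw [h3]
    apply one_div_le_one_div_of_le (by positivity)
    gcongr
  set G : ℂ → ℂ := fun s => ∏' n, (1 + c n * s) with hG
  have hGd : Differentiable ℂ G := BsProd_entire c hsum
  refine ⟨fun z => Complex.sin (Real.pi * z) / Real.pi * G (4 * Complex.sin (Real.pi * z) ^ 2),
    ?_, ?_, ?_, ?_, ?_⟩
  · have h1 : Differentiable ℂ fun z : ℂ => G (4 * Complex.sin (Real.pi * z) ^ 2) :=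
      hGd.comp (by fun_prop)
    fun_prop
  · intro z
    have h1 : Complex.sin (Real.pi * (z + 1)) = -Complex.sin (Real.pi * z) := by
      rw [mul_add, mul_one, Complex.sin_add_pi]
    simp only [h1]
    rw [neg_sq]
    ring
  · intro m n
    by_cases hn : n = 0
    · subst hn
      have h1 : Complex.sin (Real.pi * ((m : ℂ) + ((0 : ℤ) : ℂ) * τ)) = 0 := by
        rw [Int.cast_zero, zero_mul, add_zero, mul_comm]
        exact Complex.sin_int_mul_pi m
      simp only [h1]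
      simp
    · obtain ⟨k, hk⟩ : ∃ k : ℕ, n.natAbs = k + 1 :=
        Nat.exists_eq_succ_of_ne_zero (by simpa using hn)
      have h1 : 4 * Complex.sin (Real.pi * ((m : ℂ) + (n : ℂ) * τ)) ^ 2 =
          2 - q ^ (k + 1) - (q ^ (k + 1))⁻¹ := by
        rw [BsProd_sin_sq, BsProd_exp_zpow, ← hq]
        rcases Int.natAbs_eq n with h | h
        · rw [h, hk, zpow_natCast]
        · rw [h, hk, zpow_neg, zpow_natCast, inv_inv]
          ring
      have h2 : G (2 - q ^ (k + 1) - (q ^ (k + 1))⁻¹) = 0 := by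
        rw [hG]
        refine tprod_of_exists_eq_zero ⟨k, ?_⟩
        refine BsProd_coeff _ (pow_ne_zero _ hq0) ?_
        intro h
        have := hqlt k
        rw [h, norm_one] at this
        exact lt_irrefl _ this
      simp only [h1, h2, mul_zero]
  · have h1 : HasDerivAt (fun z : ℂ => Complex.sin (Real.pi * z) / Real.pi) 1 0 := by
      have h2 : HasDerivAt (fun z : ℂ => Complex.sin (Real.pi * z))
          (Complex.cos (Real.pi * 0) * (Real.pi * 1)) 0 :=
        (Complex.hasDerivAt_sin _).comp (0 : ℂ) ((hasDerivAt_id (0 : ℂ)).const_mul (Real.pi : ℂ))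
      have h3 := h2.div_const (Real.pi : ℂ)
      have h4 : Complex.cos (Real.pi * 0) * (Real.pi * 1) / (Real.pi : ℂ) = 1 := by
        rw [mul_zero, Complex.cos_zero, one_mul, mul_one, div_self]
        exact_mod_cast Real.pi_ne_zero
      rwa [h4] at h3
    have h5 : DifferentiableAt ℂ (fun z : ℂ => G (4 * Complex.sin (Real.pi * z) ^ 2)) 0 :=
      (hGd.comp (by fun_prop : Differentiable ℂ fun z : ℂ => 4 * Complex.sin (Real.pi * z) ^ 2)) 0
    have h6 := h1.mul h5.hasDerivAt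
    have h7 : G (4 * Complex.sin (Real.pi * 0) ^ 2) = 1 := by
      rw [hG]; simp
    have h8 : Complex.sin (Real.pi * 0) / (Real.pi : ℂ) = 0 := by simp
    rw [h7, h8, one_mul, zero_mul, add_zero] at h6
    exact h6.deriv
  · intro R hR z hz
    have hs : ‖4 * Complex.sin (Real.pi * z) ^ 2‖ ≤ 4 * Real.exp (2 * Real.pi * R) := by
      rw [norm_mul, norm_pow]
      have h4 : ‖(4 : ℂ)‖ = 4 := by norm_num
      rw [h4]
      have h5 : ‖Complex.sin (Real.pi * z)‖ ≤ Real.exp (Real.pi * R) := by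
        refine (BsProd_norm_sin _).trans (Real.exp_le_exp.2 ?_)
        rw [norm_mul, Complex.norm_real, Real.norm_of_nonneg Real.pi_pos.le]
        gcongr
      have h6 : Real.exp (2 * Real.pi * R) = Real.exp (Real.pi * R) ^ 2 := by
        rw [← Real.exp_nat_mul]; congr 1; push_cast; ring
      rw [h6]
      gcongr
    have hGn : ‖G (4 * Complex.sin (Real.pi * z) ^ 2)‖ ≤ Real.exp (27 * R ^ 2 / t + 18 * R) := by
      have h1 := (BsProd_tendsto c hsum (4 * Complex.sin (Real.pi * z) ^ 2)).norm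
      refine le_of_tendsto h1 ?_
      filter_upwards [eventually_ge_atTop ⌊R / t⌋₊] with M hM
      obtain ⟨J, rfl⟩ := Nat.exists_eq_add_of_le hM
      exact BsProd_fin ht hR c hc _ hs J
    have h5 : ‖Complex.sin (Real.pi * z) / Real.pi‖ ≤ Real.exp (4 * R) := by
      rw [norm_div, Complex.norm_real, Real.norm_of_nonneg Real.pi_pos.le]
      have h6 : ‖Complex.sin (Real.pi * z)‖ ≤ Real.exp (4 * R) := by
        refine (BsProd_norm_sin _).trans (Real.exp_le_exp.2 ?_)
        rw [norm_mul, Complex.norm_real, Real.norm_of_nonneg Real.pi_pos.le]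
        have : Real.pi ≤ 4 := by linarith
        gcongr
      rw [div_le_iff₀ Real.pi_pos]
      have := Real.exp_pos (4 * R)
      nlinarith
    show ‖Complex.sin (Real.pi * z) / Real.pi * G (4 * Complex.sin (Real.pi * z) ^ 2)‖ ≤ _
    rw [norm_mul]
    calc ‖Complex.sin (Real.pi * z) / Real.pi‖ * ‖G (4 * Complex.sin (Real.pi * z) ^ 2)‖
        ≤ Real.exp (4 * R) * Real.exp (27 * R ^ 2 / t + 18 * R) :=
          mul_le_mul h5 hGn (norm_nonneg _) (Real.exp_pos _).le
      _ = Real.exp (4 * R + (27 * R ^ 2 / t + 18 * R)) := (Real.exp_add _ _).symm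
      _ ≤ Real.exp (30 * (R ^ 2 / t + R)) := by
          apply Real.exp_le_exp.2
          have h7 : 0 ≤ R ^ 2 / t := by positivity
          have h8 : 27 * R ^ 2 / t = 27 * (R ^ 2 / t) := by ring
          rw [h8]
          linarith

end Pool.Agent.LGO.Bs
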