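import Mathlib
import Pool.Agent.EllSch.Lattice
import Pool.Agent.EllSch.Cusp

/-!
# LGO base: `℘` away from the lattice `ℤ + ℤ τ`

Let `t ≤ Im τ`, `μ = min 1 t`.

* `lat_sep`: a lattice vector `m + n τ ≠ 0` has absolute value `≥ μ` (`n ≠ 0`: `≥ |n| Im τ`).
* `lat_big`: if `|Re τ| ≤ 1/2`, then `‖m + n τ‖ ≥ (μ / 2) max(|m|, |n|)` (`|m| ≤ |n|`: `≥ |n| Im τ`;
  `|m| > |n|`: `≥ |m| - |n| / 2`).
* `wp_bd`: replacing `τ` by `τ + k` (`k` an integer) does not change the lattice and the function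
  (`EllSch.wp_change`, `off_change`, or `tsum_change`), so let `|Re τ| ≤ 1/2`.  Lattice points with
  `‖l‖ ≤ 2 R` have indices `‖x‖ ≤ 4 R / μ`, there are at most `(9 R / μ)²` of them, and each term
  `1/(z-l)² - 1/l²` is at most `16/μ² + 1/μ²` (`1 / 0 = 0` for `l = 0`).  For `‖l‖ > 2 R ≥ 2 ‖z‖` the
  term is `z (2 l - z) / ((z - l)² l²)`, at most `10 R / ‖l‖³ ≤ 80 R / (μ³ ‖x‖³)`
  (`EllSch.Cusp` has `term_bound` and `summable_norm_cube`).  So `‖℘(z)‖ ≤ C R² / μ⁴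
  ≤ exp(C' (R² / t + R))` (`log(1 / μ) ≤ 1 / t ≤ R² / t`, `log R ≤ R`).
-/

namespace Pool.Agent.LGO.Bs

open Pool.Agent.EllSch

theorem lat_sep {τ : ℂ} {t : ℝ} (ht : 0 < t) (h : t ≤ τ.im) {x : ℤ × ℤ} (hx : x ≠ 0) :
    min 1 t ≤ ‖lat 1 τ x‖ := by
  have him : (lat 1 τ x).im = x.2 * τ.im := by simp [lat]
  have hτ : 0 < τ.im := by linarith
  by_cases h2 : x.2 = 0
  · have h1 : x.1 ≠ 0 := by
      intro h1
      exact hx (Prod.ext h1 h2)
    have h3 : lat 1 τ x = (x.1 : ℂ) := by simp [lat, h2]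
    rw [h3, Complex.norm_intCast]
    have h4 : (1 : ℝ) ≤ |(x.1 : ℝ)| := by
      have := Int.one_le_abs h1
      exact_mod_cast this
    exact (min_le_left _ _).trans h4
  · have h4 : (1 : ℝ) ≤ |(x.2 : ℝ)| := by
      have := Int.one_le_abs h2
      exact_mod_cast this
    calc min 1 t ≤ t := min_le_right _ _
      _ ≤ τ.im := h
      _ ≤ |(x.2 : ℝ)| * τ.im := by nlinarith
      _ = |(lat 1 τ x).im| := by rw [him, abs_mul, abs_of_pos hτ]
      _ ≤ _ := Complex.abs_im_le_norm _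

theorem lat_big {τ : ℂ} {t : ℝ} (ht : 0 < t) (h : t ≤ τ.im) (h1 : |τ.re| ≤ 1 / 2) (x : ℤ × ℤ) :
    min 1 t / 2 * ‖x‖ ≤ ‖lat 1 τ x‖ := by
  have hre : (lat 1 τ x).re = x.1 + x.2 * τ.re := by simp [lat]
  have him : (lat 1 τ x).im = x.2 * τ.im := by simp [lat]
  have hτ : 0 < τ.im := by linarith
  have hm1 : min 1 t ≤ 1 := min_le_left _ _
  have hm2 : min 1 t ≤ t := min_le_right _ _
  have hm0 : 0 < min 1 t := lt_min one_pos ht
  rw [Prod.norm_def, Int.norm_eq_abs, Int.norm_eq_abs]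
  have h3 : |(x.2 : ℝ)| * t ≤ ‖lat 1 τ x‖ := by
    calc |(x.2 : ℝ)| * t ≤ |(x.2 : ℝ)| * τ.im := by gcongr
      _ = |(lat 1 τ x).im| := by rw [him, abs_mul, abs_of_pos hτ]
      _ ≤ _ := Complex.abs_im_le_norm _
  rcases le_total |(x.1 : ℝ)| |(x.2 : ℝ)| with h' | h'
  · rw [max_eq_right h']
    have := abs_nonneg (x.2 : ℝ)
    nlinarith
  · rw [max_eq_left h']
    have h4 : |(x.1 : ℝ)| - |(x.2 : ℝ)| * (1 / 2) ≤ |(lat 1 τ x).re| := by
      rw [hre]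
      have h5 : |(x.2 : ℝ) * τ.re| ≤ |(x.2 : ℝ)| * (1 / 2) := by
        rw [abs_mul]; gcongr
      have h6 := abs_sub_abs_le_abs_sub (x.1 : ℝ) (-((x.2 : ℝ) * τ.re))
      rw [abs_neg, sub_neg_eq_add] at h6
      linarith
    have h7 := Complex.abs_re_le_norm (lat 1 τ x)
    have h8 := abs_nonneg (x.1 : ℝ)
    nlinarith

/-- the finite set of small indices -/
noncomputable def BsWpS (N : ℤ) : Finset (ℤ × ℤ) := Finset.Icc (-N) N ×ˢ Finset.Icc (-N) N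

theorem BsWp_notMem {B : ℝ} {x : ℤ × ℤ} (hx : x ∉ BsWpS ⌊B⌋) : B < ‖x‖ := by
  by_contra hc
  rw [not_lt] at hc
  apply hx
  rw [Prod.norm_def, Int.norm_eq_abs, Int.norm_eq_abs, max_le_iff] at hc
  have h : ∀ m : ℤ, |(m : ℝ)| ≤ B → m ∈ Finset.Icc (-⌊B⌋) ⌊B⌋ := by
    intro m hm
    rw [abs_le] at hm
    rw [Finset.mem_Icc]
    constructor
    · have h1 : -m ≤ ⌊B⌋ := by
        rw [Int.le_floor]
        push_cast
        linarith
      linarith
    · rw [Int.le_floor]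
      exact hm.2
  exact Finset.mem_product.2 ⟨h _ hc.1, h _ hc.2⟩

theorem BsWp_card {B : ℝ} (hB : 0 ≤ B) : ((BsWpS ⌊B⌋).card : ℝ) ≤ (2 * B + 1) ^ 2 := by
  have h0 : 0 ≤ ⌊B⌋ := Int.floor_nonneg.2 hB
  have h1 : ((Finset.Icc (-⌊B⌋) ⌊B⌋).card : ℝ) ≤ 2 * B + 1 := by
    rw [Int.card_Icc]
    have h2 : ((⌊B⌋ + 1 - -⌊B⌋).toNat : ℤ) = 2 * ⌊B⌋ + 1 := by
      rw [Int.toNat_of_nonneg (by linarith)]
      ring
    have h3 : (((⌊B⌋ + 1 - -⌊B⌋).toNat : ℤ) : ℝ) = 2 * ⌊B⌋ + 1 := by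
      rw [h2]
      push_cast
      ring
    rw [Int.cast_natCast] at h3
    rw [h3]
    have := Int.floor_le B
    linarith
  rw [BsWpS, Finset.card_product]
  push_cast
  rw [sq]
  gcongr

/-- the case `|Re τ| ≤ 1/2` -/
theorem BsWp_aux {τ z : ℂ} {t R : ℝ} (ht : 0 < t) (h : t ≤ τ.im) (h1 : |τ.re| ≤ 1 / 2)
    (hR : 1 ≤ R) (hz : ‖z‖ ≤ R) (hs : ∀ x : ℤ × ℤ, min 1 t / 4 ≤ ‖z - lat 1 τ x‖) :
    ‖wp 1 τ z‖ ≤ (1377 + 80 * ∑' x : ℤ × ℤ, 1 / ‖x‖ ^ 3) * (R ^ 2 / min 1 t ^ 4) := by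
  classical
  set μ := min 1 t with hμ
  have hm1 : μ ≤ 1 := min_le_left _ _
  have hm0 : 0 < μ := lt_min one_pos ht
  have hR0 : 0 < R := by linarith
  set Z := ∑' x : ℤ × ℤ, 1 / ‖x‖ ^ 3 with hZ
  have hZ0 : 0 ≤ Z := tsum_nonneg fun x => by positivity
  set B : ℝ := 4 * R / μ with hB
  have hB0 : 0 ≤ B := by positivity
  set S := BsWpS ⌊B⌋ with hS
  let g : ℤ × ℤ → ℝ := fun x => (if x ∈ S then 17 / μ ^ 2 else 0) + 80 * R / μ ^ 3 * (1 / ‖x‖ ^ 3)
  have hg : HasSum g (S.card * (17 / μ ^ 2) + 80 * R / μ ^ 3 * Z) := by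
    refine HasSum.add ?_ (Cusp.summable_norm_cube.hasSum.mul_left _)
    have h2 : HasSum (fun x : ℤ × ℤ => if x ∈ S then 17 / μ ^ 2 else 0)
        (∑ x ∈ S, if x ∈ S then 17 / μ ^ 2 else 0) :=
      hasSum_sum_of_ne_finset_zero fun x hx => if_neg hx
    convert h2 using 1
    rw [Finset.sum_congr rfl fun x hx => if_pos hx, Finset.sum_const, nsmul_eq_mul]
  have hfg : ∀ x : ℤ × ℤ, ‖1 / (z - lat 1 τ x) ^ 2 - 1 / lat 1 τ x ^ 2‖ ≤ g x := by
    intro x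
    by_cases hx : x ∈ S
    · have h3 : ‖1 / (z - lat 1 τ x) ^ 2‖ ≤ 16 / μ ^ 2 := by
        rw [norm_div, norm_one, norm_pow]
        have h4 := hs x
        have h5 : (μ / 4) ^ 2 ≤ ‖z - lat 1 τ x‖ ^ 2 := by gcongr
        calc 1 / ‖z - lat 1 τ x‖ ^ 2 ≤ 1 / (μ / 4) ^ 2 := by
              exact one_div_le_one_div_of_le (by positivity) h5
          _ = 16 / μ ^ 2 := by
              field_simp
              norm_num
      have h4 : ‖1 / lat 1 τ x ^ 2‖ ≤ 1 / μ ^ 2 := by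
        by_cases hx0 : x = 0
        · subst hx0
          have : lat 1 τ 0 = 0 := by simp [lat]
          rw [this]
          simp
          positivity
        · rw [norm_div, norm_one, norm_pow]
          have h5 := lat_sep ht h hx0
          have h6 : μ ^ 2 ≤ ‖lat 1 τ x‖ ^ 2 := by gcongr
          exact one_div_le_one_div_of_le (by positivity) h6
      have h5 : g x = 17 / μ ^ 2 + 80 * R / μ ^ 3 * (1 / ‖x‖ ^ 3) := by
        simp only [g]
        rw [if_pos hx]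
      have h6 : 0 ≤ 80 * R / μ ^ 3 * (1 / ‖x‖ ^ 3) := by positivity
      have h7 : 16 / μ ^ 2 + 1 / μ ^ 2 = 17 / μ ^ 2 := by ring
      have h8 := norm_sub_le (1 / (z - lat 1 τ x) ^ 2) (1 / lat 1 τ x ^ 2)
      rw [h5]
      linarith
    · have h3 := BsWp_notMem hx
      have h4 := lat_big ht h h1 x
      have hx0 : 0 < ‖x‖ := lt_of_le_of_lt hB0 h3
      have h5 : 2 * R ≤ ‖lat 1 τ x‖ := by
        refine le_trans ?_ h4
        have h6 : μ / 2 * B = 2 * R := by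
          rw [hB]
          field_simp
          norm_num
        calc 2 * R = μ / 2 * B := h6.symm
          _ ≤ μ / 2 * ‖x‖ := by gcongr
      have h6 := Cusp.term_bound hR0 hz h5
      refine h6.trans ?_
      have h7 : g x = 80 * R / μ ^ 3 * (1 / ‖x‖ ^ 3) := by
        simp only [g]
        rw [if_neg hx, zero_add]
      rw [h7]
      have h8 : (μ / 2 * ‖x‖) ^ 3 ≤ ‖lat 1 τ x‖ ^ 3 := by gcongr
      calc 10 * R * (1 / ‖lat 1 τ x‖ ^ 3) ≤ 10 * R * (1 / (μ / 2 * ‖x‖) ^ 3) := by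
            refine mul_le_mul_of_nonneg_left ?_ (by positivity)
            exact one_div_le_one_div_of_le (by positivity) h8
        _ = 80 * R / μ ^ 3 * (1 / ‖x‖ ^ 3) := by
            field_simp
            norm_num
  have h2 : ‖wp 1 τ z‖ ≤ S.card * (17 / μ ^ 2) + 80 * R / μ ^ 3 * Z :=
    tsum_of_norm_bounded hg hfg
  refine h2.trans ?_
  have h3 : (S.card : ℝ) ≤ (9 * R / μ) ^ 2 := by
    refine (BsWp_card hB0).trans ?_
    have h4 : 2 * B + 1 ≤ 9 * R / μ := by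
      rw [hB, le_div_iff₀ hm0]
      have h5 : (2 * (4 * R / μ) + 1) * μ = 8 * R + μ := by
        field_simp
        ring
      rw [h5]
      linarith
    gcongr
  have h4 : (S.card : ℝ) * (17 / μ ^ 2) ≤ 1377 * (R ^ 2 / μ ^ 4) := by
    calc (S.card : ℝ) * (17 / μ ^ 2) ≤ (9 * R / μ) ^ 2 * (17 / μ ^ 2) := by gcongr
      _ = 1377 * (R ^ 2 / μ ^ 4) := by
          field_simp
          ring
  have h5 : 80 * R / μ ^ 3 * Z ≤ 80 * Z * (R ^ 2 / μ ^ 4) := by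
    have h6 : R / μ ^ 3 ≤ R ^ 2 / μ ^ 4 := by
      rw [div_le_div_iff₀ (by positivity) (by positivity)]
      have h7 : 0 ≤ μ ^ 3 * R := by positivity
      nlinarith [mul_le_mul_of_nonneg_left (le_trans hm1 hR) h7]
    calc 80 * R / μ ^ 3 * Z = 80 * Z * (R / μ ^ 3) := by ring
      _ ≤ 80 * Z * (R ^ 2 / μ ^ 4) := by gcongr
  linarith

theorem wp_bd : ∃ C : ℝ, 1 ≤ C ∧ ∀ (τ z : ℂ) (t R : ℝ), 0 < t → t ≤ τ.im → 1 ≤ R → ‖z‖ ≤ R →
    (∀ x : ℤ × ℤ, min 1 t / 4 ≤ ‖z - lat 1 τ x‖) →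
    ‖wp 1 τ z‖ ≤ Real.exp (C * (R ^ 2 / t + R)) := by
  set Z := ∑' x : ℤ × ℤ, 1 / ‖x‖ ^ 3 with hZ
  have hZ0 : 0 ≤ Z := tsum_nonneg fun x => by positivity
  set K : ℝ := 1377 + 80 * Z with hK
  have hK0 : 0 < K := by positivity
  refine ⟨4 + K, by linarith, ?_⟩
  intro τ z t R ht h hR hz hs
  have hR0 : 0 < R := by linarith
  -- reduction to `|Re τ| ≤ 1/2`
  have key : ‖wp 1 τ z‖ ≤ K * (R ^ 2 / min 1 t ^ 4) := by
    set k : ℤ := round τ.re with hk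
    have hd : (1 : ℤ) * 1 - 0 * (-k) = 1 := by ring
    have e1 := wp_change (a := 1) (b := τ) hd z
    have e2 : ((1 : ℤ) : ℂ) * 1 + ((0 : ℤ) : ℂ) * τ = 1 := by simp
    have e3 : ((-k : ℤ) : ℂ) * 1 + ((1 : ℤ) : ℂ) * τ = τ - k := by
      push_cast
      ring
    rw [e2, e3] at e1
    rw [← e1]
    refine BsWp_aux ht ?_ ?_ hR hz ?_
    · simpa using h
    · have h4 := abs_sub_round τ.re
      simpa using h4
    · intro x
      have e4 := lat_change (a := 1) (b := τ) hd x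
      rw [e2, e3] at e4
      rw [e4]
      exact hs _
  refine key.trans ?_
  have hm0 : 0 < min 1 t := lt_min one_pos ht
  have h1 : R ^ 2 ≤ Real.exp (2 * R) := by
    have h2 : R ≤ Real.exp R := by
      have := Real.add_one_le_exp R
      linarith
    calc R ^ 2 ≤ Real.exp R ^ 2 := by gcongr
      _ = Real.exp (2 * R) := by
          rw [← Real.exp_nat_mul]
          norm_num
  have h2 : 1 / min 1 t ^ 4 ≤ Real.exp (4 * (R ^ 2 / t)) := by
    have h3 : 1 / min 1 t ≤ Real.exp (R ^ 2 / t) := by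
      rcases le_total 1 t with h4 | h4
      · rw [min_eq_left h4, div_one]
        exact Real.one_le_exp (by positivity)
      · rw [min_eq_right h4]
        have h5 : 1 / t ≤ R ^ 2 / t := by
          gcongr
          nlinarith
        have h6 := Real.add_one_le_exp (R ^ 2 / t)
        linarith
    calc 1 / min 1 t ^ 4 = (1 / min 1 t) ^ 4 := by rw [div_pow, one_pow]
      _ ≤ Real.exp (R ^ 2 / t) ^ 4 := by gcongr
      _ = Real.exp (4 * (R ^ 2 / t)) := by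
          rw [← Real.exp_nat_mul]
          norm_num
  have h3 : K ≤ Real.exp (K * R) := by
    have h4 := Real.add_one_le_exp (K * R)
    nlinarith
  calc K * (R ^ 2 / min 1 t ^ 4) = K * (R ^ 2 * (1 / min 1 t ^ 4)) := by ring
    _ ≤ Real.exp (K * R) * (Real.exp (2 * R) * Real.exp (4 * (R ^ 2 / t))) := by gcongr
    _ = Real.exp (K * R + (2 * R + 4 * (R ^ 2 / t))) := by rw [Real.exp_add, Real.exp_add]
    _ ≤ Real.exp ((4 + K) * (R ^ 2 / t + R)) := by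
        apply Real.exp_le_exp.2
        have h5 : 0 ≤ K * (R ^ 2 / t) := by positivity
        nlinarith

end Pool.Agent.LGO.Bs
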