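import Mathlib
import Pool.Agent.LGO.A.BsProd
import Pool.Agent.LGO.A.BsWp
import Pool.Agent.LGO.EDefs
import Pool.Agent.LGO.A.MulIu

/-!
# LGO base: entire multipliers with small growth

* `growth`.  Let `S` be the function of `sprod`, `s = w² S²`, and
  `e(z) = S(z)² wp 1 τ z` off the lattice, extended to the lattice points: near a lattice point `l`
  (`S(l) = 0`, `S` differentiable) `S² ℘` is bounded, so the singularity is removable
  (`Complex.differentiableOn_update_limUnder_of_bddAbove` ..., lattice points are isolated; define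
  `e z = limUnder (𝓝[≠] z) (fun u => S u ^ 2 * wp 1 τ u)` for all `z`, for instance).
  `wp w (w τ) (w z) = wp 1 τ z / w²` (`EllSch.wp_smul`), so `e(z) = s(z) wp w (w τ) (w z)` off the
  lattice.  `e(0) = lim (S(z)/z)² z² ℘(z) = S'(0)² = 1` (`EllSch.Basic.tendsto_sq_mul_wp`).
  Periodicity of `e`: off the lattice from `S(z + 1)² = S(z)²` and periodicity of `℘`, then by
  continuity.  Growth: `μ = min 1 t`.  If `‖z - l‖ ≥ μ / 4` for all lattice points: `sprod` and `wp_bd`.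
  Otherwise `‖z - l‖ < μ / 4` for some `l`; all points of the circle `‖z' - l‖ = μ / 2` have distance
  `≥ μ / 4` from the lattice (`lat_sep`) and `‖z'‖ ≤ R + 1`; maximum principle on the disc.
* `growth_vec`: `ω = w (m + n τ)`, `g = gcd(m, n)`, `m = g p`, `n = g q'`, `p s - q' r = 1` (`r, s`
  integers): `τ' = (r + s τ) / (p + q' τ)`, `w' = w (p + q' τ)`, `Im τ' = Im τ / ‖p + q' τ‖²`; the
  lattice and the functions do not change (`EllSch.wp_change`, `off_change` for the basis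
  `(w', w' τ')`); `ω = g w'`, so take `z ↦ s(g z)`, `e(g z)` for the functions `s, e` of `growth` for
  `(w', τ')`, `t' = Im τ'`: periodic, and for `‖z‖ ≤ R`: `(g R)² / t' + g R` with
  `g² / t' = ‖ω‖² / (‖w‖² Im τ) ≤ ρ² / T`, `g ≤ 2 ρ` because `‖p + q' τ‖ ≥ 1 / 2` (`Im τ ≥ T ≥ 1/2`).
  `‖w'‖² = ‖ω / g‖² ≤ ρ² ‖w‖² ≤ ‖w‖² exp(2 ρ)`.
* `Ent.rel`: off the lattice `℘ ≠ 0`, `iu = 1 / ℘`; at a lattice point `s = 0` and `iu = 0`
  (`Mul.iu_add_lat`, `Mul.iu_zero` in `MulIu.lean`).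
-/

namespace Pool.Agent.LGO.Bs

open Pool.Agent.EllSch Filter Topology

/-- the properties of the two entire functions with `e / s = ℘(ω z)` -/
structure Ent (w τ ω : ℂ) (G : ℝ → ℝ) (s e : ℂ → ℂ) : Prop where
  ds : Differentiable ℂ s
  de : Differentiable ℂ e
  ps : ∀ z, s (z + 1) = s z
  pe : ∀ z, e (z + 1) = e z
  e0 : e 0 = 1
  off : ∀ z, Off w (w * τ) (ω * z) → e z = s z * wp w (w * τ) (ω * z)
  on : ∀ z, ¬ Off w (w * τ) (ω * z) → s z = 0
  be : ∀ R : ℝ, 1 ≤ R → ∀ z : ℂ, ‖z‖ ≤ R → ‖e z‖ ≤ Real.exp (G R)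
  bs : ∀ R : ℝ, 1 ≤ R → ∀ z : ℂ, ‖z‖ ≤ R → ‖s z‖ ≤ ‖w‖ ^ 2 * Real.exp (G R)

/-! ### the extension of `S² ℘` to the lattice points -/

open Classical in
/-- `S² ℘` off the lattice, `S'²` at the lattice points -/
noncomputable def BsG_ext (S : ℂ → ℂ) (τ z : ℂ) : ℂ :=
  if Off 1 τ z then S z ^ 2 * wp 1 τ z else deriv S z ^ 2

theorem BsG_ext_off {S : ℂ → ℂ} {τ z : ℂ} (h : Off 1 τ z) :
    BsG_ext S τ z = S z ^ 2 * wp 1 τ z := if_pos h

theorem BsG_ext_on {S : ℂ → ℂ} {τ z : ℂ} (h : ¬ Off 1 τ z) :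
    BsG_ext S τ z = deriv S z ^ 2 := if_neg h

theorem BsG_ind {τ : ℂ} (h : 0 < τ.im) : Ind 1 τ := by
  unfold Ind
  simp only [Complex.one_re, Complex.one_im, one_mul, zero_mul, sub_zero]
  exact h.ne'

theorem BsG_off_one {τ z : ℂ} : Off 1 τ (z + 1) ↔ Off 1 τ z := by
  have h := off_add_lat (a := 1) (b := τ) (z := z) (1, 0)
  have e : lat 1 τ (1, 0) = 1 := by simp [lat]
  rwa [e] at h

theorem BsG_wp_one {τ : ℂ} (h : Ind 1 τ) (z : ℂ) : wp 1 τ (z + 1) = wp 1 τ z := by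
  have h1 := wp_add_lat h z (1, 0)
  have e : lat 1 τ (1, 0) = 1 := by simp [lat]
  rwa [e] at h1

theorem BsG_ext_per {S : ℂ → ℂ} {τ : ℂ} (h : Ind 1 τ) (hp : ∀ z, S (z + 1) = -S z) (z : ℂ) :
    BsG_ext S τ (z + 1) = BsG_ext S τ z := by
  by_cases hz : Off 1 τ z
  · rw [BsG_ext_off (BsG_off_one.2 hz), BsG_ext_off hz, hp, BsG_wp_one h, neg_sq]
  · rw [BsG_ext_on (fun h1 => hz (BsG_off_one.1 h1)), BsG_ext_on hz]
    have h1 : deriv S (z + 1) = -deriv S z := by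
      rw [← deriv_comp_add_const, ← deriv.fun_neg]
      congr 1
      funext u
      exact hp u
    rw [h1, neg_sq]

theorem BsG_tendsto {S : ℂ → ℂ} {τ : ℂ} (h : Ind 1 τ) (hd : Differentiable ℂ S)
    (h0 : ∀ m n : ℤ, S (m + n * τ) = 0) (x : ℤ × ℤ) :
    Tendsto (fun z => S z ^ 2 * wp 1 τ z) (𝓝[≠] (lat 1 τ x)) (𝓝 (deriv S (lat 1 τ x) ^ 2)) := by
  have hS : S (lat 1 τ x) = 0 := by
    have := h0 x.1 x.2
    unfold lat
    rwa [mul_one]
  have h1 := (hasDerivAt_iff_tendsto_slope.1 (hd (lat 1 τ x)).hasDerivAt).pow 2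
  have h2 : Tendsto (fun z => z - lat 1 τ x) (𝓝[≠] (lat 1 τ x)) (𝓝[≠] 0) := by
    rw [tendsto_nhdsWithin_iff]
    constructor
    · have : Tendsto (fun z => z - lat 1 τ x) (𝓝 (lat 1 τ x)) (𝓝 (lat 1 τ x - lat 1 τ x)) :=
        (continuous_id.sub continuous_const).tendsto _
      rw [sub_self] at this
      exact this.mono_left nhdsWithin_le_nhds
    · filter_upwards [self_mem_nhdsWithin] with z hz
      exact sub_ne_zero.2 hz
  have h3 := (Basic.tendsto_sq_mul_wp h).comp h2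
  have h4 := h1.mul h3
  rw [mul_one] at h4
  refine h4.congr' ?_
  filter_upwards [self_mem_nhdsWithin] with z hz
  have hz' : z - lat 1 τ x ≠ 0 := sub_ne_zero.2 hz
  have h5 : wp 1 τ (z - lat 1 τ x) = wp 1 τ z := by
    have h6 := wp_add_lat h (z - lat 1 τ x) x
    rw [sub_add_cancel] at h6
    exact h6.symm
  simp only [Function.comp_apply, h5, slope_def_field, hS, sub_zero]
  field_simp

theorem BsG_ext_diff {S : ℂ → ℂ} {τ : ℂ} (h : Ind 1 τ) (hd : Differentiable ℂ S)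
    (h0 : ∀ m n : ℤ, S (m + n * τ) = 0) : Differentiable ℂ (BsG_ext S τ) := by
  have hoff : ∀ z, Off 1 τ z → DifferentiableAt ℂ (BsG_ext S τ) z := by
    intro z hz
    have h1 : DifferentiableAt ℂ (fun z => S z ^ 2 * wp 1 τ z) z :=
      ((hd z).pow 2).mul (Basic.differentiableAt_wp h hz)
    refine h1.congr_of_eventuallyEq ?_
    filter_upwards [(isOpen_off h).mem_nhds hz] with u hu
    exact BsG_ext_off hu
  intro z
  by_cases hz : Off 1 τ z
  · exact hoff z hz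
  · obtain ⟨x, rfl⟩ := (Basic.not_off_iff 1 τ z).1 hz
    refine (Complex.analyticAt_of_differentiable_on_punctured_nhds_of_continuousAt ?_
      ?_).differentiableAt
    · filter_upwards [Basic.eventually_off h (lat 1 τ x)] with u hu
      exact hoff u hu
    · rw [continuousAt_iff_punctured_nhds, BsG_ext_on hz]
      refine (BsG_tendsto h hd h0 x).congr' ?_
      filter_upwards [Basic.eventually_off h (lat 1 τ x)] with u hu
      exact (BsG_ext_off hu).symm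

theorem BsG_far {S : ℂ → ℂ} {τ z : ℂ} {A B t : ℝ} (ht : 0 < t) (hA : 0 < A) (hS : ‖S z‖ ≤ A)
    (hB : (∀ x : ℤ × ℤ, min 1 t / 4 ≤ ‖z - lat 1 τ x‖) → ‖wp 1 τ z‖ ≤ B)
    (hz : ∀ x : ℤ × ℤ, min 1 t / 4 ≤ ‖z - lat 1 τ x‖) : ‖BsG_ext S τ z‖ ≤ A ^ 2 * B := by
  have hμ : 0 < min 1 t := lt_min one_pos ht
  have hoff : Off 1 τ z := by
    intro x hx
    have h1 := hz x
    rw [hx, sub_self, norm_zero] at h1
    linarith
  rw [BsG_ext_off hoff, norm_mul, norm_pow]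
  exact mul_le_mul (pow_le_pow_left₀ (norm_nonneg _) hS 2) (hB hz) (norm_nonneg _)
    (by positivity)

theorem BsG_bound {S : ℂ → ℂ} {τ : ℂ} {t C₁ C₂ : ℝ} (ht : 0 < t) (hτ : t ≤ τ.im)
    (hC₁ : 0 ≤ C₁) (hC₂ : 0 ≤ C₂) (hd : Differentiable ℂ S) (h0 : ∀ m n : ℤ, S (m + n * τ) = 0)
    (hS : ∀ R : ℝ, 1 ≤ R → ∀ z : ℂ, ‖z‖ ≤ R → ‖S z‖ ≤ Real.exp (C₁ * (R ^ 2 / t + R)))
    (hW : ∀ (z : ℂ) (R : ℝ), 1 ≤ R → ‖z‖ ≤ R →
      (∀ x : ℤ × ℤ, min 1 t / 4 ≤ ‖z - lat 1 τ x‖) →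
      ‖wp 1 τ z‖ ≤ Real.exp (C₂ * (R ^ 2 / t + R)))
    {R : ℝ} (hR : 1 ≤ R) {z : ℂ} (hz : ‖z‖ ≤ R) :
    ‖BsG_ext S τ z‖ ≤ Real.exp (4 * (2 * C₁ + C₂) * (R ^ 2 / t + R)) := by
  have hI : Ind 1 τ := BsG_ind (ht.trans_le hτ)
  have hμ : 0 < min 1 t := lt_min one_pos ht
  have hμ1 : min 1 t ≤ 1 := min_le_left _ _
  have far : ∀ (R' : ℝ), 1 ≤ R' → R' ≤ R + 1 → ∀ z' : ℂ, ‖z'‖ ≤ R' →
      (∀ x : ℤ × ℤ, min 1 t / 4 ≤ ‖z' - lat 1 τ x‖) →
      ‖BsG_ext S τ z'‖ ≤ Real.exp (4 * (2 * C₁ + C₂) * (R ^ 2 / t + R)) := by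
    intro R' h1 h2 z' hz' hx
    refine (BsG_far (τ := τ) ht (Real.exp_pos _) (hS R' h1 z' hz')
      (fun h => hW z' R' h1 hz' h) hx).trans ?_
    rw [← Real.exp_nat_mul, ← Real.exp_add]
    apply Real.exp_le_exp.2
    have h3 : R' ^ 2 / t ≤ 4 * (R ^ 2 / t) := by
      rw [← mul_div_assoc]
      apply div_le_div_of_nonneg_right _ ht.le
      nlinarith
    have h4 : R' ≤ 4 * R := by linarith
    have h5 : R' ^ 2 / t + R' ≤ 4 * (R ^ 2 / t + R) := by linarith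
    have h6 : 0 ≤ 2 * C₁ + C₂ := by linarith
    have h7 := mul_le_mul_of_nonneg_left h5 h6
    push_cast
    linarith
  by_cases hx : ∀ x : ℤ × ℤ, min 1 t / 4 ≤ ‖z - lat 1 τ x‖
  · exact far R hR (by linarith) z hz hx
  · push Not at hx
    obtain ⟨x, hx⟩ := hx
    have hdiff := BsG_ext_diff hI hd h0
    refine Complex.norm_le_of_forall_mem_frontier_norm_le
      (U := Metric.ball (lat 1 τ x) (min 1 t / 2)) Metric.isBounded_ball
      hdiff.diffContOnCl ?_ ?_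
    · intro z' hz'
      rw [frontier_ball _ (by linarith), mem_sphere_iff_norm] at hz'
      have hn : ‖z'‖ ≤ R + 1 := by
        have h1 : z' = z - (z - lat 1 τ x) + (z' - lat 1 τ x) := by ring
        have h2 : ‖z'‖ ≤ ‖z‖ + ‖z - lat 1 τ x‖ + ‖z' - lat 1 τ x‖ := by
          calc ‖z'‖ = ‖z - (z - lat 1 τ x) + (z' - lat 1 τ x)‖ := by rw [← h1]
            _ ≤ ‖z - (z - lat 1 τ x)‖ + ‖z' - lat 1 τ x‖ := norm_add_le _ _
            _ ≤ ‖z‖ + ‖z - lat 1 τ x‖ + ‖z' - lat 1 τ x‖ := by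
                linarith [norm_sub_le z (z - lat 1 τ x)]
        rw [hz'] at h2
        linarith
      refine far (R + 1) (by linarith) le_rfl z' hn fun y => ?_
      by_cases hyx : y = x
      · rw [hyx, hz']
        linarith
      · have h1 := lat_sep (τ := τ) ht hτ (x := y - x) (sub_ne_zero.2 hyx)
        rw [lat_sub] at h1
        have h2 : ‖lat 1 τ y - lat 1 τ x‖ ≤ ‖z' - lat 1 τ x‖ + ‖z' - lat 1 τ y‖ := by
          have h3 : lat 1 τ y - lat 1 τ x = (z' - lat 1 τ x) - (z' - lat 1 τ y) := by ring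
          rw [h3]
          exact norm_sub_le _ _
        rw [hz'] at h2
        linarith
    · apply subset_closure
      rw [mem_ball_iff_norm]
      linarith

theorem growth : ∃ C : ℝ, 1 ≤ C ∧ ∀ (w τ : ℂ) (t : ℝ), w ≠ 0 → 0 < t → t ≤ τ.im →
    ∃ s e : ℂ → ℂ, Ent w τ w (fun R => C * (R ^ 2 / t + R)) s e := by
  obtain ⟨C₁, hC₁, h1⟩ := sprod
  obtain ⟨C₂, hC₂, h2⟩ := wp_bd
  refine ⟨4 * (2 * C₁ + C₂), by linarith, fun w τ t hw ht hτ => ?_⟩
  obtain ⟨S, hd, hper, h0, hS1, hgr⟩ := h1 τ t ht hτ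
  have hI : Ind 1 τ := BsG_ind (ht.trans_le hτ)
  have hoff : ∀ z, Off w (w * τ) (w * z) ↔ Off 1 τ z := by
    intro z
    have := off_smul (a := 1) (b := τ) hw z
    rwa [mul_one] at this
  refine ⟨fun z => w ^ 2 * S z ^ 2, BsG_ext S τ, ?_⟩
  refine ⟨(hd.pow 2).const_mul _, BsG_ext_diff hI hd h0, fun z => ?_, BsG_ext_per hI hper, ?_,
    fun z hz => ?_, fun z hz => ?_, fun R hR z hz => ?_, fun R hR z hz => ?_⟩
  · simp only [hper, neg_sq]
  · have h3 : ¬ Off 1 τ 0 := by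
      rw [Basic.not_off_iff]
      exact ⟨(0, 0), (Basic.lat_zero 1 τ).symm⟩
    rw [BsG_ext_on h3, hS1, one_pow]
  · have hz' := (hoff z).1 hz
    have h3 := wp_smul (a := 1) (b := τ) hw z
    rw [mul_one] at h3
    rw [BsG_ext_off hz', h3]
    field_simp
  · have hz' : ¬ Off 1 τ z := fun h3 => hz ((hoff z).2 h3)
    obtain ⟨x, rfl⟩ := (Basic.not_off_iff 1 τ z).1 hz'
    have h4 := h0 x.1 x.2
    have h5 : S (lat 1 τ x) = 0 := by
      unfold lat
      rwa [mul_one]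
    simp only [h5]
    ring
  · exact BsG_bound ht hτ (by linarith) (by linarith) hd h0 hgr
      (fun z R hR hz hx => h2 τ z t R ht hτ hR hz hx) hR hz
  · have h3 := hgr R hR z hz
    rw [norm_mul, norm_pow, norm_pow]
    apply mul_le_mul_of_nonneg_left _ (by positivity)
    refine (pow_le_pow_left₀ (norm_nonneg _) h3 2).trans ?_
    rw [← Real.exp_nat_mul]
    apply Real.exp_le_exp.2
    have h4 : 0 ≤ R ^ 2 / t + R := by positivity
    push_cast
    nlinarith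

/-- the change of the basis of the lattice -/
theorem BsG_basis {w τ ω : ℂ} {T : ℝ} (hw : w ≠ 0) (hT : 1 / 2 ≤ T) (hτ : T ≤ τ.im)
    (hL : InLat w τ ω) (h0 : ω ≠ 0) : ∃ (g : ℕ) (w' τ' : ℂ) (p q r s : ℤ), 0 < g ∧
      p * s - q * r = 1 ∧ w' = p * w + q * (w * τ) ∧ w' * τ' = r * w + s * (w * τ) ∧
      ω = g * w' ∧ w' ≠ 0 ∧ ‖w‖ / 2 ≤ ‖w'‖ ∧ 0 < τ'.im ∧ τ'.im * ‖w'‖ ^ 2 = τ.im * ‖w‖ ^ 2 := by
  obtain ⟨⟨m, n⟩, hx⟩ := hL
  have hτ0 : 0 < τ.im := by linarith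
  have hmn : m ≠ 0 ∨ n ≠ 0 := by
    by_contra hcon
    push Not at hcon
    apply h0
    rw [hx, hcon.1, hcon.2]
    simp [lat]
  have hg : 0 < Int.gcd m n := by
    rw [Int.gcd_pos_iff]
    exact hmn
  obtain ⟨p, hp⟩ : ((Int.gcd m n : ℕ) : ℤ) ∣ m := Int.gcd_dvd_left ..
  obtain ⟨q, hq⟩ : ((Int.gcd m n : ℕ) : ℤ) ∣ n := Int.gcd_dvd_right ..
  have hgz : ((Int.gcd m n : ℕ) : ℤ) ≠ 0 := by exact_mod_cast hg.ne'
  have hbez := Int.gcd_eq_gcd_ab m n
  generalize Int.gcd m n = g at hp hq hg hgz hbez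
  generalize Int.gcdA m n = u at hbez
  generalize Int.gcdB m n = v at hbez
  have hdet : p * u - q * (-v) = 1 := by
    apply mul_left_cancel₀ hgz
    rw [hp, hq] at hbez
    linear_combination -hbez
  have hpq : (p : ℂ) + q * τ ≠ 0 := by
    intro h1
    have h2 := congrArg Complex.im h1
    simp only [Complex.add_im, Complex.intCast_im, Complex.mul_im, Complex.intCast_re,
      zero_mul, add_zero, zero_add, Complex.zero_im] at h2
    have hq0 : q = 0 := by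
      rcases mul_eq_zero.1 h2 with h3 | h3
      · exact_mod_cast h3
      · exact absurd h3 hτ0.ne'
    rw [hq0] at h1 hdet
    simp only [Int.cast_zero, zero_mul, add_zero] at h1
    have hp0 : p = 0 := by exact_mod_cast h1
    rw [hp0] at hdet
    simp at hdet
  have hnorm : 1 / 2 ≤ ‖(p : ℂ) + q * τ‖ := by
    by_cases hq0 : q = 0
    · rw [hq0, Int.cast_zero, zero_mul, add_zero, Complex.norm_intCast]
      have hp0 : p ≠ 0 := by
        rintro rfl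
        rw [hq0] at hdet
        simp at hdet
      have h1 : (1 : ℝ) ≤ |(p : ℝ)| := by
        rw [← Int.cast_abs]
        exact_mod_cast Int.one_le_abs hp0
      linarith
    · have h1 := Complex.abs_im_le_norm ((p : ℂ) + q * τ)
      have h2 : ((p : ℂ) + q * τ).im = q * τ.im := by simp
      rw [h2, abs_mul, abs_of_pos hτ0] at h1
      have h3 : (1 : ℝ) ≤ |(q : ℝ)| := by
        rw [← Int.cast_abs]
        exact_mod_cast Int.one_le_abs hq0
      nlinarith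
  have him : (((-v : ℤ) + (u : ℂ) * τ) / ((p : ℂ) + q * τ)).im =
      τ.im / ‖(p : ℂ) + q * τ‖ ^ 2 := by
    have hd' : (p : ℝ) * u + q * v = 1 := by
      have : p * u + q * v = 1 := by linarith
      exact_mod_cast this
    rw [Complex.sq_norm, Complex.div_im, ← sub_div]
    congr 1
    simp only [Complex.add_re, Complex.add_im, Complex.mul_re, Complex.mul_im,
      Complex.intCast_re, Complex.intCast_im, zero_mul, sub_zero, add_zero, zero_add,
      Int.cast_neg, Complex.neg_re, Complex.neg_im, neg_zero]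
    linear_combination τ.im * hd'
  refine ⟨g, w * (p + q * τ), ((-v : ℤ) + (u : ℂ) * τ) / ((p : ℂ) + q * τ), p, q, -v, u, hg,
    hdet, by ring, ?_, ?_, mul_ne_zero hw hpq, ?_, ?_, ?_⟩
  · field_simp
  · rw [hx]
    simp only [lat]
    rw [hp, hq]
    push_cast
    ring
  · rw [norm_mul]
    have := norm_nonneg w
    nlinarith
  · rw [him]
    have : 0 < ‖(p : ℂ) + q * τ‖ := norm_pos_iff.2 hpq
    positivity
  · rw [him, norm_mul]
    have : ‖(p : ℂ) + q * τ‖ ≠ 0 := norm_ne_zero_iff.2 hpq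
    field_simp

theorem growth_vec : ∃ C : ℝ, 1 ≤ C ∧ ∀ (w τ ω : ℂ) (ρ T : ℝ), w ≠ 0 → 1 / 2 ≤ T → T ≤ τ.im →
    InLat w τ ω → ω ≠ 0 → 1 ≤ ρ → ‖ω‖ ≤ ρ * ‖w‖ →
    ∃ s e : ℂ → ℂ, Ent w τ ω (fun R => C * ((ρ * R) ^ 2 / T + ρ * R)) s e := by
  obtain ⟨C, hC, hgrow⟩ := growth
  refine ⟨2 * C + 2, by linarith, fun w τ ω ρ T hw hT hτ hL h0 hρ hω => ?_⟩
  obtain ⟨g, w', τ', p, q, r, u, hg, hdet, ew, eτ, eω, hw', hhalf, him, hprod⟩ :=
    BsG_basis hw hT hτ hL h0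
  obtain ⟨s, e, hE⟩ := hgrow w' τ' τ'.im hw' him le_rfl
  have hwn : 0 < ‖w‖ := norm_pos_iff.2 hw
  have hT0 : 0 < T := by linarith
  have hτ0 : 0 < τ.im := by linarith
  have hg1 : (1 : ℝ) ≤ g := by exact_mod_cast hg
  have hgn : ‖ω‖ = g * ‖w'‖ := by rw [eω, norm_mul, Complex.norm_natCast]
  have hoff : ∀ z, Off w' (w' * τ') z ↔ Off w (w * τ) z := by
    intro z
    rw [eτ, ew]
    exact off_change hdet z
  have hwp : ∀ z, wp w' (w' * τ') z = wp w (w * τ) z := by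
    intro z
    rw [eτ, ew]
    exact wp_change hdet z
  have hmul : ∀ z, ω * z = w' * (g * z) := by
    intro z
    rw [eω]
    ring
  have hg2 : (g : ℝ) ≤ 2 * ρ := by
    have h1 : (g : ℝ) * (‖w‖ / 2) ≤ ρ * ‖w‖ := by
      refine le_trans ?_ hω
      rw [hgn]
      exact mul_le_mul_of_nonneg_left hhalf (by linarith)
    have h2 : (g : ℝ) * ‖w‖ ≤ 2 * ρ * ‖w‖ := by linarith
    exact le_of_mul_le_mul_right h2 hwn
  have hgt : (g : ℝ) ^ 2 / τ'.im ≤ ρ ^ 2 / T := by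
    rw [div_le_div_iff₀ him hT0]
    -- `g² T ≤ ρ² Im τ'`; multiply by `‖w'‖²`
    have hw2 : 0 < ‖w'‖ ^ 2 := by
      have : 0 < ‖w'‖ := norm_pos_iff.2 hw'
      positivity
    have h1 : ((g : ℝ) * ‖w'‖) ^ 2 ≤ (ρ * ‖w‖) ^ 2 := by
      rw [← hgn]
      exact pow_le_pow_left₀ (norm_nonneg _) hω 2
    have h2 : (g : ℝ) ^ 2 * T * ‖w'‖ ^ 2 ≤ ρ ^ 2 * τ'.im * ‖w'‖ ^ 2 := by
      have h3 : ρ ^ 2 * τ'.im * ‖w'‖ ^ 2 = (ρ * ‖w‖) ^ 2 * τ.im := by
        rw [mul_assoc, hprod]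
        ring
      rw [h3]
      have h4 : (g : ℝ) ^ 2 * T * ‖w'‖ ^ 2 = ((g : ℝ) * ‖w'‖) ^ 2 * T := by ring
      rw [h4]
      exact mul_le_mul h1 hτ hT0.le (by positivity)
    exact le_of_mul_le_mul_right h2 hw2
  have hexp : ∀ R : ℝ, 1 ≤ R → (g * R) ^ 2 / τ'.im + g * R ≤
      2 * ((ρ * R) ^ 2 / T + ρ * R) := by
    intro R hR
    have h1 : (g * R) ^ 2 / τ'.im ≤ (ρ * R) ^ 2 / T := by
      have e1 : (g * R) ^ 2 / τ'.im = g ^ 2 / τ'.im * R ^ 2 := by ring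
      have e2 : (ρ * R) ^ 2 / T = ρ ^ 2 / T * R ^ 2 := by ring
      rw [e1, e2]
      exact mul_le_mul_of_nonneg_right hgt (by positivity)
    have h2 : g * R ≤ 2 * ρ * R := mul_le_mul_of_nonneg_right hg2 (by linarith)
    have h3 : 0 ≤ (ρ * R) ^ 2 / T := by positivity
    linarith
  have hnat : ∀ f : ℂ → ℂ, (∀ z, f (z + 1) = f z) → ∀ z, f (z + g) = f z := by
    intro f hf z
    have h1 : Function.Periodic f 1 := hf
    have h2 := h1.nat_mul g
    rw [mul_one] at h2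
    exact h2 z
  refine ⟨fun z => s (g * z), fun z => e (g * z), ?_⟩
  have hbase : ∀ R : ℝ, 1 ≤ R → ∀ z : ℂ, ‖z‖ ≤ R → 1 ≤ g * R ∧ ‖(g : ℂ) * z‖ ≤ g * R := by
    intro R hR z hz
    refine ⟨by nlinarith, ?_⟩
    rw [norm_mul, Complex.norm_natCast]
    exact mul_le_mul_of_nonneg_left hz (by linarith)
  refine ⟨hE.ds.comp (differentiable_id.const_mul _), hE.de.comp (differentiable_id.const_mul _),
    fun z => ?_, fun z => ?_, ?_, fun z hz => ?_, fun z hz => ?_, fun R hR z hz => ?_,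
    fun R hR z hz => ?_⟩
  · simp only [mul_add, mul_one]
    exact hnat s hE.ps _
  · simp only [mul_add, mul_one]
    exact hnat e hE.pe _
  · simp only [mul_zero]
    exact hE.e0
  · rw [hmul] at hz ⊢
    rw [← hwp]
    exact hE.off _ ((hoff _).2 hz)
  · rw [hmul] at hz
    exact hE.on _ fun h1 => hz ((hoff _).1 h1)
  · obtain ⟨h1, h2⟩ := hbase R hR z hz
    refine (hE.be _ h1 _ h2).trans ?_
    apply Real.exp_le_exp.2
    have h3 := hexp R hR
    have h4 : 0 ≤ (ρ * R) ^ 2 / T + ρ * R := by positivity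
    have h5 := mul_le_mul_of_nonneg_left h3 (by linarith : (0 : ℝ) ≤ C)
    linarith
  · obtain ⟨h1, h2⟩ := hbase R hR z hz
    refine (hE.bs _ h1 _ h2).trans ?_
    have h3 := hexp R hR
    have h4 : 0 ≤ (ρ * R) ^ 2 / T := by positivity
    have h5 := mul_le_mul_of_nonneg_left h3 (by linarith : (0 : ℝ) ≤ C)
    have h6 : ‖w'‖ ^ 2 ≤ ‖w‖ ^ 2 * Real.exp (2 * ρ) := by
      have h7 : ‖w'‖ ≤ ρ * ‖w‖ := by
        refine le_trans ?_ hω
        rw [hgn]
        have := norm_nonneg w'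
        nlinarith
      have h8 : ρ ≤ Real.exp ρ := by
        have := Real.add_one_le_exp ρ
        linarith
      have h9 : ‖w'‖ ^ 2 ≤ (ρ * ‖w‖) ^ 2 := pow_le_pow_left₀ (norm_nonneg _) h7 2
      have h10 : ρ ^ 2 ≤ Real.exp (2 * ρ) := by
        have e1 : Real.exp (2 * ρ) = Real.exp ρ ^ 2 := by
          rw [← Real.exp_nat_mul]
          norm_num
        rw [e1]
        exact pow_le_pow_left₀ (by linarith) h8 2
      calc ‖w'‖ ^ 2 ≤ (ρ * ‖w‖) ^ 2 := h9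
        _ = ‖w‖ ^ 2 * ρ ^ 2 := by ring
        _ ≤ ‖w‖ ^ 2 * Real.exp (2 * ρ) := mul_le_mul_of_nonneg_left h10 (by positivity)
    calc ‖w'‖ ^ 2 * Real.exp (C * ((g * R) ^ 2 / τ'.im + g * R))
        ≤ ‖w‖ ^ 2 * Real.exp (2 * ρ) * Real.exp (C * ((g * R) ^ 2 / τ'.im + g * R)) :=
          mul_le_mul_of_nonneg_right h6 (Real.exp_pos _).le
      _ = ‖w‖ ^ 2 * Real.exp (2 * ρ + C * ((g * R) ^ 2 / τ'.im + g * R)) := by
          rw [mul_assoc, ← Real.exp_add]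
      _ ≤ ‖w‖ ^ 2 * Real.exp ((2 * C + 2) * ((ρ * R) ^ 2 / T + ρ * R)) := by
          apply mul_le_mul_of_nonneg_left _ (by positivity)
          apply Real.exp_le_exp.2
          have h7 : ρ ≤ ρ * R := by nlinarith
          linarith

/-- where `℘ ≠ 0`, or at lattice points: `s = (1 / ℘) e` -/
theorem Ent.rel {w τ ω : ℂ} {G : ℝ → ℝ} {s e : ℂ → ℂ} (h : Ent w τ ω G s e)
    (hI : Ind w (w * τ)) {z : ℂ} (hz : Off w (w * τ) (ω * z) → Mul.iu w (w * τ) (ω * z) ≠ 0) :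
    s z = Mul.iu w (w * τ) (ω * z) * e z := by
  by_cases h1 : Off w (w * τ) (ω * z)
  · have h2 := hz h1
    unfold Mul.iu at h2 ⊢
    rw [h.off z h1]
    have h3 : wp w (w * τ) (ω * z) ≠ 0 := by
      intro h4
      apply h2
      rw [h4, inv_zero]
    field_simp
  · rw [h.on z h1]
    obtain ⟨x, hx⟩ := (Basic.not_off_iff _ _ _).1 h1
    have h2 := Mul.iu_add_lat hI 0 x
    rw [zero_add, Mul.iu_zero] at h2
    rw [hx, h2, zero_mul]

end Pool.Agent.LGO.Bs
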