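import Mathlib
import Pool.Agent.LGO.A.BsG

/-!
# LGO base: the entire auxiliary function of the engines 1 and 2

`FF(z) = (e₁(z) e₂(θ z))^L P(s₁/e₁ (z), s₂/e₂ (θ z))`, `P = ∑ c i j X^i Y^j`.

* `FF_diff`: sums, products, powers, composition with `θ z`.
* `FF_bd`: for `‖z‖ ≤ R`, `‖θ z‖ ≤ 2 R`: `‖s₁‖ ≤ W exp(G R)`, `‖e₁‖ ≤ exp(G R)`,
  `‖s₂‖ ≤ W exp(G' (2 R))`, `‖e₂‖ ≤ exp(G' (2 R))`, so `‖s₁^i e₁^(L-i)‖ ≤ W^L exp(G R)^L` (`W ≥ 1`,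
  `i ≤ L`), the same for the second factor; `L²` terms.
* `e_int`, `s_int`: periodicity under integers (induction, or `Function.Periodic.int_mul`).
* `FF_shift`: for an integer `s`: `θ (s + z) = s + (θ z + s (θ - 1))`.
-/

namespace Pool.Agent.LGO.Bs

open Pool.Agent.EllSch

/-- the auxiliary function -/
noncomputable def FF (s₁ e₁ s₂ e₂ : ℂ → ℂ) (θ : ℂ) (L : ℕ) (c : ℕ → ℕ → ℤ) (z : ℂ) : ℂ :=
  ∑ i ∈ Finset.range L, ∑ j ∈ Finset.range L,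
    (c i j : ℂ) * (s₁ z ^ i * e₁ z ^ (L - i)) * (s₂ (θ * z) ^ j * e₂ (θ * z) ^ (L - j))

variable {w₁ τ₁ w₂ τ₂ θ : ℂ} {G G' : ℝ → ℝ} {s₁ e₁ s₂ e₂ : ℂ → ℂ}

private lemma BsF_fac {a b : ℂ} {W E : ℝ} (hW : 1 ≤ W) (hE : 0 ≤ E) (ha : ‖a‖ ≤ W * E)
    (hb : ‖b‖ ≤ E) {i L : ℕ} (hi : i ≤ L) : ‖a ^ i * b ^ (L - i)‖ ≤ W ^ L * E ^ L := by
  have hW0 : 0 ≤ W := by linarith
  rw [norm_mul, norm_pow, norm_pow]
  calc ‖a‖ ^ i * ‖b‖ ^ (L - i) ≤ (W * E) ^ i * E ^ (L - i) :=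
        mul_le_mul (pow_le_pow_left₀ (norm_nonneg _) ha _) (pow_le_pow_left₀ (norm_nonneg _) hb _)
          (by positivity) (by positivity)
    _ = W ^ i * E ^ L := by
        rw [mul_pow, mul_assoc, ← pow_add, Nat.add_sub_cancel' hi]
    _ ≤ W ^ L * E ^ L :=
        mul_le_mul_of_nonneg_right (pow_le_pow_right₀ hW hi) (by positivity)

theorem FF_diff (h₁ : Ent w₁ τ₁ w₁ G s₁ e₁) (h₂ : Ent w₂ τ₂ w₂ G' s₂ e₂) (L : ℕ)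
    (c : ℕ → ℕ → ℤ) : Differentiable ℂ (FF s₁ e₁ s₂ e₂ θ L c) := by
  have a1 := h₁.ds
  have a2 := h₁.de
  have hθ : Differentiable ℂ (fun z : ℂ => θ * z) := differentiable_id.const_mul θ
  have b1 : Differentiable ℂ (fun z : ℂ => s₂ (θ * z)) := h₂.ds.comp hθ
  have b2 : Differentiable ℂ (fun z : ℂ => e₂ (θ * z)) := h₂.de.comp hθ
  unfold FF
  refine Differentiable.fun_sum fun i _ => Differentiable.fun_sum fun j _ => ?_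
  exact (((a1.fun_pow i).fun_mul (a2.fun_pow (L - i))).const_mul _).fun_mul
    ((b1.fun_pow j).fun_mul (b2.fun_pow (L - j)))

theorem FF_bd (h₁ : Ent w₁ τ₁ w₁ G s₁ e₁) (h₂ : Ent w₂ τ₂ w₂ G' s₂ e₂) (hθ : ‖θ‖ ≤ 2)
    {L : ℕ} {c : ℕ → ℕ → ℤ} {Y W : ℝ} (hc : ∀ i < L, ∀ j < L, |(c i j : ℝ)| ≤ Y) (hY : 0 ≤ Y)
    (hW : 1 ≤ W) (hW₁ : ‖w₁‖ ^ 2 ≤ W) (hW₂ : ‖w₂‖ ^ 2 ≤ W) {R : ℝ} (hR : 1 ≤ R) {z : ℂ}
    (hz : ‖z‖ ≤ R) : ‖FF s₁ e₁ s₂ e₂ θ L c z‖ ≤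
      L ^ 2 * Y * W ^ (2 * L) * Real.exp (L * (G R + G' (2 * R))) := by
  have hz2 : ‖θ * z‖ ≤ 2 * R := by
    rw [norm_mul]
    exact mul_le_mul hθ hz (norm_nonneg _) (by norm_num)
  have hR2 : (1 : ℝ) ≤ 2 * R := by linarith
  have k1 : ‖s₁ z‖ ≤ W * Real.exp (G R) :=
    (h₁.bs R hR z hz).trans (mul_le_mul_of_nonneg_right hW₁ (Real.exp_pos _).le)
  have k2 := h₁.be R hR z hz
  have k3 : ‖s₂ (θ * z)‖ ≤ W * Real.exp (G' (2 * R)) :=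
    (h₂.bs _ hR2 _ hz2).trans (mul_le_mul_of_nonneg_right hW₂ (Real.exp_pos _).le)
  have k4 := h₂.be _ hR2 _ hz2
  obtain ⟨M, hM⟩ : ∃ M : ℝ, M = Y * (W ^ L * Real.exp (G R) ^ L) *
      (W ^ L * Real.exp (G' (2 * R)) ^ L) := ⟨_, rfl⟩
  have hterm : ∀ i ∈ Finset.range L, ∀ j ∈ Finset.range L,
      ‖(c i j : ℂ) * (s₁ z ^ i * e₁ z ^ (L - i)) *
        (s₂ (θ * z) ^ j * e₂ (θ * z) ^ (L - j))‖ ≤ M := by
    intro i hi j hj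
    rw [Finset.mem_range] at hi hj
    have t1 := BsF_fac hW (Real.exp_pos _).le k1 k2 hi.le
    have t2 := BsF_fac hW (Real.exp_pos _).le k3 k4 hj.le
    have t3 : ‖(c i j : ℂ)‖ ≤ Y := by
      rw [Complex.norm_intCast]
      exact hc i hi j hj
    rw [norm_mul, norm_mul (c i j : ℂ), hM]
    have hW0 : 0 ≤ W := by linarith
    exact mul_le_mul (mul_le_mul t3 t1 (norm_nonneg _) hY) t2 (norm_nonneg _) (by positivity)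
  unfold FF
  calc ‖∑ i ∈ Finset.range L, ∑ j ∈ Finset.range L, (c i j : ℂ) * (s₁ z ^ i * e₁ z ^ (L - i)) *
        (s₂ (θ * z) ^ j * e₂ (θ * z) ^ (L - j))‖
      ≤ ∑ i ∈ Finset.range L, ∑ j ∈ Finset.range L, M :=
        norm_sum_le_of_le _ fun i hi => norm_sum_le_of_le _ fun j hj => hterm i hi j hj
    _ = L ^ 2 * Y * W ^ (2 * L) * Real.exp (L * (G R + G' (2 * R))) := by
        rw [Finset.sum_const, Finset.sum_const, Finset.card_range, nsmul_eq_mul, nsmul_eq_mul, hM,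
          Real.exp_nat_mul, Real.exp_add, mul_pow, pow_mul]
        ring

theorem s_int {w τ ω : ℂ} {G : ℝ → ℝ} {s e : ℂ → ℂ} (h : Ent w τ ω G s e) (m : ℤ) (z : ℂ) :
    s (m + z) = s z := by
  have hp : Function.Periodic s 1 := h.ps
  have h1 := hp.int_mul m z
  rw [mul_one] at h1
  rw [add_comm]
  exact h1

theorem e_int {w τ ω : ℂ} {G : ℝ → ℝ} {s e : ℂ → ℂ} (h : Ent w τ ω G s e) (m : ℤ) (z : ℂ) :
    e (m + z) = e z := by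
  have hp : Function.Periodic e 1 := h.pe
  have h1 := hp.int_mul m z
  rw [mul_one] at h1
  rw [add_comm]
  exact h1

theorem FF_shift (h₁ : Ent w₁ τ₁ w₁ G s₁ e₁) (h₂ : Ent w₂ τ₂ w₂ G' s₂ e₂) (L : ℕ)
    (c : ℕ → ℕ → ℤ) (m : ℤ) (z : ℂ) : FF s₁ e₁ s₂ e₂ θ L c (m + z) =
      ∑ i ∈ Finset.range L, ∑ j ∈ Finset.range L, (c i j : ℂ) * (s₁ z ^ i * e₁ z ^ (L - i)) *
        (s₂ (θ * z + m * (θ - 1)) ^ j * e₂ (θ * z + m * (θ - 1)) ^ (L - j)) := by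
  have e1 : θ * (m + z) = m + (θ * z + m * (θ - 1)) := by ring
  unfold FF
  rw [s_int h₁, e_int h₁, e1, s_int h₂, e_int h₂]

end Pool.Agent.LGO.Bs
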