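import Mathlib
import Pool.Agent.LGO.A.BsF
import Pool.Agent.LGO.A.BsDisc

/-!
# LGO base: the auxiliary function near an integer

`δ = w₂ - ξ w₁`, `θ = ξ w₁ / w₂` (so `w₂ (θ z + m (θ - 1)) = ξ w₁ z - m δ`).

* `FF_loc`: `FF_shift`, and `Ent.rel` for both pairs: at the points `w₁ z` and `ξ w₁ z - m δ` (both of
  absolute value `≤ 1/(4 X)`) `iu ≠ 0` unless the point is `0` (`disc_ne`), and `0` is in the lattice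
  (so `Off` fails at `0`).  So `s₁ z = u₁(w₁ z) e₁ z` and `s₂(..) = u₂(ξ w₁ z - m δ) e₂(..)`, and
  `u^i e^i e^(L-i) = u^i e^L` for `i ≤ L`; finally `e₂(θ z + m (θ - 1)) = e₂(θ (m + z))` (`e_int`).
* `loc_err`: `‖u₁‖, ‖u₂‖ ≤ 1` on the discs (`disc_le`: `2 ‖z‖² ≤ 1`), `‖a^j - b^j‖ ≤ j ‖a - b‖` for
  `‖a‖, ‖b‖ ≤ 1` (`j < L`), and `disc_lip`: `‖u₂(y) - u₂(y')‖ ≤ 4 ‖y - y'‖`; `L²` terms:
  `L² Y L 4 ‖y - y'‖`.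
* `loc_diff`: differentiability on the closed disc of `z ↦ ∑ c u₁(w₁ z)^i u₂(ξ w₁ z - v)^j` when
  `‖w₁‖ r, ‖ξ w₁‖ r, ‖v‖ ≤ 1/(8 X)` (`disc_diff`: `w₁ z` and `ξ w₁ z - v` stay in the ball of radius
  `1/X`; composition).
-/

namespace Pool.Agent.LGO.Bs

open Pool.Agent.EllSch

variable {w₁ τ₁ w₂ τ₂ ξ : ℂ} {G G' : ℝ → ℝ} {s₁ e₁ s₂ e₂ : ℂ → ℂ} {X : ℝ}

/-- the sum at two independent arguments -/
noncomputable def Pq (w₁ τ₁ w₂ τ₂ : ℂ) (L : ℕ) (c : ℕ → ℕ → ℤ) (y y' : ℂ) : ℂ :=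
  ∑ i ∈ Finset.range L, ∑ j ∈ Finset.range L,
    (c i j : ℂ) * Mul.iu w₁ (w₁ * τ₁) y ^ i * Mul.iu w₂ (w₂ * τ₂) y' ^ j

private lemma BsLoc_ne {a b : ℂ} (h : Ind a b) (hX : 1 ≤ X) (hA : ‖3 / 2 * G2 a b‖ ≤ X ^ 4)
    (hB : ‖2 * G3 a b‖ ≤ X ^ 4) {y : ℂ} (hy : ‖y‖ ≤ 1 / (4 * X)) (ho : Off a b y) :
    Mul.iu a b y ≠ 0 := by
  refine disc_ne h hX hA hB (fun h0 => ?_) hy
  rw [h0] at ho
  exact (Basic.not_off_iff a b 0).2 ⟨0, (Basic.lat_zero a b).symm⟩ ho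

private lemma BsLoc_le {a b : ℂ} (h : Ind a b) (hX : 1 ≤ X) (hA : ‖3 / 2 * G2 a b‖ ≤ X ^ 4)
    (hB : ‖2 * G3 a b‖ ≤ X ^ 4) {y : ℂ} (hy : ‖y‖ ≤ 1 / (4 * X)) : ‖Mul.iu a b y‖ ≤ 1 := by
  have hX0 : 0 < X := by linarith
  have h1 : (1 : ℝ) / (4 * X) ≤ 1 / (2 * X) := by
    apply one_div_le_one_div_of_le (by positivity)
    linarith
  have h2 : (1 : ℝ) / (4 * X) ≤ 1 / 4 := by
    apply one_div_le_one_div_of_le (by norm_num)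
    linarith
  have h3 := disc_le h hX hA hB (hy.trans h1)
  have h4 : ‖y‖ ≤ 1 / 4 := hy.trans h2
  have h5 : ‖y‖ ^ 2 ≤ (1 / 4) ^ 2 := pow_le_pow_left₀ (norm_nonneg _) h4 2
  calc ‖Mul.iu a b y‖ ≤ 2 * ‖y‖ ^ 2 := h3
    _ ≤ 2 * (1 / 4) ^ 2 := by linarith
    _ ≤ 1 := by norm_num

private lemma BsLoc_pow {a b : ℂ} (ha : ‖a‖ ≤ 1) (hb : ‖b‖ ≤ 1) (j : ℕ) :
    ‖a ^ j - b ^ j‖ ≤ j * ‖a - b‖ := by
  induction j with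
  | zero => simp
  | succ j ih =>
    have e : a ^ (j + 1) - b ^ (j + 1) = a ^ j * (a - b) + (a ^ j - b ^ j) * b := by ring
    rw [e]
    refine (norm_add_le _ _).trans ?_
    rw [norm_mul, norm_mul, norm_pow]
    have h1 : ‖a‖ ^ j ≤ 1 := pow_le_one₀ (norm_nonneg _) ha
    have h2 : ‖a‖ ^ j * ‖a - b‖ ≤ 1 * ‖a - b‖ := mul_le_mul_of_nonneg_right h1 (norm_nonneg _)
    have h3 : ‖a ^ j - b ^ j‖ * ‖b‖ ≤ ‖a ^ j - b ^ j‖ * 1 :=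
      mul_le_mul_of_nonneg_left hb (norm_nonneg _)
    push_cast
    linarith

private lemma BsLoc_term (u e : ℂ) {i L : ℕ} (h : i < L) :
    (u * e) ^ i * e ^ (L - i) = u ^ i * e ^ L := by
  rw [mul_pow, mul_assoc, ← pow_add, Nat.add_sub_cancel' h.le]

theorem FF_loc (h₁ : Ent w₁ τ₁ w₁ G s₁ e₁) (h₂ : Ent w₂ τ₂ w₂ G' s₂ e₂)
    (i₁ : Ind w₁ (w₁ * τ₁)) (i₂ : Ind w₂ (w₂ * τ₂)) (hX : 1 ≤ X)
    (hA : ‖3 / 2 * G2 w₁ (w₁ * τ₁)‖ ≤ X ^ 4) (hB : ‖2 * G3 w₁ (w₁ * τ₁)‖ ≤ X ^ 4)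
    (hA' : ‖3 / 2 * G2 w₂ (w₂ * τ₂)‖ ≤ X ^ 4) (hB' : ‖2 * G3 w₂ (w₂ * τ₂)‖ ≤ X ^ 4)
    (hw₂ : w₂ ≠ 0) (L : ℕ) (c : ℕ → ℕ → ℤ) (m : ℤ) {z : ℂ} (hz : ‖w₁ * z‖ ≤ 1 / (4 * X))
    (hz' : ‖ξ * w₁ * z - m * (w₂ - ξ * w₁)‖ ≤ 1 / (4 * X)) :
    FF s₁ e₁ s₂ e₂ (ξ * w₁ / w₂) L c (m + z) =
      (e₁ z * e₂ (ξ * w₁ / w₂ * (m + z))) ^ L *
        Pq w₁ τ₁ w₂ τ₂ L c (w₁ * z) (ξ * w₁ * z - m * (w₂ - ξ * w₁)) := by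
  have hw : w₂ * (ξ * w₁ / w₂ * z + m * (ξ * w₁ / w₂ - 1)) = ξ * w₁ * z - m * (w₂ - ξ * w₁) := by
    field_simp
    ring
  have r₁ : s₁ z = Mul.iu w₁ (w₁ * τ₁) (w₁ * z) * e₁ z :=
    h₁.rel i₁ fun ho => BsLoc_ne i₁ hX hA hB hz ho
  have r₂ : s₂ (ξ * w₁ / w₂ * z + m * (ξ * w₁ / w₂ - 1)) =
      Mul.iu w₂ (w₂ * τ₂) (ξ * w₁ * z - m * (w₂ - ξ * w₁)) *
        e₂ (ξ * w₁ / w₂ * z + m * (ξ * w₁ / w₂ - 1)) := by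
    have h3 := h₂.rel i₂ (z := ξ * w₁ / w₂ * z + m * (ξ * w₁ / w₂ - 1)) (by
      rw [hw]
      exact fun ho => BsLoc_ne i₂ hX hA' hB' hz' ho)
    rw [hw] at h3
    exact h3
  have r₃ : e₂ (ξ * w₁ / w₂ * (m + z)) = e₂ (ξ * w₁ / w₂ * z + m * (ξ * w₁ / w₂ - 1)) := by
    rw [← e_int h₂ m (ξ * w₁ / w₂ * z + m * (ξ * w₁ / w₂ - 1))]
    congr 1
    ring
  rw [FF_shift h₁ h₂, r₁, r₂, r₃, Pq, Finset.mul_sum]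
  refine Finset.sum_congr rfl fun i hi => ?_
  rw [Finset.mul_sum]
  refine Finset.sum_congr rfl fun j hj => ?_
  rw [BsLoc_term _ _ (Finset.mem_range.1 hi), BsLoc_term _ _ (Finset.mem_range.1 hj), mul_pow]
  ring

theorem loc_err (i₁ : Ind w₁ (w₁ * τ₁)) (i₂ : Ind w₂ (w₂ * τ₂)) (hX : 1 ≤ X)
    (hA : ‖3 / 2 * G2 w₁ (w₁ * τ₁)‖ ≤ X ^ 4) (hB : ‖2 * G3 w₁ (w₁ * τ₁)‖ ≤ X ^ 4)
    (hA' : ‖3 / 2 * G2 w₂ (w₂ * τ₂)‖ ≤ X ^ 4) (hB' : ‖2 * G3 w₂ (w₂ * τ₂)‖ ≤ X ^ 4)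
    {L : ℕ} {c : ℕ → ℕ → ℤ} {Y : ℝ} (hc : ∀ i < L, ∀ j < L, |(c i j : ℝ)| ≤ Y) (hY : 0 ≤ Y)
    {y y' y'' : ℂ} (hy : ‖y‖ ≤ 1 / (4 * X)) (hy' : ‖y'‖ ≤ 1 / (4 * X))
    (hy'' : ‖y''‖ ≤ 1 / (4 * X)) :
    ‖Pq w₁ τ₁ w₂ τ₂ L c y y' - Pq w₁ τ₁ w₂ τ₂ L c y y''‖ ≤ 4 * L ^ 3 * Y * ‖y' - y''‖ := by
  have e : Pq w₁ τ₁ w₂ τ₂ L c y y' - Pq w₁ τ₁ w₂ τ₂ L c y y'' =
      ∑ i ∈ Finset.range L, ∑ j ∈ Finset.range L,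
        (c i j : ℂ) * Mul.iu w₁ (w₁ * τ₁) y ^ i *
          (Mul.iu w₂ (w₂ * τ₂) y' ^ j - Mul.iu w₂ (w₂ * τ₂) y'' ^ j) := by
    rw [Pq, Pq, ← Finset.sum_sub_distrib]
    refine Finset.sum_congr rfl fun i _ => ?_
    rw [← Finset.sum_sub_distrib]
    refine Finset.sum_congr rfl fun j _ => ?_
    ring
  have hterm : ∀ i ∈ Finset.range L, ∀ j ∈ Finset.range L,
      ‖(c i j : ℂ) * Mul.iu w₁ (w₁ * τ₁) y ^ i *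
          (Mul.iu w₂ (w₂ * τ₂) y' ^ j - Mul.iu w₂ (w₂ * τ₂) y'' ^ j)‖ ≤
        Y * (L * (4 * ‖y' - y''‖)) := by
    intro i hi j hj
    have h1 := BsLoc_le i₁ hX hA hB hy
    have h2 := BsLoc_pow (BsLoc_le i₂ hX hA' hB' hy') (BsLoc_le i₂ hX hA' hB' hy'') j
    have h3 := disc_lip i₂ hX hA' hB' hy' hy''
    have h4 : ‖Mul.iu w₁ (w₁ * τ₁) y ^ i‖ ≤ 1 := by
      rw [norm_pow]
      exact pow_le_one₀ (norm_nonneg _) h1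
    have h5 : ‖(c i j : ℂ)‖ ≤ Y := by
      rw [Complex.norm_intCast]
      exact hc i (Finset.mem_range.1 hi) j (Finset.mem_range.1 hj)
    have h6 : (j : ℝ) ≤ L := by exact_mod_cast (Finset.mem_range.1 hj).le
    have h7 : ‖Mul.iu w₂ (w₂ * τ₂) y' ^ j - Mul.iu w₂ (w₂ * τ₂) y'' ^ j‖ ≤
        L * (4 * ‖y' - y''‖) := by
      refine h2.trans ?_
      exact mul_le_mul h6 h3 (norm_nonneg _) (by positivity)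
    rw [norm_mul, norm_mul]
    have h8 : ‖(c i j : ℂ)‖ * ‖Mul.iu w₁ (w₁ * τ₁) y ^ i‖ ≤ Y * 1 :=
      mul_le_mul h5 h4 (norm_nonneg _) hY
    rw [mul_one] at h8
    exact mul_le_mul h8 h7 (norm_nonneg _) hY
  rw [e]
  refine (norm_sum_le _ _).trans ?_
  have h9 : ∀ i ∈ Finset.range L, ‖∑ j ∈ Finset.range L,
      (c i j : ℂ) * Mul.iu w₁ (w₁ * τ₁) y ^ i *
          (Mul.iu w₂ (w₂ * τ₂) y' ^ j - Mul.iu w₂ (w₂ * τ₂) y'' ^ j)‖ ≤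
        L * (Y * (L * (4 * ‖y' - y''‖))) := by
    intro i hi
    refine (norm_sum_le _ _).trans ((Finset.sum_le_sum (hterm i hi)).trans ?_)
    rw [Finset.sum_const, Finset.card_range, nsmul_eq_mul]
  refine (Finset.sum_le_sum h9).trans ?_
  rw [Finset.sum_const, Finset.card_range, nsmul_eq_mul]
  apply le_of_eq
  ring

theorem loc_diff (i₁ : Ind w₁ (w₁ * τ₁)) (i₂ : Ind w₂ (w₂ * τ₂)) (hX : 1 ≤ X)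
    (hA : ‖3 / 2 * G2 w₁ (w₁ * τ₁)‖ ≤ X ^ 4) (hB : ‖2 * G3 w₁ (w₁ * τ₁)‖ ≤ X ^ 4)
    (hA' : ‖3 / 2 * G2 w₂ (w₂ * τ₂)‖ ≤ X ^ 4) (hB' : ‖2 * G3 w₂ (w₂ * τ₂)‖ ≤ X ^ 4)
    (L : ℕ) (c : ℕ → ℕ → ℤ) {r : ℝ} {v : ℂ} (hw : ‖w₁‖ * r ≤ 1 / (8 * X))
    (hξ : ‖ξ * w₁‖ * r ≤ 1 / (8 * X)) (hv : ‖v‖ ≤ 1 / (8 * X)) :
    DifferentiableOn ℂ (fun z => Pq w₁ τ₁ w₂ τ₂ L c (w₁ * z) (ξ * w₁ * z - v))
      (Metric.closedBall 0 r) := by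
  have hX0 : 0 < X := by linarith
  have hlt : (1 : ℝ) / (8 * X) < 1 / X := by
    rw [one_div_lt_one_div (by positivity) hX0]
    linarith
  have hlt2 : (1 : ℝ) / (8 * X) + 1 / (8 * X) < 1 / X := by
    have : (1 : ℝ) / (8 * X) + 1 / (8 * X) = 1 / (4 * X) := by
      field_simp
      norm_num
    rw [this, one_div_lt_one_div (by positivity) hX0]
    linarith
  have d₁ : DifferentiableOn ℂ (fun z => Mul.iu w₁ (w₁ * τ₁) (w₁ * z))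
      (Metric.closedBall 0 r) := by
    refine (disc_diff i₁ hX hA hB).comp (t := Metric.ball (0 : ℂ) (1 / X)) (f := fun z => w₁ * z)
      ?_ ?_
    · fun_prop
    · intro z hz
      have hz' : ‖z‖ ≤ r := by simpa using hz
      have h1 : ‖w₁ * z‖ ≤ ‖w₁‖ * r := by
        rw [norm_mul]
        exact mul_le_mul_of_nonneg_left hz' (norm_nonneg _)
      rw [mem_ball_zero_iff]
      exact (h1.trans hw).trans_lt hlt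
  have d₂ : DifferentiableOn ℂ (fun z => Mul.iu w₂ (w₂ * τ₂) (ξ * w₁ * z - v))
      (Metric.closedBall 0 r) := by
    refine (disc_diff i₂ hX hA' hB').comp (t := Metric.ball (0 : ℂ) (1 / X))
      (f := fun z => ξ * w₁ * z - v) ?_ ?_
    · fun_prop
    · intro z hz
      have hz' : ‖z‖ ≤ r := by simpa using hz
      have h1 : ‖ξ * w₁ * z‖ ≤ ‖ξ * w₁‖ * r := by
        rw [norm_mul]
        exact mul_le_mul_of_nonneg_left hz' (norm_nonneg _)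
      rw [mem_ball_zero_iff]
      exact ((norm_sub_le _ _).trans (add_le_add (h1.trans hξ) hv)).trans_lt hlt2
  unfold Pq
  refine DifferentiableOn.fun_sum fun i _ => DifferentiableOn.fun_sum fun j _ => ?_
  exact ((d₁.pow i).const_mul (c i j : ℂ)).mul (d₂.pow j)

end Pool.Agent.LGO.Bs
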