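import Mathlib
import Pool.Agent.LGO.A.BsDisc
import Pool.Agent.Schn.TayFactor

/-!
# LGO base: the zero of `P(u₁(w z), u₂(ξ w z))` at `z = 0`

Let `f(z) = Ph a b a' b' ξ L c (w z)`.  By `disc_diff` (both lattices), `f` is differentiable on the
open ball of radius `ρ`, `ρ > r`, where `‖w‖ ρ < 1/X` and `‖ξ w‖ ρ < 1/X` (for instance `ρ = 2 r`, or
work with the open ball directly; note `w z` lies in the ball of radius `1/X` as
`‖w‖ r ≤ 1/(4 X)`).  Its Taylor coefficients at `0` are `φ(gm n) (w / φ x₁)^n`: put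
`f(z) = g((w / φ x₁) z)` with `g(t) = Ph (φ x₁ t)`, `Ph_tay`, and the rule for `tay` of a composition
with a multiplication (as in `iu_tay_comp`); `φ x₁ ≠ 0` because `x₁ ≠ 0`.  The first `O` coefficients
are `0`, so `f(z) = z^O g₀(z)` near `0` with `g₀` analytic at `0`
(`natCast_le_analyticOrderAt`, `natCast_le_analyticOrderAt_iff_iteratedDeriv_eq_zero`), and
`g₀(0)` = the Taylor coefficient of index `O` (for instance `tay_mul`, or compare).  Define
`Ψ(z) = g₀(0)` for `z = 0` and `f(z) / z^O` otherwise; it is equal to `g₀` near `0`, so it is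
differentiable at `0`, and elsewhere it is a quotient.
-/

namespace Pool.Agent.LGO.Bs

open Pool.Agent.EllSch Pool.Agent.Schn NumberField

private lemma BsPsi_iter_comp (c : ℂ) (n : ℕ) : ∀ (f : ℂ → ℂ) (x : ℂ),
    iteratedDeriv n (fun z => f (c * z)) x = c ^ n * iteratedDeriv n f (c * x) := by
  induction n with
  | zero => intro f x; simp
  | succ n ih =>
    intro f x
    have e : deriv (fun z => f (c * z)) = fun z => c * deriv f (c * z) := by
      funext z
      rw [deriv_comp_mul_left c f z, smul_eq_mul]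
    rw [iteratedDeriv_succ', iteratedDeriv_succ', e,
      iteratedDeriv_const_mul_field c (fun z => deriv f (c * z)), ih (deriv f) x, pow_succ']
    ring

private lemma BsPsi_tay_comp (c : ℂ) (f : ℂ → ℂ) (n : ℕ) :
    PowerSeries.coeff n (tay (fun z => f (c * z))) = c ^ n * PowerSeries.coeff n (tay f) := by
  rw [tay, tay, PowerSeries.coeff_mk, PowerSeries.coeff_mk, BsPsi_iter_comp, mul_zero]
  ring

private lemma BsPsi_x {K : Type*} [Field K] [CharZero K] {D : D2 K} {φ : K →+* ℂ}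
    {a b a' b' ξ : ℂ} (hD : IsD D φ a b a' b' ξ) : φ D.x₁ ≠ 0 := by
  intro h0
  apply hD.ne
  have h1 : (D.x₁ : K) = 0 := (map_eq_zero φ).1 h0
  exact_mod_cast h1

/-- `Ph` is differentiable at the points of the disc -/
private lemma BsPsi_diff {a b a' b' ξ : ℂ} {X : ℝ} (h : Ind a b) (h' : Ind a' b')
    (hX : 1 ≤ X) (hA : ‖3 / 2 * G2 a b‖ ≤ X ^ 4)
    (hB : ‖2 * G3 a b‖ ≤ X ^ 4) (hA' : ‖3 / 2 * G2 a' b'‖ ≤ X ^ 4) (hB' : ‖2 * G3 a' b'‖ ≤ X ^ 4)
    (L : ℕ) (c : ℕ → ℕ → ℤ) {y : ℂ} (hy : ‖y‖ < 1 / X) (hy' : ‖ξ * y‖ < 1 / X) :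
    DifferentiableAt ℂ (Ph a b a' b' ξ L c) y := by
  have h1 : DifferentiableAt ℂ (Mul.iu a b) y :=
    (disc_diff h hX hA hB).differentiableAt (Metric.isOpen_ball.mem_nhds (by simpa using hy))
  have h2 : DifferentiableAt ℂ (Mul.iu a' b') (ξ * y) :=
    (disc_diff h' hX hA' hB').differentiableAt (Metric.isOpen_ball.mem_nhds (by simpa using hy'))
  have h3 : DifferentiableAt ℂ (fun y => Mul.iu a' b' (ξ * y)) y := by
    have h4 : DifferentiableAt ℂ (fun y : ℂ => ξ * y) y := differentiableAt_id.const_mul ξ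
    exact DifferentiableAt.fun_comp' y h2 h4
  unfold Ph
  refine DifferentiableAt.fun_sum fun i _ => DifferentiableAt.fun_sum fun j _ => ?_
  exact ((differentiableAt_const _).mul (h1.pow i)).mul (h3.pow j)

theorem exists_Psi {K : Type*} [Field K] [CharZero K] {D : D2 K} {φ : K →+* ℂ}
    {a b a' b' ξ w : ℂ} {X r : ℝ} (h : Ind a b) (h' : Ind a' b')
    (hD : IsD D φ a b a' b' ξ) (hX : 1 ≤ X) (hA : ‖3 / 2 * G2 a b‖ ≤ X ^ 4)
    (hB : ‖2 * G3 a b‖ ≤ X ^ 4) (hA' : ‖3 / 2 * G2 a' b'‖ ≤ X ^ 4) (hB' : ‖2 * G3 a' b'‖ ≤ X ^ 4)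
    (hr : 0 < r) (hw : ‖w‖ * r ≤ 1 / (4 * X)) (hξ : ‖ξ * w‖ * r ≤ 1 / (4 * X))
    (L : ℕ) (c : ℕ → ℕ → ℤ) (O : ℕ) (h0 : ∀ n < O, gm D L c n = 0) :
    ∃ Ψ : ℂ → ℂ, DifferentiableOn ℂ Ψ (Metric.closedBall 0 r) ∧
      (∀ z ∈ Metric.closedBall (0 : ℂ) r, Ph a b a' b' ξ L c (w * z) = z ^ O * Ψ z) ∧
      Ψ 0 = φ (gm D L c O) * (w / φ D.x₁) ^ O := by
  classical
  have hX0 : 0 < X := by linarith
  have hlt : 1 / (4 * X) < 1 / X := by
    apply one_div_lt_one_div_of_lt hX0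
    linarith
  have hx := BsPsi_x hD
  set f : ℂ → ℂ := fun z => Ph a b a' b' ξ L c (w * z) with hf
  have hfA : AnalyticAt ℂ f 0 := Ph_an h h' L c w
  have hft : ∀ n, PowerSeries.coeff n (tay f) = φ (gm D L c n) * (w / φ D.x₁) ^ n := by
    intro n
    have h1 : f = fun z => (fun t => Ph a b a' b' ξ L c (φ D.x₁ * t)) (w / φ D.x₁ * z) := by
      funext z
      show Ph a b a' b' ξ L c (w * z) = Ph a b a' b' ξ L c (φ D.x₁ * (w / φ D.x₁ * z))
      rw [← mul_assoc, mul_div_cancel₀ w hx]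
    rw [h1, BsPsi_tay_comp (w / φ D.x₁) (fun t => Ph a b a' b' ξ L c (φ D.x₁ * t)) n,
      Ph_tay h h' hD L c n, mul_comm]
  have hfd : ∀ z ∈ Metric.closedBall (0 : ℂ) r, DifferentiableAt ℂ f z := by
    intro z hz
    have hz' : ‖z‖ ≤ r := by simpa using hz
    have h1 : ‖w * z‖ < 1 / X := by
      rw [norm_mul]
      exact (mul_le_mul_of_nonneg_left hz' (norm_nonneg w)).trans_lt (hw.trans_lt hlt)
    have h2 : ‖ξ * (w * z)‖ < 1 / X := by
      rw [← mul_assoc, norm_mul]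
      exact (mul_le_mul_of_nonneg_left hz' (norm_nonneg _)).trans_lt (hξ.trans_lt hlt)
    have h3 := BsPsi_diff h h' hX hA hB hA' hB' L c h1 h2
    have h4 : DifferentiableAt ℂ (fun z : ℂ => w * z) z := differentiableAt_id.const_mul w
    exact DifferentiableAt.fun_comp' z h3 h4
  obtain ⟨g, hgA, hg0, hg⟩ := tay_factor hfA O (fun n hn => by rw [hft, h0 n hn, map_zero, zero_mul])
  refine ⟨fun z => if z = 0 then g 0 else f z / z ^ O, ?_, ?_, ?_⟩
  · intro z hz
    apply DifferentiableAt.differentiableWithinAt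
    by_cases hz0 : z = 0
    · subst hz0
      refine hgA.differentiableAt.congr_of_eventuallyEq ?_
      filter_upwards [hg] with t ht
      by_cases ht0 : t = 0
      · rw [if_pos ht0, ht0]
      · rw [if_neg ht0, ht, mul_div_cancel_left₀ _ (pow_ne_zero O ht0)]
    · have h1 : DifferentiableAt ℂ (fun z => f z / z ^ O) z :=
        (hfd z hz).fun_div (differentiableAt_id.pow O) (pow_ne_zero O hz0)
      refine h1.congr_of_eventuallyEq ?_
      filter_upwards [isOpen_ne.mem_nhds hz0] with t ht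
      rw [if_neg ht]
  · intro z _
    by_cases hz0 : z = 0
    · have h1 := hg.self_of_nhds
      simp only [hz0, if_pos]
      exact h1
    · simp only [if_neg hz0]
      rw [mul_div_cancel₀ _ (pow_ne_zero O hz0)]
  · simp only [if_pos]
    rw [hg0, hft]

/-- if all coefficients vanish, the function vanishes near `0` -/
theorem Ph_zero {K : Type*} [Field K] [CharZero K] {D : D2 K} {φ : K →+* ℂ}
    {a b a' b' ξ : ℂ} (h : Ind a b) (h' : Ind a' b') (hD : IsD D φ a b a' b' ξ)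
    (L : ℕ) (c : ℕ → ℕ → ℤ) (h0 : ∀ n, gm D L c n = 0) :
    ∀ᶠ z in nhds (0 : ℂ), Ph a b a' b' ξ L c z = 0 := by
  have hx := BsPsi_x hD
  have h1 : ∀ᶠ t in nhds (0 : ℂ), Ph a b a' b' ξ L c (φ D.x₁ * t) = 0 :=
    tay_zero (Ph_an h h' L c (φ D.x₁)) fun n => by rw [Ph_tay h h' hD L c n, h0 n, map_zero]
  have h2 : Filter.Tendsto (fun z : ℂ => z / φ D.x₁) (nhds 0) (nhds 0) := by
    have h3 : Continuous fun z : ℂ => z / φ D.x₁ := continuous_id.div_const _
    have h4 := h3.tendsto 0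
    simpa using h4
  filter_upwards [h2.eventually h1] with z hz
  rwa [mul_div_cancel₀ z hx] at hz

/-- a nonzero Taylor coefficient (in the variable `t = z / x₁`) is a nonzero `gm` -/
theorem gm_ne {K : Type*} [Field K] [CharZero K] {D : D2 K} {φ : K →+* ℂ}
    {a b a' b' ξ : ℂ} (h : Ind a b) (h' : Ind a' b') (hD : IsD D φ a b a' b' ξ)
    (L : ℕ) (c : ℕ → ℕ → ℤ) {n : ℕ}
    (h0 : iteratedDeriv n (fun t => ∑ i ∈ Finset.range L, ∑ j ∈ Finset.range L,
      (c i j : ℂ) * Mul.iu a b (φ D.x₁ * t) ^ i * Mul.iu a' b' (φ D.x₂ * t) ^ j) 0 ≠ 0) :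
    gm D L c n ≠ 0 := by
  intro hg
  apply h0
  have h1 : (fun t => ∑ i ∈ Finset.range L, ∑ j ∈ Finset.range L,
      (c i j : ℂ) * Mul.iu a b (φ D.x₁ * t) ^ i * Mul.iu a' b' (φ D.x₂ * t) ^ j) =
      fun t => Ph a b a' b' ξ L c (φ D.x₁ * t) := by
    funext t
    rw [Ph, hD.x₂, mul_assoc]
  have h2 := Ph_tay h h' hD L c n
  rw [hg, map_zero, tay, PowerSeries.coeff_mk] at h2
  rw [h1]
  exact (div_eq_zero_iff.1 h2).resolve_right (by exact_mod_cast n.factorial_ne_zero)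

end Pool.Agent.LGO.Bs
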