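import Mathlib

/-!
# LGO base: residue theorem for finitely many poles in a disc

`G` is differentiable on the closed disc minus the finite set `Z`, and at each `s ∈ Z` the function
`(z - s) ^ N G(z)` extends to an analytic function `g s` near `s`.

Proof.  Principal part: `g s = ∑_(j < N) c_j (z - s) ^ j + (z - s) ^ N k(z)` with `k` analytic at `s`
(`AnalyticAt.exists_eventuallyEq_sum_add_pow_mul`), so with
`P_s(z) = ∑_(j < N) c_j (z - s) ^ (j - N)` (integer powers; entire off `s`) the function `G - P_s`
extends analytically to `s`. Induction on `Z`: remove the pole `s` by passing to `G - P_s`; the circle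
integrals of `P_s` over `C(0,R)` and over `C(s,r)` agree, over the other small circles they are `0`.
-/

namespace Pool.Agent.LGO.Bs

open Filter Topology

/-- Principal part at a pole. -/
private lemma BsRes_pp {g : ℂ → ℂ} {s : ℂ} (hg : AnalyticAt ℂ g s) (N : ℕ) :
    ∃ (c : ℕ → ℂ) (k : ℂ → ℂ), AnalyticAt ℂ k s ∧
      ∀ᶠ z in 𝓝 s, g z = (∑ j ∈ Finset.range N, c j * (z - s) ^ j) + (z - s) ^ N * k z := by
  have h0 : AnalyticAt ℂ (fun w => g (s + w)) 0 := by
    apply AnalyticAt.fun_comp (g := g) (f := fun w => s + w)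
    · simpa using hg
    · fun_prop
  obtain ⟨F, hF, hFe⟩ := h0.exists_eventuallyEq_sum_add_pow_mul N
  have ht : Tendsto (fun z : ℂ => z - s) (𝓝 s) (𝓝 0) := by
    have : Tendsto (fun z : ℂ => z - s) (𝓝 s) (𝓝 (s - s)) :=
      (continuous_id.sub continuous_const).tendsto s
    simpa using this
  refine ⟨fun j => iteratedDeriv j (fun w => g (s + w)) 0 / (j.factorial : ℂ), fun z => F (z - s), ?_, ?_⟩
  · apply AnalyticAt.fun_comp (g := F) (f := fun z => z - s)
    · simpa using hF
    · fun_prop
  · filter_upwards [ht.eventually hFe] with z hz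
    have h1 : s + (z - s) = z := by ring
    rw [h1] at hz
    rw [hz]
    simp only [smul_eq_mul]
    congr 1
    refine Finset.sum_congr rfl (fun j _ => ?_)
    ring

/-- Both circles give the same integral of an integer power. -/
private lemma BsRes_zpow_eq {c c' s : ℂ} {R R' : ℝ} (h : s ∈ Metric.ball c R) (h' : s ∈ Metric.ball c' R')
    (n : ℤ) : (∮ z in C(c, R), (z - s) ^ n) = ∮ z in C(c', R'), (z - s) ^ n := by
  by_cases hn : n = -1
  · subst hn
    simp only [zpow_neg_one]
    rw [circleIntegral.integral_sub_inv_of_mem_ball h, circleIntegral.integral_sub_inv_of_mem_ball h']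
  · rw [circleIntegral.integral_sub_zpow_of_ne hn, circleIntegral.integral_sub_zpow_of_ne hn]

/-- A function which is differentiable on the closed disc has integral zero. -/
private lemma BsRes_cauchy {f : ℂ → ℂ} {c : ℂ} {R : ℝ} (hR : 0 ≤ R)
    (hf : DifferentiableOn ℂ f (Metric.closedBall c R)) : (∮ z in C(c, R), f z) = 0 :=
  Complex.circleIntegral_eq_zero_of_differentiable_on_off_countable hR Set.countable_empty
    hf.continuousOn (fun _ hz => (hf.mono Metric.ball_subset_closedBall).differentiableAt
      (Metric.isOpen_ball.mem_nhds hz.1))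

/-- The principal part. -/
private noncomputable def BsRes_P (N : ℕ) (c : ℕ → ℂ) (s : ℂ) (z : ℂ) : ℂ :=
  ∑ j ∈ Finset.range N, c j * (z - s) ^ ((j : ℤ) - N)

private lemma BsRes_P_diff (N : ℕ) (c : ℕ → ℂ) (s : ℂ) {z : ℂ} (hz : z ≠ s) :
    DifferentiableAt ℂ (BsRes_P N c s) z := by
  unfold BsRes_P
  refine DifferentiableAt.fun_sum (fun j _ => ?_)
  refine DifferentiableAt.const_mul ?_ _
  exact DifferentiableAt.zpow (f := fun z => z - s) (by fun_prop) (Or.inl (sub_ne_zero.2 hz))

private lemma BsRes_P_int (N : ℕ) (c : ℕ → ℂ) (s : ℂ) {a a' : ℂ} {R R' : ℝ} (hR : 0 ≤ R) (hR' : 0 ≤ R')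
    (h : s ∈ Metric.ball a R) (h' : s ∈ Metric.ball a' R') :
    (∮ z in C(a, R), BsRes_P N c s z) = ∮ z in C(a', R'), BsRes_P N c s z := by
  have key : ∀ (b : ℂ) (ρ : ℝ), 0 ≤ ρ → s ∈ Metric.ball b ρ → (∮ z in C(b, ρ), BsRes_P N c s z) =
      ∑ j ∈ Finset.range N, c j * ∮ z in C(b, ρ), (z - s) ^ ((j : ℤ) - N) := by
    intro b ρ hρ hb
    unfold BsRes_P
    rw [circleIntegral.integral_fun_sum]
    · refine Finset.sum_congr rfl (fun j _ => ?_)
      rw [circleIntegral.integral_const_mul]
    · intro j _
      apply ContinuousOn.circleIntegrable hρ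
      intro z hz
      have hne : z ≠ s := by
        rintro rfl
        rw [mem_sphere_iff_norm] at hz
        rw [mem_ball_iff_norm] at hb
        linarith
      apply ContinuousAt.continuousWithinAt
      apply ContinuousAt.mul continuousAt_const
      exact (DifferentiableAt.zpow (f := fun z => z - s) (by fun_prop)
        (Or.inl (sub_ne_zero.2 hne))).continuousAt
  rw [key a R hR h, key a' R' hR' h']
  refine Finset.sum_congr rfl (fun j _ => ?_)
  rw [BsRes_zpow_eq h h']

theorem residue_sum {Z : Finset ℂ} {R r : ℝ} (hR : 0 ≤ R) (hr : 0 < r)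
    (hZ : ∀ s ∈ Z, ‖s‖ + r < R) (hd : ∀ s ∈ Z, ∀ s' ∈ Z, s ≠ s' → r < ‖s - s'‖)
    {G : ℂ → ℂ} (hG : DifferentiableOn ℂ G (Metric.closedBall 0 R \ (Z : Set ℂ)))
    (N : ℕ) (g : ℂ → ℂ → ℂ) (hg : ∀ s ∈ Z, AnalyticAt ℂ (g s) s)
    (hgG : ∀ s ∈ Z, ∀ᶠ z in 𝓝[≠] s, (z - s) ^ N * G z = g s z) :
    (∮ z in C(0, R), G z) = ∑ s ∈ Z, ∮ z in C(s, r), G z := by
  classical
  induction Z using Finset.induction_on generalizing G g with
  | empty =>
    rw [Finset.sum_empty]
    apply BsRes_cauchy hR
    simpa using hG
  | insert s Z hs ih =>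
    obtain ⟨c, k, hk, hck⟩ := BsRes_pp (hg s (Finset.mem_insert_self s Z)) N
    -- near `s`, off `s`: `G = P + k`
    have hGk : ∀ᶠ z in 𝓝[≠] s, G z - BsRes_P N c s z = k z := by
      filter_upwards [hgG s (Finset.mem_insert_self s Z), mem_nhdsWithin_of_mem_nhds hck,
        self_mem_nhdsWithin] with z hz hz2 hz3
      have hne : z - s ≠ 0 := sub_ne_zero.2 hz3
      have hN : (z - s) ^ N ≠ 0 := pow_ne_zero _ hne
      have h1 : (z - s) ^ N * (G z - BsRes_P N c s z) = (z - s) ^ N * k z := by
        rw [mul_sub, hz, hz2]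
        unfold BsRes_P
        rw [Finset.mul_sum]
        have h2 : ∑ j ∈ Finset.range N, (z - s) ^ N * (c j * (z - s) ^ ((j : ℤ) - N)) =
            ∑ j ∈ Finset.range N, c j * (z - s) ^ j := by
          refine Finset.sum_congr rfl (fun j _ => ?_)
          rw [zpow_sub₀ hne, zpow_natCast, zpow_natCast]
          field_simp
        rw [h2]
        ring
      exact mul_left_cancel₀ hN h1
    set G' : ℂ → ℂ := Function.update (fun z => G z - BsRes_P N c s z) s (k s) with hG'
    have hG'ne : ∀ z, z ≠ s → G' z = G z - BsRes_P N c s z := fun z hz => Function.update_of_ne hz _ _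
    have hG's : G' =ᶠ[𝓝 s] k := by
      have h1 : ∀ᶠ z in 𝓝[≠] s, G' z = k z := by
        filter_upwards [hGk, self_mem_nhdsWithin] with z hz hz2
        rw [hG'ne z hz2, hz]
      rw [eventually_nhdsWithin_iff] at h1
      filter_upwards [h1] with z hz
      by_cases hzs : z = s
      · rw [hzs, hG', Function.update_self]
      · exact hz hzs
    have hsball : s ∈ Metric.ball (0 : ℂ) R := by
      rw [mem_ball_zero_iff]
      have := hZ s (Finset.mem_insert_self s Z)
      linarith
    have hGd : DifferentiableOn ℂ G' (Metric.closedBall 0 R \ (Z : Set ℂ)) := by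
      intro z hz
      by_cases hzs : z = s
      · subst hzs
        exact ((hk.differentiableAt.congr_of_eventuallyEq hG's)).differentiableWithinAt
      · have h1 : z ∈ Metric.closedBall 0 R \ ((insert s Z : Finset ℂ) : Set ℂ) := by
          refine ⟨hz.1, ?_⟩
          simp only [Finset.coe_insert, Set.mem_insert_iff, not_or]
          exact ⟨hzs, hz.2⟩
        have h2 : DifferentiableWithinAt ℂ (fun z => G z - BsRes_P N c s z)
            (Metric.closedBall 0 R \ ((insert s Z : Finset ℂ) : Set ℂ)) z :=
          (hG z h1).sub (BsRes_P_diff N c s hzs).differentiableWithinAt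
        have h3 : DifferentiableWithinAt ℂ G'
            (Metric.closedBall 0 R \ ((insert s Z : Finset ℂ) : Set ℂ)) z := by
          refine h2.congr_of_eventuallyEq ?_ (hG'ne z hzs)
          have h5 : ∀ᶠ w in 𝓝 z, w ≠ s := isOpen_ne.mem_nhds hzs
          have h6 : ∀ᶠ w in 𝓝[Metric.closedBall 0 R \ ((insert s Z : Finset ℂ) : Set ℂ)] z, w ≠ s :=
            mem_nhdsWithin_of_mem_nhds h5
          filter_upwards [h6] with w hw using hG'ne w hw
        refine h3.mono_of_mem_nhdsWithin ?_
        have h4 : {w : ℂ | w ≠ s} ∈ 𝓝 z := isOpen_ne.mem_nhds hzs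
        rw [mem_nhdsWithin]
        refine ⟨{w : ℂ | w ≠ s}, isOpen_ne, hzs, ?_⟩
        rintro w ⟨hw1, hw2⟩
        refine ⟨hw2.1, ?_⟩
        simp only [Finset.coe_insert, Set.mem_insert_iff, not_or]
        exact ⟨hw1, hw2.2⟩
    -- the induction hypothesis for `G'`
    have hih := ih (fun s' hs' => hZ s' (Finset.mem_insert_of_mem hs'))
      (fun a ha b hb => hd a (Finset.mem_insert_of_mem ha) b (Finset.mem_insert_of_mem hb)) hGd
      (fun s' z => g s' z - (z - s') ^ N * BsRes_P N c s z) (by
        intro s' hs'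
        have hne : s' ≠ s := fun h => hs (h ▸ hs')
        have h1 : AnalyticAt ℂ (BsRes_P N c s) s' := by
          have h2 : ∀ᶠ w in 𝓝 s', w ≠ s := isOpen_ne.mem_nhds hne
          exact (DifferentiableOn.analyticAt (s := {w : ℂ | w ≠ s})
            (fun w hw => (BsRes_P_diff N c s hw).differentiableWithinAt) h2)
        exact (hg s' (Finset.mem_insert_of_mem hs')).sub (by fun_prop)) (by
        intro s' hs'
        have hne : s' ≠ s := fun h => hs (h ▸ hs')
        filter_upwards [hgG s' (Finset.mem_insert_of_mem hs'),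
          mem_nhdsWithin_of_mem_nhds (isOpen_ne.mem_nhds hne : {w : ℂ | w ≠ s} ∈ 𝓝 s')] with z hz hz2
        rw [hG'ne z hz2, mul_sub, hz])
    have hsphere0 : ∀ z ∈ Metric.sphere (0 : ℂ) R, z ≠ s := by
      rintro z hz rfl
      rw [mem_sphere_zero_iff_norm] at hz
      rw [mem_ball_zero_iff] at hsball
      linarith
    have hGc : ∀ (a : ℂ) (ρ : ℝ), 0 ≤ ρ → (∀ z ∈ Metric.sphere a ρ, z ∈ Metric.closedBall (0 : ℂ) R \
        ((insert s Z : Finset ℂ) : Set ℂ)) → (∮ z in C(a, ρ), G' z) =
        (∮ z in C(a, ρ), G z) - ∮ z in C(a, ρ), BsRes_P N c s z := by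
      intro a ρ hρ hsub
      rw [← circleIntegral.integral_sub]
      · apply circleIntegral.integral_congr hρ
        intro z hz
        have h1 := (hsub z hz).2
        simp only [Finset.coe_insert, Set.mem_insert_iff, not_or] at h1
        exact hG'ne z h1.1
      · exact (hG.continuousOn.mono hsub).circleIntegrable hρ
      · apply ContinuousOn.circleIntegrable hρ
        intro z hz
        have h1 := (hsub z hz).2
        simp only [Finset.coe_insert, Set.mem_insert_iff, not_or] at h1
        exact (BsRes_P_diff N c s h1.1).continuousAt.continuousWithinAt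
    -- spheres avoid the poles
    have hsub0 : ∀ z ∈ Metric.sphere (0 : ℂ) R, z ∈ Metric.closedBall (0 : ℂ) R \
        ((insert s Z : Finset ℂ) : Set ℂ) := by
      intro z hz
      refine ⟨Metric.sphere_subset_closedBall hz, fun hz2 => ?_⟩
      have h1 := hZ z (Finset.mem_coe.1 hz2)
      rw [mem_sphere_zero_iff_norm] at hz
      linarith
    have hsub1 : ∀ a ∈ insert s Z, ∀ z ∈ Metric.sphere a r, z ∈ Metric.closedBall (0 : ℂ) R \
        ((insert s Z : Finset ℂ) : Set ℂ) := by
      intro a ha z hz
      rw [mem_sphere_iff_norm] at hz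
      refine ⟨?_, fun hz2 => ?_⟩
      · rw [mem_closedBall_zero_iff]
        have h1 := hZ a ha
        have h2 : ‖z‖ ≤ ‖z - a‖ + ‖a‖ := by
          simpa using norm_add_le (z - a) a
        linarith
      · have hza : z ≠ a := by
          rintro rfl
          rw [sub_self, norm_zero] at hz
          linarith
        have h1 := hd z (Finset.mem_coe.1 hz2) a ha hza
        linarith
    have hI0 := hGc 0 R hR hsub0
    have hIs := hGc s r hr.le (hsub1 s (Finset.mem_insert_self s Z))
    have hI1 : ∀ a ∈ Z, (∮ z in C(a, r), G' z) = ∮ z in C(a, r), G z := by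
      intro a ha
      rw [hGc a r hr.le (hsub1 a (Finset.mem_insert_of_mem ha))]
      have h1 : (∮ z in C(a, r), BsRes_P N c s z) = 0 := by
        apply BsRes_cauchy hr.le
        intro z hz
        apply (BsRes_P_diff N c s _).differentiableWithinAt
        rintro rfl
        have hne : z ≠ a := fun h => hs (h ▸ ha)
        have h2 := hd z (Finset.mem_insert_self z Z) a (Finset.mem_insert_of_mem ha) hne
        rw [mem_closedBall_iff_norm] at hz
        linarith
      rw [h1, sub_zero]
    have hG's0 : (∮ z in C(s, r), G' z) = 0 := by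
      apply BsRes_cauchy hr.le
      refine hGd.mono (fun z hz => ⟨?_, fun hz2 => ?_⟩)
      · rw [mem_closedBall_iff_norm] at hz
        rw [mem_closedBall_zero_iff]
        have h1 := hZ s (Finset.mem_insert_self s Z)
        have h2 : ‖z‖ ≤ ‖z - s‖ + ‖s‖ := by
          simpa using norm_add_le (z - s) s
        linarith
      · rw [mem_closedBall_iff_norm] at hz
        have hne : z ≠ s := by
          rintro rfl
          exact hs (Finset.mem_coe.1 hz2)
        have h1 := hd z (Finset.mem_insert_of_mem (Finset.mem_coe.1 hz2)) s (Finset.mem_insert_self s Z) hne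
        linarith
    have hP := BsRes_P_int N c s hR hr.le hsball (Metric.mem_ball_self hr : s ∈ Metric.ball s r)
    rw [Finset.sum_insert hs, ← Finset.sum_congr rfl hI1, ← hih, hI0]
    rw [hIs] at hG's0
    rw [hP]
    linear_combination -hG's0

end Pool.Agent.LGO.Bs
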