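import Mathlib
import Pool.Agent.LGO.A.BsRes

/-!
# LGO base: extrapolation at the integers, exact and approximate

`F` entire, `‖F‖ ≤ A` on `‖z‖ = 3 S`; near every integer `s`, `|s| ≤ S`, `F(s + z) = z^O g_s(z) + h_s(z)`
for `‖z‖ ≤ r ≤ 1/2`, with `h_0 = 0` and `‖h_s‖ ≤ B` on `‖z‖ = r`.  Then
`‖g_0(0)‖ ≤ A / 4^(S O) + 4 S 4^(S O) B / r^O`.

Proof.  `G(z) = F(z) / (z ∏_(|s| ≤ S) (z - s)^O)`, `residue_sum` with `R = 3 S` and `Z` the integers
`|s| ≤ S` (they have mutual distance `≥ 1 > r`, `N = O + 1`, `(z - s)^(O+1) G` is analytic at `s`).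
* at `s = 0`: `G(z) = g_0(z) / (z ∏_(s ≠ 0) (z - s)^O)` on `0 < ‖z‖ ≤ r`; the integral over the circle
  is `2 π i g_0(0) / ∏_(s ≠ 0) (- s)^O` (Cauchy's formula), of absolute value
  `2 π ‖g_0(0)‖ / (S!)^(2 O)`.
* at `s ≠ 0`: `G(s + z) = [z^O g_s(z) + h_s(z)] / ((s + z) z^O ∏_(s' ≠ s) (s - s' + z)^O)`; the first
  part is analytic on the closed disc (no contribution); in the second part
  `‖s + z‖ ≥ 1/2`, `‖s - s' + z‖ ≥ |s - s'| / 2`, so
  `∏_(s' ≠ s) ‖s - s' + z‖ ≥ 2^(-2S) (S + s)! (S - s)! ≥ 4^(-S) (S!)²`, and the integral is at most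
  `2 π r * B * 2 * 4^(S O) / (r^O (S!)^(2 O))`.
* the big circle: `‖z‖ = 3 S`, `‖z - s‖ ≥ 2 S`, `∏_(|s| ≤ S) ‖z - s‖ ≥ 3 S (2 S)^(2 S) ≥ (2 S)^(2 S)`,
  so the integral is at most `2 π A / (2 S)^(2 S O)`, and `(S!)^(2 O) / (2 S)^(2 S O) ≤ 4^(- S O)`
  (`S! ≤ S^S`).
Multiply by `(S!)^(2 O) / (2 π)`; there are `2 S` points `s ≠ 0`, `r ≤ 1/2`.

`res_exact` is the case `h_s = 0` (any `r`); its hypotheses are: `F` has a zero of order `≥ O` at every
integer `|s| ≤ S`.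
-/

namespace Pool.Agent.LGO.Bs

open Filter Topology

private theorem BsRe_prodR (s : ℤ) (n : ℕ) :
    ∏ t ∈ Finset.Icc (s + 1) (s + n), |(s : ℝ) - t| = (n.factorial : ℝ) := by
  induction n with
  | zero => simp
  | succ n ih =>
    have h1 : Finset.Icc (s + 1) (s + ((n + 1 : ℕ) : ℤ))
        = insert (s + n + 1) (Finset.Icc (s + 1) (s + n)) := by
      ext x
      simp only [Finset.mem_Icc, Finset.mem_insert]
      push_cast
      omega
    rw [h1, Finset.prod_insert (by simp), ih, Nat.factorial_succ]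
    have h2 : |(s : ℝ) - ((s + n + 1 : ℤ) : ℝ)| = (n : ℝ) + 1 := by
      push_cast
      rw [show (s : ℝ) - (s + n + 1) = -((n : ℝ) + 1) by ring, abs_neg, abs_of_nonneg (by positivity)]
    rw [h2]
    push_cast
    ring

private theorem BsRe_prodL (s : ℤ) (n : ℕ) :
    ∏ t ∈ Finset.Icc (s - n) (s - 1), |(s : ℝ) - t| = (n.factorial : ℝ) := by
  induction n with
  | zero => simp
  | succ n ih =>
    have h1 : Finset.Icc (s - ((n + 1 : ℕ) : ℤ)) (s - 1)
        = insert (s - n - 1) (Finset.Icc (s - n) (s - 1)) := by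
      ext x
      simp only [Finset.mem_Icc, Finset.mem_insert]
      push_cast
      omega
    rw [h1, Finset.prod_insert (by simp), ih, Nat.factorial_succ]
    have h2 : |(s : ℝ) - ((s - n - 1 : ℤ) : ℝ)| = (n : ℝ) + 1 := by
      push_cast
      rw [show (s : ℝ) - (s - n - 1) = ((n : ℝ) + 1) by ring, abs_of_nonneg (by positivity)]
    rw [h2]
    push_cast
    ring

private theorem BsRe_prodE {S : ℕ} {s : ℤ} (hs : |s| ≤ S) :
    ∏ t ∈ (Finset.Icc (-(S : ℤ)) S).erase s, |(s : ℝ) - t|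
      = ((S + s).toNat.factorial : ℝ) * ((S - s).toNat.factorial : ℝ) := by
  have hs' := abs_le.mp hs
  have h1 : (Finset.Icc (-(S : ℤ)) S).erase s
      = Finset.Icc (s - ((S + s).toNat : ℤ)) (s - 1) ∪ Finset.Icc (s + 1) (s + ((S - s).toNat : ℤ)) := by
    ext x
    simp only [Finset.mem_Icc, Finset.mem_erase, Finset.mem_union]
    omega
  rw [h1, Finset.prod_union, BsRe_prodL, BsRe_prodR]
  rw [Finset.disjoint_left]
  intro x
  simp only [Finset.mem_Icc]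
  omega

private theorem BsRe_fact {S a b : ℕ} (h : a + b = 2 * S) :
    S.factorial * S.factorial ≤ a.factorial * b.factorial := by
  have h1 : (2 * S).choose a ≤ Nat.centralBinom S := Nat.choose_le_centralBinom a S
  have h2 : (2 * S).choose a * a.factorial * b.factorial = (2 * S).factorial := by
    have := Nat.choose_mul_factorial_mul_factorial (n := 2 * S) (k := a) (by omega)
    rwa [show 2 * S - a = b by omega] at this
  have h3 : Nat.centralBinom S * S.factorial * S.factorial = (2 * S).factorial := by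
    have := Nat.choose_mul_factorial_mul_factorial (n := 2 * S) (k := S) (by omega)
    rwa [show 2 * S - S = S by omega] at this
  have hpos : 0 < (2 * S).choose a := Nat.choose_pos (by omega)
  have h4 : (2 * S).choose a * (S.factorial * S.factorial)
      ≤ (2 * S).choose a * (a.factorial * b.factorial) := by
    calc (2 * S).choose a * (S.factorial * S.factorial)
        ≤ Nat.centralBinom S * (S.factorial * S.factorial) := Nat.mul_le_mul_right _ h1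
      _ = (2 * S).factorial := by rw [← h3]; ring
      _ = (2 * S).choose a * (a.factorial * b.factorial) := by rw [← h2]; ring
  exact Nat.le_of_mul_le_mul_left h4 hpos

private theorem BsRe_prod0 {S : ℕ} {s : ℤ} (hs : |s| ≤ S) :
    ∏ t ∈ (Finset.Icc (-(S : ℤ)) S).erase 0, |(t : ℝ)|
      ≤ ∏ t ∈ (Finset.Icc (-(S : ℤ)) S).erase s, |(s : ℝ) - t| := by
  have hs' := abs_le.mp hs
  have h0 := BsRe_prodE (S := S) (s := 0) (by simp)
  have h1 : ∏ t ∈ (Finset.Icc (-(S : ℤ)) S).erase 0, |(t : ℝ)|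
      = (S.factorial : ℝ) * (S.factorial : ℝ) := by
    have h2 : ∏ t ∈ (Finset.Icc (-(S : ℤ)) S).erase 0, |(t : ℝ)|
        = ∏ t ∈ (Finset.Icc (-(S : ℤ)) S).erase 0, |((0 : ℤ) : ℝ) - t| := by
      refine Finset.prod_congr rfl (fun t _ => ?_)
      simp
    rw [h2, h0]
    simp
  rw [h1, BsRe_prodE hs]
  have h3 := BsRe_fact (S := S) (a := (S + s).toNat) (b := (S - s).toNat) (by omega)
  exact_mod_cast h3

private theorem BsRe_card (S : ℕ) (s : ℤ) (hs : |s| ≤ S) :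
    ((Finset.Icc (-(S : ℤ)) S).erase s).card = 2 * S := by
  have hs' := abs_le.mp hs
  rw [Finset.card_erase_of_mem (by simp only [Finset.mem_Icc]; omega), Int.card_Icc]
  omega

private theorem BsRe_prodS (S : ℕ) :
    ∏ t ∈ (Finset.Icc (-(S : ℤ)) S).erase 0, |(t : ℝ)| ≤ (S : ℝ) ^ (2 * S) := by
  rw [← BsRe_card S 0 (by simp), ← Finset.prod_const]
  refine Finset.prod_le_prod (fun _ _ => abs_nonneg _) (fun t ht => ?_)
  have h1 : |t| ≤ (S : ℤ) := by
    have h2 := (Finset.mem_erase.mp ht).2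
    rw [Finset.mem_Icc] at h2
    exact abs_le.mpr h2
  exact_mod_cast h1

/-- the integers of absolute value at most `S` -/
private noncomputable def BsRe_Z (S : ℕ) : Finset ℂ :=
  (Finset.Icc (-(S : ℤ)) S).image (fun t : ℤ => (t : ℂ))

private theorem BsRe_mem {S : ℕ} {c : ℂ} : c ∈ BsRe_Z S ↔ ∃ s : ℤ, |s| ≤ S ∧ (s : ℂ) = c := by
  unfold BsRe_Z
  simp only [Finset.mem_image, Finset.mem_Icc]
  constructor
  · rintro ⟨s, hs, rfl⟩
    exact ⟨s, abs_le.mpr hs, rfl⟩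
  · rintro ⟨s, hs, rfl⟩
    exact ⟨s, abs_le.mp hs, rfl⟩

private theorem BsRe_erase (S : ℕ) (s : ℤ) :
    (BsRe_Z S).erase (s : ℂ) = ((Finset.Icc (-(S : ℤ)) S).erase s).image (fun t : ℤ => (t : ℂ)) := by
  unfold BsRe_Z
  rw [Finset.image_erase]
  intro a b hab
  exact Int.cast_injective hab

private theorem BsRe_inj : Function.Injective (fun t : ℤ => (t : ℂ)) := by
  intro a b hab
  exact Int.cast_injective hab

/-- the product over the other poles -/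
private noncomputable def BsRe_Q (S O : ℕ) (c z : ℂ) : ℂ :=
  ∏ c' ∈ (BsRe_Z S).erase c, (z - c') ^ O

private theorem BsRe_Qd (S O : ℕ) (c : ℂ) : Differentiable ℂ (BsRe_Q S O c) := by
  unfold BsRe_Q
  fun_prop

private theorem BsRe_Qn (S O : ℕ) (s : ℤ) (z : ℂ) :
    ‖BsRe_Q S O s z‖ = (∏ t ∈ (Finset.Icc (-(S : ℤ)) S).erase s, ‖z - (t : ℂ)‖) ^ O := by
  unfold BsRe_Q
  rw [BsRe_erase, Finset.prod_image (fun a _ b _ h => BsRe_inj h), norm_prod, ← Finset.prod_pow]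
  refine Finset.prod_congr rfl (fun t _ => ?_)
  rw [norm_pow]

private theorem BsRe_Q0 (S O : ℕ) :
    ‖BsRe_Q S O 0 0‖ = (∏ t ∈ (Finset.Icc (-(S : ℤ)) S).erase 0, |(t : ℝ)|) ^ O := by
  have h := BsRe_Qn S O 0 0
  rw [Int.cast_zero] at h
  rw [h]
  congr 1
  refine Finset.prod_congr rfl (fun t _ => ?_)
  rw [zero_sub, norm_neg, Complex.norm_intCast]

private theorem BsRe_sep {s t : ℤ} (hst : s ≠ t) : (1 : ℝ) ≤ ‖(s : ℂ) - t‖ := by
  rw [← Int.cast_sub, Complex.norm_intCast]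
  have h : 1 ≤ |s - t| := Int.one_le_abs (sub_ne_zero.mpr hst)
  exact_mod_cast h

private theorem BsRe_near {s t : ℤ} (hst : s ≠ t) {z : ℂ} (hz : ‖z - s‖ ≤ 1 / 2) :
    |(s : ℝ) - t| / 2 ≤ ‖z - t‖ := by
  have h1 : |(s : ℝ) - t| = ‖(s : ℂ) - t‖ := by
    rw [← Int.cast_sub, ← Int.cast_sub, Complex.norm_intCast]
  have h2 := BsRe_sep hst
  have h3 : ‖(s : ℂ) - t‖ ≤ ‖z - t‖ + ‖z - s‖ := by
    have : (s : ℂ) - t = (z - t) - (z - s) := by ring
    rw [this]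
    exact norm_sub_le _ _
  rw [h1]
  linarith

private theorem BsRe_Qlow {S O : ℕ} {s : ℤ} (hs : |s| ≤ S) {z : ℂ} (hz : ‖z - s‖ ≤ 1 / 2) :
    (∏ t ∈ (Finset.Icc (-(S : ℤ)) S).erase 0, |(t : ℝ)|) ^ O / 4 ^ (S * O) ≤ ‖BsRe_Q S O s z‖ := by
  rw [BsRe_Qn, pow_mul, ← div_pow]
  refine pow_le_pow_left₀ (div_nonneg (Finset.prod_nonneg (fun _ _ => abs_nonneg _))
    (by positivity)) ?_ O
  calc (∏ t ∈ (Finset.Icc (-(S : ℤ)) S).erase 0, |(t : ℝ)|) / 4 ^ S
      ≤ (∏ t ∈ (Finset.Icc (-(S : ℤ)) S).erase s, |(s : ℝ) - t|) / 4 ^ S :=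
        div_le_div_of_nonneg_right (BsRe_prod0 hs) (by positivity)
    _ = ∏ t ∈ (Finset.Icc (-(S : ℤ)) S).erase s, (|(s : ℝ) - t| / 2) := by
        rw [Finset.prod_div_distrib, Finset.prod_const, BsRe_card S s hs, pow_mul]
        norm_num
    _ ≤ ∏ t ∈ (Finset.Icc (-(S : ℤ)) S).erase s, ‖z - (t : ℂ)‖ :=
        Finset.prod_le_prod (fun _ _ => by positivity)
          (fun t ht => BsRe_near (Finset.mem_erase.mp ht).1.symm hz)

private theorem BsRe_Qne {S O : ℕ} {s : ℤ} {z : ℂ} (hz : ‖z - s‖ ≤ 1 / 2) :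
    BsRe_Q S O s z ≠ 0 := by
  unfold BsRe_Q
  rw [Finset.prod_ne_zero_iff]
  intro c' hc'
  rw [BsRe_erase] at hc'
  obtain ⟨t, ht, rfl⟩ := Finset.mem_image.mp hc'
  have hst : s ≠ t := (Finset.mem_erase.mp ht).1.symm
  refine pow_ne_zero _ ?_
  have h1 := BsRe_near hst hz
  have h2 := BsRe_sep hst
  rw [← Int.cast_sub, Complex.norm_intCast] at h2
  push_cast at h2
  intro h3
  rw [h3, norm_zero] at h1
  linarith

private theorem BsRe_zne {s : ℤ} (hs : s ≠ 0) {z : ℂ} (hz : ‖z - s‖ ≤ 1 / 2) :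
    1 / 2 ≤ ‖z‖ := by
  have h1 := BsRe_near (t := 0) hs hz
  have h2 := BsRe_sep (t := 0) hs
  rw [← Int.cast_sub, Complex.norm_intCast] at h2
  push_cast at h1 h2
  rw [sub_zero] at h1 h2
  rw [sub_zero] at h1
  linarith

private theorem BsRe_big {S O : ℕ} (hS : 1 ≤ S) {z : ℂ} (hz : ‖z‖ = 3 * S) :
    3 * S * ((2 * S : ℝ) ^ (2 * S)) ^ O ≤ ‖z * (z ^ O * BsRe_Q S O 0 z)‖ := by
  have hS' : (1 : ℝ) ≤ S := by exact_mod_cast hS
  rw [norm_mul, norm_mul, norm_pow, hz]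
  have h := BsRe_Qn S O 0 z
  rw [Int.cast_zero] at h
  rw [h]
  have h1 : (2 * S : ℝ) ^ (2 * S) ≤ ∏ t ∈ (Finset.Icc (-(S : ℤ)) S).erase 0, ‖z - (t : ℂ)‖ := by
    rw [← BsRe_card S 0 (by simp), ← Finset.prod_const]
    refine Finset.prod_le_prod (fun _ _ => by positivity) (fun t ht => ?_)
    have h2 : |t| ≤ (S : ℤ) := by
      have h3 := (Finset.mem_erase.mp ht).2
      rw [Finset.mem_Icc] at h3
      exact abs_le.mpr h3
    have h4 : ‖(t : ℂ)‖ ≤ S := by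
      rw [Complex.norm_intCast]
      exact_mod_cast h2
    have h5 : ‖z‖ - ‖(t : ℂ)‖ ≤ ‖z - t‖ := norm_sub_norm_le _ _
    rw [hz] at h5
    linarith
  have h2 : ((2 * S : ℝ) ^ (2 * S)) ^ O
      ≤ (∏ t ∈ (Finset.Icc (-(S : ℤ)) S).erase 0, ‖z - (t : ℂ)‖) ^ O :=
    pow_le_pow_left₀ (by positivity) h1 O
  have h3 : (1 : ℝ) ≤ (3 * S) ^ O := one_le_pow₀ (by linarith)
  have h4 : (0 : ℝ) ≤ ((2 * S : ℝ) ^ (2 * S)) ^ O := by positivity
  have h5 : (0 : ℝ) ≤ 3 * S := by positivity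
  calc 3 * S * ((2 * S : ℝ) ^ (2 * S)) ^ O
      ≤ 3 * S * (∏ t ∈ (Finset.Icc (-(S : ℤ)) S).erase 0, ‖z - (t : ℂ)‖) ^ O :=
        mul_le_mul_of_nonneg_left h2 h5
    _ = 3 * S * (1 * (∏ t ∈ (Finset.Icc (-(S : ℤ)) S).erase 0, ‖z - (t : ℂ)‖) ^ O) := by ring
    _ ≤ 3 * S * ((3 * S) ^ O * (∏ t ∈ (Finset.Icc (-(S : ℤ)) S).erase 0, ‖z - (t : ℂ)‖) ^ O) := by
        refine mul_le_mul_of_nonneg_left ?_ h5
        exact mul_le_mul_of_nonneg_right h3 (le_trans h4 h2)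

/-- the integrand -/
private noncomputable def BsRe_G (S O : ℕ) (F : ℂ → ℂ) (z : ℂ) : ℂ :=
  F z / (z * ∏ c ∈ BsRe_Z S, (z - c) ^ O)

private theorem BsRe_Gs {S O : ℕ} (F : ℂ → ℂ) {s : ℤ} (hs : |s| ≤ S) (z : ℂ) :
    BsRe_G S O F z = F z / (z * ((z - s) ^ O * BsRe_Q S O s z)) := by
  unfold BsRe_G BsRe_Q
  rw [Finset.mul_prod_erase (BsRe_Z S) (fun c => (z - c) ^ O) (BsRe_mem.mpr ⟨s, hs, rfl⟩)]

private theorem BsRe_res {S O : ℕ} (hS : 1 ≤ S) {F : ℂ → ℂ} (hF : Differentiable ℂ F) {r : ℝ}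
    (hr : 0 < r) (hr2 : r ≤ 1 / 2) :
    (∮ z in C(0, 3 * S), BsRe_G S O F z)
      = ∑ s ∈ Finset.Icc (-(S : ℤ)) S, ∮ z in C(s, r), BsRe_G S O F z := by
  have hS' : (1 : ℝ) ≤ S := by exact_mod_cast hS
  have h1 := residue_sum (Z := BsRe_Z S) (R := 3 * S) (r := r) (by positivity) hr (G := BsRe_G S O F) ?_ ?_ ?_
    (O + 1) (fun c z => F z * (if c = 0 then 1 else (z - c) / z) / BsRe_Q S O c z) ?_ ?_
  · rw [h1]
    unfold BsRe_Z
    rw [Finset.sum_image (fun a _ b _ h => BsRe_inj h)]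
  · intro c hc
    obtain ⟨s, hs, rfl⟩ := BsRe_mem.mp hc
    rw [Complex.norm_intCast]
    have : |(s : ℝ)| ≤ S := by exact_mod_cast hs
    linarith
  · intro c hc c' hc' hcc'
    obtain ⟨s, hs, rfl⟩ := BsRe_mem.mp hc
    obtain ⟨t, ht, rfl⟩ := BsRe_mem.mp hc'
    have h2 : s ≠ t := fun h => hcc' (by rw [h])
    have h3 := BsRe_sep h2
    linarith
  · intro z hz
    have h2 : ∀ c ∈ BsRe_Z S, z - c ≠ 0 := by
      intro c hc h3
      apply hz.2
      rw [sub_eq_zero.mp h3]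
      exact hc
    have h3 : z ≠ 0 := by
      have := h2 0 (BsRe_mem.mpr ⟨0, by simp, by simp⟩)
      rwa [sub_zero] at this
    have h4 : z * ∏ c ∈ BsRe_Z S, (z - c) ^ O ≠ 0 :=
      mul_ne_zero h3 (Finset.prod_ne_zero_iff.mpr (fun c hc => pow_ne_zero _ (h2 c hc)))
    refine DifferentiableAt.differentiableWithinAt ?_
    unfold BsRe_G
    refine DifferentiableAt.div (hF z) ?_ h4
    fun_prop
  · intro c hc
    obtain ⟨s, hs, rfl⟩ := BsRe_mem.mp hc
    have h2 : BsRe_Q S O s s ≠ 0 := BsRe_Qne (by simp)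
    have h3 : AnalyticAt ℂ F s := hF.analyticAt _
    have h4 : AnalyticAt ℂ (BsRe_Q S O s) s := (BsRe_Qd S O s).analyticAt _
    refine AnalyticAt.div (AnalyticAt.mul h3 ?_) h4 h2
    by_cases h5 : (s : ℂ) = 0
    · simp only [h5, if_true]
      exact analyticAt_const
    · simp only [h5, if_false]
      exact AnalyticAt.div (analyticAt_id.sub analyticAt_const) analyticAt_id h5
  · intro c hc
    obtain ⟨s, hs, rfl⟩ := BsRe_mem.mp hc
    have h2 : ∀ᶠ z : ℂ in 𝓝[≠] (s : ℂ), z ≠ (s : ℂ) := self_mem_nhdsWithin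
    have h3 : ∀ᶠ z : ℂ in 𝓝[≠] (s : ℂ), ‖z - (s : ℂ)‖ < 1 / 2 := by
      refine mem_nhdsWithin_of_mem_nhds ?_
      have : {z : ℂ | ‖z - s‖ < 1 / 2} = Metric.ball (s : ℂ) (1 / 2) := by
        ext z; simp [Metric.mem_ball, dist_eq_norm]
      change {z : ℂ | ‖z - s‖ < 1 / 2} ∈ 𝓝 (s : ℂ)
      rw [this]
      exact Metric.ball_mem_nhds _ (by norm_num)
    filter_upwards [h2, h3] with z hz hz'
    rw [BsRe_Gs F hs]
    have h4 : BsRe_Q S O s z ≠ 0 := BsRe_Qne hz'.le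
    have h5 : z - (s : ℂ) ≠ 0 := sub_ne_zero.mpr hz
    by_cases h6 : (s : ℂ) = 0
    · simp only [h6, if_true]
      rw [h6] at h4 h5
      rw [sub_zero] at h5 ⊢
      field_simp
      ring
    · simp only [h6, if_false]
      have h7 : s ≠ 0 := fun h => h6 (by rw [h, Int.cast_zero])
      have h8 := BsRe_zne h7 hz'.le
      have h9 : z ≠ 0 := by
        intro h10
        rw [h10, norm_zero] at h8
        linarith
      field_simp
      ring

private theorem BsRe_E0 {S O : ℕ} {F : ℂ → ℂ} {r : ℝ}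
    (hr : 0 < r) (hr2 : r ≤ 1 / 2) {g : ℂ → ℂ}
    (hg : DifferentiableOn ℂ g (Metric.closedBall 0 r))
    (hF : ∀ z ∈ Metric.closedBall (0 : ℂ) r, F z = z ^ O * g z) :
    (∮ z in C(0, r), BsRe_G S O F z) = 2 * Real.pi * Complex.I * (g 0 / BsRe_Q S O 0 0) := by
  have h1 : (∮ z in C(0, r), BsRe_G S O F z)
      = ∮ z in C(0, r), (z - 0)⁻¹ • (g z / BsRe_Q S O 0 z) := by
    refine circleIntegral.integral_congr hr.le (fun z hz => ?_)
    have h2 : z ∈ Metric.closedBall (0 : ℂ) r := Metric.sphere_subset_closedBall hz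
    have h3 : z ≠ 0 := by
      intro h
      rw [h] at hz
      simp at hz
      linarith
    have h4 : ‖z - ((0 : ℤ) : ℂ)‖ ≤ 1 / 2 := by
      rw [Int.cast_zero, sub_zero]
      have : ‖z‖ ≤ r := by simpa using h2
      linarith
    have h5 : BsRe_Q S O 0 z ≠ 0 := by
      have := BsRe_Qne (S := S) (O := O) h4
      rwa [Int.cast_zero] at this
    have h6 := BsRe_Gs (S := S) (O := O) F (s := 0) (by simp) z
    rw [Int.cast_zero, sub_zero] at h6
    rw [h6, hF z h2, sub_zero, smul_eq_mul]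
    field_simp
  rw [h1]
  have h2 : DifferentiableOn ℂ (fun z => g z / BsRe_Q S O 0 z) (Metric.closedBall 0 r) := by
    intro z hz
    have h4 : ‖z - ((0 : ℤ) : ℂ)‖ ≤ 1 / 2 := by
      rw [Int.cast_zero, sub_zero]
      have : ‖z‖ ≤ r := by simpa using hz
      linarith
    have h5 : BsRe_Q S O 0 z ≠ 0 := by
      have := BsRe_Qne (S := S) (O := O) h4
      rwa [Int.cast_zero] at this
    exact (hg z hz).div (BsRe_Qd S O 0).differentiableAt.differentiableWithinAt h5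
  have h3 : DiffContOnCl ℂ (fun z => g z / BsRe_Q S O 0 z) (Metric.ball 0 r) :=
    h2.diffContOnCl_ball subset_rfl
  have h4 := h3.circleIntegral_sub_inv_smul (w := 0) (by simpa using hr)
  rw [h4, smul_eq_mul]

private theorem BsRe_E1 {S O : ℕ} {F : ℂ → ℂ} {r : ℝ}
    (hr : 0 < r) (hr2 : r ≤ 1 / 2) {s : ℤ} (hs : |s| ≤ S) (hs0 : s ≠ 0) {g h : ℂ → ℂ}
    (hg : DifferentiableOn ℂ g (Metric.closedBall 0 r))
    (hh : DifferentiableOn ℂ h (Metric.closedBall 0 r))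
    (hF : ∀ z ∈ Metric.closedBall (0 : ℂ) r, F (s + z) = z ^ O * g z + h z)
    {B : ℝ} (hB : 0 ≤ B) (hhB : ∀ z : ℂ, ‖z‖ = r → ‖h z‖ ≤ B) {P : ℝ} (hP : 0 < P)
    (hPQ : ∀ z : ℂ, ‖z - s‖ ≤ 1 / 2 → P ^ O / 4 ^ (S * O) ≤ ‖BsRe_Q S O s z‖) :
    ‖∮ z in C(s, r), BsRe_G S O F z‖
      ≤ 2 * Real.pi * r * (2 * B * 4 ^ (S * O) / (r ^ O * P ^ O)) := by
  have hmem : ∀ z ∈ Metric.closedBall (s : ℂ) r, ‖z - s‖ ≤ r := by
    intro z hz
    rwa [Metric.mem_closedBall, dist_eq_norm] at hz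
  have hmem0 : ∀ z ∈ Metric.closedBall (s : ℂ) r, z - s ∈ Metric.closedBall (0 : ℂ) r := by
    intro z hz
    rw [Metric.mem_closedBall, dist_zero_right]
    exact hmem z hz
  have hz0 : ∀ z ∈ Metric.closedBall (s : ℂ) r, z ≠ 0 := by
    intro z hz h1
    have h2 := BsRe_zne hs0 (le_trans (hmem z hz) hr2)
    rw [h1, norm_zero] at h2
    linarith
  have hQ0 : ∀ z ∈ Metric.closedBall (s : ℂ) r, BsRe_Q S O s z ≠ 0 :=
    fun z hz => BsRe_Qne (le_trans (hmem z hz) hr2)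
  have hsub : DifferentiableOn ℂ (fun z : ℂ => z - s) (Metric.closedBall (s : ℂ) r) := by
    fun_prop
  have hgs : DifferentiableOn ℂ (fun z : ℂ => g (z - s)) (Metric.closedBall (s : ℂ) r) :=
    hg.comp hsub hmem0
  have hhs : DifferentiableOn ℂ (fun z : ℂ => h (z - s)) (Metric.closedBall (s : ℂ) r) :=
    hh.comp hsub hmem0
  have hden : DifferentiableOn ℂ (fun z : ℂ => z * BsRe_Q S O s z) (Metric.closedBall (s : ℂ) r) :=
    (differentiable_id.mul (BsRe_Qd S O s)).differentiableOn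
  have hu : DifferentiableOn ℂ (fun z : ℂ => g (z - s) / (z * BsRe_Q S O s z))
      (Metric.closedBall (s : ℂ) r) :=
    hgs.div hden (fun z hz => mul_ne_zero (hz0 z hz) (hQ0 z hz))
  have hsp : ∀ z ∈ Metric.sphere (s : ℂ) r, z - s ≠ 0 := by
    intro z hz h1
    rw [mem_sphere_iff_norm, h1, norm_zero] at hz
    linarith
  have hv : ContinuousOn (fun z : ℂ => h (z - s) / (z * ((z - s) ^ O * BsRe_Q S O s z)))
      (Metric.sphere (s : ℂ) r) := by
    refine (hhs.continuousOn.mono Metric.sphere_subset_closedBall).div ?_ ?_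
    · have := (BsRe_Qd S O s).continuous
      fun_prop
    · intro z hz
      have hz' := Metric.sphere_subset_closedBall hz
      exact mul_ne_zero (hz0 z hz') (mul_ne_zero (pow_ne_zero _ (hsp z hz)) (hQ0 z hz'))
  have h1 : (∮ z in C(s, r), BsRe_G S O F z)
      = ∮ z in C(s, r), (g (z - s) / (z * BsRe_Q S O s z)
        + h (z - s) / (z * ((z - s) ^ O * BsRe_Q S O s z))) := by
    refine circleIntegral.integral_congr hr.le (fun z hz => ?_)
    have hz' := Metric.sphere_subset_closedBall hz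
    have h2 := hF (z - s) (hmem0 z hz')
    rw [add_sub_cancel] at h2
    have h3 := hsp z hz
    have h4 := hz0 z hz'
    have h5 := hQ0 z hz'
    rw [BsRe_Gs F hs, h2]
    field_simp
  have h2 : (∮ z in C(s, r), g (z - s) / (z * BsRe_Q S O s z)) = 0 := by
    exact (hu.diffContOnCl_ball subset_rfl).circleIntegral_eq_zero hr.le
  rw [h1, circleIntegral.integral_add, h2, zero_add]
  · refine circleIntegral.norm_integral_le_of_norm_le_const hr.le (fun z hz => ?_)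
    have hz' := Metric.sphere_subset_closedBall hz
    have h3 : ‖z - s‖ = r := by rwa [mem_sphere_iff_norm] at hz
    have h4 := BsRe_zne hs0 (le_trans (hmem z hz') hr2)
    have h5 := hPQ z (le_trans (hmem z hz') hr2)
    rw [norm_div, norm_mul, norm_mul, norm_pow, h3]
    have h6 : 0 < P ^ O / 4 ^ (S * O) := by positivity
    have h7 : (1 / 2) * (r ^ O * (P ^ O / 4 ^ (S * O))) ≤ ‖z‖ * (r ^ O * ‖BsRe_Q S O s z‖) := by
      refine mul_le_mul h4 ?_ (by positivity) (norm_nonneg _)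
      exact mul_le_mul_of_nonneg_left h5 (by positivity)
    calc ‖h (z - s)‖ / (‖z‖ * (r ^ O * ‖BsRe_Q S O s z‖))
        ≤ B / ((1 / 2) * (r ^ O * (P ^ O / 4 ^ (S * O)))) :=
          div_le_div₀ hB (hhB _ h3) (by positivity) h7
      _ = 2 * B * 4 ^ (S * O) / (r ^ O * P ^ O) := by
          field_simp
  · exact (hu.continuousOn.mono Metric.sphere_subset_closedBall).circleIntegrable hr.le
  · exact hv.circleIntegrable hr.le

private theorem BsRe_E2 {S O : ℕ} (hS : 1 ≤ S) {F : ℂ → ℂ} {A : ℝ}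
    (hA : ∀ z : ℂ, ‖z‖ = 3 * S → ‖F z‖ ≤ A) :
    ‖∮ z in C(0, 3 * S), BsRe_G S O F z‖
      ≤ 2 * Real.pi * A / ((2 * S : ℝ) ^ (2 * S)) ^ O := by
  have hS' : (1 : ℝ) ≤ S := by exact_mod_cast hS
  have hA0 : 0 ≤ A := by
    have h1 := hA (3 * S) (by simp)
    exact le_trans (norm_nonneg _) h1
  have h1 : ‖∮ z in C(0, 3 * S), BsRe_G S O F z‖
      ≤ 2 * Real.pi * (3 * S) * (A / (3 * S * ((2 * S : ℝ) ^ (2 * S)) ^ O)) := by
    refine circleIntegral.norm_integral_le_of_norm_le_const (by positivity) (fun z hz => ?_)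
    have hz' : ‖z‖ = 3 * S := by simpa using hz
    have h2 := BsRe_Gs (S := S) (O := O) F (s := 0) (by simp) z
    rw [Int.cast_zero, sub_zero] at h2
    rw [h2, norm_div]
    exact div_le_div₀ hA0 (hA z hz') (by positivity) (BsRe_big hS hz')
  refine le_trans h1 (le_of_eq ?_)
  field_simp

theorem res_int {S O : ℕ} (hS : 1 ≤ S) {F : ℂ → ℂ} (hF : Differentiable ℂ F)
    {A B r : ℝ} (hA : ∀ z : ℂ, ‖z‖ = 3 * S → ‖F z‖ ≤ A) (hr : 0 < r) (hr2 : r ≤ 1 / 2)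
    (hB : 0 ≤ B) (g h : ℤ → ℂ → ℂ)
    (hg : ∀ s : ℤ, |s| ≤ S → DifferentiableOn ℂ (g s) (Metric.closedBall 0 r))
    (hh : ∀ s : ℤ, |s| ≤ S → DifferentiableOn ℂ (h s) (Metric.closedBall 0 r))
    (hFgh : ∀ s : ℤ, |s| ≤ S → ∀ z ∈ Metric.closedBall (0 : ℂ) r,
      F (s + z) = z ^ O * g s z + h s z)
    (h0 : ∀ z ∈ Metric.closedBall (0 : ℂ) r, h 0 z = 0)
    (hhB : ∀ s : ℤ, |s| ≤ S → ∀ z : ℂ, ‖z‖ = r → ‖h s z‖ ≤ B) :
    ‖g 0 0‖ ≤ A / 4 ^ (S * O) + 4 * S * 4 ^ (S * O) * B / r ^ O := by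
  have hS' : (1 : ℝ) ≤ S := by exact_mod_cast hS
  have hA0 : 0 ≤ A := by
    have h1 := hA (3 * S) (by simp)
    exact le_trans (norm_nonneg _) h1
  obtain ⟨P, hPdef⟩ : ∃ P : ℝ, P = ∏ t ∈ (Finset.Icc (-(S : ℤ)) S).erase 0, |(t : ℝ)| := ⟨_, rfl⟩
  have hP : 0 < P := by
    rw [hPdef]
    refine Finset.prod_pos (fun t ht => ?_)
    have := (Finset.mem_erase.mp ht).1
    exact abs_pos.mpr (by exact_mod_cast this)
  have hPS : P ≤ (S : ℝ) ^ (2 * S) := by
    rw [hPdef]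
    exact BsRe_prodS S
  have e0 := BsRe_E0 (S := S) (O := O) (F := F) hr hr2 (hg 0 (by simp)) (by
    intro z hz
    have h1 := hFgh 0 (by simp) z hz
    rwa [Int.cast_zero, zero_add, h0 z hz, add_zero] at h1)
  have e1 : ∀ s ∈ (Finset.Icc (-(S : ℤ)) S).erase 0, ‖∮ z in C(s, r), BsRe_G S O F z‖
      ≤ 2 * Real.pi * r * (2 * B * 4 ^ (S * O) / (r ^ O * P ^ O)) := by
    intro s hs
    have hs0 : s ≠ 0 := (Finset.mem_erase.mp hs).1
    have hs1 : |s| ≤ (S : ℤ) := by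
      have h3 := (Finset.mem_erase.mp hs).2
      rw [Finset.mem_Icc] at h3
      exact abs_le.mpr h3
    refine BsRe_E1 hr hr2 hs1 hs0 (hg s hs1) (hh s hs1) (hFgh s hs1) hB (hhB s hs1) hP ?_
    intro z hz
    rw [hPdef]
    exact BsRe_Qlow hs1 hz
  have e2 := BsRe_E2 (O := O) hS hA
  have e3 := BsRe_res (O := O) hS hF hr hr2
  rw [← Finset.add_sum_erase _ _ (show (0 : ℤ) ∈ Finset.Icc (-(S : ℤ)) S by
    rw [Finset.mem_Icc]; omega)] at e3
  rw [Int.cast_zero, e0] at e3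
  have e4 : 2 * Real.pi * Complex.I * (g 0 0 / BsRe_Q S O 0 0)
      = (∮ z in C(0, 3 * S), BsRe_G S O F z)
        - ∑ s ∈ (Finset.Icc (-(S : ℤ)) S).erase 0, ∮ z in C(s, r), BsRe_G S O F z := by
    rw [e3]; ring
  have e5 : ‖2 * Real.pi * Complex.I * (g 0 0 / BsRe_Q S O 0 0)‖
      = 2 * Real.pi * (‖g 0 0‖ / P ^ O) := by
    rw [norm_mul, norm_div, BsRe_Q0, ← hPdef]
    simp [abs_of_pos Real.pi_pos]
  have e6 : ‖∑ s ∈ (Finset.Icc (-(S : ℤ)) S).erase 0, ∮ z in C(s, r), BsRe_G S O F z‖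
      ≤ (2 * S) * (2 * Real.pi * r * (2 * B * 4 ^ (S * O) / (r ^ O * P ^ O))) := by
    refine le_trans (norm_sum_le_of_le _ e1) ?_
    rw [Finset.sum_const, BsRe_card S 0 (by simp), nsmul_eq_mul]
    push_cast
    exact le_rfl
  have e7 : 2 * Real.pi * (‖g 0 0‖ / P ^ O) ≤ 2 * Real.pi * A / ((2 * S : ℝ) ^ (2 * S)) ^ O
      + (2 * S) * (2 * Real.pi * r * (2 * B * 4 ^ (S * O) / (r ^ O * P ^ O))) := by
    rw [← e5, e4]
    exact le_trans (norm_sub_le _ _) (add_le_add e2 e6)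
  have hpi := Real.pi_pos
  have hPO : 0 < P ^ O := by positivity
  have e8 : ‖g 0 0‖ ≤ A * (P ^ O / ((2 * S : ℝ) ^ (2 * S)) ^ O)
      + 4 * S * r * (B * 4 ^ (S * O) / r ^ O) := by
    have h1 := mul_le_mul_of_nonneg_left e7 (show 0 ≤ P ^ O / (2 * Real.pi) by positivity)
    have h2 : P ^ O / (2 * Real.pi) * (2 * Real.pi * (‖g 0 0‖ / P ^ O)) = ‖g 0 0‖ := by
      field_simp
    have h3 : P ^ O / (2 * Real.pi) * (2 * Real.pi * A / ((2 * S : ℝ) ^ (2 * S)) ^ O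
      + (2 * S) * (2 * Real.pi * r * (2 * B * 4 ^ (S * O) / (r ^ O * P ^ O))))
      = A * (P ^ O / ((2 * S : ℝ) ^ (2 * S)) ^ O)
      + 4 * S * r * (B * 4 ^ (S * O) / r ^ O) := by
      field_simp
      ring
    rw [h2, h3] at h1
    exact h1
  have e9 : P ^ O / ((2 * S : ℝ) ^ (2 * S)) ^ O ≤ 1 / 4 ^ (S * O) := by
    rw [← div_pow, pow_mul (4 : ℝ), ← one_div_pow]
    refine pow_le_pow_left₀ (by positivity) ?_ O
    rw [div_le_div_iff₀ (by positivity) (by positivity), one_mul, mul_pow, pow_mul (2 : ℝ)]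
    norm_num
    nlinarith [pow_pos (show (0 : ℝ) < 4 by norm_num) S]
  have e10 : 4 * S * r * (B * 4 ^ (S * O) / r ^ O) ≤ 4 * S * 4 ^ (S * O) * B / r ^ O := by
    have h1 : 0 ≤ B * 4 ^ (S * O) / r ^ O := by positivity
    have h2 : 4 * (S : ℝ) * r ≤ 4 * S * 1 := by
      refine mul_le_mul_of_nonneg_left (by linarith) (by positivity)
    calc 4 * S * r * (B * 4 ^ (S * O) / r ^ O) ≤ 4 * S * 1 * (B * 4 ^ (S * O) / r ^ O) :=
          mul_le_mul_of_nonneg_right h2 h1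
      _ = 4 * S * 4 ^ (S * O) * B / r ^ O := by ring
  refine le_trans e8 (add_le_add ?_ e10)
  calc A * (P ^ O / ((2 * S : ℝ) ^ (2 * S)) ^ O) ≤ A * (1 / 4 ^ (S * O)) :=
        mul_le_mul_of_nonneg_left e9 hA0
    _ = A / 4 ^ (S * O) := by ring

theorem res_exact {S O : ℕ} (hS : 1 ≤ S) {F : ℂ → ℂ} (hF : Differentiable ℂ F)
    {A : ℝ} (hA : ∀ z : ℂ, ‖z‖ = 3 * S → ‖F z‖ ≤ A) (g : ℂ → ℂ) (hg : AnalyticAt ℂ g 0)
    (hF0 : ∀ᶠ z in 𝓝 (0 : ℂ), F z = z ^ O * g z)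
    (hFs : ∀ s : ℤ, |s| ≤ S → (O : ℕ∞) ≤ analyticOrderAt F s) :
    ‖g 0‖ ≤ A / 4 ^ (S * O) := by
  have h1 : ∀ s : ℤ, ∃ gs : ℂ → ℂ, (s = 0 → gs = g) ∧ (|s| ≤ S →
      ∀ᶠ z in 𝓝 (0 : ℂ), F (s + z) = z ^ O * gs z ∧ DifferentiableAt ℂ gs z) := by
    intro s
    by_cases hs0 : s = 0
    · refine ⟨g, fun _ => rfl, fun _ => ?_⟩
      rw [hs0]
      filter_upwards [hF0, hg.eventually_analyticAt] with z h2 h3
      rw [Int.cast_zero, zero_add]
      exact ⟨h2, h3.differentiableAt⟩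
    · by_cases hs : |s| ≤ S
      · obtain ⟨gs, hgs, hgs'⟩ := (natCast_le_analyticOrderAt (hF.analyticAt _)).mp (hFs s hs)
        refine ⟨fun z => gs (s + z), fun h => absurd h hs0, fun _ => ?_⟩
        have h2 : Tendsto (fun z : ℂ => (s : ℂ) + z) (𝓝 0) (𝓝 s) := by
          have : ContinuousAt (fun z : ℂ => (s : ℂ) + z) 0 := by fun_prop
          simpa [ContinuousAt] using this
        filter_upwards [h2.eventually hgs', h2.eventually hgs.eventually_analyticAt] with z h3 h4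
        refine ⟨?_, ?_⟩
        · rw [h3, smul_eq_mul, add_sub_cancel_left]
        · have h5 : DifferentiableAt ℂ gs (s + z) := h4.differentiableAt
          exact h5.comp z (by fun_prop)
      · exact ⟨g, fun _ => rfl, fun h => absurd h hs⟩
  choose gs hgs0 hgs using h1
  have h2 : ∀ᶠ z in 𝓝 (0 : ℂ), ∀ s ∈ Finset.Icc (-(S : ℤ)) S,
      F (s + z) = z ^ O * gs s z ∧ DifferentiableAt ℂ (gs s) z := by
    rw [Filter.eventually_all_finset]
    intro s hs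
    rw [Finset.mem_Icc] at hs
    exact hgs s (abs_le.mpr hs)
  obtain ⟨e, he, he'⟩ := Metric.eventually_nhds_iff_ball.mp h2
  have hr : 0 < min (e / 2) (1 / 2) := by positivity
  have hsub : ∀ z ∈ Metric.closedBall (0 : ℂ) (min (e / 2) (1 / 2)), z ∈ Metric.ball (0 : ℂ) e := by
    intro z hz
    rw [Metric.mem_closedBall] at hz
    rw [Metric.mem_ball]
    have := min_le_left (e / 2) (1 / 2)
    linarith
  have h3 := res_int (O := O) (B := 0) hS hF hA hr (min_le_right _ _) le_rfl gs (fun _ _ => 0)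
    (fun s hs z hz => ((he' z (hsub z hz) s (by
      rw [Finset.mem_Icc]; exact abs_le.mp hs)).2).differentiableWithinAt)
    (fun s hs => differentiableOn_const _)
    (fun s hs z hz => by
      rw [add_zero]
      exact (he' z (hsub z hz) s (by rw [Finset.mem_Icc]; exact abs_le.mp hs)).1)
    (fun z hz => rfl) (fun s hs z hz => by simp)
  rw [hgs0 0 rfl] at h3
  simpa using h3

end Pool.Agent.LGO.Bs
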