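import Mathlib
import Pool.Agent.LGO.A.BsLoc
import Pool.Agent.LGO.A.BsPsi
import Pool.Agent.LGO.A.BsRe

/-!
# LGO base: upper bound for the leading coefficient (analytic part of the engines 1 and 2)

`F = FF s₁ e₁ s₂ e₂ θ L c` with `θ = ξ w₁ / w₂`, `δ = w₂ - ξ w₁`, `‖δ‖ ≤ ‖w₂‖`, so
`‖θ‖ ≤ 2` (`θ = 1 - δ / w₂`).  `res_int` with
`g m z = (e₁ z * e₂ (θ (m + z)))^L * Ψ z` (`Ψ` from `exists_Psi` for `w = w₁`),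
`h m z = (e₁ z * e₂ (θ (m + z)))^L * (Pq (w₁ z) (ξ w₁ z - m δ) - Pq (w₁ z) (ξ w₁ z))`
where `Pq (w₁ z) (ξ w₁ z) = Ph (w₁ z) = z^O Ψ z` (`Ph` unfolds to `Pq`, `ξ * (w₁ * z) = ξ * w₁ * z`).
`FF_loc` gives `F (m + z) = z^O g m z + h m z` for `‖z‖ ≤ r`, `|m| ≤ S`: here
`‖ξ w₁ z - m δ‖ ≤ 1/(8 X) + S ‖δ‖ ≤ 1/(4 X)`.  Differentiability: `loc_diff`, `Ent.ds`, `Ent.de`.
`h 0 = 0` because `0 * δ = 0`.  `‖h m z‖ ≤ exp(L (G(3S) + G'(6S))) 4 L³ Y S ‖δ‖` by `loc_err` and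
`Ent.be` (`‖z‖ ≤ 3 S`, `‖θ (m + z)‖ ≤ 2 (S + 1/2) ≤ 6 S`).  `A` from `FF_bd` with `R = 3 S`.
`g 0 0 = (e₁ 0 e₂ 0)^L Ψ 0 = φ(gm O) (w₁ / φ x₁)^O` (`Ent.e0`).
-/

namespace Pool.Agent.LGO.Bs

open Pool.Agent.EllSch NumberField

theorem up {K : Type*} [Field K] [CharZero K] {D : D2 K} {φ : K →+* ℂ} {w₁ τ₁ w₂ τ₂ ξ : ℂ}
    {G G' : ℝ → ℝ} {s₁ e₁ s₂ e₂ : ℂ → ℂ} {X : ℝ}
    (h₁ : Ent w₁ τ₁ w₁ G s₁ e₁) (h₂ : Ent w₂ τ₂ w₂ G' s₂ e₂)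
    (i₁ : Ind w₁ (w₁ * τ₁)) (i₂ : Ind w₂ (w₂ * τ₂)) (hD : IsD D φ w₁ (w₁ * τ₁) w₂ (w₂ * τ₂) ξ)
    (hX : 1 ≤ X)
    (hA : ‖3 / 2 * G2 w₁ (w₁ * τ₁)‖ ≤ X ^ 4) (hB : ‖2 * G3 w₁ (w₁ * τ₁)‖ ≤ X ^ 4)
    (hA' : ‖3 / 2 * G2 w₂ (w₂ * τ₂)‖ ≤ X ^ 4) (hB' : ‖2 * G3 w₂ (w₂ * τ₂)‖ ≤ X ^ 4)
    (hw₂ : w₂ ≠ 0) {L O S : ℕ} {c : ℕ → ℕ → ℤ} {Y W r : ℝ}
    (hc : ∀ i < L, ∀ j < L, |(c i j : ℝ)| ≤ Y) (hY : 0 ≤ Y) (hW : 1 ≤ W)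
    (hW₁ : ‖w₁‖ ^ 2 ≤ W) (hW₂ : ‖w₂‖ ^ 2 ≤ W) (hS : 1 ≤ S) (hr : 0 < r) (hr2 : r ≤ 1 / 2)
    (hr₁ : ‖w₁‖ * r ≤ 1 / (8 * X)) (hr₂ : ‖ξ * w₁‖ * r ≤ 1 / (8 * X))
    (hδ : ‖w₂ - ξ * w₁‖ ≤ ‖w₂‖) (hδS : S * ‖w₂ - ξ * w₁‖ ≤ 1 / (8 * X))
    (h0 : ∀ n < O, gm D L c n = 0) :
    ‖φ (gm D L c O)‖ * (‖w₁‖ / ‖φ D.x₁‖) ^ O ≤
      L ^ 2 * Y * W ^ (2 * L) * Real.exp (L * (G (3 * S) + G' (6 * S))) / 4 ^ (S * O) +
      4 * S * 4 ^ (S * O) * (4 * L ^ 3 * Y * (S * ‖w₂ - ξ * w₁‖) *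
        Real.exp (L * (G (3 * S) + G' (6 * S)))) / r ^ O := by
  have hX0 : 0 < X := by linarith
  have hS' : (1 : ℝ) ≤ S := by exact_mod_cast hS
  have h84 : 1 / (8 * X) ≤ 1 / (4 * X) := by
    apply one_div_le_one_div_of_le (by positivity)
    linarith
  have h88 : 1 / (8 * X) + 1 / (8 * X) = 1 / (4 * X) := by
    field_simp
    norm_num
  have h8 : 0 ≤ 1 / (8 * X) := by positivity
  have hθ : ‖ξ * w₁ / w₂‖ ≤ 2 := by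
    have h1 : ξ * w₁ / w₂ = 1 - (w₂ - ξ * w₁) / w₂ := by
      field_simp
      ring
    rw [h1]
    have h2 : ‖(w₂ - ξ * w₁) / w₂‖ ≤ 1 := by
      rw [norm_div]
      exact div_le_one_of_le₀ hδ (norm_nonneg _)
    calc ‖1 - (w₂ - ξ * w₁) / w₂‖ ≤ ‖(1 : ℂ)‖ + ‖(w₂ - ξ * w₁) / w₂‖ := norm_sub_le _ _
      _ ≤ 2 := by rw [norm_one]; linarith
  obtain ⟨Ψ, hΨd, hΨ, hΨ0⟩ := exists_Psi i₁ i₂ hD hX hA hB hA' hB' hr (hr₁.trans h84)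
    (hr₂.trans h84) L c O h0
  have hmδ : ∀ m : ℤ, |m| ≤ S → ‖(m : ℂ) * (w₂ - ξ * w₁)‖ ≤ S * ‖w₂ - ξ * w₁‖ := by
    intro m hm
    rw [norm_mul, Complex.norm_intCast]
    refine mul_le_mul_of_nonneg_right ?_ (norm_nonneg _)
    exact_mod_cast hm
  have hz1 : ∀ z ∈ Metric.closedBall (0 : ℂ) r, ‖w₁ * z‖ ≤ 1 / (8 * X) := by
    intro z hz
    rw [mem_closedBall_zero_iff] at hz
    rw [norm_mul]
    exact (mul_le_mul_of_nonneg_left hz (norm_nonneg _)).trans hr₁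
  have hz2 : ∀ z ∈ Metric.closedBall (0 : ℂ) r, ‖ξ * w₁ * z‖ ≤ 1 / (8 * X) := by
    intro z hz
    rw [mem_closedBall_zero_iff] at hz
    rw [norm_mul]
    exact (mul_le_mul_of_nonneg_left hz (norm_nonneg _)).trans hr₂
  have hz3 : ∀ m : ℤ, |m| ≤ S → ∀ z ∈ Metric.closedBall (0 : ℂ) r,
      ‖ξ * w₁ * z - m * (w₂ - ξ * w₁)‖ ≤ 1 / (4 * X) := by
    intro m hm z hz
    rw [← h88]
    exact (norm_sub_le _ _).trans (add_le_add (hz2 z hz) ((hmδ m hm).trans hδS))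
  have hPh : ∀ z : ℂ, Ph w₁ (w₁ * τ₁) w₂ (w₂ * τ₂) ξ L c (w₁ * z) =
      Pq w₁ τ₁ w₂ τ₂ L c (w₁ * z) (ξ * w₁ * z) := by
    intro z
    rw [Ph, Pq, mul_assoc ξ w₁ z]
  have hde : ∀ m : ℤ, Differentiable ℂ fun z : ℂ =>
      (e₁ z * e₂ (ξ * w₁ / w₂ * (m + z))) ^ L := by
    intro m
    refine (h₁.de.mul (h₂.de.comp ?_)).pow L
    exact ((differentiable_const _).add differentiable_id).const_mul _
  have hY0 : 0 ≤ 4 * (L : ℝ) ^ 3 * Y := by positivity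
  have hre : ∀ m : ℤ, |m| ≤ S → ∀ z : ℂ, ‖z‖ = r →
      ‖(e₁ z * e₂ (ξ * w₁ / w₂ * (m + z))) ^ L‖ ≤ Real.exp (L * (G (3 * S) + G' (6 * S))) := by
    intro m hm z hz
    have hzS : ‖z‖ ≤ S := by rw [hz]; linarith
    have hmS : ‖(m : ℂ)‖ ≤ S := by
      rw [Complex.norm_intCast]
      exact_mod_cast hm
    have a1 : ‖e₁ z‖ ≤ Real.exp (G (3 * S)) := h₁.be _ (by linarith) z (by linarith)
    have a2 : ‖e₂ (ξ * w₁ / w₂ * (m + z))‖ ≤ Real.exp (G' (6 * S)) := by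
      refine h₂.be _ (by linarith) _ ?_
      rw [norm_mul]
      have a3 : ‖(m : ℂ) + z‖ ≤ 2 * S := (norm_add_le _ _).trans (by linarith)
      calc ‖ξ * w₁ / w₂‖ * ‖(m : ℂ) + z‖ ≤ 2 * (2 * S) :=
            mul_le_mul hθ a3 (norm_nonneg _) (by norm_num)
        _ ≤ 6 * S := by linarith
    rw [norm_pow, norm_mul]
    calc (‖e₁ z‖ * ‖e₂ (ξ * w₁ / w₂ * (m + z))‖) ^ L
        ≤ (Real.exp (G (3 * S)) * Real.exp (G' (6 * S))) ^ L :=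
          pow_le_pow_left₀ (by positivity)
            (mul_le_mul a1 a2 (norm_nonneg _) (Real.exp_pos _).le) L
      _ = Real.exp (L * (G (3 * S) + G' (6 * S))) := by
          rw [← Real.exp_add, ← Real.exp_nat_mul]
  have key := res_int (S := S) (O := O) hS (F := FF s₁ e₁ s₂ e₂ (ξ * w₁ / w₂) L c)
    (FF_diff h₁ h₂ L c)
    (A := L ^ 2 * Y * W ^ (2 * L) * Real.exp (L * (G (3 * S) + G' (6 * S))))
    (B := 4 * L ^ 3 * Y * (S * ‖w₂ - ξ * w₁‖) * Real.exp (L * (G (3 * S) + G' (6 * S))))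
    (r := r)
    (fun z hz => by
      have a1 := FF_bd h₁ h₂ hθ hc hY hW hW₁ hW₂ (R := 3 * S) (by linarith) hz.le
      rwa [show (2 : ℝ) * (3 * S) = 6 * S by ring] at a1)
    hr hr2 (by positivity)
    (fun m z => (e₁ z * e₂ (ξ * w₁ / w₂ * (m + z))) ^ L * Ψ z)
    (fun m z => (e₁ z * e₂ (ξ * w₁ / w₂ * (m + z))) ^ L *
      (Pq w₁ τ₁ w₂ τ₂ L c (w₁ * z) (ξ * w₁ * z - m * (w₂ - ξ * w₁)) -
        Pq w₁ τ₁ w₂ τ₂ L c (w₁ * z) (ξ * w₁ * z)))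
    (fun m _ => (hde m).differentiableOn.mul hΨd)
    (fun m hm => by
      refine (hde m).differentiableOn.mul (DifferentiableOn.sub ?_ ?_)
      · exact loc_diff i₁ i₂ hX hA hB hA' hB' L c hr₁ hr₂ ((hmδ m hm).trans hδS)
      · have a1 := loc_diff i₁ i₂ hX hA hB hA' hB' L c (v := 0) hr₁ hr₂ (by rw [norm_zero]; exact h8)
        simpa only [sub_zero] using a1)
    (fun m hm z hz => by
      have a1 := hΨ z hz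
      rw [hPh] at a1
      rw [FF_loc h₁ h₂ i₁ i₂ hX hA hB hA' hB' hw₂ L c m ((hz1 z hz).trans h84) (hz3 m hm z hz),
        a1]
      ring)
    (fun z _ => by
      rw [Int.cast_zero, zero_mul, sub_zero, sub_self, mul_zero])
    (fun m hm z hz => by
      have hz' : z ∈ Metric.closedBall (0 : ℂ) r := by
        rw [mem_closedBall_zero_iff]
        exact hz.le
      have a1 := loc_err i₁ i₂ hX hA hB hA' hB' hc hY ((hz1 z hz').trans h84) (hz3 m hm z hz')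
        ((hz2 z hz').trans h84)
      have a2 : ‖ξ * w₁ * z - m * (w₂ - ξ * w₁) - ξ * w₁ * z‖ ≤ S * ‖w₂ - ξ * w₁‖ := by
        rw [show ξ * w₁ * z - m * (w₂ - ξ * w₁) - ξ * w₁ * z = -(m * (w₂ - ξ * w₁)) by ring,
          norm_neg]
        exact hmδ m hm
      have a3 := a1.trans (mul_le_mul_of_nonneg_left a2 hY0)
      rw [norm_mul, mul_comm]
      exact mul_le_mul a3 (hre m hm z hz) (norm_nonneg _)
        (mul_nonneg hY0 (mul_nonneg (by positivity) (norm_nonneg _))))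
  have e00 : ‖(e₁ 0 * e₂ (ξ * w₁ / w₂ * (((0 : ℤ) : ℂ) + 0))) ^ L * Ψ 0‖ =
      ‖φ (gm D L c O)‖ * (‖w₁‖ / ‖φ D.x₁‖) ^ O := by
    rw [Int.cast_zero, add_zero, mul_zero, h₁.e0, h₂.e0, mul_one, one_pow, one_mul, hΨ0, norm_mul,
      norm_pow, norm_div]
  rw [← e00]
  exact key

end Pool.Agent.LGO.Bs
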