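import Mathlib
import Pool.Agent.LGO.A.BsUp
import Pool.Agent.LGO.A.BsLow
import Pool.Agent.LGO.A.BsCu

/-!
# LGO base: the key inequality of the engines 1 and 2

Notation: `P = M T ≥ 1`, `X = exp (13 P)`, `Z = exp (2 P)`, `Y = 5 L² N! (2 X Z)^N`, `Q = M² T ≥ P`
(`M ≥ 2`), `δ = w₂ - ξ w₁`.  Suppose `‖δ‖ < exp(-(7 S O))`; `C` large (depending on the constants `C_G` of
`growth` and `C_w` of `cu_upper` only).  `O ≥ 1`, `S ≥ C Q ≥ C`.

1. Periods: `‖w_i‖ ≥ exp(-(13 P + 2)) ≥ exp(-15 P)` (`cu_lower`, `w_i ∈ Lt w_i τ_i`);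
   `‖w_i‖ ≤ C_w exp(M 13 P) / min 1 T ≤ W'`, with `1 / min 1 T ≤ M ≤ exp Q`, so
   `‖w_i‖² ≤ W := exp(C₂ Q)`, `C₂ = 2 C_w + 28`.
2. `r := 1 / (16 X W Z)`: `r ≤ 1/2`, `‖w₁‖ r ≤ 1/(8 X)` (`‖w₁‖ ≤ W` as `‖w₁‖² ≤ W`, `W ≥ 1`),
   `‖ξ w₁‖ r ≤ 1/(8 X)` (`‖ξ‖ ≤ exp P ≤ Z`: `Bd.house` for the inclusion);
   `1 / r ≤ exp((3 + 15 + C₂) Q) ≤ exp(S)`.
3. `‖δ‖ ≤ exp(-7 S) ≤ exp(-15 P) ≤ ‖w₂‖`; `S ‖δ‖ ≤ S exp(-7 S) ≤ exp(-6 S) ≤ 1 / (8 X)`.
4. `up` with `G = G' = (R ↦ C_G (R² / T + R))` from `growth`: the exponent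
   `L (G (3 S) + G (6 S)) = C_G L (45 S² / T + 9 S) ≤ 45 C_G (L (S² / T + S)) ≤ S O / 4` by
   `hS1` and `C ≥ 45 C_G`.
5. `L² Y ≤ exp(O (log O + 22 P)) ≤ exp(S O / 16)` (`coef_log`, `C ≥ 16 * 22`),
   `W^(2 L) ≤ exp(2 C₂ Q L) ≤ exp(2 C₂ Q O) ≤ exp(S O / 16)`, so the first term of `up` is at most
   `exp(S O (1/16 + 1/16 + 1/4)) / 4^(S O) ≤ exp(-S O (1.386 - 0.375)) ≤ exp(-S O)`.
6. Second term: `4 S 4^(S O) 4 L³ Y S ‖δ‖ exp(S O / 4) / r^O
   ≤ (16 S² L) (L² Y) 4^(S O) exp(S O / 4) exp(S O) ‖δ‖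
   ≤ exp(2 S O) exp(S O / 16) exp(1.4 S O) exp(S O / 4) exp(S O) exp(-7 S O) ≤ exp(-S O)`,
   where `16 S² L ≤ 16 S² O ≤ exp(2 S O)` (`S ≥ C` is large: `16 S² ≤ exp(S)`, `O ≤ exp O`).
7. Lower bound: `‖φ(gm O)‖ ≥ exp(-(2 M O (2 log O + 38 P))) ≥ exp(-S O / 8)` (`low_log`,
   `2 M (2 log O + 38 P) = 4 M log O + 76 Q ≤ S / 8`), `(‖w₁‖ / ‖φ x₁‖)^O ≥ exp(-17 P O)
   ≥ exp(-S O / 8)` (`‖φ x₁‖ ≤ Z`, `Bdd.x₁`).  So `exp(-S O / 4) ≤ 2 exp(-S O)`, which is false as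
   `S O ≥ 4`.
-/

namespace Pool.Agent.LGO.Bs

open Pool.Agent.EllSch NumberField

private lemma BsKey_4lo (n : ℕ) : Real.exp (11 / 8 * n) ≤ (4 : ℝ) ^ n := by
  have h := Real.log_two_gt_d9
  have h1 : Real.exp (11 / 8) ≤ 4 := by
    calc Real.exp (11 / 8) ≤ Real.exp (2 * Real.log 2) := Real.exp_le_exp.mpr (by linarith)
      _ = 4 := by
        rw [two_mul, Real.exp_add, Real.exp_log (by norm_num)]
        norm_num
  calc Real.exp (11 / 8 * n) = Real.exp (11 / 8) ^ n := by rw [← Real.exp_nat_mul, mul_comm]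
    _ ≤ 4 ^ n := pow_le_pow_left₀ (Real.exp_pos _).le h1 n

private lemma BsKey_4up (n : ℕ) : (4 : ℝ) ^ n ≤ Real.exp (7 / 5 * n) := by
  have h := Real.log_two_lt_d9
  have h1 : 4 ≤ Real.exp (7 / 5) := by
    calc (4 : ℝ) = Real.exp (2 * Real.log 2) := by
          rw [two_mul, Real.exp_add, Real.exp_log (by norm_num)]
          norm_num
      _ ≤ Real.exp (7 / 5) := Real.exp_le_exp.mpr (by linarith)
  calc (4 : ℝ) ^ n ≤ Real.exp (7 / 5) ^ n := pow_le_pow_left₀ (by norm_num) h1 n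
    _ = Real.exp (7 / 5 * n) := by rw [← Real.exp_nat_mul, mul_comm]

private lemma BsKey_le_exp (x : ℝ) : x ≤ Real.exp x := by
  have := Real.add_one_le_exp x
  linarith

private lemma BsKey_16 {s : ℝ} (hs : 96 ≤ s) : 16 * s ^ 2 ≤ Real.exp s := by
  have h := Real.pow_div_factorial_le_exp s (by linarith) 3
  have h1 : (Nat.factorial 3 : ℝ) = 6 := by norm_num [Nat.factorial]
  rw [h1] at h
  refine le_trans ?_ h
  rw [le_div_iff₀ (by norm_num)]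
  nlinarith [sq_nonneg s]

private lemma BsKey_8 : (8 : ℝ) ≤ Real.exp 3 := by
  have h := Real.add_one_le_exp (1 : ℝ)
  have h1 : Real.exp 3 = Real.exp 1 * Real.exp 1 * Real.exp 1 := by
    rw [← Real.exp_add, ← Real.exp_add]
    norm_num
  rw [h1]
  nlinarith [mul_self_nonneg (Real.exp 1 - 2)]

private lemma BsKey_16e : (16 : ℝ) ≤ Real.exp 4 := by
  have h := Real.add_one_le_exp (1 : ℝ)
  have h1 : Real.exp 4 = (Real.exp 1 * Real.exp 1) * (Real.exp 1 * Real.exp 1) := by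
    rw [← Real.exp_add, ← Real.exp_add]
    norm_num
  rw [h1]
  have h2 : 4 ≤ Real.exp 1 * Real.exp 1 := by nlinarith
  nlinarith

/-- the last step: comparison of the two bounds -/
private lemma BsKey_fin {a : ℝ} (ha : 4 ≤ a) (h : Real.exp (-(a / 4)) ≤ 2 * Real.exp (-a)) :
    False := by
  have h1 : Real.exp (-(a / 4)) = Real.exp (3 * a / 4) * Real.exp (-a) := by
    rw [← Real.exp_add]
    congr 1
    ring
  rw [h1] at h
  have h2 := le_of_mul_le_mul_right h (Real.exp_pos (-a))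
  have h3 := Real.add_one_le_exp (3 * a / 4)
  linarith

/-- first term of the upper bound -/
private lemma BsKey_t1 {a y w e f : ℝ} (n : ℕ) (hn : (n : ℝ) = a)
    (hw0 : 0 ≤ w) (he0 : 0 ≤ e) (hf : f = y * w * e)
    (hy : y ≤ Real.exp (a / 16)) (hw : w ≤ Real.exp (a / 16)) (he : e ≤ Real.exp (a / 4)) :
    f / 4 ^ n ≤ Real.exp (-a) := by
  rw [div_le_iff₀ (by positivity), hf]
  calc y * w * e ≤ Real.exp (a / 16) * Real.exp (a / 16) * Real.exp (a / 4) :=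
        mul_le_mul (mul_le_mul hy hw hw0 (Real.exp_pos _).le) he he0 (by positivity)
    _ = Real.exp (a / 16 + a / 16 + a / 4) := by rw [Real.exp_add, Real.exp_add]
    _ = Real.exp (-a + 11 / 8 * a) := by congr 1; ring
    _ = Real.exp (-a) * Real.exp (11 / 8 * n) := by rw [Real.exp_add, hn]
    _ ≤ Real.exp (-a) * 4 ^ n := mul_le_mul_of_nonneg_left (BsKey_4lo n) (Real.exp_pos _).le

/-- second term of the upper bound -/
private lemma BsKey_t2 {a u y e d p f : ℝ} (n : ℕ) (hn : (n : ℝ) = a) (_ha : 0 ≤ a)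
    (hy0 : 0 ≤ y) (he0 : 0 ≤ e) (hd0 : 0 ≤ d) (hp0 : 0 ≤ p)
    (hf : f = u * y * 4 ^ n * e * d * p)
    (hu : u ≤ Real.exp (2 * a)) (hy : y ≤ Real.exp (a / 16)) (he : e ≤ Real.exp (a / 4))
    (hd : d ≤ Real.exp (-(7 * a))) (hp : p ≤ Real.exp a) :
    f ≤ Real.exp (-a) := by
  have h4 := BsKey_4up n
  rw [hn] at h4
  rw [hf]
  calc u * y * 4 ^ n * e * d * p
      ≤ Real.exp (2 * a) * Real.exp (a / 16) * Real.exp (7 / 5 * a) * Real.exp (a / 4) *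
          Real.exp (-(7 * a)) * Real.exp a := by
        refine mul_le_mul ?_ hp hp0 (by positivity)
        refine mul_le_mul ?_ hd hd0 (by positivity)
        refine mul_le_mul ?_ he he0 (by positivity)
        refine mul_le_mul ?_ h4 (by positivity) (by positivity)
        exact mul_le_mul hu hy hy0 (by positivity)
    _ = Real.exp (2 * a + a / 16 + 7 / 5 * a + a / 4 + -(7 * a) + a) := by
        rw [Real.exp_add, Real.exp_add, Real.exp_add, Real.exp_add, Real.exp_add]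
    _ ≤ Real.exp (-a) := Real.exp_le_exp.mpr (by linarith)

theorem key : ∃ C : ℝ, 1 ≤ C ∧ ∀ (K : IntermediateField ℚ ℂ) [NumberField K] (D : D2 K)
    (M T : ℝ) (w₁ τ₁ w₂ τ₂ ξ : ℂ), 2 ≤ M → (Module.finrank ℚ K : ℝ) ≤ M → 0 < T → 1 ≤ M * T →
    Cu K (13 * (M * T)) T w₁ τ₁ → Cu K (13 * (M * T)) T w₂ τ₂ → Bd K (M * T) ξ →
    Bdd D (Real.exp (13 * (M * T))) (Real.exp (2 * (M * T))) →
    IsD D (algebraMap K ℂ) w₁ (w₁ * τ₁) w₂ (w₂ * τ₂) ξ →
    ∀ (L N O S : ℕ) (c : ℕ → ℕ → ℤ), 1 ≤ L → L ≤ N → N ≤ O →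
    (∀ i j, |(c i j : ℝ)| ≤ 5 * L ^ 2 * (N.factorial *
      (2 * Real.exp (13 * (M * T)) * Real.exp (2 * (M * T))) ^ N)) →
    (∀ n < O, gm D L c n = 0) → gm D L c O ≠ 0 → 1 ≤ S →
    C * (L * ((S : ℝ) ^ 2 / T + S)) ≤ S * O / 4 → C * (M * Real.log O + M ^ 2 * T) ≤ S →
    Real.exp (-(7 * (S * O))) ≤ ‖w₂ - ξ * w₁‖ := by
  obtain ⟨CG, hCG, hg⟩ := growth
  obtain ⟨Cw, hCw, hcw⟩ := cu_upper
  refine ⟨1000 + 45 * CG + 32 * (2 * Cw + 28), by linarith, ?_⟩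
  intro K _ D M T w₁ τ₁ w₂ τ₂ ξ hM hK hT hMT h₁ h₂ hξ hBdd hIsD L N O S c hL hLN hNO hc h0 hO hS
    hS1 hS2
  by_contra hcon
  rw [not_le] at hcon
  have hL1 : (1 : ℝ) ≤ L := by exact_mod_cast hL
  have hO1 : (1 : ℝ) ≤ O := by exact_mod_cast hL.trans (hLN.trans hNO)
  have hLO : (L : ℝ) ≤ O := by exact_mod_cast hLN.trans hNO
  have hSR : (1 : ℝ) ≤ S := by exact_mod_cast hS
  have hlog : 0 ≤ Real.log O := Real.log_nonneg hO1
  have hMlog : 0 ≤ M * Real.log O := mul_nonneg (by linarith) hlog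
  -- the quantities `P`, `Q`
  obtain ⟨P, hPdef⟩ : ∃ P, P = M * T := ⟨_, rfl⟩
  obtain ⟨Q, hQdef⟩ : ∃ Q, Q = M ^ 2 * T := ⟨_, rfl⟩
  have hQP' : Q = M * P := by rw [hQdef, hPdef]; ring
  have hP1 : 1 ≤ P := by rw [hPdef]; exact hMT
  have hPQ : P ≤ Q := by rw [hQP']; nlinarith
  have hMQ : M ≤ Q := by rw [hQP']; nlinarith
  have hQ1 : 1 ≤ Q := hP1.trans hPQ
  rw [← hQdef] at hS2
  have hE0 : 0 ≤ M * Real.log O + Q := by linarith
  obtain ⟨C₂, hC₂⟩ : ∃ C₂, C₂ = 2 * Cw + 28 := ⟨_, rfl⟩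
  rw [← hC₂] at hS2 hS1
  have hC₂0 : 30 ≤ C₂ := by linarith
  have hSA : 1000 * (M * Real.log O + Q) + 32 * C₂ * (M * Real.log O + Q) ≤ S := by
    have h3 : 0 ≤ 45 * CG * (M * Real.log O + Q) := mul_nonneg (by linarith) hE0
    nlinarith
  have hC₂Q : 0 ≤ C₂ * Q := mul_nonneg (by linarith) (by linarith)
  have hSB : 1000 * (M * Real.log O + Q) + 32 * (C₂ * Q) ≤ S := by
    have h3 : 0 ≤ 32 * C₂ * (M * Real.log O) := mul_nonneg (by linarith) hMlog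
    nlinarith
  have hMl : Real.log O ≤ M * Real.log O := by nlinarith
  have hS1000 : 1000 ≤ (S : ℝ) := by linarith
  have hSO : (S : ℝ) ≤ S * O := by nlinarith
  have hSO0 : (0 : ℝ) ≤ S * O := by linarith
  -- periods
  have hH0 : 0 ≤ 13 * (M * T) := by linarith
  have hmin : 1 / min 1 T ≤ M := by
    have h3 : 1 / M ≤ min 1 T := by
      refine le_min ?_ ?_
      · rw [div_le_one (by linarith)]; linarith
      · rw [div_le_iff₀ (by linarith)]; linarith [mul_comm M T]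
    have h4 : 0 < 1 / M := by positivity
    rw [div_le_iff₀ (lt_of_lt_of_le h4 h3)]
    calc (1 : ℝ) = M * (1 / M) := by field_simp
      _ ≤ M * min 1 T := mul_le_mul_of_nonneg_left h3 (by linarith)
  have hwup : ∀ w τ : ℂ, Cu K (13 * (M * T)) T w τ → ‖w‖ ≤ Real.exp ((Cw + 14) * Q) := by
    intro w τ h
    have h3 := hcw K M (13 * (M * T)) T w τ hK hH0 hT h
    have h5 : M ≤ Real.exp Q := hMQ.trans (BsKey_le_exp Q)
    have h6 : Cw ≤ Real.exp (Cw * Q) :=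
      (le_trans (by nlinarith) (BsKey_le_exp (Cw * Q)))
    calc ‖w‖ ≤ Cw * Real.exp (M * (13 * (M * T))) / min 1 T := h3
      _ = Cw * Real.exp (13 * Q) * (1 / min 1 T) := by
          rw [show M * (13 * (M * T)) = 13 * Q by rw [hQdef]; ring, mul_one_div]
      _ ≤ Real.exp (Cw * Q) * Real.exp (13 * Q) * Real.exp Q := by
          refine mul_le_mul (mul_le_mul_of_nonneg_right h6 (Real.exp_pos _).le)
            (hmin.trans h5) ?_ (by positivity)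
          have : 0 < min 1 T := lt_min one_pos hT
          positivity
      _ = Real.exp ((Cw + 14) * Q) := by
          rw [← Real.exp_add, ← Real.exp_add]
          congr 1
          ring
  have hwlo : ∀ w τ : ℂ, Cu K (13 * (M * T)) T w τ → Real.exp (-(15 * P)) ≤ ‖w‖ := by
    intro w τ h
    have h3 := cu_lower h hH0 (v := w) ⟨1, 0, by simp⟩ h.w0
    refine le_trans (Real.exp_le_exp.mpr ?_) h3
    rw [← hPdef]
    linarith
  obtain ⟨W, hWdef⟩ : ∃ W, W = Real.exp (C₂ * Q) := ⟨_, rfl⟩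
  have hW1 : 1 ≤ W := by rw [hWdef]; exact Real.one_le_exp hC₂Q
  have hwW : ∀ w : ℂ, ‖w‖ ≤ Real.exp ((Cw + 14) * Q) → ‖w‖ ^ 2 ≤ W := by
    intro w h
    calc ‖w‖ ^ 2 ≤ Real.exp ((Cw + 14) * Q) ^ 2 := pow_le_pow_left₀ (norm_nonneg _) h 2
      _ = W := by
        rw [hWdef, ← Real.exp_nat_mul]
        congr 1
        rw [hC₂]
        push_cast
        ring
  have hw₁W : ‖w₁‖ ≤ W := by
    refine (hwup w₁ τ₁ h₁).trans ?_
    rw [hWdef]
    refine Real.exp_le_exp.mpr (mul_le_mul_of_nonneg_right ?_ (by linarith))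
    rw [hC₂]
    linarith
  have hξ1 : ‖ξ‖ ≤ Real.exp (M * T) := hξ.house (algebraMap K ℂ)
  -- `X`, `Z`, `r`
  obtain ⟨X, hXdef⟩ : ∃ X, X = Real.exp (13 * (M * T)) := ⟨_, rfl⟩
  obtain ⟨Z, hZdef⟩ : ∃ Z, Z = Real.exp (2 * (M * T)) := ⟨_, rfl⟩
  have hX1 : 1 ≤ X := by rw [hXdef]; exact Real.one_le_exp hH0
  have hZ1 : 1 ≤ Z := by rw [hZdef]; exact Real.one_le_exp (by linarith)
  have hξZ : ‖ξ‖ ≤ Z := by
    rw [hZdef]
    exact hξ1.trans (Real.exp_le_exp.mpr (by linarith))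
  obtain ⟨r, hrdef⟩ : ∃ r, r = 1 / (16 * X * W * Z) := ⟨_, rfl⟩
  have hX0 : 0 < X := by linarith
  have hW0 : 0 < W := by linarith
  have hZ0 : 0 < Z := by linarith
  have hXWZ : 1 ≤ X * W * Z :=
    one_le_mul_of_one_le_of_one_le (one_le_mul_of_one_le_of_one_le hX1 hW1) hZ1
  have hr0 : 0 < r := by rw [hrdef]; positivity
  have hr2 : r ≤ 1 / 2 := by
    rw [hrdef]
    refine one_div_le_one_div_of_le (by norm_num) ?_
    linarith [show 16 * X * W * Z = 16 * (X * W * Z) by ring]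
  have hrinv : 1 / r ≤ Real.exp S := by
    have e1 : 1 / r = 16 * (Real.exp (13 * P) * Real.exp (C₂ * Q) * Real.exp (2 * P)) := by
      rw [hrdef, one_div_one_div, hXdef, hWdef, hZdef, ← hPdef]
      ring
    rw [e1]
    calc 16 * (Real.exp (13 * P) * Real.exp (C₂ * Q) * Real.exp (2 * P))
        ≤ Real.exp 4 * (Real.exp (13 * P) * Real.exp (C₂ * Q) * Real.exp (2 * P)) :=
          mul_le_mul_of_nonneg_right BsKey_16e (by positivity)
      _ = Real.exp (4 + (13 * P + C₂ * Q + 2 * P)) := by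
          rw [Real.exp_add, Real.exp_add, Real.exp_add]
      _ ≤ Real.exp S := Real.exp_le_exp.mpr (by linarith)
  have hr₁ : ‖w₁‖ * r ≤ 1 / (8 * X) := by
    calc ‖w₁‖ * r ≤ (W * Z) * r := by
          refine mul_le_mul_of_nonneg_right ?_ hr0.le
          nlinarith
      _ = 1 / (16 * X) := by rw [hrdef]; field_simp
      _ ≤ 1 / (8 * X) := one_div_le_one_div_of_le (by positivity) (by linarith)
  have hr₂ : ‖ξ * w₁‖ * r ≤ 1 / (8 * X) := by
    calc ‖ξ * w₁‖ * r ≤ (W * Z) * r := by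
          refine mul_le_mul_of_nonneg_right ?_ hr0.le
          rw [norm_mul, mul_comm]
          exact mul_le_mul hw₁W hξZ (norm_nonneg _) hW0.le
      _ = 1 / (16 * X) := by rw [hrdef]; field_simp
      _ ≤ 1 / (8 * X) := one_div_le_one_div_of_le (by positivity) (by linarith)
  -- `δ`
  have hδ7 : ‖w₂ - ξ * w₁‖ ≤ Real.exp (-(7 * (S : ℝ))) :=
    hcon.le.trans (Real.exp_le_exp.mpr (by linarith))
  have hδ : ‖w₂ - ξ * w₁‖ ≤ ‖w₂‖ := by
    refine hδ7.trans (le_trans (Real.exp_le_exp.mpr ?_) (hwlo w₂ τ₂ h₂))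
    linarith
  have hδS : S * ‖w₂ - ξ * w₁‖ ≤ 1 / (8 * X) := by
    rw [le_div_iff₀ (by positivity)]
    calc S * ‖w₂ - ξ * w₁‖ * (8 * X)
        ≤ Real.exp S * Real.exp (-(7 * (S : ℝ))) * (Real.exp 3 * Real.exp (13 * P)) := by
          refine mul_le_mul (mul_le_mul (BsKey_le_exp _) hδ7 (norm_nonneg _) (Real.exp_pos _).le) ?_
            (by positivity) (by positivity)
          rw [hXdef, ← hPdef]
          exact mul_le_mul_of_nonneg_right BsKey_8 (Real.exp_pos _).le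
      _ = Real.exp (S + -(7 * (S : ℝ)) + (3 + 13 * P)) := by
          rw [Real.exp_add, Real.exp_add, Real.exp_add]
      _ ≤ Real.exp 0 := Real.exp_le_exp.mpr (by linarith)
      _ = 1 := Real.exp_zero
  obtain ⟨s₁, e₁, hent₁⟩ := hg w₁ τ₁ T h₁.w0 hT h₁.im
  obtain ⟨s₂, e₂, hent₂⟩ := hg w₂ τ₂ T h₂.w0 hT h₂.im
  obtain ⟨hA, hB⟩ := cu_X h₁
  obtain ⟨hA', hB'⟩ := cu_X h₂
  have hlow := low_log (algebraMap K ℂ) (by linarith) hMT hK hBdd hL hLN hNO hc hO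
  have hcoef := coef_log hMT hL hLN hNO
  rw [← hXdef] at hA hB hA' hB' hc hcoef
  rw [← hZdef] at hc hcoef
  obtain ⟨Y, hYdef⟩ : ∃ Y : ℝ, Y = 5 * L ^ 2 * (N.factorial * (2 * X * Z) ^ N) := ⟨_, rfl⟩
  rw [← hYdef] at hcoef
  have hY0 : 0 ≤ Y := by rw [hYdef]; positivity
  have hup := up hent₁ hent₂ (cu_ind h₁) (cu_ind h₂) hIsD hX1 hA hB hA' hB' h₂.w0
    (L := L) (O := O) (S := S) (c := c) (Y := Y) (W := W) (r := r)
    (fun i _ j _ => by rw [hYdef]; exact hc i j) hY0 hW1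
    (hwW w₁ (hwup w₁ τ₁ h₁)) (hwW w₂ (hwup w₂ τ₂ h₂)) hS hr0 hr2 hr₁ hr₂ hδ hδS h0
  -- the exponent
  obtain ⟨e, hedef⟩ : ∃ e : ℝ, e = Real.exp (L * (CG * ((3 * (S : ℝ)) ^ 2 / T + 3 * S) +
    CG * ((6 * (S : ℝ)) ^ 2 / T + 6 * S))) := ⟨_, rfl⟩
  have he : e ≤ Real.exp (S * O / 4) := by
    rw [hedef]
    refine Real.exp_le_exp.mpr (le_trans ?_ hS1)
    have h3 : (0 : ℝ) ≤ S ^ 2 / T := by positivity
    have h4 : L * (CG * ((3 * (S : ℝ)) ^ 2 / T + 3 * S) + CG * ((6 * (S : ℝ)) ^ 2 / T + 6 * S)) =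
        CG * L * (45 * (S ^ 2 / T) + 9 * S) := by ring
    rw [h4]
    have h5 : 0 ≤ CG * L := mul_nonneg (by linarith) (by linarith)
    have h6 : CG * L * (45 * (S ^ 2 / T) + 9 * S) ≤ CG * L * (45 * (S ^ 2 / T + S)) :=
      mul_le_mul_of_nonneg_left (by linarith) h5
    have h7 : 0 ≤ L * ((S : ℝ) ^ 2 / T + S) := mul_nonneg (by linarith) (by linarith)
    have h8 : CG * L * (45 * (S ^ 2 / T + S)) = 45 * CG * (L * ((S : ℝ) ^ 2 / T + S)) := by ring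
    rw [h8] at h6
    refine h6.trans (mul_le_mul_of_nonneg_right ?_ h7)
    linarith
  have he0 : 0 ≤ e := by rw [hedef]; exact (Real.exp_pos _).le
  have hy : (L : ℝ) ^ 2 * Y ≤ Real.exp (S * O / 16) := by
    refine hcoef.trans (Real.exp_le_exp.mpr ?_)
    rw [← hPdef]
    have h3 : Real.log O + 22 * P ≤ S / 16 := by linarith
    calc O * (Real.log O + 22 * P) ≤ O * (S / 16) :=
          mul_le_mul_of_nonneg_left h3 (by linarith)
      _ = S * O / 16 := by ring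
  have hWL : W ^ (2 * L) ≤ Real.exp (S * O / 16) := by
    rw [hWdef, ← Real.exp_nat_mul]
    refine Real.exp_le_exp.mpr ?_
    push_cast
    have h3 : 2 * (C₂ * Q) ≤ S / 16 := by linarith
    calc 2 * (L : ℝ) * (C₂ * Q) = L * (2 * (C₂ * Q)) := by ring
      _ ≤ O * (S / 16) := mul_le_mul hLO h3 (by linarith) (by linarith)
      _ = S * O / 16 := by ring
  have hnat : ((S * O : ℕ) : ℝ) = S * O := by push_cast; ring
  have ht1 : L ^ 2 * Y * W ^ (2 * L) * e / 4 ^ (S * O) ≤ Real.exp (-(S * O : ℝ)) :=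
    BsKey_t1 (S * O) hnat (by positivity) he0 rfl hy hWL he
  have hu : 16 * (S : ℝ) ^ 2 * L ≤ Real.exp (2 * (S * O)) := by
    calc 16 * (S : ℝ) ^ 2 * L ≤ Real.exp S * Real.exp O := by
          refine mul_le_mul (BsKey_16 (by linarith)) (hLO.trans (BsKey_le_exp _)) (by linarith)
            (Real.exp_pos _).le
      _ = Real.exp (S + O) := (Real.exp_add _ _).symm
      _ ≤ Real.exp (2 * (S * O)) := Real.exp_le_exp.mpr (by nlinarith)
  have hrO : (1 / r) ^ O ≤ Real.exp (S * O) := by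
    calc (1 / r) ^ O ≤ Real.exp S ^ O := pow_le_pow_left₀ (by positivity) hrinv O
      _ = Real.exp (S * O) := by rw [← Real.exp_nat_mul, mul_comm]
  have ht2 : 4 * S * 4 ^ (S * O) * (4 * L ^ 3 * Y * (S * ‖w₂ - ξ * w₁‖) * e) / r ^ O ≤
      Real.exp (-(S * O : ℝ)) := by
    refine BsKey_t2 (u := 16 * (S : ℝ) ^ 2 * L) (y := L ^ 2 * Y) (e := e)
      (d := ‖w₂ - ξ * w₁‖) (p := (1 / r) ^ O) (S * O) hnat hSO0 (by positivity) he0
      (norm_nonneg _) (by positivity) ?_ hu hy he hcon.le hrO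
    rw [div_pow, one_pow]
    field_simp
    ring
  have hRHS : ‖algebraMap K ℂ (gm D L c O)‖ * (‖w₁‖ / ‖algebraMap K ℂ D.x₁‖) ^ O ≤
      2 * Real.exp (-(S * O : ℝ)) := by
    rw [hedef] at ht1 ht2
    have h3 := add_le_add ht1 ht2
    rw [two_mul]
    exact le_trans hup h3
  -- lower bound
  have hx0 : 0 < ‖algebraMap K ℂ D.x₁‖ := by
    rw [norm_pos_iff]
    intro h3
    have h4 : (D.x₁ : K) = 0 := (map_eq_zero (algebraMap K ℂ)).mp h3
    exact hIsD.ne (RingOfIntegers.coe_eq_zero_iff.mp h4)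
  have hl1 : Real.exp (-(S * O / 8 : ℝ)) ≤ ‖algebraMap K ℂ (gm D L c O)‖ := by
    have h3 : 4 * (M * Real.log O) + 76 * Q ≤ S / 8 := by linarith
    have h4 : 2 * M * (O * (2 * Real.log O + 38 * (M * T))) ≤ S * O / 8 := by
      calc 2 * M * (O * (2 * Real.log O + 38 * (M * T))) =
            O * (4 * (M * Real.log O) + 76 * Q) := by rw [hQdef]; ring
        _ ≤ O * (S / 8) := mul_le_mul_of_nonneg_left h3 (by linarith)
        _ = S * O / 8 := by ring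
    exact le_trans (Real.exp_le_exp.mpr (by linarith)) hlow
  have hl2 : Real.exp (-(S * O / 8 : ℝ)) ≤ (‖w₁‖ / ‖algebraMap K ℂ D.x₁‖) ^ O := by
    have h3 : Real.exp (-(17 * P)) ≤ ‖w₁‖ / ‖algebraMap K ℂ D.x₁‖ := by
      rw [le_div_iff₀ hx0]
      calc Real.exp (-(17 * P)) * ‖algebraMap K ℂ D.x₁‖
          ≤ Real.exp (-(17 * P)) * Real.exp (2 * (M * T)) :=
            mul_le_mul_of_nonneg_left (hBdd.x₁ (algebraMap K ℂ)) (Real.exp_pos _).le
        _ = Real.exp (-(15 * P)) := by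
            rw [← Real.exp_add, ← hPdef]
            congr 1
            ring
        _ ≤ ‖w₁‖ := hwlo w₁ τ₁ h₁
    calc Real.exp (-(S * O / 8 : ℝ)) ≤ Real.exp (O * (-(17 * P))) := by
          refine Real.exp_le_exp.mpr ?_
          have h4 : 17 * P ≤ S / 8 := by linarith
          have h5 : O * (17 * P) ≤ O * (S / 8) := mul_le_mul_of_nonneg_left h4 (by linarith)
          have h6 : (O : ℝ) * (S / 8) = S * O / 8 := by ring
          linarith
      _ = Real.exp (-(17 * P)) ^ O := Real.exp_nat_mul _ _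
      _ ≤ _ := pow_le_pow_left₀ (Real.exp_pos _).le h3 O
  have hfin : Real.exp (-((S * O : ℝ) / 4)) ≤ 2 * Real.exp (-(S * O : ℝ)) := by
    refine le_trans ?_ hRHS
    calc Real.exp (-((S * O : ℝ) / 4)) = Real.exp (-(S * O / 8 : ℝ)) * Real.exp (-(S * O / 8 : ℝ)) := by
          rw [← Real.exp_add]
          congr 1
          ring
      _ ≤ _ := mul_le_mul hl1 hl2 (Real.exp_pos _).le (norm_nonneg _)
  exact BsKey_fin (by linarith) hfin

end Pool.Agent.LGO.Bs
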