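import Mathlib

/-!
# LGO base: Siegel's lemma by pigeonhole over all embeddings (uniform in the field)

`m` equations, `n` unknowns, `4 d m ≤ n`, `d = [K : ℚ]`, all conjugates of the coefficients at most
`A`.  `Y := ⌈4 n A⌉₊`.  Box: `x : Fin n → Fin (Y + 1)`, `(Y + 1) ^ n` vectors.  For each `x`, each row
`i` and each embedding `σ` the number `σ(∑ a i j x j)` has real and imaginary part in `[- n A Y, n A Y]`;
put `(⌊2 (Re + n A Y)⌋, ⌊2 (Im + n A Y)⌋)`, natural numbers `≤ 4 n A Y`: there are at most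
`(4 n A Y + 1) ^ (2 d m)` values of this vector (`K →+* ℂ` has `d` elements:
`NumberField.Embeddings.card`), and `(4 n A Y + 1) ^ (2 d m) ≤ (4 n A Y + 1) ^ (n / 2)
< ((Y + 1) ^ 2) ^ (n / 2) = (Y + 1) ^ n` (use squares of both sides: `(4 n A Y + 1) ^ (4 d m) ≤
(4 n A Y + 1) ^ n < ((Y + 1) ^ 2) ^ n`, since `4 n A ≤ Y`).  Two different `x, x'` have the same vector;
the difference `y = x - x'` has `|y_j| ≤ Y ≤ 4 n A + 1`, `y ≠ 0`, and `β = ∑ a i j y j` has all
conjugates of absolute value `≤ |Re| + |Im| < 1`, so its norm is an integer of absolute value `< 1`,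
so `β = 0` (`Algebra.norm_eq_prod_embeddings`, or `NumberField.house`, or
`Schn.liouville_aux`: `1 ≤ ‖φ β‖ house^(d-1)` is impossible; the house is a maximum over a finite
set, so `< 1`; for `d = 1` directly).
-/

namespace Pool.Agent.LGO.Bs

open NumberField

theorem BsSi_zero {K : Type*} [Field K] [NumberField K] (β : 𝓞 K)
    (h : ∀ σ : K →+* ℂ, ‖σ (β : K)‖ < 1) : β = 0 := by
  by_contra hne
  obtain ⟨w⟩ : Nonempty (InfinitePlace K) := inferInstance
  have hall : ∀ z : InfinitePlace K, z (β : K) < 1 := by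
    intro z
    rw [← InfinitePlace.norm_embedding_eq]
    exact h _
  have h1 := InfinitePlace.one_le_of_lt_one (w := w) hne (fun z _ => hall z)
  exact absurd (hall w) (not_lt.2 h1)

theorem BsSi_floor {u v : ℝ} (hu : 0 ≤ u) (hv : 0 ≤ v) (h : ⌊u⌋₊ = ⌊v⌋₊) : |u - v| < 1 := by
  have h1 := Nat.floor_le hu
  have h2 := Nat.lt_floor_add_one u
  have h3 := Nat.floor_le hv
  have h4 := Nat.lt_floor_add_one v
  rw [h] at h1 h2
  rw [abs_lt]
  constructor <;> linarith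

theorem BsSi_card {N Y n k : ℕ} (hn : 0 < n) (hk : 2 * k ≤ n) (hN : N + 1 < (Y + 1) ^ 2) :
    (N + 1) ^ k < (Y + 1) ^ n := by
  by_contra hcon
  have hcon := not_lt.1 hcon
  have h1 : ((Y + 1) ^ n) ^ 2 ≤ ((N + 1) ^ k) ^ 2 := Nat.pow_le_pow_left hcon 2
  have h2 : ((N + 1) ^ k) ^ 2 ≤ (N + 1) ^ n := by
    rw [← pow_mul]
    exact Nat.pow_le_pow_right (Nat.succ_pos N) (by omega)
  have h3 : (N + 1) ^ n < ((Y + 1) ^ 2) ^ n := Nat.pow_lt_pow_left hN hn.ne'
  have h4 : ((Y + 1) ^ 2) ^ n = ((Y + 1) ^ n) ^ 2 := by rw [← pow_mul, ← pow_mul, mul_comm]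
  omega

theorem siegel {K : Type*} [Field K] [NumberField K] {m n : ℕ} (hn : 0 < n)
    (hmn : 4 * Module.finrank ℚ K * m ≤ n) (a : Fin m → Fin n → 𝓞 K) {A : ℝ} (hA : 1 ≤ A)
    (ha : ∀ i j, ∀ σ : K →+* ℂ, ‖σ (a i j : K)‖ ≤ A) :
    ∃ y : Fin n → ℤ, y ≠ 0 ∧ (∀ i, ∑ j, a i j * (y j : 𝓞 K) = 0) ∧
      ∀ j, |(y j : ℝ)| ≤ 4 * n * A + 1 := by
  classical
  have hn1 : (1 : ℝ) ≤ n := by exact_mod_cast hn
  set Y : ℕ := ⌈4 * (n : ℝ) * A⌉₊ with hY
  have hY1 : 4 * (n : ℝ) * A ≤ Y := Nat.le_ceil _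
  have hY2 : (Y : ℝ) < 4 * n * A + 1 := Nat.ceil_lt_add_one (by positivity)
  have hnA : (1 : ℝ) ≤ n * A := by nlinarith
  have hY0 : (0 : ℝ) < Y := by nlinarith
  set B : ℝ := n * A * Y with hB
  have hB0 : 0 ≤ B := by positivity
  set N : ℕ := ⌊4 * B⌋₊ with hN
  -- the values
  let S : (Fin n → Fin (Y + 1)) → Fin m → 𝓞 K := fun x i => ∑ j, a i j * ((x j : ℕ) : 𝓞 K)
  have hS : ∀ x i (σ : K →+* ℂ), ‖σ (S x i : K)‖ ≤ B := by
    intro x i σ
    have e : σ (S x i : K) = ∑ j, σ (a i j : K) * ((x j : ℕ) : ℂ) := by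
      change (σ.comp (algebraMap (𝓞 K) K)) (∑ j, a i j * ((x j : ℕ) : 𝓞 K)) = _
      rw [map_sum]
      refine Finset.sum_congr rfl fun j _ => ?_
      rw [map_mul, map_natCast]
      rfl
    rw [e]
    refine (norm_sum_le _ _).trans ?_
    have h1 : ∀ j ∈ (Finset.univ : Finset (Fin n)),
        ‖σ (a i j : K) * ((x j : ℕ) : ℂ)‖ ≤ A * Y := by
      intro j _
      rw [norm_mul, Complex.norm_natCast]
      have h2 : ((x j : ℕ) : ℝ) ≤ Y := by
        have := (x j).is_lt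
        exact_mod_cast Nat.lt_succ_iff.1 this
      exact mul_le_mul (ha i j σ) h2 (Nat.cast_nonneg _) (by linarith)
    refine (Finset.sum_le_sum h1).trans ?_
    rw [Finset.sum_const, Finset.card_univ, Fintype.card_fin, nsmul_eq_mul, hB]
    apply le_of_eq
    ring
  have hre : ∀ x i (σ : K →+* ℂ), 0 ≤ 2 * ((σ (S x i : K)).re + B) ∧
      2 * ((σ (S x i : K)).re + B) ≤ 4 * B := by
    intro x i σ
    have h1 := (Complex.abs_re_le_norm (σ (S x i : K))).trans (hS x i σ)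
    rw [abs_le] at h1
    constructor <;> linarith [h1.1, h1.2]
  have him : ∀ x i (σ : K →+* ℂ), 0 ≤ 2 * ((σ (S x i : K)).im + B) ∧
      2 * ((σ (S x i : K)).im + B) ≤ 4 * B := by
    intro x i σ
    have h1 := (Complex.abs_im_le_norm (σ (S x i : K))).trans (hS x i σ)
    rw [abs_le] at h1
    constructor <;> linarith [h1.1, h1.2]
  let Φ : (Fin n → Fin (Y + 1)) → (Fin m × (K →+* ℂ) → Fin (N + 1) × Fin (N + 1)) :=
    fun x p => (⟨⌊2 * ((p.2 (S x p.1 : K)).re + B)⌋₊,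
        Nat.lt_succ_of_le (Nat.floor_le_floor (hre x p.1 p.2).2)⟩,
      ⟨⌊2 * ((p.2 (S x p.1 : K)).im + B)⌋₊,
        Nat.lt_succ_of_le (Nat.floor_le_floor (him x p.1 p.2).2)⟩)
  have hcard : Fintype.card (Fin m × (K →+* ℂ) → Fin (N + 1) × Fin (N + 1)) <
      Fintype.card (Fin n → Fin (Y + 1)) := by
    rw [Fintype.card_fun, Fintype.card_fun, Fintype.card_prod, Fintype.card_prod, Fintype.card_fin,
      Fintype.card_fin, Fintype.card_fin, Fintype.card_fin, NumberField.Embeddings.card K ℂ,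
      ← pow_two, ← pow_mul]
    refine BsSi_card hn ?_ ?_
    · calc 2 * (2 * (m * Module.finrank ℚ K)) = 4 * Module.finrank ℚ K * m := by ring
        _ ≤ n := hmn
    · have h1 : (N : ℝ) ≤ 4 * B := Nat.floor_le (by positivity)
      have h2 : 4 * B ≤ (Y : ℝ) ^ 2 := by
        rw [hB]
        nlinarith
      have h3 : ((N + 1 : ℕ) : ℝ) < (((Y + 1) ^ 2 : ℕ) : ℝ) := by
        push_cast
        nlinarith
      exact_mod_cast h3
  obtain ⟨x, x', hne, hxx⟩ := Fintype.exists_ne_map_eq_of_card_lt Φ hcard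
  refine ⟨fun j => ((x j : ℕ) : ℤ) - ((x' j : ℕ) : ℤ), ?_, ?_, ?_⟩
  · intro h0
    apply hne
    funext j
    have h1 := congrFun h0 j
    simp only [Pi.zero_apply] at h1
    apply Fin.ext
    omega
  · intro i
    have e : ∑ j, a i j * (((((x j : ℕ) : ℤ) - ((x' j : ℕ) : ℤ) : ℤ)) : 𝓞 K) = S x i - S x' i := by
      simp only [S]
      rw [← Finset.sum_sub_distrib]
      refine Finset.sum_congr rfl fun j _ => ?_
      push_cast
      ring
    rw [e]
    apply BsSi_zero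
    intro σ
    have h1 := congrFun hxx (i, σ)
    have h2 : ⌊2 * ((σ (S x i : K)).re + B)⌋₊ = ⌊2 * ((σ (S x' i : K)).re + B)⌋₊ :=
      congrArg (fun q => (q.1 : ℕ)) h1
    have h3 : ⌊2 * ((σ (S x i : K)).im + B)⌋₊ = ⌊2 * ((σ (S x' i : K)).im + B)⌋₊ :=
      congrArg (fun q => (q.2 : ℕ)) h1
    have h4 := BsSi_floor (hre x i σ).1 (hre x' i σ).1 h2
    have h5 := BsSi_floor (him x i σ).1 (him x' i σ).1 h3
    have e2 : σ ((S x i - S x' i : 𝓞 K) : K) = σ (S x i : K) - σ (S x' i : K) :=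
      map_sub (σ.comp (algebraMap (𝓞 K) K)) _ _
    rw [e2]
    refine (Complex.norm_le_abs_re_add_abs_im _).trans_lt ?_
    rw [Complex.sub_re, Complex.sub_im]
    have e3 : 2 * ((σ (S x i : K)).re + B) - 2 * ((σ (S x' i : K)).re + B) =
        2 * ((σ (S x i : K)).re - (σ (S x' i : K)).re) := by ring
    have e4 : 2 * ((σ (S x i : K)).im + B) - 2 * ((σ (S x' i : K)).im + B) =
        2 * ((σ (S x i : K)).im - (σ (S x' i : K)).im) := by ring
    rw [e3, abs_mul, abs_two] at h4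
    rw [e4, abs_mul, abs_two] at h5
    linarith
  · intro j
    have h1 : ((x j : ℕ) : ℝ) ≤ Y := by
      have := (x j).is_lt
      exact_mod_cast Nat.lt_succ_iff.1 this
    have h2 : ((x' j : ℕ) : ℝ) ≤ Y := by
      have := (x' j).is_lt
      exact_mod_cast Nat.lt_succ_iff.1 this
    have h3 : (0 : ℝ) ≤ ((x j : ℕ) : ℝ) := Nat.cast_nonneg _
    have h4 : (0 : ℝ) ≤ ((x' j : ℕ) : ℝ) := Nat.cast_nonneg _
    push_cast
    rw [abs_le]
    constructor <;> linarith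

end Pool.Agent.LGO.Bs
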