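import Mathlib
import Pool.Agent.LGO.A.BsCu
import Pool.Agent.LGO.A.BsSi

/-!
# LGO base: the data `D2` of two curves and a multiplier, the auxiliary polynomial

* `mk_data`: `A₁, B₁` from `h₁.g2, h₁.g3` (elements of `𝓞 K`: `⟨a, ha⟩` with `IsIntegral ℤ a`),
  the same for `A₂, B₂`; `x₁ = n` = the denominator of `ξ` (`Bd.den`), `x₂ = n ξ`; conjugates:
  `n ≤ exp B ≤ exp (2 B)`, `‖σ (n ξ)‖ = n ‖σ ξ‖ ≤ exp (2 B)` (`Bd.house`).
* `exists_c`: `siegel` with `N` equations, `L ^ 2` unknowns (`Fin (L ^ 2)`, indices `(i, j)`,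
  `i, j < L`, e.g. `k ↦ (k / L, k % L)`), coefficients `a n (i, j) ∈ 𝓞 K` = `n! coeff n (mon D i j)`
  (`mon_int`), all conjugates `≤ n! (2 X Z)^n ≤ N! (2 X Z)^N` for `n < N` (`mon_bd`, `2 X Z ≥ 1`).
  Put `c i j = 0` outside the range.  `4 L² A + 1 ≤ 5 L² A`.  The case `N = 0` is included.
-/

namespace Pool.Agent.LGO.Bs

open Pool.Agent.EllSch NumberField

theorem mk_data {K : IntermediateField ℚ ℂ} {H B t₁ t₂ : ℝ} {w₁ τ₁ w₂ τ₂ ξ : ℂ}
    (h₁ : Cu K H t₁ w₁ τ₁) (h₂ : Cu K H t₂ w₂ τ₂) (hξ : Bd K B ξ) (hH : 0 ≤ H) (hB : 0 ≤ B) :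
    ∃ D : D2 K, Bdd D (Real.exp H) (Real.exp (2 * B)) ∧
      IsD D (algebraMap K ℂ) w₁ (w₁ * τ₁) w₂ (w₂ * τ₂) ξ := by
  obtain ⟨a₁, ia₁, ea₁, ba₁⟩ := h₁.g2
  obtain ⟨b₁, ib₁, eb₁, bb₁⟩ := h₁.g3
  obtain ⟨a₂, ia₂, ea₂, ba₂⟩ := h₂.g2
  obtain ⟨b₂, ib₂, eb₂, bb₂⟩ := h₂.g3
  obtain ⟨n, hn, hnB, hint⟩ := hξ.den
  have hx : IsIntegral ℤ ((n : K) * ⟨ξ, hξ.mem⟩ : K) := by
    have h : IsIntegral ℤ (algebraMap K ℂ ((n : K) * ⟨ξ, hξ.mem⟩ : K)) := by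
      rw [map_mul, map_natCast]
      exact hint
    exact (isIntegral_algebraMap_iff (algebraMap K ℂ).injective).mp h
  have hB2 : Real.exp B ≤ Real.exp (2 * B) := Real.exp_le_exp.mpr (by linarith)
  refine ⟨⟨⟨a₁, ia₁⟩, ⟨b₁, ib₁⟩, ⟨a₂, ia₂⟩, ⟨b₂, ib₂⟩, (n : 𝓞 K), ⟨_, hx⟩⟩,
    ⟨Real.one_le_exp hH, Real.one_le_exp (by linarith), ba₁, bb₁, ba₂, bb₂, ?_, ?_⟩,
    ⟨ea₁, eb₁, ea₂, eb₂, ?_, ?_⟩⟩
  · intro σ
    change ‖σ (algebraMap (𝓞 K) K (n : 𝓞 K))‖ ≤ _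
    rw [map_natCast, map_natCast, Complex.norm_natCast]
    exact hnB.trans hB2
  · intro σ
    change ‖σ ((n : K) * ⟨ξ, hξ.mem⟩ : K)‖ ≤ _
    rw [map_mul, map_natCast, norm_mul, Complex.norm_natCast, two_mul, Real.exp_add]
    exact mul_le_mul hnB (hξ.house σ) (norm_nonneg _) (Real.exp_pos _).le
  · change algebraMap K ℂ ((n : K) * ⟨ξ, hξ.mem⟩ : K) =
      ξ * algebraMap K ℂ (algebraMap (𝓞 K) K (n : 𝓞 K))
    rw [map_mul, map_natCast, map_natCast, map_natCast, mul_comm]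
    rfl
  · change (n : 𝓞 K) ≠ 0
    exact Nat.cast_ne_zero.mpr hn.ne'

theorem exists_c {K : Type*} [Field K] [NumberField K] {D : D2 K} {X Z : ℝ} (h : Bdd D X Z)
    {L N : ℕ} (hL : 0 < L) (hN : 4 * Module.finrank ℚ K * N ≤ L ^ 2) :
    ∃ c : ℕ → ℕ → ℤ, (∃ i < L, ∃ j < L, c i j ≠ 0) ∧ (∀ n < N, gm D L c n = 0) ∧
      ∀ i j, |(c i j : ℝ)| ≤ 5 * L ^ 2 * (N.factorial * (2 * X * Z) ^ N) := by
  classical
  have hX := h.hX
  have hZ := h.hZ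
  have hXZ : 1 ≤ 2 * X * Z := by nlinarith
  choose y hy using fun i j => mon_int D i j
  set A : ℝ := N.factorial * (2 * X * Z) ^ N with hA
  have hNf : (1 : ℝ) ≤ N.factorial := by exact_mod_cast Nat.factorial_pos N
  have hA1 : 1 ≤ A := by
    have h1 : 1 ≤ (2 * X * Z) ^ N := one_le_pow₀ hXZ
    rw [hA]
    nlinarith
  let e : Fin L × Fin L ≃ Fin (L * L) := finProdFinEquiv
  obtain ⟨z, hz0, hz, hzb⟩ := siegel (K := K) (m := N) (n := L * L) (Nat.mul_pos hL hL)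
    (by rw [← pow_two]; exact hN) (fun n k => y (e.symm k).1 (e.symm k).2 n) hA1 (by
      intro n k σ
      have h1 := hy (e.symm k).1 (e.symm k).2 n
      have h2 := mon_bd h σ (e.symm k).1 (e.symm k).2 n
      have h3 : ‖σ ((y (e.symm k).1 (e.symm k).2 n : 𝓞 K) : K)‖ =
          (n : ℕ).factorial * ‖σ (PowerSeries.coeff n (mon D (e.symm k).1 (e.symm k).2))‖ := by
        rw [h1, map_mul, map_natCast, norm_mul, Complex.norm_natCast]
      rw [h3, hA]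
      have h4 : (((n : ℕ).factorial : ℕ) : ℝ) ≤ N.factorial := by
        exact_mod_cast Nat.factorial_le n.2.le
      have h5 : (2 * X * Z) ^ (n : ℕ) ≤ (2 * X * Z) ^ N := pow_le_pow_right₀ hXZ n.2.le
      exact mul_le_mul h4 (h2.trans h5) (norm_nonneg _) (Nat.cast_nonneg _))
  let c : ℕ → ℕ → ℤ := fun i j =>
    if hij : i < L ∧ j < L then z (e (⟨i, hij.1⟩, ⟨j, hij.2⟩)) else 0
  have hc : ∀ p : Fin L × Fin L, c p.1 p.2 = z (e p) := by
    intro p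
    simp only [c]
    rw [dif_pos ⟨p.1.2, p.2.2⟩]
  refine ⟨c, ?_, ?_, ?_⟩
  · obtain ⟨k, hk⟩ := Function.ne_iff.mp hz0
    refine ⟨(e.symm k).1, (e.symm k).1.2, (e.symm k).2, (e.symm k).2.2, ?_⟩
    rw [hc, Equiv.apply_symm_apply]
    exact hk
  · intro n hn
    have h1 := hz ⟨n, hn⟩
    have h2 := congrArg (algebraMap (𝓞 K) K) h1
    rw [map_sum, map_zero] at h2
    have hf : (n.factorial : K) ≠ 0 := Nat.cast_ne_zero.mpr n.factorial_ne_zero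
    apply (mul_eq_zero.mp (?_ : (n.factorial : K) * gm D L c n = 0)).resolve_left hf
    rw [← h2, ← e.sum_comp, Fintype.sum_prod_type, gm, Finset.sum_range, Finset.mul_sum]
    refine Finset.sum_congr rfl fun i _ => ?_
    rw [Finset.sum_range, Finset.mul_sum]
    refine Finset.sum_congr rfl fun j _ => ?_
    have h3 := hc (i, j)
    simp only at h3
    rw [h3, map_mul, map_intCast]
    have h4 : e.symm (e (i, j)) = (i, j) := e.symm_apply_apply _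
    rw [h4]
    have h5 : algebraMap (𝓞 K) K (y i j n) = (n.factorial : K) * PowerSeries.coeff n (mon D i j) :=
      hy i j n
    rw [h5]
    ring
  · have hL1 : (1 : ℝ) ≤ L := by exact_mod_cast hL
    have hL2 : (1 : ℝ) ≤ L ^ 2 := one_le_pow₀ hL1
    intro i j
    by_cases hij : i < L ∧ j < L
    · have h1 := hzb (e (⟨i, hij.1⟩, ⟨j, hij.2⟩))
      have h2 : c i j = z (e (⟨i, hij.1⟩, ⟨j, hij.2⟩)) := by
        simp only [c]
        rw [dif_pos hij]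
      rw [h2]
      push_cast at h1
      nlinarith
    · have h2 : c i j = 0 := by
        simp only [c]
        rw [dif_neg hij]
      rw [h2, Int.cast_zero, abs_zero]
      positivity

end Pool.Agent.LGO.Bs
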