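import Mathlib

/-!
# LGO base: choice of the parameters

`m = ⌈M⌉₊` (`M ≤ m ≤ 2 M`), `q = (k m)^5`, `L = 4 m q`, `N = 4 m q²`, `O ≥ N`,
`S = ⌊O T / (8 C L)⌋₊`.  Proof of the conditions.

(1) Claim: `C₁ L (log O + 1) M² ≤ O` where `C₁ = 32 C²` (say), if `k` is large:
`log O + 1 ≤ 5 O^(1/4)` (`Real.log_le_rpow_div` or `log x ≤ 4 (x^(1/4) - 1)`), so it suffices that
`5 C₁ L M² ≤ O^(3/4)`; `O^(3/4) ≥ N^(1/2) O^(1/4) ≥ 2 m^(1/2) q N^(1/4)` and `L = 4 m q`, so it suffices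
that `10 C₁ m^(1/2) M² ≤ N^(1/4)`; `N ≥ q² = (k m)^10`, `N^(1/4) ≥ (k m)^(5/2)`, `k ≥ (10 C₁)^(2/5)`
suffices (take `k ≥ 10 C₁`).
(2) `O T / (8 C L) ≥ C₁ T M² (log O + 1) / (8 C) ≥ 4 C (M log O + M² T) ≥ 2`, as `T M² ≥ M` and
`T M² ≥ T M² `: indeed `C₁ / (8 C) = 4 C` and `T M² (log O + 1) = T M² log O + T M² ≥ M log O + M² T`
using `M T ≥ 1`.  So `S ≥ O T / (16 C L) ≥ 2 C (M log O + M² T)` and `S ≥ 1`.
(3) `C L S² / T ≤ S (C L / T) (O T / (8 C L)) = S O / 8`, and `C L S ≤ S O / 8` as `8 C L ≤ O`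
by (1).
-/

namespace Pool.Agent.LGO.Bs

private lemma BsNum_ceil {M : ℝ} {m : ℕ} (hM : 2 ≤ M) (hm : m = ⌈M⌉₊) :
    M ≤ m ∧ (m : ℝ) ≤ 2 * M := by
  subst hm
  refine ⟨Nat.le_ceil M, ?_⟩
  have := Nat.ceil_lt_add_one (show (0 : ℝ) ≤ M by linarith)
  linarith

theorem num (C : ℝ) (hC : 1 ≤ C) : ∃ k : ℕ, 1 ≤ k ∧ ∀ (M T : ℝ) (m q L N O : ℕ), 2 ≤ M → 0 < T →
    1 ≤ M * T → m = ⌈M⌉₊ → q = (k * m) ^ 5 → L = 4 * m * q → N = 4 * m * q ^ 2 → N ≤ O →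
    ∃ S : ℕ, 1 ≤ S ∧ C * (L * ((S : ℝ) ^ 2 / T + S)) ≤ S * O / 4 ∧
      C * (M * Real.log O + M ^ 2 * T) ≤ S ∧ (S : ℝ) * L ≤ O * T := by
  set C1 : ℝ := 32 * C ^ 2 with hC1
  have hC1' : 1 ≤ C1 := by nlinarith
  obtain ⟨k, hk⟩ := exists_nat_ge (16 * C1)
  have hk1 : (1 : ℝ) ≤ k := by linarith
  refine ⟨k, by exact_mod_cast hk1, ?_⟩
  intro M T m q L N O hM hT hMT hm hq hL hN hNO
  obtain ⟨hMm, hm2⟩ := BsNum_ceil hM hm
  have hm1 : (2 : ℝ) ≤ m := hM.trans hMm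
  have hqR : (q : ℝ) = ((k : ℝ) * m) ^ 5 := by rw [hq]; push_cast; ring
  have hLR : (L : ℝ) = 4 * m * q := by rw [hL]; push_cast; ring
  have hNR : (N : ℝ) = 4 * m * (q : ℝ) ^ 2 := by rw [hN]; push_cast; ring
  have hkm : (1 : ℝ) ≤ (k : ℝ) * m := by nlinarith
  have hq1 : (1 : ℝ) ≤ q := by rw [hqR]; exact one_le_pow₀ hkm
  have hL1 : (1 : ℝ) ≤ L := by rw [hLR]; nlinarith
  have hOR : 4 * m * (q : ℝ) ^ 2 ≤ (O : ℝ) := by rw [← hNR]; exact_mod_cast hNO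
  have hq2 : (1 : ℝ) ≤ (q : ℝ) ^ 2 := one_le_pow₀ hq1
  have hO1 : (1 : ℝ) ≤ O := by nlinarith
  have hO0 : (0 : ℝ) < O := by linarith
  -- the fourth root of `O`
  set y : ℝ := √√(O : ℝ) with hy
  have hy2 : y ^ 2 = √(O : ℝ) := Real.sq_sqrt (Real.sqrt_nonneg _)
  have hy4 : y ^ 4 = (O : ℝ) := by
    have e0 : y ^ 4 = (y ^ 2) ^ 2 := by ring
    rw [e0, hy2, Real.sq_sqrt hO0.le]
  have hy0 : 0 < y := Real.sqrt_pos.2 (Real.sqrt_pos.2 hO0)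
  have hlog : Real.log O + 1 ≤ 4 * y := by
    rw [← hy4, Real.log_pow]
    have := Real.log_le_sub_one_of_pos hy0
    push_cast
    linarith
  have hlog0 : 0 ≤ Real.log O := Real.log_nonneg hO1
  have h3 : 16 * C1 * (m : ℝ) ^ 3 * q ≤ y ^ 3 := by
    refine le_of_pow_le_pow_left₀ (n := 4) (by norm_num) (by positivity) ?_
    have e1 : (y ^ 3) ^ 4 = (O : ℝ) ^ 3 := by
      rw [← hy4]; ring
    rw [e1]
    have e2 : (4 * m * (q : ℝ) ^ 2) ^ 3 ≤ (O : ℝ) ^ 3 := pow_le_pow_left₀ (by positivity) hOR 3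
    refine le_trans ?_ e2
    have e3 : (16 * C1) ^ 4 ≤ (k : ℝ) ^ 10 := by
      calc (16 * C1) ^ 4 ≤ (k : ℝ) ^ 4 := pow_le_pow_left₀ (by positivity) hk 4
        _ ≤ (k : ℝ) ^ 10 := pow_le_pow_right₀ hk1 (by norm_num)
    have e4 : (q : ℝ) ^ 2 = (k : ℝ) ^ 10 * (m : ℝ) ^ 10 := by rw [hqR]; ring
    have e5 : (16 * C1 * (m : ℝ) ^ 3 * q) ^ 4 = (16 * C1) ^ 4 * ((m : ℝ) ^ 12 * (q : ℝ) ^ 4) := by ring
    have e6 : (4 * m * (q : ℝ) ^ 2) ^ 3 = (k : ℝ) ^ 10 * ((m : ℝ) ^ 12 * (q : ℝ) ^ 4) * (64 * m) := by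
      calc (4 * m * (q : ℝ) ^ 2) ^ 3 = 64 * (m : ℝ) ^ 3 * (q : ℝ) ^ 4 * (q : ℝ) ^ 2 := by ring
        _ = _ := by rw [e4]; ring
    rw [e5, e6]
    have e7 : (16 * C1) ^ 4 * ((m : ℝ) ^ 12 * (q : ℝ) ^ 4) ≤ (k : ℝ) ^ 10 * ((m : ℝ) ^ 12 * (q : ℝ) ^ 4) :=
      mul_le_mul_of_nonneg_right e3 (by positivity)
    refine e7.trans (le_mul_of_one_le_right (by positivity) (by linarith))
  have H1 : C1 * L * (Real.log O + 1) * M ^ 2 ≤ (O : ℝ) := by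
    have f1 : M ^ 2 ≤ (m : ℝ) ^ 2 := pow_le_pow_left₀ (by linarith) hMm 2
    have f2 : C1 * L * (Real.log O + 1) * M ^ 2 ≤ C1 * L * (4 * y) * (m : ℝ) ^ 2 := by
      refine mul_le_mul (mul_le_mul_of_nonneg_left hlog (by positivity)) f1 (by positivity) (by positivity)
    refine f2.trans ?_
    calc C1 * L * (4 * y) * (m : ℝ) ^ 2 = (16 * C1 * (m : ℝ) ^ 3 * q) * y := by rw [hLR]; ring
      _ ≤ y ^ 3 * y := mul_le_mul_of_nonneg_right h3 hy0.le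
      _ = (O : ℝ) := by rw [← hy4]; ring
  have h8 : 8 * C * L ≤ (O : ℝ) := by
    have g1 : (1 : ℝ) ≤ M ^ 2 := by nlinarith
    have g2 : (1 : ℝ) ≤ Real.log O + 1 := by linarith
    have g3 : C1 * L ≤ C1 * L * (Real.log O + 1) := le_mul_of_one_le_right (by positivity) g2
    have g4 : C1 * L * (Real.log O + 1) ≤ C1 * L * (Real.log O + 1) * M ^ 2 :=
      le_mul_of_one_le_right (by positivity) g1
    have g5 : 8 * C * L ≤ C1 * L := by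
      refine mul_le_mul_of_nonneg_right ?_ (by linarith)
      rw [hC1]; nlinarith
    linarith
  have hCL : 0 < 8 * C * L := by positivity
  set W : ℝ := O * T / (8 * C * L) with hW
  have hW0 : 0 ≤ W := by positivity
  have hM2T : M ≤ M ^ 2 * T := by nlinarith
  have hWge : 4 * C * (M * Real.log O + M ^ 2 * T) ≤ W := by
    rw [hW, le_div_iff₀ hCL]
    have j1 : M * Real.log O ≤ M ^ 2 * T * Real.log O := mul_le_mul_of_nonneg_right hM2T hlog0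
    have j2 : 4 * C * (M * Real.log O + M ^ 2 * T) * (8 * C * L) ≤
        4 * C * (M ^ 2 * T * Real.log O + M ^ 2 * T) * (8 * C * L) := by
      refine mul_le_mul_of_nonneg_right (mul_le_mul_of_nonneg_left (by linarith) (by linarith)) hCL.le
    refine j2.trans ?_
    calc 4 * C * (M ^ 2 * T * Real.log O + M ^ 2 * T) * (8 * C * L)
        = (C1 * L * (Real.log O + 1) * M ^ 2) * T := by rw [hC1]; ring
      _ ≤ O * T := mul_le_mul_of_nonneg_right H1 hT.le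
  have hB : M ≤ M * Real.log O + M ^ 2 * T := by
    have : 0 ≤ M * Real.log O := by positivity
    linarith
  have hCB : M * Real.log O + M ^ 2 * T ≤ C * (M * Real.log O + M ^ 2 * T) :=
    le_mul_of_one_le_left (by linarith) hC
  have hW8 : 8 ≤ W := by nlinarith
  refine ⟨⌊W⌋₊, ?_, ?_, ?_, ?_⟩
  · exact Nat.le_floor (by push_cast; linarith)
  · have hS : ((⌊W⌋₊ : ℕ) : ℝ) ≤ W := Nat.floor_le hW0
    set S : ℝ := ((⌊W⌋₊ : ℕ) : ℝ) with hSd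
    have hS0 : 0 ≤ S := Nat.cast_nonneg _
    have k1 : C * (L * (S ^ 2 / T)) ≤ S * O / 8 := by
      have : C * (L * (S ^ 2 / T)) = S * (C * L * S / T) := by ring
      rw [this]
      have k2 : C * L * S / T ≤ O / 8 := by
        rw [div_le_iff₀ hT]
        have : S * (8 * C * L) ≤ O * T := (le_div_iff₀ hCL).1 hS
        nlinarith
      calc S * (C * L * S / T) ≤ S * (O / 8) := mul_le_mul_of_nonneg_left k2 hS0
        _ = S * O / 8 := by ring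
    have k3 : C * (L * S) ≤ S * O / 8 := by
      have := mul_le_mul_of_nonneg_left h8 hS0
      nlinarith
    have k4 : C * (L * (S ^ 2 / T + S)) = C * (L * (S ^ 2 / T)) + C * (L * S) := by ring
    rw [k4]
    linarith
  · have hS : W < ((⌊W⌋₊ : ℕ) : ℝ) + 1 := Nat.lt_floor_add_one W
    have : 4 * (C * (M * Real.log O + M ^ 2 * T)) ≤ W := by linarith
    have h2 : 2 ≤ C * (M * Real.log O + M ^ 2 * T) := by linarith
    linarith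
  · have hS : ((⌊W⌋₊ : ℕ) : ℝ) ≤ W := Nat.floor_le hW0
    have : ((⌊W⌋₊ : ℕ) : ℝ) * (8 * C * L) ≤ O * T := (le_div_iff₀ hCL).1 hS
    have hS0 : (0 : ℝ) ≤ ((⌊W⌋₊ : ℕ) : ℝ) := Nat.cast_nonneg _
    have h2 : ((⌊W⌋₊ : ℕ) : ℝ) * L ≤ ((⌊W⌋₊ : ℕ) : ℝ) * (8 * C * L) := by
      refine mul_le_mul_of_nonneg_left ?_ hS0
      nlinarith
    linarith

/-- `L` is bounded by a power of `M` -/
theorem num_L (k : ℕ) : ∃ C : ℕ, ∀ (M : ℝ) (m q L : ℕ), 2 ≤ M → m = ⌈M⌉₊ → q = (k * m) ^ 5 →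
    L = 4 * m * q → (L : ℝ) ≤ M ^ C := by
  refine ⟨5 * k + 14, ?_⟩
  intro M m q L hM hm hq hL
  obtain ⟨hMm, hm2⟩ := BsNum_ceil hM hm
  have hLR : (L : ℝ) = 4 * (k : ℝ) ^ 5 * (m : ℝ) ^ 6 := by rw [hL, hq]; push_cast; ring
  have hm0 : (0 : ℝ) ≤ m := Nat.cast_nonneg _
  have h1 : (m : ℝ) ^ 6 ≤ (2 * M) ^ 6 := pow_le_pow_left₀ hm0 hm2 6
  have h2 : (k : ℝ) ≤ 2 ^ k := by exact_mod_cast (Nat.lt_two_pow_self (n := k)).le
  have h3 : (k : ℝ) ^ 5 ≤ (2 ^ k) ^ 5 := pow_le_pow_left₀ (Nat.cast_nonneg _) h2 5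
  have h4 : (2 : ℝ) ^ (5 * k + 8) ≤ M ^ (5 * k + 8) := pow_le_pow_left₀ (by norm_num) hM _
  rw [hLR]
  calc 4 * (k : ℝ) ^ 5 * (m : ℝ) ^ 6 ≤ 4 * (2 ^ k) ^ 5 * (2 * M) ^ 6 := by gcongr
    _ = 2 ^ (5 * k + 8) * M ^ 6 := by
        rw [pow_add, pow_mul, mul_pow, ← pow_mul 2 k 5, mul_comm k 5, pow_mul]
        ring
    _ ≤ M ^ (5 * k + 8) * M ^ 6 := mul_le_mul_of_nonneg_right h4 (by positivity)
    _ = M ^ (5 * k + 14) := by rw [← pow_add]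

end Pool.Agent.LGO.Bs
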