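import Mathlib
import Pool.Agent.LGO.A.MulDefs

/-!
# LGO (A): bivariate polynomials, degrees and derivatives

Everything here is elementary.  `Bivariate.swap : ℂ[X][Y] ≃ₐ[ℂ] ℂ[X][Y]` exchanges `X` and `Y`
(`Polynomial.Bivariate.aevalAeval_swap`, `coe_aevalAeval_eq_evalEval`, `swap_swap_apply`,
`swap_C`, `swap_monomial_monomial`).

* `natDegree_coeff_le`: the coefficient of `X^j` in `P.coeff k` is the coefficient of `Y^k`.. of
  `(swap P).coeff j` (lemma `(swap P).coeff j).coeff k = (P.coeff k).coeff j`, by induction on `P`).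
* `dX_mul`, `dY_mul`: `natDegree_mul` in a domain, `map_mul`.
* `natDegree_le_of_coeff` gives `dX P ≤ n` from bounds for all coefficients.
* `pX`: coefficientwise derivative: `(pX P).coeff k = derivative (P.coeff k)`.
* `hasDerivAt_eval`: induction on `P` (sums and monomials), or
  `HasDerivAt` of `∑ k, (P.coeff k).eval (F z) * G z ^ k`.
-/

namespace Pool.Agent.LGO.Mul

open Polynomial Pool.Agent.EllSch
open scoped Polynomial.Bivariate

theorem coeff_coeff_swap (P : ℂ[X][Y]) (j k : ℕ) :
    ((Bivariate.swap P).coeff j).coeff k = (P.coeff k).coeff j := by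
  induction P using Polynomial.induction_on' with
  | add p q hp hq => simp only [map_add, coeff_add, hp, hq]
  | monomial n a =>
    induction a using Polynomial.induction_on' with
    | add p q hp hq => simp only [map_add, coeff_add, hp, hq]
    | monomial m r =>
      rw [Bivariate.swap_monomial_monomial, coeff_monomial, coeff_monomial]
      split_ifs with h1 h2 h2
      · rw [coeff_monomial, coeff_monomial, if_pos h1, if_pos h2]
      · rw [coeff_monomial, if_neg h2, coeff_zero]
      · rw [coeff_monomial, if_neg h1, coeff_zero]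
      · rw [coeff_zero, coeff_zero]

theorem natDegree_coeff_le (P : ℂ[X][Y]) (k : ℕ) : (P.coeff k).natDegree ≤ dX P := by
  rw [natDegree_le_iff_coeff_eq_zero]
  intro j hj
  rw [← coeff_coeff_swap, coeff_eq_zero_of_natDegree_lt hj, coeff_zero]

theorem dX_le_of_coeff (P : ℂ[X][Y]) (n : ℕ) (h : ∀ k, (P.coeff k).natDegree ≤ n) : dX P ≤ n := by
  unfold dX
  rw [natDegree_le_iff_coeff_eq_zero]
  intro j hj
  ext k
  rw [coeff_coeff_swap, coeff_zero]
  exact coeff_eq_zero_of_natDegree_lt (lt_of_le_of_lt (h k) hj)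

private lemma MulBasic_swap_ne {P : ℂ[X][Y]} (h : P ≠ 0) : Bivariate.swap P ≠ 0 := by
  intro h0
  apply h
  rw [← Bivariate.swap_swap_apply P, h0, map_zero]

theorem dX_mul {P Q : ℂ[X][Y]} (hP : P ≠ 0) (hQ : Q ≠ 0) : dX (P * Q) = dX P + dX Q := by
  unfold dX
  rw [map_mul, natDegree_mul (MulBasic_swap_ne hP) (MulBasic_swap_ne hQ)]

theorem dY_mul {P Q : ℂ[X][Y]} (hP : P ≠ 0) (hQ : Q ≠ 0) : dY (P * Q) = dY P + dY Q := by
  unfold dY
  rw [natDegree_mul hP hQ]

/-- a polynomial of degree `0` in `X` is a polynomial in `Y` -/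
theorem eq_map_of_dX_eq_zero {P : ℂ[X][Y]} (h : dX P = 0) : ∃ p : ℂ[X], P = p.map C := by
  refine ⟨(Bivariate.swap P).coeff 0, ?_⟩
  have h1 := eq_C_of_natDegree_eq_zero h
  rw [← Bivariate.swap_C, ← h1, Bivariate.swap_swap_apply]

/-- a polynomial of degree `0` in `Y` is a polynomial in `X` -/
theorem eq_C_of_dY_eq_zero {P : ℂ[X][Y]} (h : dY P = 0) : ∃ p : ℂ[X], P = C p :=
  ⟨P.coeff 0, eq_C_of_natDegree_eq_zero h⟩

theorem pX_ne_zero {P : ℂ[X][Y]} (h : 0 < dX P) : pX P ≠ 0 := by
  unfold pX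
  apply MulBasic_swap_ne
  intro h0
  have := derivative_eq_zero.1 h0
  unfold dX at h
  omega

theorem dX_pX_lt {P : ℂ[X][Y]} (h : 0 < dX P) : dX (pX P) < dX P := by
  unfold dX pX
  rw [Bivariate.swap_swap_apply]
  unfold dX at h
  exact natDegree_derivative_lt h.ne'

/-- an element of degree `> 0` in `X` does not divide its derivative with respect to `X` -/
theorem not_dvd_pX {P : ℂ[X][Y]} (h : 0 < dX P) : ¬ P ∣ pX P := by
  rintro ⟨R, hR⟩
  have h1 := pX_ne_zero h
  have h2 := dX_pX_lt h
  rw [hR] at h1 h2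
  rw [dX_mul (left_ne_zero_of_mul h1) (right_ne_zero_of_mul h1)] at h2
  omega

/-- an element of degree `> 0` in `Y` does not divide a nonzero polynomial in `X` -/
theorem not_dvd_C {P : ℂ[X][Y]} (h : 0 < dY P) {p : ℂ[X]} (hp : p ≠ 0) : ¬ P ∣ C p := by
  rintro ⟨R, hR⟩
  have h1 : (C p : ℂ[X][Y]) ≠ 0 := C_ne_zero.2 hp
  have h2 : dY (C p : ℂ[X][Y]) = 0 := natDegree_C p
  rw [hR] at h1 h2
  rw [dY_mul (left_ne_zero_of_mul h1) (right_ne_zero_of_mul h1)] at h2
  omega

/-- an element of degree `> 0` in `X` does not divide a nonzero polynomial in `Y` -/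
theorem not_dvd_map {P : ℂ[X][Y]} (h : 0 < dX P) {p : ℂ[X]} (hp : p ≠ 0) : ¬ P ∣ p.map C := by
  rintro ⟨R, hR⟩
  have h1 : (p.map C : ℂ[X][Y]) ≠ 0 := by
    rw [← Bivariate.swap_C]
    exact MulBasic_swap_ne (C_ne_zero.2 hp)
  have h2 : dX (p.map C : ℂ[X][Y]) = 0 := by
    unfold dX
    rw [Bivariate.swap_map_C]
    exact natDegree_C p
  rw [hR] at h1 h2
  rw [dX_mul (left_ne_zero_of_mul h1) (right_ne_zero_of_mul h1)] at h2
  omega

private lemma MulBasic_dX_pY (P : ℂ[X][Y]) : dX (pY P) ≤ dX P := by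
  apply dX_le_of_coeff
  intro k
  unfold pY
  rw [coeff_derivative]
  have h : ((k : ℂ[X]) + 1) = C ((k : ℂ) + 1) := by
    rw [C_add, C_1]
    rfl
  rw [h]
  exact (natDegree_mul_C_le _ _).trans (natDegree_coeff_le P (k + 1))

private lemma MulBasic_dX_pX (P : ℂ[X][Y]) : dX (pX P) ≤ dX P := by
  unfold dX pX
  rw [Bivariate.swap_swap_apply]
  exact (natDegree_derivative_le _).trans (Nat.sub_le _ _)

private lemma MulBasic_coeff_pX (P : ℂ[X][Y]) (k : ℕ) :
    (pX P).coeff k = derivative (P.coeff k) := by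
  ext j
  unfold pX
  rw [coeff_coeff_swap, coeff_derivative, coeff_derivative, ← coeff_coeff_swap]
  have h : ((j : ℂ[X]) + 1) = C ((j : ℂ) + 1) := by
    rw [C_add, C_1]
    rfl
  rw [h, coeff_mul_C]

private lemma MulBasic_dY_pX (P : ℂ[X][Y]) : dY (pX P) ≤ dY P := by
  unfold dY
  rw [natDegree_le_iff_coeff_eq_zero]
  intro k hk
  rw [MulBasic_coeff_pX, coeff_eq_zero_of_natDegree_lt hk, derivative_zero]

private lemma MulBasic_dY_pY (P : ℂ[X][Y]) : dY (pY P) ≤ dY P := by
  unfold dY pY
  exact (natDegree_derivative_le _).trans (Nat.sub_le _ _)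

private lemma MulBasic_ff (g2 g3 : ℂ) : (ff g2 g3).natDegree ≤ 4 := by
  unfold ff
  compute_degree

theorem dX_QQ_le (g2 g3 h2 h3 ξ : ℂ) (P : ℂ[X][Y]) : dX (QQ g2 g3 h2 h3 ξ P) ≤ 2 * dX P + 4 := by
  have h1 := MulBasic_dX_pX P
  have h2' := MulBasic_dX_pY P
  have h3' := MulBasic_ff g2 g3
  unfold dX at h1 h2' ⊢
  unfold QQ
  simp only [map_sub, map_mul, map_pow]
  refine (natDegree_sub_le _ _).trans (max_le ?_ ?_)
  · rw [Bivariate.swap_C]
    refine natDegree_mul_le.trans (add_le_add (natDegree_pow_le.trans ?_) ?_)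
    · exact Nat.mul_le_mul_left _ h1
    · exact natDegree_map_le.trans h3'
  · rw [Bivariate.swap_map_C]
    refine natDegree_mul_le.trans ?_
    rw [natDegree_C, add_zero]
    refine natDegree_mul_le.trans ?_
    have h5 : (Bivariate.swap (C (C ξ) : ℂ[X][Y]) ^ 2).natDegree = 0 := by
      rw [Bivariate.swap_C_C, ← C_pow, natDegree_C]
    rw [h5, zero_add]
    refine natDegree_pow_le.trans ?_
    have := Nat.mul_le_mul_left 2 h2'
    omega

theorem dY_QQ_le (g2 g3 h2 h3 ξ : ℂ) (P : ℂ[X][Y]) : dY (QQ g2 g3 h2 h3 ξ P) ≤ 2 * dY P + 4 := by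
  have h1 := MulBasic_dY_pX P
  have h2' := MulBasic_dY_pY P
  have h3' := MulBasic_ff h2 h3
  unfold dY at h1 h2' ⊢
  unfold QQ
  refine (natDegree_sub_le _ _).trans (max_le ?_ ?_)
  · refine natDegree_mul_le.trans ?_
    rw [natDegree_C, add_zero]
    refine natDegree_pow_le.trans ?_
    have := Nat.mul_le_mul_left 2 h1
    omega
  · refine natDegree_mul_le.trans (add_le_add ?_ (natDegree_map_le.trans h3'))
    refine natDegree_mul_le.trans ?_
    rw [natDegree_C, zero_add]
    exact natDegree_pow_le.trans (Nat.mul_le_mul_left _ h2')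

theorem evalEval_QQ (g2 g3 h2 h3 ξ : ℂ) (P : ℂ[X][Y]) (x y : ℂ) :
    (QQ g2 g3 h2 h3 ξ P).evalEval x y = (pX P).evalEval x y ^ 2 * (ff g2 g3).eval x -
      ξ ^ 2 * (pY P).evalEval x y ^ 2 * (ff h2 h3).eval y := by
  unfold QQ
  rw [evalEval_sub, evalEval_mul, evalEval_pow, evalEval_C, evalEval_mul, evalEval_mul,
    evalEval_pow, evalEval_map_C, evalEval_C, eval_C]

private lemma MulBasic_pX_mono (n m : ℕ) (r : ℂ) :
    pX (monomial n (monomial m r) : ℂ[X][Y]) = monomial n (monomial (m - 1) (r * m)) := by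
  unfold pX
  rw [Bivariate.swap_monomial_monomial, derivative_monomial]
  have h : (monomial n r : ℂ[X]) * (m : ℂ[X]) = monomial n (r * m) := by
    rw [← C_eq_natCast, monomial_mul_C]
  rw [h, Bivariate.swap_monomial_monomial]

private lemma MulBasic_pY_mono (n : ℕ) (a : ℂ[X]) :
    pY (monomial n a : ℂ[X][Y]) = monomial (n - 1) (a * n) := by
  unfold pY
  rw [derivative_monomial]

private lemma MulBasic_eval_mono (n : ℕ) (a : ℂ[X]) (x y : ℂ) :
    (monomial n a : ℂ[X][Y]).evalEval x y = a.eval x * y ^ n := by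
  rw [← C_mul_X_pow_eq_monomial, evalEval_mul, evalEval_pow, evalEval_X, evalEval_C]

theorem hasDerivAt_eval (P : ℂ[X][Y]) {F G : ℂ → ℂ} {F' G' z : ℂ} (hF : HasDerivAt F F' z)
    (hG : HasDerivAt G G' z) :
    HasDerivAt (fun z => P.evalEval (F z) (G z))
      ((pX P).evalEval (F z) (G z) * F' + (pY P).evalEval (F z) (G z) * G') z := by
  induction P using Polynomial.induction_on' with
  | add p q hp hq =>
    have e1 : pX (p + q) = pX p + pX q := by
      unfold pX
      simp only [map_add]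
    have e2 : pY (p + q) = pY p + pY q := by
      unfold pY
      simp only [map_add]
    rw [e1, e2]
    simp only [evalEval_add]
    refine (hp.add hq).congr_deriv ?_
    ring
  | monomial n a =>
    induction a using Polynomial.induction_on' with
    | add p q hp hq =>
      have e0 : (monomial n (p + q) : ℂ[X][Y]) = monomial n p + monomial n q := map_add _ _ _
      have e1 : pX (monomial n p + monomial n q : ℂ[X][Y]) =
          pX (monomial n p) + pX (monomial n q) := by
        unfold pX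
        simp only [map_add]
      have e2 : pY (monomial n p + monomial n q : ℂ[X][Y]) =
          pY (monomial n p) + pY (monomial n q) := by
        unfold pY
        simp only [map_add]
      rw [e0, e1, e2]
      simp only [evalEval_add]
      refine (hp.add hq).congr_deriv ?_
      ring
    | monomial m r =>
      rw [MulBasic_pX_mono, MulBasic_pY_mono]
      simp only [MulBasic_eval_mono, eval_monomial, eval_mul, eval_natCast]
      refine (((hF.pow m).const_mul r).mul (hG.pow n)).congr_deriv ?_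
      simp only [Pi.pow_apply]
      ring

theorem analyticAt_eval (P : ℂ[X][Y]) {F G : ℂ → ℂ} {z : ℂ} (hF : AnalyticAt ℂ F z)
    (hG : AnalyticAt ℂ G z) : AnalyticAt ℂ (fun z => P.evalEval (F z) (G z)) z := by
  induction P using Polynomial.induction_on' with
  | add p q hp hq =>
    simp only [evalEval_add]
    exact hp.add hq
  | monomial n a =>
    induction a using Polynomial.induction_on' with
    | add p q hp hq =>
      simp only [map_add, evalEval_add]
      exact hp.add hq
    | monomial m r =>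
      simp only [MulBasic_eval_mono, eval_monomial]
      exact (analyticAt_const.mul (hF.pow m)).mul (hG.pow n)

end Pool.Agent.LGO.Mul
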