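import Mathlib
import Pool.Agent.LGO.A.MulDefs

/-!
# LGO (A): elimination with the resultant, generic points

`elim`: `R = resultant P Q` (Mathlib `Polynomial.resultant`, resultant with respect to `Y`).
`A P + B Q = C R`: `Polynomial.exists_mul_add_mul_eq_C_resultant` (with `m = P.natDegree`,
`n = Q.natDegree`; `m ≠ 0`).  `R ≠ 0`: map to the fraction field `K` of `ℂ[X]`
(`resultant_map_map`, `Polynomial.resultant_eq_zero_iff`): otherwise `P`, `Q` are not coprime in
`K[Y]`, but `P` is irreducible in `K[Y]` (`P` is irreducible of positive degree, hence primitive: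
`Irreducible.isPrimitive`, `IsPrimitive.irreducible_iff_irreducible_map_fraction_map`), so `P ∣ Q`
in `K[Y]`, hence `P ∣ d Q` in `ℂ[X][Y]` with `0 ≠ d ∈ ℂ[X]` (clear denominators), `P` is prime
(`Irreducible.prime`, unique factorization domain) and `P ∤ C d` for reasons of degree, so `P ∣ Q`,
contradiction.  Degree: `R` is the determinant of a matrix of size `m + n` whose entries are `0` or
coefficients of `P` and `Q`, so each entry has degree `≤ max d e`, and the determinant is a sum of
products of `m + n` entries.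

`exists_point`: `A P + B H = C R`, `R ≠ 0` by `elim` (with `Q = H`).  `ℂ` is infinite: choose `x`
with `R(x) ≠ 0` and `lc(P)(x) ≠ 0` (`lc(P) ∈ ℂ[X]` the leading coefficient with respect to `Y`).
`P(x, Y) ∈ ℂ[Y]` has the same degree as `P`, which is positive, so it has a root `y`
(`IsAlgClosed.exists_root`).  Then `B(x,y) H(x,y) = R(x) ≠ 0`.
-/

namespace Pool.Agent.LGO.Mul

open Polynomial
open scoped Polynomial.Bivariate

theorem MulElim_coprime {K : Type*} [Field K] {f g : K[X]} (hf : Irreducible f) (h : ¬ f ∣ g) :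
    IsCoprime f g :=
  hf.coprime_iff_not_dvd.2 h

/-- the resultant does not vanish -/
theorem MulElim_resultant_ne_zero {P Q : ℂ[X][Y]} (hP : Irreducible P) (hd : 0 < P.natDegree)
    (hPQ : ¬ P ∣ Q) : resultant P Q ≠ 0 := by
  intro h0
  have hprim : P.IsPrimitive := hP.isPrimitive hd.ne'
  have hinj : Function.Injective (algebraMap ℂ[X] (FractionRing ℂ[X])) :=
    IsFractionRing.injective _ _
  have hirr : Irreducible (P.map (algebraMap ℂ[X] (FractionRing ℂ[X]))) :=
    (hprim.irreducible_iff_irreducible_map_fraction_map (K := FractionRing ℂ[X])).1 hP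
  have h1 : resultant (P.map (algebraMap ℂ[X] (FractionRing ℂ[X])))
      (Q.map (algebraMap ℂ[X] (FractionRing ℂ[X]))) = 0 := by
    rw [natDegree_map_eq_of_injective hinj, natDegree_map_eq_of_injective hinj,
      resultant_map_map, h0, map_zero]
  have h2 := (resultant_eq_zero_iff.1 h1).2
  apply hPQ
  apply hprim.dvd_of_fraction_map_dvd_fraction_map (K := FractionRing ℂ[X])
  by_contra h3
  exact h2 (MulElim_coprime hirr h3)

/-- the degree of the resultant -/
theorem MulElim_natDegree_resultant_le (P Q : ℂ[X][Y]) (m n d e : ℕ)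
    (h1 : ∀ k, (P.coeff k).natDegree ≤ d) (h2 : ∀ k, (Q.coeff k).natDegree ≤ e) :
    (resultant P Q m n).natDegree ≤ (m + n) * max d e := by
  have hent : ∀ i j, (sylvester P Q m n i j).natDegree ≤ max d e := by
    intro i j
    induction j using Fin.addCases with
    | left j =>
      simp only [sylvester, Matrix.of_apply, Fin.addCases_left]
      split_ifs
      · exact (h2 _).trans (le_max_right _ _)
      · simp
    | right j =>
      simp only [sylvester, Matrix.of_apply, Fin.addCases_right]
      split_ifs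
      · exact (h1 _).trans (le_max_left _ _)
      · simp
  unfold resultant
  rw [Matrix.det_apply]
  refine natDegree_sum_le_of_forall_le _ _ fun σ _ => ?_
  have h3 : (∏ i, sylvester P Q m n (σ i) i).natDegree ≤ (m + n) * max d e := by
    refine (natDegree_prod_le _ _).trans ?_
    refine (Finset.sum_le_sum fun i _ => hent (σ i) i).trans ?_
    simp
  rcases Int.units_eq_one_or (Equiv.Perm.sign σ) with h | h
  · rw [h, one_smul]; exact h3
  · rw [h, Units.neg_smul, one_smul, natDegree_neg]; exact h3

theorem elim {P Q : ℂ[X][Y]} (hP : Irreducible P) (hd : 0 < P.natDegree) (hPQ : ¬ P ∣ Q) (d e : ℕ)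
    (h1 : ∀ k, (P.coeff k).natDegree ≤ d) (h2 : ∀ k, (Q.coeff k).natDegree ≤ e) :
    ∃ (A B : ℂ[X][Y]) (R : ℂ[X]), R ≠ 0 ∧ A * P + B * Q = C R ∧
      R.natDegree ≤ (P.natDegree + Q.natDegree) * max d e := by
  obtain ⟨p, q, -, -, h⟩ := exists_mul_add_mul_eq_C_resultant P Q le_rfl le_rfl (Or.inl hd.ne')
  refine ⟨p, q, resultant P Q, MulElim_resultant_ne_zero hP hd hPQ, ?_,
    MulElim_natDegree_resultant_le P Q _ _ d e h1 h2⟩
  rw [← h]
  ring

theorem exists_point {P H : ℂ[X][Y]} (hP : Irreducible P) (hd : 0 < P.natDegree)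
    (hPH : ¬ P ∣ H) : ∃ x y : ℂ, P.evalEval x y = 0 ∧ H.evalEval x y ≠ 0 := by
  obtain ⟨p, q, -, -, h⟩ := exists_mul_add_mul_eq_C_resultant P H le_rfl le_rfl (Or.inl hd.ne')
  have hR : resultant P H ≠ 0 := MulElim_resultant_ne_zero hP hd hPH
  have hlc : P.leadingCoeff ≠ 0 := leadingCoeff_ne_zero.2 hP.ne_zero
  have hne : resultant P H * P.leadingCoeff ≠ 0 := mul_ne_zero hR hlc
  obtain ⟨x, hx⟩ : ∃ x : ℂ, (resultant P H * P.leadingCoeff).eval x ≠ 0 := by
    by_contra hcon
    push Not at hcon
    exact hne (Polynomial.funext fun r => by rw [hcon r, eval_zero])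
  rw [eval_mul] at hx
  have hx1 := left_ne_zero_of_mul hx
  have hx2 := right_ne_zero_of_mul hx
  have hdeg : (P.map (evalRingHom x)).natDegree = P.natDegree :=
    natDegree_map_of_leadingCoeff_ne_zero _ (by simpa using hx2)
  have hdeg2 : (P.map (evalRingHom x)).degree ≠ 0 := by
    intro h0
    have h1 : (P.map (evalRingHom x)).natDegree = 0 := natDegree_eq_zero_iff_degree_le_zero.2 h0.le
    rw [hdeg] at h1
    exact hd.ne' h1
  obtain ⟨y, hy⟩ := IsAlgClosed.exists_root _ hdeg2
  have key : ∀ S : ℂ[X][Y], S.evalEval x y = (S.map (evalRingHom x)).eval y := by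
    intro S
    rw [map_evalRingHom_eval]
  refine ⟨x, y, ?_, ?_⟩
  · rw [key]
    exact hy
  · intro hH
    have h3 := congrArg (fun S : ℂ[X][Y] => S.evalEval x y) h
    simp only [evalEval_add, evalEval_mul, evalEval_C] at h3
    rw [hH, zero_mul, add_zero, key P, IsRoot.def.1 hy, zero_mul] at h3
    exact hx1 h3.symm

end Pool.Agent.LGO.Mul
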