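import Mathlib
import Pool.Agent.LGO.A.MulIu
import Pool.Agent.LGO.A.MulBasic

/-!
# LGO (A): an algebraic relation between `℘₁(z)` and `℘₂(ξ z + c)` gives commensurable lattices

* `exists_rev`: for all large `m`, `n` there is a polynomial `S` with
  `S(x, y) = x^m y^n P(1/x, 1/y)` for `x, y ≠ 0` (induction on `P`: sums; monomials `r X^i Y^j` with
  `m ≥ i`, `n ≥ j`); `S ≠ 0`, since otherwise `P(x, y) = 0` for all `x, y ≠ 0`, so `P = 0`.
* `global`: `S(℘₁(z), ℘₂(ξ z + c))` is analytic on `D = {z | Off a b z ∧ Off a' b' (ξ z + c)}`, which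
  is open and has countable complement (`ξ ≠ 0`), so it is preconnected
  (`Set.Countable.isConnected_compl_of_one_lt_rank`, see `isPreconnected_good` in `EllSch/Add.lean`);
  it vanishes near `z₀` (there `℘₁(z)`, `℘₂(ξ z + c) ≠ 0` by continuity), so it vanishes on `D`
  (`AnalyticOnNhd.eqOn_zero_of_preconnected_of_eventuallyEq_zero`).
* `comm_of_rel`: `S ≠ 0`, so `S(x, Y) ≠ 0` for all but finitely many `x` (some coefficient
  `s(X)` of `S` is not zero); the set of `z` with `℘₁(z)` in a finite set is countable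
  (e.g. by `EllSch.exists_lat_of_eq`: for each value `x` of `℘` there are at most two values of `℘'`).
  Choose `z` outside a countable set with `Off a b z`, `S(℘₁(z), Y) ≠ 0` and
  `Off a' b' (ξ (z + ω) + c)` for all `ω ∈ Λ₁`.  For `ω ∈ Λ₁` the numbers
  `y_k = ℘₂(ξ z + c + k ξ ω)`, `k ∈ ℕ`, are roots of `S(℘₁(z), Y)`, finitely many; `℘₂'` at this
  point has at most two values for each value of `℘₂` (`EllSch.ode`), so there are `k < l` where
  `℘₂` and `℘₂'` agree (infinite pigeonhole, `Finite.exists_ne_map_eq_of_infinite`), so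
  `(l - k) ξ ω ∈ Λ₂` (`EllSch.exists_lat_of_eq`).  Apply this to `ω = a` and `ω = b` and take the
  product of the two positive integers.
-/

namespace Pool.Agent.LGO.Mul

open Polynomial Pool.Agent.EllSch Filter Topology
open scoped Polynomial.Bivariate

variable {a b a' b' : ℂ}

/-- the value of the reflected polynomial -/
private theorem MulRel_reflect {p : ℂ[X]} {m : ℕ} (h : p.natDegree ≤ m) {x : ℂ} (hx : x ≠ 0) :
    (reflect m p).eval x = x ^ m * p.eval x⁻¹ := by
  have hx' : x⁻¹ ≠ 0 := inv_ne_zero hx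
  let _ : Invertible x⁻¹ := invertibleOfNonzero hx'
  have h1 := eval₂_reflect_mul_pow (RingHom.id ℂ) (x⁻¹) m p h
  have h2 : ⅟(x⁻¹) = x := by
    rw [invOf_eq_inv, inv_inv]
  rw [h2] at h1
  simp only [eval₂_id] at h1
  rw [← h1, mul_comm (x ^ m), mul_assoc, ← mul_pow, inv_mul_cancel₀ hx, one_pow, mul_one]

private theorem MulRel_evalEval (P : ℂ[X][Y]) (x y : ℂ) :
    P.evalEval x y = ∑ k ∈ Finset.range (P.natDegree + 1), (P.coeff k).eval x * y ^ k := by
  have h : eval (C y) P = ∑ k ∈ Finset.range (P.natDegree + 1), P.coeff k * C y ^ k :=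
    eval_eq_sum_range _
  rw [evalEval, h, eval_finsetSum]
  refine Finset.sum_congr rfl fun k _ => ?_
  rw [eval_mul, eval_pow, eval_C]

theorem exists_rev {P : ℂ[X][Y]} (hP : P ≠ 0) : ∃ (S : ℂ[X][Y]) (m n : ℕ), S ≠ 0 ∧
    ∀ x y : ℂ, x ≠ 0 → y ≠ 0 → S.evalEval x y = x ^ m * y ^ n * P.evalEval x⁻¹ y⁻¹ := by
  set n := P.natDegree with hn
  set m := (Finset.range (n + 1)).sup fun k => (P.coeff k).natDegree with hm
  have hle : ∀ k ∈ Finset.range (n + 1), (P.coeff k).natDegree ≤ m := fun k hk =>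
    Finset.le_sup (f := fun k => (P.coeff k).natDegree) hk
  refine ⟨∑ k ∈ Finset.range (n + 1), C (reflect m (P.coeff k)) * X ^ (n - k), m, n, ?_, ?_⟩
  · intro h0
    have h1 : (∑ k ∈ Finset.range (n + 1), C (reflect m (P.coeff k)) * X ^ (n - k) :
        ℂ[X][Y]).coeff 0 = reflect m (P.coeff n) := by
      rw [finsetSum_coeff, Finset.sum_eq_single n]
      · simp
      · intro k hk hkn
        rw [coeff_C_mul_X_pow, if_neg]
        have := Finset.mem_range.mp hk
        omega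
      · intro h
        exact absurd (Finset.mem_range.mpr (Nat.lt_succ_self n)) h
    rw [h0, coeff_zero] at h1
    have h2 : P.coeff n = 0 := (reflect_eq_zero_iff).mp h1.symm
    rw [hn, coeff_natDegree, leadingCoeff_eq_zero] at h2
    exact hP h2
  · intro x y hx hy
    rw [evalEval_finsetSum, MulRel_evalEval P, Finset.mul_sum]
    refine Finset.sum_congr rfl fun k hk => ?_
    rw [evalEval_mul, evalEval_C, evalEval_pow, evalEval_X, MulRel_reflect (hle k hk) hx]
    have h3 : y ^ (n - k) = y ^ n * y⁻¹ ^ k := by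
      have h4 : k ≤ n := Nat.lt_succ_iff.mp (Finset.mem_range.mp hk)
      rw [inv_pow, ← div_eq_mul_inv, eq_div_iff (pow_ne_zero k hy), ← pow_add,
        Nat.sub_add_cancel h4]
    rw [h3]
    ring

/-- the domain -/
private def MulRel_D (a b a' b' ξ c : ℂ) : Set ℂ := {z | Off a b z ∧ Off a' b' (ξ * z + c)}

private theorem MulRel_open (h : Ind a b) (h' : Ind a' b') (ξ c : ℂ) :
    IsOpen (MulRel_D a b a' b' ξ c) := by
  refine (isOpen_off h).inter ?_
  exact (isOpen_off h').preimage (by fun_prop : Continuous fun u : ℂ => ξ * u + c)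

private theorem MulRel_countable (a b a' b' : ℂ) {ξ : ℂ} (c : ℂ) (hξ : ξ ≠ 0) :
    ((MulRel_D a b a' b' ξ c)ᶜ).Countable := by
  have h1 : (Set.range fun x : ℤ × ℤ => lat a b x).Countable := Set.countable_range _
  have h2 : (Set.range fun x : ℤ × ℤ => (lat a' b' x - c) / ξ).Countable := Set.countable_range _
  refine (h1.union h2).mono ?_
  intro u hu
  simp only [MulRel_D, Off, Set.mem_compl_iff, Set.mem_ofPred_eq, not_and_or, not_forall,
    not_not] at hu
  simp only [Set.mem_union, Set.mem_range]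
  rcases hu with ⟨x, hx⟩ | ⟨x, hx⟩
  · exact Or.inl ⟨x, hx.symm⟩
  · refine Or.inr ⟨x, ?_⟩
    rw [← hx, add_sub_cancel_right, mul_div_cancel_left₀ _ hξ]

private theorem MulRel_precon (a b a' b' : ℂ) {ξ : ℂ} (c : ℂ) (hξ : ξ ≠ 0) :
    IsPreconnected (MulRel_D a b a' b' ξ c) := by
  have h := (MulRel_countable a b a' b' c hξ).isConnected_compl_of_one_lt_rank
    (by rw [Complex.rank_real_complex]; norm_num)
  rw [compl_compl] at h
  exact h.isPreconnected

private theorem MulRel_analytic (h : Ind a b) {z : ℂ} (hz : Off a b z) :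
    AnalyticAt ℂ (wp a b) z := by
  have hd : DifferentiableOn ℂ (wp a b) {z | Off a b z} := fun w hw =>
    (hasDerivAt_wp h hw).differentiableAt.differentiableWithinAt
  exact hd.analyticAt ((isOpen_off h).mem_nhds hz)

private theorem MulRel_analytic' (h : Ind a b) {ξ c z : ℂ} (hz : Off a b (ξ * z + c)) :
    AnalyticAt ℂ (fun z => wp a b (ξ * z + c)) z := by
  have h1 : AnalyticAt ℂ (fun z : ℂ => ξ * z + c) z := by fun_prop
  exact AnalyticAt.fun_comp (f := fun z : ℂ => ξ * z + c) (g := wp a b) (MulRel_analytic h hz) h1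

theorem global (h : Ind a b) (h' : Ind a' b') {ξ c : ℂ} (hξ : ξ ≠ 0) {S : ℂ[X][Y]} {z₀ : ℂ}
    (hz : Off a b z₀) (hz' : Off a' b' (ξ * z₀ + c))
    (hS : ∀ᶠ z in 𝓝 z₀, S.evalEval (wp a b z) (wp a' b' (ξ * z + c)) = 0) :
    ∀ z, Off a b z → Off a' b' (ξ * z + c) →
      S.evalEval (wp a b z) (wp a' b' (ξ * z + c)) = 0 := by
  have hA : AnalyticOnNhd ℂ (fun z => S.evalEval (wp a b z) (wp a' b' (ξ * z + c)))
      (MulRel_D a b a' b' ξ c) := by
    intro z hz
    exact analyticAt_eval S (MulRel_analytic h hz.1) (MulRel_analytic' h' hz.2)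
  have h1 := hA.eqOn_zero_of_preconnected_of_eventuallyEq_zero (MulRel_precon a b a' b' c hξ)
    (z₀ := z₀) ⟨hz, hz'⟩ hS
  intro z hz1 hz2
  exact h1 ⟨hz1, hz2⟩

/-- the values of the derivative over a given value -/
private theorem MulRel_fib (h : Ind a b) (x q : ℂ) :
    {z | Off a b z ∧ wp a b z = x ∧ wq a b z = q}.Countable := by
  rcases Set.eq_empty_or_nonempty {z | Off a b z ∧ wp a b z = x ∧ wq a b z = q} with he | ⟨w, hw⟩
  · rw [he]
    exact Set.countable_empty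
  · refine (Set.countable_range fun l : ℤ × ℤ => w + lat a b l).mono ?_
    intro z hz
    obtain ⟨l, hl⟩ := exists_lat_of_eq h hz.1 hw.1 (hz.2.1.trans hw.2.1.symm)
      (hz.2.2.trans hw.2.2.symm)
    exact ⟨l, hl.symm⟩

private theorem MulRel_sqfin (v : ℂ) : {q : ℂ | q ^ 2 = v}.Finite := by
  refine ((nthRoots 2 v).toFinset.finite_toSet).subset ?_
  intro q hq
  simp only [Finset.mem_coe, Multiset.mem_toFinset]
  exact (mem_nthRoots two_pos).mpr hq

private theorem MulRel_fib1 (h : Ind a b) (x : ℂ) : {z | Off a b z ∧ wp a b z = x}.Countable := by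
  have hf := MulRel_sqfin (4 * x ^ 3 - G2 a b * x - G3 a b)
  refine (hf.countable.biUnion (t := fun q _ => {z | Off a b z ∧ wp a b z = x ∧ wq a b z = q})
    fun q _ => MulRel_fib h x q).mono ?_
  intro z hz
  simp only [Set.mem_iUnion]
  refine ⟨wq a b z, ?_, hz.1, hz.2, rfl⟩
  have := ode h hz.1
  rw [hz.2] at this
  exact this

/-- good points -/
private theorem MulRel_point (h : Ind a b) (a' b' : ℂ) {ξ : ℂ} (c : ℂ) (hξ : ξ ≠ 0) {s : ℂ[X]}
    (hs : s ≠ 0) : ∃ z, Off a b z ∧ s.eval (wp a b z) ≠ 0 ∧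
      ∀ l : ℤ × ℤ, Off a' b' (ξ * (z + lat a b l) + c) := by
  have h1 : (Set.range fun x : ℤ × ℤ => lat a b x).Countable := Set.countable_range _
  have h2 : (⋃ x ∈ ((s.roots.toFinset : Finset ℂ) : Set ℂ),
      {z | Off a b z ∧ wp a b z = x}).Countable :=
    ((Finset.finite_toSet _).countable).biUnion fun x _ => MulRel_fib1 h x
  have h3 : (Set.range fun x : (ℤ × ℤ) × (ℤ × ℤ) => (lat a' b' x.1 - c) / ξ - lat a b x.2).Countable :=
    Set.countable_range _
  obtain ⟨z, hz⟩ := (((h1.union h2).union h3).dense_compl ℝ).nonempty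
  simp only [Set.mem_compl_iff, Set.mem_union, not_or] at hz
  obtain ⟨⟨z1, z2⟩, z3⟩ := hz
  have hoff : Off a b z := fun x hx => z1 ⟨x, hx.symm⟩
  refine ⟨z, hoff, ?_, ?_⟩
  · intro h0
    apply z2
    simp only [Set.mem_iUnion]
    refine ⟨wp a b z, ?_, hoff, rfl⟩
    simp only [Finset.mem_coe, Multiset.mem_toFinset]
    exact (mem_roots hs).mpr h0
  · intro l x hx
    apply z3
    refine ⟨(x, l), ?_⟩
    simp only
    rw [← hx, add_sub_cancel_right, mul_div_cancel_left₀ _ hξ]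
    ring

theorem comm_of_rel (h : Ind a b) (h' : Ind a' b') {ξ c : ℂ} (hξ : ξ ≠ 0) {S : ℂ[X][Y]}
    (hS0 : S ≠ 0) (hS : ∀ z, Off a b z → Off a' b' (ξ * z + c) →
      S.evalEval (wp a b z) (wp a' b' (ξ * z + c)) = 0) : Comm a b a' b' ξ := by
  have hlc : S.leadingCoeff ≠ 0 := leadingCoeff_ne_zero.mpr hS0
  obtain ⟨z, hz, hzs, hoff⟩ := MulRel_point h a' b' c hξ hlc
  set T : ℂ[X] := S.map (evalRingHom (wp a b z)) with hT
  have hT0 : T ≠ 0 := by
    intro h0
    have h1 : T.coeff S.natDegree = 0 := by rw [h0, coeff_zero]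
    rw [hT, coeff_map, coeff_natDegree] at h1
    exact hzs h1
  have hTe : ∀ y, S.evalEval (wp a b z) y = T.eval y := by
    intro y
    rw [MulRel_evalEval, hT, eval_map, eval₂_eq_sum_range]
    rfl
  -- one period
  have key : ∀ l : ℤ × ℤ, ∃ n : ℕ, 0 < n ∧ ∃ y : ℤ × ℤ, (n : ℂ) * (ξ * lat a b l) = lat a' b' y := by
    intro l
    let w : ℕ → ℂ := fun k => ξ * (z + lat a b ((k : ℤ) * l.1, (k : ℤ) * l.2)) + c
    have hw : ∀ k, w k = ξ * z + c + (k : ℂ) * (ξ * lat a b l) := by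
      intro k
      simp only [w, lat]
      push_cast
      ring
    have hwo : ∀ k, Off a' b' (w k) := fun k => hoff _
    have hroot : ∀ k, T.eval (wp a' b' (w k)) = 0 := by
      intro k
      have h1 := hS (z + lat a b ((k : ℤ) * l.1, (k : ℤ) * l.2)) ((off_add_lat _).mpr hz) (hoff _)
      rw [wp_add_lat h, hTe] at h1
      exact h1
    have hfin : (⋃ y ∈ ((T.roots.toFinset : Finset ℂ) : Set ℂ),
        (fun q => ((y, q) : ℂ × ℂ)) '' {q : ℂ | q ^ 2 = 4 * y ^ 3 - G2 a' b' * y - G3 a' b'}).Finite :=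
      (Finset.finite_toSet _).biUnion fun y _ => (MulRel_sqfin _).image _
    have hmaps : Set.MapsTo (fun k : ℕ => (wp a' b' (w k), wq a' b' (w k))) Set.univ
        (⋃ y ∈ ((T.roots.toFinset : Finset ℂ) : Set ℂ),
        (fun q => ((y, q) : ℂ × ℂ)) '' {q : ℂ | q ^ 2 = 4 * y ^ 3 - G2 a' b' * y - G3 a' b'}) := by
      intro k _
      simp only [Set.mem_iUnion]
      refine ⟨wp a' b' (w k), ?_, wq a' b' (w k), ?_, rfl⟩
      · simp only [Finset.mem_coe, Multiset.mem_toFinset]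
        exact (mem_roots hT0).mpr (hroot k)
      · exact ode h' (hwo k)
    obtain ⟨j, -, k, -, hjk, heq⟩ :=
      Set.Infinite.exists_ne_map_eq_of_mapsTo Set.infinite_univ hmaps hfin
    simp only [Prod.mk.injEq] at heq
    obtain ⟨x, hx⟩ := exists_lat_of_eq h' (hwo j) (hwo k) heq.1 heq.2
    rw [hw, hw] at hx
    rcases lt_or_gt_of_ne hjk with hlt | hlt
    · refine ⟨k - j, by omega, (-x.1, -x.2), ?_⟩
      rw [Nat.cast_sub hlt.le]
      simp only [lat] at hx ⊢
      push_cast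
      linear_combination -hx
    · refine ⟨j - k, by omega, x, ?_⟩
      rw [Nat.cast_sub hlt.le]
      simp only [lat] at hx ⊢
      linear_combination hx
  obtain ⟨n1, hn1, y1, hy1⟩ := key (1, 0)
  obtain ⟨n2, hn2, y2, hy2⟩ := key (0, 1)
  refine ⟨n1 * n2, Nat.mul_pos hn1 hn2, fun x =>
    ⟨((n2 : ℤ) * x.1 * y1.1 + (n1 : ℤ) * x.2 * y2.1, (n2 : ℤ) * x.1 * y1.2 + (n1 : ℤ) * x.2 * y2.2), ?_⟩⟩
  simp only [lat] at hy1 hy2 ⊢
  push_cast at hy1 hy2 ⊢
  linear_combination ((n2 : ℂ) * x.1) * hy1 + ((n1 : ℂ) * x.2) * hy2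

/-- an algebraic relation near one point gives commensurable lattices -/
theorem comm_of_local (h : Ind a b) (h' : Ind a' b') {ξ c : ℂ} (hξ : ξ ≠ 0) {P : ℂ[X][Y]}
    (hP : P ≠ 0) {z₀ : ℂ} (hz : Off a b z₀) (h0 : wp a b z₀ ≠ 0) (hz' : Off a' b' (ξ * z₀ + c))
    (h0' : wp a' b' (ξ * z₀ + c) ≠ 0)
    (hS : ∀ᶠ z in 𝓝 z₀, P.evalEval (iu a b z) (iu a' b' (ξ * z + c)) = 0) :
    Comm a b a' b' ξ := by
  obtain ⟨S, m, n, hS0, hrev⟩ := exists_rev hP
  refine comm_of_rel h h' hξ hS0 (global h h' hξ hz hz' ?_)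
  have c1 : ∀ᶠ z in 𝓝 z₀, wp a b z ≠ 0 := (MulRel_analytic h hz).continuousAt.eventually_ne h0
  have c2 : ∀ᶠ z in 𝓝 z₀, wp a' b' (ξ * z + c) ≠ 0 :=
    (MulRel_analytic' h' hz').continuousAt.eventually_ne h0'
  filter_upwards [hS, c1, c2] with z e1 e2 e3
  rw [hrev _ _ e2 e3]
  have e4 : P.evalEval (wp a b z)⁻¹ (wp a' b' (ξ * z + c))⁻¹ = 0 := e1
  rw [e4, mul_zero]

end Pool.Agent.LGO.Mul
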