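import Mathlib
import Pool.Agent.LGO.A.MulBasic
import Pool.Agent.LGO.A.MulElim
import Pool.Agent.LGO.A.MulIu
import Pool.Agent.LGO.A.MulRel

/-!
# LGO (A): the case `P ∣ Q`

* `local_zero`: if `φ` is not identically `0` near `z₀`, its order `n` at `z₀` is finite, `n ≥ 1`
  since `φ(z₀) = 0`, and `φ'` has order `n - 1` (`AnalyticAt.analyticOrderAt_deriv_add_one`); `ψ` has
  order `0`, so `φ' ψ` has order `n - 1`, but `T φ` has order `≥ n`, contradiction.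
* `bad`: let `H = P_X · f₁(X) · Y` (i.e. `pX P * C (ff ..) * Y`).  `P` is prime and divides none of
  the factors (`not_dvd_pX`, `not_dvd_C` with `ff ≠ 0`, `not_dvd_map` with `Y = X.map C`), so by
  `exists_point` there are `x`, `y` with `P(x, y) = 0`, `P_X(x, y) ≠ 0`, `f₁(x) ≠ 0` (so `x ≠ 0`),
  `y ≠ 0`.  By `exists_iu_eq` choose `z₀` with `u₁(z₀) = x` and `z₁` with `u₂(z₁) = y`.
  For `s = ± 1` put `c = s z₁ - ξ z₀`, `F = u₁`, `G(z) = u₂(ξ z + c)`, `φ = P(F, G)`,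
  `ψ = P_X F' - P_Y G'`.  Near `z₀`: `φ' ψ = P_X² F'² - P_Y² G'² = Q(F, G) = T(F, G) φ`, where
  `Q = P T` (`hasDerivAt_eval`, `hasDerivAt_iu`, `sq_deriv`, `evalEval_QQ`; the conditions `Off`,
  `wp ≠ 0` hold near `z₀`).  At `z₀`: `φ' + ψ = 2 P_X F' ≠ 0` (`F'(z₀)² = f₁(x) ≠ 0`).  Changing the
  sign `s` changes the sign of `G'(z₀)` (`u₂` is even: `iu_neg`, `wq_neg`) and nothing else at
  `z₀`, so it exchanges `φ'(z₀)` and `ψ(z₀)`: for one of the signs `ψ(z₀) ≠ 0`.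
  `local_zero` gives `φ = 0` near `z₀`, and `comm_of_local` gives the claim.
-/

namespace Pool.Agent.LGO.Mul

open Polynomial Pool.Agent.EllSch Filter Topology
open scoped Polynomial.Bivariate

variable {a b a' b' : ℂ}

theorem local_zero {φ ψ T : ℂ → ℂ} {z₀ : ℂ} (hφ : AnalyticAt ℂ φ z₀) (hψ : AnalyticAt ℂ ψ z₀)
    (hT : AnalyticAt ℂ T z₀) (h0 : φ z₀ = 0) (h1 : ψ z₀ ≠ 0)
    (he : ∀ᶠ z in 𝓝 z₀, deriv φ z * ψ z = T z * φ z) : ∀ᶠ z in 𝓝 z₀, φ z = 0 := by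
  rw [← analyticOrderAt_eq_top]
  by_contra hcon
  have e1 : analyticOrderAt (deriv φ) z₀ + 1 = analyticOrderAt φ z₀ := by
    have := hφ.analyticOrderAt_deriv_add_one
    rw [this]
    congr 1
    funext z
    rw [h0, sub_zero]
  have e2 : analyticOrderAt (deriv φ * ψ) z₀ = analyticOrderAt (T * φ) z₀ :=
    analyticOrderAt_congr he
  rw [analyticOrderAt_mul hφ.deriv hψ, analyticOrderAt_mul hT hφ,
    hψ.analyticOrderAt_eq_zero.2 h1, add_zero, ← e1] at e2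
  have e3 : analyticOrderAt (deriv φ) z₀ ≠ ⊤ := by
    intro h
    rw [h, top_add] at e1
    exact hcon e1.symm
  obtain ⟨n, hn⟩ := ENat.ne_top_iff_exists.1 e3
  rw [← hn] at e2
  have e4 : ((n + 1 : ℕ) : ℕ∞) ≤ (n : ℕ∞) := by
    calc ((n + 1 : ℕ) : ℕ∞) = (n : ℕ∞) + 1 := by push_cast; rfl
      _ ≤ analyticOrderAt T z₀ + ((n : ℕ∞) + 1) := le_add_self
      _ = (n : ℕ∞) := e2.symm
  have e5 : n + 1 ≤ n := by exact_mod_cast e4
  omega

/-- the claim for one choice of the point over `y` -/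
private lemma MulBad_one (h : Ind a b) (h' : Ind a' b') {ξ : ℂ} (hξ : ξ ≠ 0) {P : ℂ[X][Y]}
    (hP : P ≠ 0) (hQ : P ∣ QQ (G2 a b) (G3 a b) (G2 a' b') (G3 a' b') ξ P) {z₀ w : ℂ}
    (hz : Off a b z₀) (hz0 : wp a b z₀ ≠ 0) (hw : Off a' b' w) (hw0 : wp a' b' w ≠ 0)
    (h0 : P.evalEval (iu a b z₀) (iu a' b' w) = 0)
    (h1 : (pX P).evalEval (iu a b z₀) (iu a' b' w) * (-wq a b z₀ / wp a b z₀ ^ 2) -
      (pY P).evalEval (iu a b z₀) (iu a' b' w) * (ξ * (-wq a' b' w / wp a' b' w ^ 2)) ≠ 0) :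
    Comm a b a' b' ξ := by
  obtain ⟨c, hc⟩ : ∃ c, ξ * z₀ + c = w := ⟨w - ξ * z₀, by ring⟩
  subst hc
  obtain ⟨T, hT⟩ := hQ
  have ev1 : ∀ᶠ z in 𝓝 z₀, Off a b z := (isOpen_off h).eventually_mem hz
  have ev2 : ∀ᶠ z in 𝓝 z₀, wp a b z ≠ 0 := (hasDerivAt_wp h hz).continuousAt.eventually_ne hz0
  have hlin : ContinuousAt (fun z : ℂ => ξ * z + c) z₀ := by fun_prop
  have ev3 : ∀ᶠ z in 𝓝 z₀, Off a' b' (ξ * z + c) :=
    hlin.eventually ((isOpen_off h').eventually_mem hw)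
  have ev4 : ∀ᶠ z in 𝓝 z₀, wp a' b' (ξ * z + c) ≠ 0 :=
    hlin.eventually ((hasDerivAt_wp h' hw).continuousAt.eventually_ne hw0)
  have dl : ∀ z : ℂ, HasDerivAt (fun z : ℂ => ξ * z + c) ξ z := by
    intro z
    have := ((hasDerivAt_id z).const_mul ξ).add_const c
    rwa [mul_one] at this
  have dG : ∀ z, Off a' b' (ξ * z + c) → wp a' b' (ξ * z + c) ≠ 0 →
      HasDerivAt (fun z => iu a' b' (ξ * z + c))
        (ξ * (-wq a' b' (ξ * z + c) / wp a' b' (ξ * z + c) ^ 2)) z := by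
    intro z g1 g2
    have := (hasDerivAt_iu h' g1 g2).comp z (dl z)
    rw [mul_comm] at this
    exact this
  have aF : AnalyticAt ℂ (iu a b) z₀ := analyticAt_iu h hz hz0
  have aG : AnalyticAt ℂ (fun z => iu a' b' (ξ * z + c)) z₀ := by
    have g1 : AnalyticAt ℂ (fun z : ℂ => ξ * z + c) z₀ := by fun_prop
    exact (analyticAt_iu h' hw hw0).comp_of_eq g1 rfl
  have aφ : AnalyticAt ℂ (fun z => P.evalEval (iu a b z) (iu a' b' (ξ * z + c))) z₀ :=
    analyticAt_eval P aF aG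
  have aT : AnalyticAt ℂ (fun z => T.evalEval (iu a b z) (iu a' b' (ξ * z + c))) z₀ :=
    analyticAt_eval T aF aG
  have aψ : AnalyticAt ℂ (fun z => (pX P).evalEval (iu a b z) (iu a' b' (ξ * z + c)) *
      deriv (iu a b) z - (pY P).evalEval (iu a b z) (iu a' b' (ξ * z + c)) *
      deriv (fun z => iu a' b' (ξ * z + c)) z) z₀ :=
    ((analyticAt_eval (pX P) aF aG).mul aF.deriv).sub
      ((analyticAt_eval (pY P) aF aG).mul aG.deriv)
  have key := local_zero aφ aψ aT h0 (by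
    rw [(hasDerivAt_iu h hz hz0).deriv, (dG z₀ hw hw0).deriv]
    exact h1) (by
    filter_upwards [ev1, ev2, ev3, ev4] with z z1 z2 z3 z4
    have k1 := hasDerivAt_iu h z1 z2
    have k2 := dG z z3 z4
    have k3 := (hasDerivAt_eval P k1 k2).deriv
    rw [k3, k1.deriv, k2.deriv]
    have k4 := evalEval_QQ (G2 a b) (G3 a b) (G2 a' b') (G3 a' b') ξ P (iu a b z)
      (iu a' b' (ξ * z + c))
    rw [hT, evalEval_mul, ← sq_deriv h z1 z2, ← sq_deriv h' z3 z4] at k4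
    linear_combination -k4)
  exact comm_of_local h h' hξ hP hz hz0 hw hw0 key

theorem bad (h : Ind a b) (h' : Ind a' b') {ξ : ℂ} (hξ : ξ ≠ 0) {P : ℂ[X][Y]}
    (hP : Irreducible P) (hX : 0 < dX P) (hY : 0 < dY P)
    (hQ : P ∣ QQ (G2 a b) (G3 a b) (G2 a' b') (G3 a' b') ξ P) : Comm a b a' b' ξ := by
  have hff : ff (G2 a b) (G3 a b) ≠ 0 := by
    intro h0
    have := congrArg (fun p : ℂ[X] => p.coeff 1) h0
    simp [ff, coeff_X_pow, coeff_C_mul, coeff_ofNat_mul] at this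
  have hH : ¬ P ∣ pX P * C (ff (G2 a b) (G3 a b)) * (X : ℂ[X]).map C := by
    intro hd
    rcases hP.prime.dvd_or_dvd hd with hd | hd
    · rcases hP.prime.dvd_or_dvd hd with hd | hd
      · exact not_dvd_pX hX hd
      · exact not_dvd_C hY hff hd
    · exact not_dvd_map hX X_ne_zero hd
  obtain ⟨x, y, hxy, hne⟩ := exists_point hP hY hH
  rw [evalEval_mul, evalEval_mul, evalEval_C, evalEval_map_C, eval_X] at hne
  have hy : y ≠ 0 := right_ne_zero_of_mul hne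
  have hf : (ff (G2 a b) (G3 a b)).eval x ≠ 0 := right_ne_zero_of_mul (left_ne_zero_of_mul hne)
  have hpx : (pX P).evalEval x y ≠ 0 := left_ne_zero_of_mul (left_ne_zero_of_mul hne)
  have hx : x ≠ 0 := by
    rintro rfl
    apply hf
    simp [ff]
  obtain ⟨z₀, hz, hz0, hzx⟩ := exists_iu_eq h hx
  obtain ⟨z₁, hw, hw0, hwy⟩ := exists_iu_eq h' hy
  have hw' : Off a' b' (-z₁) := off_neg.2 hw
  have hw0' : wp a' b' (-z₁) ≠ 0 := by rwa [wp_neg h']
  have hwy' : iu a' b' (-z₁) = y := by rw [iu_neg h', hwy]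
  have hd : -wq a b z₀ / wp a b z₀ ^ 2 ≠ 0 := by
    intro h0
    have := sq_deriv h hz hz0
    rw [h0, hzx] at this
    apply hf
    rw [← this]
    ring
  by_cases hc : (pX P).evalEval (iu a b z₀) (iu a' b' z₁) * (-wq a b z₀ / wp a b z₀ ^ 2) -
      (pY P).evalEval (iu a b z₀) (iu a' b' z₁) * (ξ * (-wq a' b' z₁ / wp a' b' z₁ ^ 2)) = 0
  · apply MulBad_one h h' hξ hP.ne_zero hQ hz hz0 hw' hw0' (by rw [hzx, hwy']; exact hxy)
    rw [wq_neg h', wp_neg h', hzx, hwy']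
    rw [hzx, hwy] at hc
    intro h0
    have h2 : 2 * ((pX P).evalEval x y * (-wq a b z₀ / wp a b z₀ ^ 2)) = 0 := by
      linear_combination hc + h0
    exact (mul_ne_zero two_ne_zero (mul_ne_zero hpx hd)) h2
  · exact MulBad_one h h' hξ hP.ne_zero hQ hz hz0 hw hw0 (by rw [hzx, hwy]; exact hxy) hc

end Pool.Agent.LGO.Mul
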