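import Mathlib
import Pool.Agent.LGO.A.MulBasic
import Pool.Agent.LGO.A.MulElim

/-!
# LGO (A): the order of vanishing at `0`, abstract version

`F`, `G` analytic at `0`, of order `2` at `0`, `F'² = f₁(F)`, `G'² = ξ² f₂(G)` near `0`.

* `ord_one`: `R = X^m R₁` with `R₁(0) ≠ 0`, `m ≤ natDegree R` (e.g. `m = rootMultiplicity 0 R`), so
  `R(F(z)) = F(z)^m R₁(F(z))` has order `2 m` (or use `AnalyticAt.analyticOrderAt_comp`).
* `ord_irr`: `φ(z) = P(F(z), G(z))`; if `φ(0) ≠ 0` the order is `0`.  Otherwise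
  `ord φ' + 1 = ord φ` (`AnalyticAt.analyticOrderAt_deriv_add_one`),
  `φ' = P_X F' + P_Y G'`, and near `0`
  `(P_X F' + P_Y G') (P_X F' - P_Y G') = P_X² f₁(F) - ξ² P_Y² f₂(G) = Q(F, G)`,
  so `ord φ ≤ ord Q(F, G) + 1`.  By `elim` for `P` and `Q = QQ ..`: `A P + B Q = C R`, so
  `ord R(F) ≥ min(ord P(F, G), ord Q(F, G)) ≥ ord φ - 1`, and `ord R(F) ≤ 2 deg R` by `ord_one`;
  `deg R ≤ (dY P + 2 dY P + 4) (2 dX P + 4) ≤ 49 (dX P + dY P)²` as `dX P + dY P ≥ 1`
  (`dY P ≥ 1`).  So `ord φ ≤ 1 + 98 (dX P + dY P)² ≤ 99 (dX P + dY P)²`.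
-/

namespace Pool.Agent.LGO.Mul

open Polynomial Filter Topology
open scoped Polynomial.Bivariate

theorem MulOrd_analyticAt (q : ℂ[X]) {F : ℂ → ℂ} (hF : AnalyticAt ℂ F 0) :
    AnalyticAt ℂ (fun z => q.eval (F z)) 0 := by
  induction q using Polynomial.induction_on' with
  | add p q hp hq =>
    simp only [eval_add]
    exact hp.add hq
  | monomial n a =>
    simp only [eval_monomial]
    exact analyticAt_const.mul (hF.pow n)

theorem ord_one {F : ℂ → ℂ} (hF : AnalyticAt ℂ F 0) (h2 : analyticOrderAt F 0 = 2) {R : ℂ[X]}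
    (hR : R ≠ 0) : analyticOrderAt (fun z => R.eval (F z)) 0 ≤ ((2 * R.natDegree : ℕ) : ℕ∞) := by
  have h0 : F 0 = 0 := by
    apply apply_eq_zero_of_analyticOrderAt_ne_zero (𝕜 := ℂ)
    rw [h2]
    exact two_ne_zero
  obtain ⟨q, hq, hnd⟩ := R.exists_eq_pow_rootMultiplicity_mul_and_not_dvd hR 0
  generalize R.rootMultiplicity 0 = m at hq
  rw [C_0, sub_zero] at hq hnd
  have hq0 : q ≠ 0 := by
    rintro rfl
    exact hnd (dvd_zero _)
  have hm : m ≤ R.natDegree := by
    rw [hq, natDegree_mul (pow_ne_zero _ X_ne_zero) hq0, natDegree_X_pow]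
    exact Nat.le_add_right _ _
  have hqe : q.eval 0 ≠ 0 := by
    intro h
    exact hnd (X_dvd_iff.2 (by rwa [coeff_zero_eq_eval_zero]))
  have hqF : AnalyticAt ℂ (fun z => q.eval (F z)) 0 := MulOrd_analyticAt q hF
  have e : (fun z => R.eval (F z)) = F ^ m * fun z => q.eval (F z) := by
    funext z
    rw [hq, eval_mul, eval_pow, eval_X]
    rfl
  have hz : analyticOrderAt (fun z => q.eval (F z)) 0 = 0 :=
    hqF.analyticOrderAt_eq_zero.2 (by rwa [h0])
  rw [e, analyticOrderAt_mul (hF.pow m) hqF, analyticOrderAt_pow hF, h2, hz, add_zero,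
    nsmul_eq_mul]
  have h3 : m * 2 ≤ 2 * R.natDegree := by omega
  exact_mod_cast h3

/-- `ord φ ≤ ord Q(F, G) + 1` -/
theorem MulOrd_step {F G : ℂ → ℂ} {g2 g3 h2 h3 ξ : ℂ} (hF : AnalyticAt ℂ F 0)
    (hG : AnalyticAt ℂ G 0)
    (eF : ∀ᶠ z in 𝓝 (0 : ℂ), deriv F z ^ 2 = (ff g2 g3).eval (F z))
    (eG : ∀ᶠ z in 𝓝 (0 : ℂ), deriv G z ^ 2 = ξ ^ 2 * (ff h2 h3).eval (G z)) (P : ℂ[X][Y]) :
    analyticOrderAt (fun z => P.evalEval (F z) (G z)) 0 ≤
      analyticOrderAt (fun z => (QQ g2 g3 h2 h3 ξ P).evalEval (F z) (G z)) 0 + 1 := by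
  have hφ : AnalyticAt ℂ (fun z => P.evalEval (F z) (G z)) 0 := analyticAt_eval P hF hG
  by_cases h0 : P.evalEval (F 0) (G 0) = 0
  · have h1 := hφ.analyticOrderAt_deriv_add_one
    have h4 : (fun z => P.evalEval (F z) (G z) - P.evalEval (F 0) (G 0)) =
        fun z => P.evalEval (F z) (G z) := by
      funext z
      rw [h0, sub_zero]
    rw [h4] at h1
    rw [← h1]
    have hX : AnalyticAt ℂ (fun z => (pX P).evalEval (F z) (G z)) 0 := analyticAt_eval _ hF hG
    have hY : AnalyticAt ℂ (fun z => (pY P).evalEval (F z) (G z)) 0 := analyticAt_eval _ hF hG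
    have hχ : AnalyticAt ℂ (fun z => (pX P).evalEval (F z) (G z) * deriv F z -
        (pY P).evalEval (F z) (G z) * deriv G z) 0 :=
      (hX.mul hF.deriv).sub (hY.mul hG.deriv)
    have hev : (fun z => (QQ g2 g3 h2 h3 ξ P).evalEval (F z) (G z)) =ᶠ[𝓝 0]
        (deriv (fun z => P.evalEval (F z) (G z)) *
          fun z => (pX P).evalEval (F z) (G z) * deriv F z -
            (pY P).evalEval (F z) (G z) * deriv G z) := by
      filter_upwards [eF, eG, hF.eventually_analyticAt, hG.eventually_analyticAt]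
        with z e1 e2 a1 a2
      have hd := (hasDerivAt_eval P a1.differentiableAt.hasDerivAt
        a2.differentiableAt.hasDerivAt).deriv
      rw [evalEval_QQ, Pi.mul_apply, hd, ← e1]
      linear_combination ((pY P).evalEval (F z) (G z)) ^ 2 * e2
    rw [analyticOrderAt_congr hev, analyticOrderAt_mul hφ.deriv hχ]
    exact add_le_add_left le_self_add 1
  · have h1 : analyticOrderAt (fun z => P.evalEval (F z) (G z)) 0 = 0 :=
      hφ.analyticOrderAt_eq_zero.2 h0
    rw [h1]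
    exact zero_le

theorem ord_irr {F G : ℂ → ℂ} {g2 g3 h2 h3 ξ : ℂ} (hF : AnalyticAt ℂ F 0) (hG : AnalyticAt ℂ G 0)
    (oF : analyticOrderAt F 0 = 2)
    (eF : ∀ᶠ z in 𝓝 (0 : ℂ), deriv F z ^ 2 = (ff g2 g3).eval (F z))
    (eG : ∀ᶠ z in 𝓝 (0 : ℂ), deriv G z ^ 2 = ξ ^ 2 * (ff h2 h3).eval (G z))
    {P : ℂ[X][Y]} (hP : Irreducible P) (hd : 0 < dY P) (hQ : ¬ P ∣ QQ g2 g3 h2 h3 ξ P) :
    analyticOrderAt (fun z => P.evalEval (F z) (G z)) 0 ≤ ((99 * (dX P + dY P) ^ 2 : ℕ) : ℕ∞) := by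
  obtain ⟨A, B, R, hR, hAB, hdeg⟩ := elim hP hd hQ (dX P) (2 * dX P + 4)
    (natDegree_coeff_le P)
    (fun k => (natDegree_coeff_le _ k).trans (dX_QQ_le g2 g3 h2 h3 ξ P))
  have hstep := MulOrd_step hF hG eF eG P
  have hφ : AnalyticAt ℂ (fun z => P.evalEval (F z) (G z)) 0 := analyticAt_eval P hF hG
  have hψ : AnalyticAt ℂ (fun z => (QQ g2 g3 h2 h3 ξ P).evalEval (F z) (G z)) 0 :=
    analyticAt_eval _ hF hG
  have hA : AnalyticAt ℂ (fun z => A.evalEval (F z) (G z)) 0 := analyticAt_eval A hF hG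
  have hB : AnalyticAt ℂ (fun z => B.evalEval (F z) (G z)) 0 := analyticAt_eval B hF hG
  have hone := ord_one hF oF hR
  have e : (fun z => R.eval (F z)) = ((fun z => A.evalEval (F z) (G z)) *
      fun z => P.evalEval (F z) (G z)) + ((fun z => B.evalEval (F z) (G z)) *
      fun z => (QQ g2 g3 h2 h3 ξ P).evalEval (F z) (G z)) := by
    funext z
    have h5 := congrArg (fun S : ℂ[X][Y] => S.evalEval (F z) (G z)) hAB
    simp only [evalEval_add, evalEval_mul, evalEval_C] at h5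
    rw [← h5]
    rfl
  rw [e] at hone
  have hmin := (le_analyticOrderAt_add (f := (fun z => A.evalEval (F z) (G z)) *
      fun z => P.evalEval (F z) (G z)) (g := (fun z => B.evalEval (F z) (G z)) *
      fun z => (QQ g2 g3 h2 h3 ξ P).evalEval (F z) (G z)) (z₀ := 0)).trans hone
  rw [analyticOrderAt_mul hA hφ, analyticOrderAt_mul hB hψ] at hmin
  have hfin : analyticOrderAt (fun z => P.evalEval (F z) (G z)) 0 ≤
      ((2 * R.natDegree + 1 : ℕ) : ℕ∞) := by
    rw [min_le_iff] at hmin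
    rcases hmin with h6 | h6
    · refine (le_add_self.trans h6).trans ?_
      exact_mod_cast Nat.le_succ _
    · have h7 := (le_add_self.trans h6)
      refine hstep.trans ?_
      push_cast
      push_cast at h7
      exact add_le_add_left h7 1
  refine hfin.trans ?_
  have hY := dY_QQ_le g2 g3 h2 h3 ξ P
  have hmax : max (dX P) (2 * dX P + 4) = 2 * dX P + 4 := max_eq_right (by omega)
  rw [hmax] at hdeg
  have h8 : R.natDegree ≤ (dY P + (2 * dY P + 4)) * (2 * dX P + 4) := by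
    refine hdeg.trans (Nat.mul_le_mul_right _ ?_)
    exact add_le_add_right hY _
  have h9 : 2 * R.natDegree + 1 ≤ 99 * (dX P + dY P) ^ 2 := by
    generalize dX P = x at h8
    generalize dY P = y at h8 hd
    have : (y + (2 * y + 4)) * (2 * x + 4) ≤ 49 * (x + y) ^ 2 := by
      obtain ⟨w, rfl⟩ : ∃ w, y = w + 1 := ⟨y - 1, by omega⟩
      nlinarith [mul_nonneg (Nat.zero_le x) (Nat.zero_le w), sq_nonneg x, sq_nonneg w]
    have h10 : 1 ≤ (x + y) ^ 2 := Nat.one_le_pow _ _ (by omega)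
    omega
  exact_mod_cast h9

/-- the induction over the irreducible factors: `ord` is additive, `dX`, `dY` are additive,
`p² + q² ≤ (p + q)²`; units are nonzero constants (order `0`) -/
theorem ord_of_irr {F G : ℂ → ℂ} (hF : AnalyticAt ℂ F 0) (hG : AnalyticAt ℂ G 0)
    (h : ∀ P : ℂ[X][Y], Irreducible P →
      analyticOrderAt (fun z => P.evalEval (F z) (G z)) 0 ≤ ((99 * (dX P + dY P) ^ 2 : ℕ) : ℕ∞))
    {P : ℂ[X][Y]} (hP : P ≠ 0) :
    analyticOrderAt (fun z => P.evalEval (F z) (G z)) 0 ≤ ((99 * (dX P + dY P) ^ 2 : ℕ) : ℕ∞) := by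
  revert hP
  induction P using WfDvdMonoid.induction_on_irreducible with
  | zero => exact fun h0 => absurd rfl h0
  | unit u hu =>
    intro _
    have h1 : analyticOrderAt (fun z => u.evalEval (F z) (G z)) 0 = 0 := by
      rw [(analyticAt_eval u hF hG).analyticOrderAt_eq_zero]
      obtain ⟨v, hv⟩ := hu.exists_right_inv
      intro h2
      have h3 := congrArg (fun S : ℂ[X][Y] => S.evalEval (F 0) (G 0)) hv
      simp only [evalEval_mul] at h3
      rw [h2, zero_mul] at h3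
      have h4 : (1 : ℂ[X][Y]).evalEval (F 0) (G 0) = 1 := by simp [evalEval]
      rw [h4] at h3
      exact zero_ne_one h3
    rw [h1]
    exact zero_le
  | mul a i ha hi ih =>
    intro _
    have e : (fun z => (i * a).evalEval (F z) (G z)) =
        (fun z => i.evalEval (F z) (G z)) * fun z => a.evalEval (F z) (G z) := by
      funext z
      rw [evalEval_mul]
      rfl
    rw [e, analyticOrderAt_mul (analyticAt_eval i hF hG) (analyticAt_eval a hF hG),
      dX_mul hi.ne_zero ha, dY_mul hi.ne_zero ha]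
    refine (add_le_add (h i hi) (ih ha)).trans ?_
    have h5 : 99 * (dX i + dY i) ^ 2 + 99 * (dX a + dY a) ^ 2 ≤
        99 * (dX i + dX a + (dY i + dY a)) ^ 2 := by
      nlinarith [mul_nonneg (Nat.zero_le (dX i + dY i)) (Nat.zero_le (dX a + dY a))]
    exact_mod_cast h5

end Pool.Agent.LGO.Mul
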