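import Mathlib
import Pool.Agent.LGO.A.MulOrd
import Pool.Agent.LGO.A.MulBad

/-!
# LGO (A): the multiplicity estimate

* `mult`: by `ord_of_irr` with `F = u₁`, `G(z) = u₂(ξ z)` (analytic at `0`, order `2`:
  `analyticOrderAt_comp_of_deriv_ne_zero` or directly; `G'(z) = ξ u₂'(ξ z)`), it is enough to treat
  an irreducible `P`.  If `dY P = 0`: `P = C p`, `P(F, G) = p(F)`, order `≤ 2 deg p` by `ord_one`,
  `deg p = dX P ≥ 1`.  If `dX P = 0`: `P = p.map C`, `P(F, G) = p(G)`, `ord_one` for `G`,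
  `deg p = dY P`.  Otherwise `P ∤ QQ` by `bad`, and `ord_irr` applies.
* `mult_sum`: `P = ∑ i j, C (C (p i j)) * C X ^ i * Y ^ j ≠ 0`, `dX P, dY P ≤ L`.
* `not_comm`: if `n ξ w = m₁ w + m₂ w τ` and `n ξ w τ = m₃ w + m₄ w τ`, then
  `(m₁ + m₂ τ) τ = m₃ + m₄ τ`, so `m₂ = 0` (`NonCM`), and `ξ = m₁ / n` is rational.
-/

namespace Pool.Agent.LGO.Mul

open Polynomial Pool.Agent.EllSch Filter Topology
open scoped Polynomial.Bivariate

variable {a b a' b' : ℂ}

private theorem mulFin_le {n d : ℕ} (h : n ≤ d) (e : ℕ) : 2 * n ≤ 99 * (d + e) ^ 2 := by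
  rcases Nat.eq_zero_or_pos n with h0 | h0
  · subst h0; simp
  · have h1 : 1 ≤ d + e := by omega
    nlinarith

private theorem mulFin_le' {n d : ℕ} (h : n ≤ d) (e : ℕ) : 2 * n ≤ 99 * (e + d) ^ 2 := by
  rw [add_comm e d]; exact mulFin_le h e

private theorem mulFin_tendsto (ξ : ℂ) : Tendsto (fun z : ℂ => ξ * z) (𝓝 0) (𝓝 0) := by
  have h : Tendsto (fun z : ℂ => ξ * z) (𝓝 0) (𝓝 (ξ * 0)) := (continuous_const.mul continuous_id).tendsto 0
  rwa [mul_zero] at h

private theorem mulFin_lin (ξ z : ℂ) : AnalyticAt ℂ (fun z : ℂ => ξ * z) z :=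
  analyticAt_const.mul analyticAt_id

private theorem mulFin_an (h' : Ind a' b') (ξ : ℂ) :
    AnalyticAt ℂ (fun z => iu a' b' (ξ * z)) 0 := by
  have h1 : AnalyticAt ℂ (iu a' b') (ξ * 0) := by
    rw [mul_zero]; exact analyticAt_iu_zero h'
  exact h1.comp (mulFin_lin ξ 0)

private theorem mulFin_order (h' : Ind a' b') {ξ : ℂ} (hξ : ξ ≠ 0) :
    analyticOrderAt (fun z => iu a' b' (ξ * z)) 0 = 2 := by
  have hd : deriv (fun z : ℂ => ξ * z) 0 ≠ 0 := by
    have : deriv (fun z : ℂ => ξ * z) 0 = ξ := by simp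
    rw [this]; exact hξ
  have h := analyticOrderAt_comp_of_deriv_ne_zero (f := iu a' b') (mulFin_lin ξ 0) hd
  have e : (iu a' b') ∘ (fun z : ℂ => ξ * z) = fun z => iu a' b' (ξ * z) := rfl
  rw [e, mul_zero, order_iu_zero h'] at h
  exact h

private theorem mulFin_ode (h' : Ind a' b') (ξ : ℂ) : ∀ᶠ z in 𝓝 (0 : ℂ),
    deriv (fun z => iu a' b' (ξ * z)) z ^ 2 =
      ξ ^ 2 * (ff (G2 a' b') (G3 a' b')).eval (iu a' b' (ξ * z)) := by
  filter_upwards [(mulFin_tendsto ξ).eventually (ode_iu h')] with z hz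
  rw [deriv_comp_mul_left, smul_eq_mul, mul_pow, hz]

/-- **multiplicity estimate** -/
theorem mult (h : Ind a b) (h' : Ind a' b') {ξ : ℂ} (hξ : ξ ≠ 0) (hc : ¬ Comm a b a' b' ξ)
    {P : ℂ[X][Y]} (hP : P ≠ 0) :
    analyticOrderAt (fun z => P.evalEval (iu a b z) (iu a' b' (ξ * z))) 0 ≤
      ((99 * (dX P + dY P) ^ 2 : ℕ) : ℕ∞) := by
  have hF := analyticAt_iu_zero h
  have hG := mulFin_an h' ξ
  refine ord_of_irr (F := iu a b) (G := fun z => iu a' b' (ξ * z)) hF hG (fun P hP => ?_) hP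
  rcases Nat.eq_zero_or_pos (dY P) with hY | hY
  · obtain ⟨p, rfl⟩ := eq_C_of_dY_eq_zero hY
    have hp : p ≠ 0 := by
      rintro rfl
      exact hP.ne_zero (by simp)
    have h1 := ord_one hF (order_iu_zero h) hp
    have h2 : p.natDegree ≤ dX (C p) := by
      have := natDegree_coeff_le (C p) 0
      rwa [coeff_C_zero] at this
    refine le_trans ?_ (Nat.cast_le.2 (mulFin_le h2 (dY (C p))))
    refine le_trans (le_of_eq ?_) h1
    congr 1
    funext z
    rw [evalEval_C]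
  rcases Nat.eq_zero_or_pos (dX P) with hX | hX
  · obtain ⟨p, rfl⟩ := eq_map_of_dX_eq_zero hX
    have hp : p ≠ 0 := by
      rintro rfl
      exact hP.ne_zero (by simp)
    have h1 := ord_one hG (mulFin_order h' hξ) hp
    have h2 : p.natDegree ≤ dY (p.map C) := by
      unfold dY
      rw [natDegree_map_eq_of_injective C_injective]
    refine le_trans ?_ (Nat.cast_le.2 (mulFin_le' h2 (dX (p.map C))))
    refine le_trans (le_of_eq ?_) h1
    congr 1
    funext z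
    rw [evalEval_map_C]
  · exact ord_irr hF hG (order_iu_zero h) (ode_iu h) (mulFin_ode h' ξ) hP hY
      fun hd => hc (bad h h' hξ hP hX hY hd)

private noncomputable def mulFin_P (p : ℕ → ℕ → ℂ) (L : ℕ) : ℂ[X][Y] :=
  ∑ i ∈ Finset.range L, ∑ j ∈ Finset.range L, C (C (p i j) * X ^ i) * X ^ j

private theorem mulFin_coeff (p : ℕ → ℕ → ℂ) (L k : ℕ) : (mulFin_P p L).coeff k =
    ∑ i ∈ Finset.range L, ∑ j ∈ Finset.range L, if k = j then C (p i j) * X ^ i else 0 := by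
  unfold mulFin_P
  rw [finsetSum_coeff]
  refine Finset.sum_congr rfl fun i _ => ?_
  rw [finsetSum_coeff]
  refine Finset.sum_congr rfl fun j _ => ?_
  rw [coeff_C_mul_X_pow]

private theorem mulFin_deg (p : ℕ → ℕ → ℂ) (L k : ℕ) : ((mulFin_P p L).coeff k).natDegree ≤ L := by
  rw [mulFin_coeff]
  refine natDegree_sum_le_of_forall_le _ _ fun i hi => ?_
  refine natDegree_sum_le_of_forall_le _ _ fun j _ => ?_
  split_ifs
  · exact (natDegree_C_mul_X_pow_le _ _).trans (Finset.mem_range.1 hi).le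
  · simp

private theorem mulFin_dY (p : ℕ → ℕ → ℂ) (L : ℕ) : dY (mulFin_P p L) ≤ L := by
  unfold dY mulFin_P
  refine natDegree_sum_le_of_forall_le _ _ fun i _ => ?_
  refine natDegree_sum_le_of_forall_le _ _ fun j hj => ?_
  exact (natDegree_C_mul_X_pow_le _ _).trans (Finset.mem_range.1 hj).le

private theorem mulFin_ne (p : ℕ → ℕ → ℂ) (L : ℕ) (hp : ∃ i < L, ∃ j < L, p i j ≠ 0) :
    mulFin_P p L ≠ 0 := by
  obtain ⟨i, hi, j, hj, hij⟩ := hp
  intro h0
  apply hij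
  have h1 : ((mulFin_P p L).coeff j).coeff i = p i j := by
    rw [mulFin_coeff, finsetSum_coeff, Finset.sum_eq_single i]
    · rw [finsetSum_coeff, Finset.sum_eq_single j]
      · rw [if_pos rfl, coeff_C_mul_X_pow, if_pos rfl]
      · intro j' _ hne
        rw [if_neg hne.symm, coeff_zero]
      · intro hn
        exact absurd (Finset.mem_range.2 hj) hn
    · intro i' _ hne
      rw [finsetSum_coeff]
      refine Finset.sum_eq_zero fun j' _ => ?_
      split_ifs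
      · rw [coeff_C_mul_X_pow, if_neg hne.symm]
      · rw [coeff_zero]
    · intro hn
      exact absurd (Finset.mem_range.2 hi) hn
  rw [← h1, h0]
  simp

private theorem mulFin_eval (p : ℕ → ℕ → ℂ) (L : ℕ) (x y : ℂ) : (mulFin_P p L).evalEval x y =
    ∑ i ∈ Finset.range L, ∑ j ∈ Finset.range L, p i j * x ^ i * y ^ j := by
  unfold mulFin_P
  rw [evalEval_finsetSum]
  refine Finset.sum_congr rfl fun i _ => ?_
  rw [evalEval_finsetSum]
  refine Finset.sum_congr rfl fun j _ => ?_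
  rw [evalEval_mul, evalEval_C, evalEval_pow, evalEval_X]
  simp

/-- **multiplicity estimate**, for a double sum -/
theorem mult_sum (h : Ind a b) (h' : Ind a' b') {ξ : ℂ} (hξ : ξ ≠ 0) (hc : ¬ Comm a b a' b' ξ)
    (p : ℕ → ℕ → ℂ) (L : ℕ) (hp : ∃ i < L, ∃ j < L, p i j ≠ 0) :
    analyticOrderAt (fun z => ∑ i ∈ Finset.range L, ∑ j ∈ Finset.range L,
      p i j * iu a b z ^ i * iu a' b' (ξ * z) ^ j) 0 ≤ ((400 * L ^ 2 : ℕ) : ℕ∞) := by
  have h1 := mult h h' hξ hc (mulFin_ne p L hp)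
  have h2 : dX (mulFin_P p L) ≤ L := dX_le_of_coeff _ _ fun k => mulFin_deg p L k
  have h3 := mulFin_dY p L
  have h4 : 99 * (dX (mulFin_P p L) + dY (mulFin_P p L)) ^ 2 ≤ 400 * L ^ 2 := by
    have h5 : dX (mulFin_P p L) + dY (mulFin_P p L) ≤ 2 * L := by omega
    calc 99 * (dX (mulFin_P p L) + dY (mulFin_P p L)) ^ 2 ≤ 99 * (2 * L) ^ 2 := by gcongr
      _ ≤ 400 * L ^ 2 := by nlinarith
  refine le_trans (le_of_eq ?_) (h1.trans (Nat.cast_le.2 h4))
  congr 1
  funext z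
  rw [mulFin_eval]

end Pool.Agent.LGO.Mul
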