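import Mathlib
import Pool.Agent.LGO.A.MulIu
import Pool.Agent.LGO.A.MulBasic
import Pool.Agent.LGO.A.MulRel

/-!
# LGO (A): the index bound from an algebraic relation (end of the engines 1 and 3)

* `idx_abs`: the point `t` is generic: `2 t + γ ∉ Λ'` for all `γ ∈ Γ`.  For `γ ∈ Γ` the point
  `t + γ` is off `Λ'` (otherwise `2 t + 2 γ ∈ Λ'`), and `u(t + γ) = u(t + γ')` gives
  `℘(t + γ) = ℘(t + γ')` (inverses are injective), so `℘'` agrees up to sign (`EllSch.ode`), so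
  `t + γ ≡ ± (t + γ')` modulo `Λ'` (`EllSch.exists_lat_of_eq`, `wp_neg`, `wq_neg`; see
  `EllSch.exists_of_wp_eq` in `EllSch/Hom.lean`); the sign `-` is excluded by genericity, so
  `γ - γ' ∈ Λ'`.  Hence the image `A` of `Γ` in `ℂ / Λ'` (quotient by the `AddSubgroup` of all
  `lat a' b' x`) injects into the set of roots of `p`, so `A` is a finite group with
  `n := Nat.card A ≤ natDegree p` elements, and `n` kills `A` (`Nat.card`-version of Lagrange,
  `card_nsmul_eq_zero'`), i.e. `n γ ∈ Λ'` for all `γ ∈ Γ`.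
* `idx_of_local`: by `exists_rev` and `global`, `S(℘₁(z), ℘₂(ξ z + c)) = 0` for all `z` with
  `Off a b z`, `Off a' b' (ξ z + c)`.  Choose `z` outside a countable set such that `Off a b z`,
  `℘₁(z) ≠ 0`, `P(u₁(z), Y) ≠ 0` in `ℂ[Y]` (finitely many values of `u₁(z)` are excluded, each is
  taken on a countable set), `℘₂(ξ z + c + ξ ω) ≠ 0` for all `ω ∈ Λ₁` and
  `2 (ξ z + c) + ξ ω ∉ Λ₂` for all `ω ∈ Λ₁`.  Then `P(u₁(z), u₂(ξ z + c + ξ ω)) = 0` (use
  `z + ω` instead of `z`, and divide by the powers of `℘₁(z)`, `℘₂(ξ z + c + ξ ω)`), and `idx_abs`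
  applies with `Γ = ξ Λ₁`, `t = ξ z + c`, `p(Y) = P(u₁(z), Y)` (`natDegree p ≤ dY P`).
-/

namespace Pool.Agent.LGO.Mul

open Polynomial Pool.Agent.EllSch Filter Topology
open scoped Polynomial.Bivariate

variable {a b a' b' : ℂ}

theorem MulIdx_wp {a b : ℂ} (h : Ind a b) {u v : ℂ} (hu : Off a b u) (hv : Off a b v)
    (huv : Off a b (u + v)) (he : wp a b u = wp a b v) : ∃ x, u = v + lat a b x := by
  have h1 := ode h hu
  have h2 := ode h hv
  have h3 : (wq a b u - wq a b v) * (wq a b u + wq a b v) = 0 := by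
    rw [he] at h1
    linear_combination h1 - h2
  rcases mul_eq_zero.1 h3 with h4 | h4
  · exact exists_lat_of_eq h hu hv he (sub_eq_zero.1 h4)
  · exfalso
    have hv' : Off a b (-v) := off_neg.2 hv
    obtain ⟨x, hx⟩ := exists_lat_of_eq h hu hv' (by rw [wp_neg h]; exact he)
      (by rw [wq_neg h]; linear_combination h4)
    apply huv x
    rw [hx]
    ring

/-- the lattice as a subgroup -/
def MulIdx_L (a b : ℂ) : AddSubgroup ℂ where
  carrier := Set.range (lat a b)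
  add_mem' := by
    rintro _ _ ⟨x, rfl⟩ ⟨y, rfl⟩
    exact ⟨x + y, lat_add a b x y⟩
  zero_mem' := ⟨0, lat_zero a b⟩
  neg_mem' := by
    rintro _ ⟨x, rfl⟩
    exact ⟨-x, lat_neg a b x⟩

theorem idx_abs (h' : Ind a' b') (Γ : AddSubgroup ℂ) (t : ℂ)
    (hg : ∀ γ ∈ Γ, ∀ x : ℤ × ℤ, 2 * t + γ ≠ lat a' b' x) {p : ℂ[X]} (hp : p ≠ 0)
    (hr : ∀ γ ∈ Γ, p.eval (iu a' b' (t + γ)) = 0) :
    ∃ n : ℕ, 0 < n ∧ n ≤ p.natDegree ∧ ∀ γ ∈ Γ, ∃ x : ℤ × ℤ, (n : ℂ) * γ = lat a' b' x := by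
  classical
  have hoff : ∀ γ ∈ Γ, Off a' b' (t + γ) := by
    intro γ hγ x hx
    refine hg (γ + γ) (Γ.add_mem hγ hγ) (x + x) ?_
    rw [lat_add, ← hx]
    ring
  have hinj : ∀ γ ∈ Γ, ∀ γ' ∈ Γ, iu a' b' (t + γ) = iu a' b' (t + γ') →
      ∃ x, γ = γ' + lat a' b' x := by
    intro γ hγ γ' hγ' he
    have he' : wp a' b' (t + γ) = wp a' b' (t + γ') := inv_injective he
    obtain ⟨x, hx⟩ := MulIdx_wp h' (hoff γ hγ) (hoff γ' hγ') (by
      intro x hx
      refine hg (γ + γ') (Γ.add_mem hγ hγ') x ?_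
      rw [← hx]
      ring) he'
    exact ⟨x, by linear_combination hx⟩
  set q := QuotientAddGroup.mk' (MulIdx_L a' b') with hq
  set A := Γ.map q with hA
  have hch : ∀ α : A, ∃ γ ∈ Γ, q γ = (α : ℂ ⧸ MulIdx_L a' b') := by
    intro α
    obtain ⟨γ, hγ, he⟩ := AddSubgroup.mem_map.1 α.2
    exact ⟨γ, hγ, he⟩
  choose g hgΓ hgq using hch
  have hroot : ∀ α : A, iu a' b' (t + g α) ∈ p.roots.toFinset := by
    intro α
    rw [Multiset.mem_toFinset, mem_roots hp]
    exact hr _ (hgΓ α)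
  let f : A → p.roots.toFinset := fun α => ⟨iu a' b' (t + g α), hroot α⟩
  have hf : Function.Injective f := by
    intro α β hαβ
    have h1 : iu a' b' (t + g α) = iu a' b' (t + g β) := congrArg Subtype.val hαβ
    obtain ⟨x, hx⟩ := hinj _ (hgΓ α) _ (hgΓ β) h1
    apply Subtype.ext
    rw [← hgq α, ← hgq β, hx, map_add]
    have : q (lat a' b' x) = 0 := (QuotientAddGroup.eq_zero_iff _).2 ⟨x, rfl⟩
    rw [this, add_zero]
  have : Finite A := Finite.of_injective f hf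
  refine ⟨Nat.card A, Nat.card_pos, ?_, ?_⟩
  · calc Nat.card A ≤ Nat.card p.roots.toFinset := Nat.card_le_card_of_injective f hf
      _ = p.roots.toFinset.card := by rw [Nat.card_eq_fintype_card, Fintype.card_coe]
      _ ≤ Multiset.card p.roots := Multiset.toFinset_card_le _
      _ ≤ p.natDegree := card_roots' p
  · intro γ hγ
    have h1 : Nat.card A • (⟨q γ, AddSubgroup.mem_map.2 ⟨γ, hγ, rfl⟩⟩ : A) = 0 :=
      card_nsmul_eq_zero'
    have h2 : Nat.card A • q γ = 0 := congrArg Subtype.val h1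
    rw [← map_nsmul] at h2
    obtain ⟨x, hx⟩ := (QuotientAddGroup.eq_zero_iff _).1 h2
    exact ⟨x, by rw [hx, nsmul_eq_mul]⟩

theorem MulIdx_wp_lat (h : Ind a b) (x : ℤ × ℤ) : wp a b (lat a b x) = 0 := by
  have h1 := iu_add_lat h 0 x
  rw [zero_add, iu_zero] at h1
  exact inv_eq_zero.1 h1

/-- the points off the lattice with a given value of `℘` are countable -/
theorem MulIdx_countable (h : Ind a b) (x : ℂ) : {z : ℂ | Off a b z ∧ wp a b z = x}.Countable := by
  rcases Set.eq_empty_or_nonempty {z : ℂ | Off a b z ∧ wp a b z = x} with h0 | ⟨w, hw, hwx⟩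
  · rw [h0]
    exact Set.countable_empty
  · refine ((Set.countable_range fun y : ℤ × ℤ => w + lat a b y).union
      (Set.countable_range fun y : ℤ × ℤ => -w + lat a b y)).mono ?_
    rintro z ⟨hz, hzx⟩
    have h1 := ode h hz
    have h2 := ode h hw
    have h3 : (wq a b z - wq a b w) * (wq a b z + wq a b w) = 0 := by
      rw [hzx] at h1
      rw [hwx] at h2
      linear_combination h1 - h2
    rcases mul_eq_zero.1 h3 with h4 | h4
    · obtain ⟨y, hy⟩ := exists_lat_of_eq h hz hw (hzx.trans hwx.symm) (sub_eq_zero.1 h4)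
      exact Or.inl ⟨y, hy.symm⟩
    · obtain ⟨y, hy⟩ := exists_lat_of_eq h hz (off_neg.2 hw)
        (by rw [wp_neg h]; exact hzx.trans hwx.symm) (by rw [wq_neg h]; linear_combination h4)
      exact Or.inr ⟨y, hy.symm⟩

/-- the set of points where `u` takes one of countably many values is countable -/
theorem countable_iu (h : Ind a b) {s : Set ℂ} (hs : s.Countable) (h0 : (0 : ℂ) ∉ s) :
    {z : ℂ | iu a b z ∈ s}.Countable := by
  refine (hs.biUnion fun x _ => MulIdx_countable h x⁻¹).mono ?_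
  intro z hz
  have hz' : iu a b z ∈ s := hz
  simp only [Set.mem_iUnion, Set.mem_ofPred_eq, exists_prop]
  refine ⟨iu a b z, hz', ?_, ?_⟩
  · intro x hx
    apply h0
    have h1 : iu a b z = 0 := by
      unfold iu
      rw [hx, MulIdx_wp_lat h, inv_zero]
    rwa [h1] at hz'
  · unfold iu
    rw [inv_inv]

/-- the zeros of `℘` are countable -/
theorem countable_wp_zero (h : Ind a b) : {z : ℂ | wp a b z = 0}.Countable := by
  refine ((Set.countable_range fun y : ℤ × ℤ => lat a b y).union (MulIdx_countable h 0)).mono ?_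
  intro z hz
  have hz' : wp a b z = 0 := hz
  by_cases h1 : Off a b z
  · exact Or.inr ⟨h1, hz'⟩
  · unfold Off at h1
    push Not at h1
    obtain ⟨x, hx⟩ := h1
    exact Or.inl ⟨x, hx.symm⟩

/-- **index bound**: an algebraic relation of degree `≤ dY P` in `u₂(ξ z + c)` near one point -/
theorem idx_of_local (h : Ind a b) (h' : Ind a' b') {ξ c : ℂ} (hξ : ξ ≠ 0) {P : ℂ[X][Y]}
    (hP : P ≠ 0) {z₀ : ℂ} (hz : Off a b z₀) (h0 : wp a b z₀ ≠ 0) (hz' : Off a' b' (ξ * z₀ + c))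
    (h0' : wp a' b' (ξ * z₀ + c) ≠ 0)
    (hS : ∀ᶠ z in 𝓝 z₀, P.evalEval (iu a b z) (iu a' b' (ξ * z + c)) = 0) :
    ∃ n : ℕ, 0 < n ∧ n ≤ dY P ∧
      ∀ x : ℤ × ℤ, ∃ y : ℤ × ℤ, (n : ℂ) * (ξ * lat a b x) = lat a' b' y := by
  obtain ⟨S, m, n, hS0, hSe⟩ := exists_rev hP
  have hlin : Continuous fun z : ℂ => ξ * z + c := by fun_prop
  have c1 : ∀ᶠ z in 𝓝 z₀, wp a b z ≠ 0 :=
    (Pool.Agent.EllSch.Basic.differentiableAt_wp h hz).continuousAt.eventually_ne h0
  have c2 : ∀ᶠ z in 𝓝 z₀, wp a' b' (ξ * z + c) ≠ 0 := by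
    have h1 := (Pool.Agent.EllSch.Basic.differentiableAt_wp h' hz').continuousAt
    have h2 : ContinuousAt (fun z : ℂ => wp a' b' (ξ * z + c)) z₀ :=
      ContinuousAt.comp (f := fun z : ℂ => ξ * z + c) h1 hlin.continuousAt
    exact h2.eventually_ne h0'
  have hg := global h h' hξ (S := S) hz hz' (by
    filter_upwards [hS, c1, c2] with z e1 e2 e3
    rw [hSe _ _ e2 e3]
    have : P.evalEval (wp a b z)⁻¹ (wp a' b' (ξ * z + c))⁻¹ = 0 := e1
    rw [this, mul_zero])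
  -- the bad set
  obtain ⟨k, hk⟩ : ∃ k, P.coeff k ≠ 0 := by
    by_contra hne
    push Not at hne
    exact hP (Polynomial.ext hne)
  have B2 := countable_wp_zero h
  have B3 := countable_iu h (s := ((P.coeff k).roots.toFinset : Set ℂ) \ {0})
    ((Finset.countable_toSet _).mono Set.sdiff_subset) (by simp)
  have B4 : {z : ℂ | ∃ x : ℤ × ℤ, wp a' b' (ξ * (z + lat a b x) + c) = 0}.Countable := by
    have h1 : {z : ℂ | ∃ x : ℤ × ℤ, wp a' b' (ξ * (z + lat a b x) + c) = 0} =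
        ⋃ x : ℤ × ℤ, (fun z : ℂ => ξ * (z + lat a b x) + c) ⁻¹' {z | wp a' b' z = 0} := by
      ext z
      simp
    rw [h1]
    refine Set.countable_iUnion fun x => (countable_wp_zero h').preimage_of_injOn ?_
    intro z _ w _ hzw
    have h2 : ξ * (z + lat a b x) + c = ξ * (w + lat a b x) + c := hzw
    have h3 : ξ * (z + lat a b x) = ξ * (w + lat a b x) := add_right_cancel h2
    exact add_right_cancel (mul_left_cancel₀ hξ h3)
  have B5 : {z : ℂ | ∃ x y : ℤ × ℤ, 2 * (ξ * z + c) + ξ * lat a b x = lat a' b' y}.Countable := by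
    refine (Set.countable_range fun v : (ℤ × ℤ) × (ℤ × ℤ) =>
      ((lat a' b' v.2 - ξ * lat a b v.1) / 2 - c) / ξ).mono ?_
    rintro z ⟨x, y, hxy⟩
    refine ⟨(x, y), ?_⟩
    simp only
    rw [← hxy]
    field_simp
    ring
  have hall := (B2.union B3).union (B4.union B5)
  obtain ⟨z, hzn⟩ : ∃ z, z ∉ ({z : ℂ | wp a b z = 0} ∪
      {z : ℂ | iu a b z ∈ ((P.coeff k).roots.toFinset : Set ℂ) \ {0}}) ∪
      ({z : ℂ | ∃ x : ℤ × ℤ, wp a' b' (ξ * (z + lat a b x) + c) = 0} ∪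
      {z : ℂ | ∃ x y : ℤ × ℤ, 2 * (ξ * z + c) + ξ * lat a b x = lat a' b' y}) := by
    have := (hall.dense_compl ℝ).nonempty
    exact this
  simp only [Set.mem_union, not_or, Set.mem_ofPred_eq, not_exists] at hzn
  obtain ⟨⟨z2, z3⟩, z4, z5⟩ := hzn
  have hzoff : Off a b z := by
    intro x hx
    exact z2 (by rw [hx, MulIdx_wp_lat h])
  have hoff' : ∀ x, Off a' b' (ξ * (z + lat a b x) + c) := by
    intro x y hy
    exact z4 x (by rw [hy, MulIdx_wp_lat h'])
  have hiu0 : iu a b z ≠ 0 := inv_ne_zero z2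
  have hp0 : P.map (evalRingHom (iu a b z)) ≠ 0 := by
    intro he
    have h1 : (P.map (evalRingHom (iu a b z))).coeff k = 0 := by rw [he, coeff_zero]
    rw [coeff_map, coe_evalRingHom] at h1
    refine z3 ⟨?_, hiu0⟩
    simp only [Finset.mem_coe, Multiset.mem_toFinset]
    exact (mem_roots hk).2 h1
  obtain ⟨N, hN0, hN1, hN2⟩ := idx_abs h' ((MulIdx_L a b).map (AddMonoidHom.mulLeft ξ)) (ξ * z + c)
    (by
      intro γ hγ y hy
      obtain ⟨_, ⟨x, rfl⟩, rfl⟩ := AddSubgroup.mem_map.1 hγ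
      exact z5 x y hy) hp0 (by
      intro γ hγ
      obtain ⟨_, ⟨x, rfl⟩, rfl⟩ := AddSubgroup.mem_map.1 hγ
      rw [map_evalRingHom_eval]
      have e1 : ξ * z + c + (AddMonoidHom.mulLeft ξ) (lat a b x) = ξ * (z + lat a b x) + c := by
        rw [AddMonoidHom.coe_mulLeft]
        ring
      rw [e1]
      have h1 := hg (z + lat a b x) ((off_add_lat x).2 hzoff) (hoff' x)
      have e2 : wp a b (z + lat a b x) = wp a b z := wp_add_lat h z x
      rw [e2, hSe _ _ z2 (z4 x)] at h1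
      exact (mul_eq_zero.1 h1).resolve_left
        (mul_ne_zero (pow_ne_zero _ z2) (pow_ne_zero _ (z4 x))))
  refine ⟨N, hN0, hN1.trans natDegree_map_le, fun x => ?_⟩
  exact hN2 _ (AddSubgroup.mem_map.2 ⟨lat a b x, ⟨x, rfl⟩, rfl⟩)

end Pool.Agent.LGO.Mul
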