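import Mathlib
import Pool.Agent.LGO.EngDefs
import Pool.Agent.LGO.A.MulFin
import Pool.Agent.LGO.A.MulIdx
import Pool.Agent.LGO.A.NotComm

/-!
# LGO (A): the multiplicity estimate and the index bounds in the notation of the engines

`Comm w₁ (w₁ τ₁) w₂ (w₂ τ₂) ξ` means `n ξ Λ₁ ⊆ Λ₂` for some `n > 0`.
-/

namespace Pool.Agent.LGO.Mul

open Polynomial Pool.Agent.EllSch Filter Topology
open scoped Polynomial.Bivariate

variable {w τ w₁ τ₁ w₂ τ₂ : ℂ}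

theorem mem_Lt (z : ℂ) : z ∈ Lt w τ ↔ ∃ x : ℤ × ℤ, z = lat w (w * τ) x := by
  constructor
  · rintro ⟨m, n, h⟩
    exact ⟨(m, n), h⟩
  · rintro ⟨x, h⟩
    exact ⟨x.1, x.2, h⟩

theorem lat_mem_Lt (x : ℤ × ℤ) : lat w (w * τ) x ∈ Lt w τ := (mem_Lt _).2 ⟨x, rfl⟩

theorem comm_iff (ξ : ℂ) : Comm w₁ (w₁ * τ₁) w₂ (w₂ * τ₂) ξ ↔
    ∃ n : ℕ, 0 < n ∧ Mp (n * ξ) (Lt w₁ τ₁) (Lt w₂ τ₂) := by
  constructor
  · rintro ⟨I, hI, h⟩
    refine ⟨I, hI, ?_⟩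
    intro z hz
    obtain ⟨x, rfl⟩ := (mem_Lt z).1 hz
    obtain ⟨y, hy⟩ := h x
    exact (mem_Lt _).2 ⟨y, by rw [← hy]; ring⟩
  · rintro ⟨I, hI, h⟩
    refine ⟨I, hI, fun x => ?_⟩
    obtain ⟨y, hy⟩ := (mem_Lt _).1 (h _ (lat_mem_Lt x))
    exact ⟨y, by rw [← hy]; ring⟩

/-- if `γ` generates the homomorphisms and `ξ` is not a rational multiple of `γ`, the lattices are not
commensurable via `ξ` -/
theorem not_comm_of_gen {γ ξ : ℂ} (hγ : Gen γ (Lt w₁ τ₁) (Lt w₂ τ₂))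
    (hξ : ∀ r : ℚ, ξ ≠ r * γ) : ¬ Comm w₁ (w₁ * τ₁) w₂ (w₂ * τ₂) ξ := by
  intro h
  obtain ⟨n, hn, hm⟩ := (comm_iff ξ).1 h
  obtain ⟨m, hm'⟩ := hγ.all _ hm
  have hn' : (n : ℂ) ≠ 0 := Nat.cast_ne_zero.2 hn.ne'
  apply hξ ((m : ℚ) / n)
  push_cast
  rw [div_mul_eq_mul_div, ← hm']
  field_simp

/-- the function of the multiplicity estimate is analytic at `0` -/
theorem analyticAt_sum (hw₁ : w₁ ≠ 0) (hτ₁ : 0 < τ₁.im) (hw₂ : w₂ ≠ 0) (hτ₂ : 0 < τ₂.im)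
    (x₁ x₂ : ℂ) (p : ℕ → ℕ → ℂ) (L : ℕ) :
    AnalyticAt ℂ (fun t => ∑ i ∈ Finset.range L, ∑ j ∈ Finset.range L,
      p i j * iu w₁ (w₁ * τ₁) (x₁ * t) ^ i * iu w₂ (w₂ * τ₂) (x₂ * t) ^ j) 0 := by
  have h1 : AnalyticAt ℂ (fun t => iu w₁ (w₁ * τ₁) (x₁ * t)) 0 :=
    AnalyticAt.fun_comp (g := iu w₁ (w₁ * τ₁)) (f := fun t => x₁ * t)
      (by rw [mul_zero]; exact analyticAt_iu_zero (ind_of_im hw₁ hτ₁)) (by fun_prop)
  have h2 : AnalyticAt ℂ (fun t => iu w₂ (w₂ * τ₂) (x₂ * t)) 0 :=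
    AnalyticAt.fun_comp (g := iu w₂ (w₂ * τ₂)) (f := fun t => x₂ * t)
      (by rw [mul_zero]; exact analyticAt_iu_zero (ind_of_im hw₂ hτ₂)) (by fun_prop)
  refine Finset.analyticAt_fun_sum _ fun i _ => Finset.analyticAt_fun_sum _ fun j _ => ?_
  exact (analyticAt_const.mul (h1.pow i)).mul (h2.pow j)

/-- **multiplicity estimate**, in the variable `t` with `z = x₁ t`, `ξ = x₂ / x₁` -/
theorem mult_t (hw₁ : w₁ ≠ 0) (hτ₁ : 0 < τ₁.im) (hw₂ : w₂ ≠ 0) (hτ₂ : 0 < τ₂.im)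
    {x₁ x₂ : ℂ} (hx₁ : x₁ ≠ 0) (hx₂ : x₂ ≠ 0) (hc : ¬ Comm w₁ (w₁ * τ₁) w₂ (w₂ * τ₂) (x₂ / x₁))
    (p : ℕ → ℕ → ℂ) (L : ℕ) (hp : ∃ i < L, ∃ j < L, p i j ≠ 0) :
    analyticOrderAt (fun t => ∑ i ∈ Finset.range L, ∑ j ∈ Finset.range L,
      p i j * iu w₁ (w₁ * τ₁) (x₁ * t) ^ i * iu w₂ (w₂ * τ₂) (x₂ * t) ^ j) 0 ≤ ((400 * L ^ 2 : ℕ) : ℕ∞) := by
  have h0 := mult_sum (ind_of_im hw₁ hτ₁) (ind_of_im hw₂ hτ₂) (div_ne_zero hx₂ hx₁)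
    hc p L hp
  refine le_of_eq_of_le ?_ h0
  have hlin : AnalyticAt ℂ (fun t : ℂ => x₁ * t) 0 := by fun_prop
  have hder : deriv (fun t : ℂ => x₁ * t) 0 ≠ 0 := by
    have h1 : HasDerivAt (fun t : ℂ => x₁ * t) x₁ 0 := by
      simpa using (hasDerivAt_id (0 : ℂ)).const_mul x₁
    rw [h1.deriv]
    exact hx₁
  have h1 := analyticOrderAt_comp_of_deriv_ne_zero
    (f := fun z => ∑ i ∈ Finset.range L, ∑ j ∈ Finset.range L,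
      p i j * iu w₁ (w₁ * τ₁) z ^ i * iu w₂ (w₂ * τ₂) (x₂ / x₁ * z) ^ j) hlin hder
  rw [mul_zero] at h1
  rw [← h1]
  congr 1
  funext t
  simp only [Function.comp_apply]
  refine Finset.sum_congr rfl fun i _ => Finset.sum_congr rfl fun j _ => ?_
  have e : x₂ / x₁ * (x₁ * t) = x₂ * t := by
    field_simp
  rw [e]

/-- some Taylor coefficient of small order is not `0` -/
theorem exists_iteratedDeriv_ne_zero (hw₁ : w₁ ≠ 0) (hτ₁ : 0 < τ₁.im) (hw₂ : w₂ ≠ 0)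
    (hτ₂ : 0 < τ₂.im) {x₁ x₂ : ℂ} (hx₁ : x₁ ≠ 0) (hx₂ : x₂ ≠ 0)
    (hc : ¬ Comm w₁ (w₁ * τ₁) w₂ (w₂ * τ₂) (x₂ / x₁)) (p : ℕ → ℕ → ℂ) (L : ℕ)
    (hp : ∃ i < L, ∃ j < L, p i j ≠ 0) :
    ∃ k ≤ 400 * L ^ 2, iteratedDeriv k (fun t => ∑ i ∈ Finset.range L, ∑ j ∈ Finset.range L,
      p i j * iu w₁ (w₁ * τ₁) (x₁ * t) ^ i * iu w₂ (w₂ * τ₂) (x₂ * t) ^ j) 0 ≠ 0 := by
  have h1 := mult_t hw₁ hτ₁ hw₂ hτ₂ hx₁ hx₂ hc p L hp
  have h2 := analyticAt_sum hw₁ hτ₁ hw₂ hτ₂ x₁ x₂ p L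
  by_contra hne
  push Not at hne
  have h3 : ((400 * L ^ 2 + 1 : ℕ) : ℕ∞) ≤ analyticOrderAt (fun t => ∑ i ∈ Finset.range L,
      ∑ j ∈ Finset.range L, p i j * iu w₁ (w₁ * τ₁) (x₁ * t) ^ i * iu w₂ (w₂ * τ₂) (x₂ * t) ^ j) 0 :=
    (natCast_le_analyticOrderAt_iff_iteratedDeriv_eq_zero h2).2
      fun k hk => hne k (Nat.lt_succ_iff.1 hk)
  have h4 := h3.trans h1
  rw [Nat.cast_le] at h4
  omega

/-- the polynomial of a double sum -/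
noncomputable def sumP (p : ℕ → ℕ → ℂ) (L : ℕ) : ℂ[X][Y] :=
  ∑ i ∈ Finset.range L, ∑ j ∈ Finset.range L, monomial j (monomial i (p i j))

theorem evalEval_sumP (p : ℕ → ℕ → ℂ) (L : ℕ) (x y : ℂ) : (sumP p L).evalEval x y =
    ∑ i ∈ Finset.range L, ∑ j ∈ Finset.range L, p i j * x ^ i * y ^ j := by
  unfold sumP
  rw [evalEval_finsetSum]
  refine Finset.sum_congr rfl fun i _ => ?_
  rw [evalEval_finsetSum]
  refine Finset.sum_congr rfl fun j _ => ?_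
  rw [evalEval, eval_monomial, ← C_pow, eval_mul, eval_C, eval_monomial]

theorem coeff_sumP (p : ℕ → ℕ → ℂ) {L i j : ℕ} (hi : i < L) (hj : j < L) :
    ((sumP p L).coeff j).coeff i = p i j := by
  unfold sumP
  rw [finsetSum_coeff, finsetSum_coeff, Finset.sum_eq_single i]
  · rw [finsetSum_coeff, finsetSum_coeff, Finset.sum_eq_single j]
    · rw [coeff_monomial, if_pos rfl, coeff_monomial, if_pos rfl]
    · intro j' _ hne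
      rw [coeff_monomial, if_neg hne, coeff_zero]
    · intro hn
      exact absurd (Finset.mem_range.2 hj) hn
  · intro i' _ hne
    rw [finsetSum_coeff, finsetSum_coeff]
    refine Finset.sum_eq_zero fun j' _ => ?_
    rw [coeff_monomial]
    split_ifs
    · rw [coeff_monomial, if_neg hne]
    · rw [coeff_zero]
  · intro hn
    exact absurd (Finset.mem_range.2 hi) hn

theorem dY_sumP (p : ℕ → ℕ → ℂ) {L : ℕ} (hL : 0 < L) : dY (sumP p L) < L := by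
  have h1 : (sumP p L).natDegree ≤ L - 1 := by
    unfold sumP
    refine natDegree_sum_le_of_forall_le _ _ fun i _ =>
      natDegree_sum_le_of_forall_le _ _ fun j hj => ?_
    exact (natDegree_monomial_le _).trans (Nat.le_sub_one_of_lt (Finset.mem_range.1 hj))
  unfold dY
  omega

/-- near `0`, off `0`: off the lattice and `℘ ≠ 0` -/
theorem ev_off_ne (h : Ind w₁ τ₁) : ∀ᶠ z in 𝓝[≠] (0 : ℂ), Off w₁ τ₁ z ∧ wp w₁ τ₁ z ≠ 0 := by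
  filter_upwards [Pool.Agent.EllSch.Basic.eventually_off h 0,
    (Pool.Agent.EllSch.Basic.tendsto_norm_wp h).eventually_gt_atTop 0] with z h1 h2
  exact ⟨h1, norm_pos_iff.1 h2⟩

/-- **index bound** for engine 1: if `P(u₁(z), u₂(l z)) = 0` near `0` (as a double sum of degree
`< L`), then `n l Λ₁ ⊆ Λ₂` with `0 < n < L` -/
theorem idx_t (hw₁ : w₁ ≠ 0) (hτ₁ : 0 < τ₁.im) (hw₂ : w₂ ≠ 0) (hτ₂ : 0 < τ₂.im) {l : ℂ}
    (hl : l ≠ 0) (p : ℕ → ℕ → ℂ) (L : ℕ) (hp : ∃ i < L, ∃ j < L, p i j ≠ 0)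
    (h0 : ∀ᶠ z in 𝓝 (0 : ℂ), ∑ i ∈ Finset.range L, ∑ j ∈ Finset.range L,
      p i j * iu w₁ (w₁ * τ₁) z ^ i * iu w₂ (w₂ * τ₂) (l * z) ^ j = 0) :
    ∃ n : ℕ, 0 < n ∧ n < L ∧ Mp (n * l) (Lt w₁ τ₁) (Lt w₂ τ₂) := by
  obtain ⟨i, hi, j, hj, hij⟩ := hp
  have hP : sumP p L ≠ 0 := by
    intro h
    have h1 := coeff_sumP p hi hj
    rw [h, coeff_zero, coeff_zero] at h1
    exact hij h1.symm
  have k1 := ind_of_im hw₁ hτ₁
  have k2 := ind_of_im hw₂ hτ₂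
  have hlin : Tendsto (fun z : ℂ => l * z) (𝓝[≠] 0) (𝓝[≠] 0) := by
    rw [tendsto_nhdsWithin_iff]
    constructor
    · have h1 : Continuous fun z : ℂ => l * z := by fun_prop
      have h2 := h1.tendsto 0
      rw [mul_zero] at h2
      exact h2.mono_left nhdsWithin_le_nhds
    · filter_upwards [self_mem_nhdsWithin] with z hz
      exact mul_ne_zero hl hz
  have e1 := eventually_eventually_nhds.2 h0
  obtain ⟨z₀, ⟨g1, g2⟩, ⟨g3, g4⟩, g5⟩ := ((ev_off_ne k1).and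
    ((hlin.eventually (ev_off_ne k2)).and (nhdsWithin_le_nhds e1))).exists
  obtain ⟨n, hn0, hn1, hn2⟩ := idx_of_local (c := 0) k1 k2 hl hP g1 g2 (by rwa [add_zero])
    (by rwa [add_zero]) (by
      filter_upwards [g5] with z hz
      rw [evalEval_sumP, add_zero]
      exact hz)
  refine ⟨n, hn0, lt_of_le_of_lt hn1 (dY_sumP p (by omega)), ?_⟩
  intro z hz
  obtain ⟨x, rfl⟩ := (mem_Lt z).1 hz
  obtain ⟨y, hy⟩ := hn2 x
  exact (mem_Lt _).2 ⟨y, by rw [← hy]; ring⟩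

end Pool.Agent.LGO.Mul
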