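import Mathlib
import Pool.Agent.LGO.A.BsMk
import Pool.Agent.LGO.A.BsKey
import Pool.Agent.LGO.A.BsNum
import Pool.Agent.LGO.A.MulInt

/-!
# LGO: proof of engines 1 and 2, common part, and engine 1

`common`: after scaling by the integer `c = ν₁ ν₂ ≤ exp(6 M T)` (`cur_den` for both curves) the curves
`(w_i / c, τ_i)` are `Cu K (13 M T) T` (`B = M T`, `E = 6 M T`, `B + 2 E = 13 M T`).  Data `D` from
`mk_data`.  Let `k` be the number of `num C` with `C` from `key`; `m, q, L, N` as there;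
`4 [K:ℚ] N ≤ 4 m N = 16 m² q² = L²`; `c` from `exists_c`.  If `gm D L c O ≠ 0` for some `O`, take the
smallest one, `O ≥ N`; `num` gives `S`, and `key` gives
`exp(-(7 S O)) ≤ ‖w₂/c - ξ w₁/c‖`, with `S O ≤ O² T / L` (`num`).  Engine 1: impossible as
`ξ w₁ = w₂`; so all `gm` vanish, `Ph_zero`, and `idx_t` (for `p i j = c i j`, `l ≠ 0` because
`w₂ ≠ 0`) gives `0 < n < L`, `Mp (n l) ..`; `mp_scale`, `num_L`.

The instance `NumberField K` for an intermediate field: `[FiniteDimensional ℚ K]` gives it, but the two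
`ℚ`-algebra structures of `K` should be identified (`Subsingleton.elim`) if `finrank` differs.
-/

namespace Pool.Agent.LGO.Bs

open Pool.Agent.EllSch NumberField

private lemma BsE1_nf (K : IntermediateField ℚ ℂ) [FiniteDimensional ℚ K] : NumberField K where
  to_charZero := inferInstance
  to_finiteDimensional := inferInstance

theorem common : ∃ k : ℕ, 1 ≤ k ∧ ∀ (K : IntermediateField ℚ ℂ) [FiniteDimensional ℚ K] (M T : ℝ)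
    (w₁ τ₁ w₂ τ₂ ξ : ℂ), 2 ≤ M → (Module.finrank ℚ K : ℝ) ≤ M → 0 < T → 1 ≤ M * T →
    Cu K (13 * (M * T)) T w₁ τ₁ → Cu K (13 * (M * T)) T w₂ τ₂ → Bd K (M * T) ξ →
    ∀ (m q L : ℕ), m = ⌈M⌉₊ → q = (k * m) ^ 5 → L = 4 * m * q →
    ∃ D : D2 K, IsD D (algebraMap K ℂ) w₁ (w₁ * τ₁) w₂ (w₂ * τ₂) ξ ∧
    ∃ c : ℕ → ℕ → ℤ, (∃ i < L, ∃ j < L, c i j ≠ 0) ∧
      ∀ O : ℕ, (∀ n < O, gm D L c n = 0) → gm D L c O ≠ 0 →
        Real.exp (-(7 * (O ^ 2 * T / L))) ≤ ‖w₂ - ξ * w₁‖ := by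
  obtain ⟨C, hC1, hkey⟩ := key
  obtain ⟨k, hk1, hnum⟩ := num C hC1
  refine ⟨k, hk1, ?_⟩
  intro K _ M T w₁ τ₁ w₂ τ₂ ξ hM hKM hT hMT h₁ h₂ hξ m q L hm hq hL
  have := BsE1_nf K
  obtain ⟨D, hBdd, hIsD⟩ := mk_data h₁ h₂ hξ (by linarith) (by linarith)
  have hMm : M ≤ m := by rw [hm]; exact Nat.le_ceil M
  have hm1 : 1 ≤ m := by
    have h : (1 : ℝ) ≤ m := by linarith
    exact_mod_cast h
  have hq1 : 1 ≤ q := by
    rw [hq]
    exact Nat.one_le_pow _ _ (Nat.mul_pos (by omega) (by omega))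
  have hL1 : 1 ≤ L := by
    rw [hL]
    exact Nat.mul_pos (Nat.mul_pos (by norm_num) (by omega)) (by omega)
  have hfin : Module.finrank ℚ K ≤ m := by
    have h : (Module.finrank ℚ K : ℝ) ≤ m := hKM.trans hMm
    exact_mod_cast h
  have hN : 4 * Module.finrank ℚ K * (4 * m * q ^ 2) ≤ L ^ 2 := by
    rw [hL]
    calc 4 * Module.finrank ℚ K * (4 * m * q ^ 2) ≤ 4 * m * (4 * m * q ^ 2) :=
          Nat.mul_le_mul_right _ (Nat.mul_le_mul_left _ hfin)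
      _ = (4 * m * q) ^ 2 := by ring
  obtain ⟨c, hc0, hcN, hcb⟩ := exists_c hBdd (by omega) hN
  refine ⟨D, hIsD, c, hc0, ?_⟩
  intro O hO hne
  have hNO : 4 * m * q ^ 2 ≤ O := by
    by_contra h
    exact hne (hcN O (by omega))
  have hLN : L ≤ 4 * m * q ^ 2 := by
    rw [hL, pow_two, ← mul_assoc]
    exact Nat.le_mul_of_pos_right _ (by omega)
  obtain ⟨S, hS1, hS2, hS3, hS4⟩ := hnum M T m q L _ O hM hT hMT hm hq hL rfl hNO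
  have h := hkey K D M T w₁ τ₁ w₂ τ₂ ξ hM hKM hT hMT h₁ h₂ hξ hBdd hIsD L _ O S c hL1 hLN hNO
    hcb hO hne hS1 hS2 hS3
  refine (Real.exp_le_exp.mpr ?_).trans h
  have hL0 : (0 : ℝ) < L := by exact_mod_cast hL1
  have h1 : (S : ℝ) * O ≤ O ^ 2 * T / L := by
    rw [le_div_iff₀ hL0]
    have h2 : (0 : ℝ) ≤ O := Nat.cast_nonneg _
    nlinarith
  linarith

theorem engine1_proof : ∃ C : ℕ, ∀ (K : IntermediateField ℚ ℂ) [FiniteDimensional ℚ K] (M T : ℝ)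
    (w₁ τ₁ w₂ τ₂ l : ℂ), 2 ≤ M → (Module.finrank ℚ K : ℝ) ≤ M → 0 < T → 1 ≤ M * T →
    Cur K M (M * T) T w₁ τ₁ → Cur K M (M * T) T w₂ τ₂ → Bd K (M * T) l → l * w₁ = w₂ →
    ∃ n : ℕ, 0 < n ∧ (n : ℝ) ≤ M ^ C ∧ Mp (n * l) (Lt w₁ τ₁) (Lt w₂ τ₂) := by
  obtain ⟨k, hk1, hcom⟩ := common
  obtain ⟨C, hC⟩ := num_L k
  refine ⟨C, ?_⟩
  intro K _ M T w₁ τ₁ w₂ τ₂ l hM hKM hT hMT h₁ h₂ hl hlw
  obtain ⟨ν₁, hν₁, hν₁b, H₁⟩ := cur_den h₁ hMT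
  obtain ⟨ν₂, hν₂, hν₂b, H₂⟩ := cur_den h₂ hMT
  have hc0 : 0 < ν₁ * ν₂ := Nat.mul_pos hν₁ hν₂
  have hcb : ((ν₁ * ν₂ : ℕ) : ℝ) ≤ Real.exp (6 * (M * T)) := by
    have h : Real.exp (6 * (M * T)) = Real.exp (3 * (M * T)) * Real.exp (3 * (M * T)) := by
      rw [← Real.exp_add]
      ring_nf
    rw [h]
    push_cast
    exact mul_le_mul hν₁b hν₂b (Nat.cast_nonneg _) (Real.exp_pos _).le
  have G₁ := H₁ (ν₁ * ν₂) hc0 (Nat.dvd_mul_right _ _) (6 * (M * T)) (by linarith) hcb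
  have G₂ := H₂ (ν₁ * ν₂) hc0 (Nat.dvd_mul_left _ _) (6 * (M * T)) (by linarith) hcb
  have he : M * T + 2 * (6 * (M * T)) = 13 * (M * T) := by ring
  rw [he] at G₁ G₂
  set e : ℂ := ((ν₁ * ν₂ : ℕ) : ℂ) with hedef
  have he0 : e ≠ 0 := by
    rw [hedef]
    exact Nat.cast_ne_zero.2 hc0.ne'
  obtain ⟨D, hD, c, hc, hO⟩ := hcom K M T (w₁ / e) τ₁ (w₂ / e) τ₂ l hM hKM hT hMT G₁ G₂ hl
    ⌈M⌉₊ ((k * ⌈M⌉₊) ^ 5) (4 * ⌈M⌉₊ * (k * ⌈M⌉₊) ^ 5) rfl rfl rfl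
  set L : ℕ := 4 * ⌈M⌉₊ * (k * ⌈M⌉₊) ^ 5 with hLdef
  have hz : w₂ / e - l * (w₁ / e) = 0 := by
    rw [← hlw]
    ring
  have hall : ∀ n, gm D L c n = 0 := by
    by_contra hcon
    push Not at hcon
    classical
    have h1 := hO (Nat.find hcon) (fun n hn => by
      have := Nat.find_min hcon hn
      simpa using this) (Nat.find_spec hcon)
    rw [hz, norm_zero] at h1
    exact absurd h1 (not_le.2 (Real.exp_pos _))
  have hP := Ph_zero (cu_ind G₁) (cu_ind G₂) hD L c hall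
  have hl0 : l ≠ 0 := by
    rintro rfl
    rw [zero_mul] at hlw
    exact h₂.w0 hlw.symm
  obtain ⟨i, hi, j, hj, hij⟩ := hc
  obtain ⟨n, hn0, hnL, hn⟩ := Mul.idx_t G₁.w0 G₁.im_pos G₂.w0 G₂.im_pos hl0 (fun i j => (c i j : ℂ)) L
    ⟨i, hi, j, hj, by exact_mod_cast hij⟩ hP
  refine ⟨n, hn0, ?_, (mp_scale he0).1 hn⟩
  have h1 := hC M _ _ L hM rfl rfl rfl
  have h2 : (n : ℝ) ≤ L := by exact_mod_cast hnL.le
  exact h2.trans h1

end Pool.Agent.LGO.Bs
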