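import Mathlib
import Pool.Agent.LGO.EngDefs
import Pool.Agent.LGO.A.BsLi

/-!
# LGO base: the degenerate case `ξ ∈ ℚ γ` of engine 2

* `den_le`: let `r = a / b` in lowest terms, `n₁, n₂` the denominators of `γ` and `ξ = r γ`
  (`Bd.den`).  `η = n₁ n₂ γ / b` is integral: with `u a + v b = 1`,
  `η = u n₁ (n₂ ξ) + v n₂ (n₁ γ)`.  `η ≠ 0` lies in `K`, the product of its conjugates is a nonzero
  integer, so some conjugate has `1 ≤ ‖σ η‖ = n₁ n₂ ‖σ γ‖ / b ≤ exp (3 B) / b`.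
* `rat_case`: `b (w₂ - ξ w₁) = b w₂ - a γ w₁` lies in `Lt w₂ τ₂` (`Gen.mp`, `w₁ ∈ Lt w₁ τ₁`,
  `w₂ ∈ Lt w₂ τ₂`), and is not `0` by hypothesis, so `‖w₂‖ ≤ M b ‖w₂ - ξ w₁‖` (`Cur.sh`).
  If `r = 0` then `b = 1`.
-/

namespace Pool.Agent.LGO.Bs

open NumberField

/-- a nonzero algebraic integer of a number field has a conjugate of absolute value at least `1` -/
private lemma BsRat_one_le {K : Type*} [Field K] [NumberField K] (φ : K →+* ℂ) {β : 𝓞 K}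
    (hβ : β ≠ 0) {c : ℝ} (hc : 0 ≤ c) (h : ∀ σ : K →+* ℂ, ‖σ (β : K)‖ ≤ c) : 1 ≤ c := by
  have hβ' : (β : K) ≠ 0 := by
    intro h0
    exact hβ (RingOfIntegers.coe_eq_zero_iff.mp h0)
  have h1 := Schn.liouville_aux φ β hβ'
  have h2 : house (β : K) ≤ c := by
    rw [house]
    exact (pi_norm_le_iff_of_nonneg hc).mpr h
  have hd : Module.finrank ℚ K - 1 + 1 = Module.finrank ℚ K :=
    Nat.sub_add_cancel (Nat.succ_le_of_lt Module.finrank_pos)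
  have h3 : 1 ≤ c ^ (Module.finrank ℚ K) := by
    rw [← hd, pow_succ']
    exact h1.trans (mul_le_mul (h φ) (pow_le_pow_left₀ (house_nonneg _) h2 _)
      (pow_nonneg (house_nonneg _) _) hc)
  by_contra hlt
  push Not at hlt
  have h4 : c ^ (Module.finrank ℚ K) < 1 := pow_lt_one₀ hc hlt Module.finrank_pos.ne'
  linarith

theorem den_le {K : IntermediateField ℚ ℂ} [FiniteDimensional ℚ K] {B : ℝ} {γ : ℂ} {r : ℚ}
    (hγ : Bd K B γ) (h0 : γ ≠ 0) (hr : Bd K B (r * γ)) : (r.den : ℝ) ≤ Real.exp (3 * B) := by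
  have : NumberField K := { to_charZero := inferInstance, to_finiteDimensional := inferInstance }
  obtain ⟨n₁, hn₁, hn₁B, hi₁⟩ := hγ.den
  obtain ⟨n₂, hn₂, hn₂B, hi₂⟩ := hr.den
  have hb0 : (r.den : ℂ) ≠ 0 := Nat.cast_ne_zero.mpr r.den_nz
  have hrc : (r : ℂ) = (r.num : ℂ) / (r.den : ℂ) := Rat.cast_def r
  obtain ⟨u, v, huv⟩ : ∃ u v : ℤ, u * r.num + v * (r.den : ℤ) = 1 := by
    have h1 : IsCoprime r.num (r.den : ℤ) := by
      rw [Int.isCoprime_iff_gcd_eq_one]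
      have := r.reduced
      rw [Nat.coprime_iff_gcd_eq_one] at this
      rw [Int.gcd, Int.natAbs_natCast]
      exact this
    exact h1
  have huv' : (u : ℂ) * (r.num : ℂ) + (v : ℂ) * (r.den : ℂ) = 1 := by
    have := congrArg (Int.cast (R := ℂ)) huv
    push_cast at this
    exact this
  set η : ℂ := (n₁ : ℂ) * n₂ * γ / r.den with hη
  have hη1 : η = (u * n₁ : ℤ) * ((n₂ : ℂ) * (r * γ)) + (v * n₂ : ℤ) * ((n₁ : ℂ) * γ) := by
    have hx : (r : ℂ) * (r.den : ℂ) = (r.num : ℂ) := by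
      rw [hrc, div_mul_cancel₀ _ hb0]
    rw [hη, div_eq_iff hb0]
    push_cast
    linear_combination (-((n₁ : ℂ) * n₂ * γ)) * huv' - ((n₁ : ℂ) * n₂ * γ * u) * hx
  have hηi : IsIntegral ℤ η := by
    rw [hη1]
    have e1 : IsIntegral ℤ (((u * n₁ : ℤ) : ℂ)) := by
      have := isIntegral_algebraMap (R := ℤ) (A := ℂ) (x := (u * n₁ : ℤ))
      simpa using this
    have e2 : IsIntegral ℤ (((v * n₂ : ℤ) : ℂ)) := by
      have := isIntegral_algebraMap (R := ℤ) (A := ℂ) (x := (v * n₂ : ℤ))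
      simpa using this
    exact (e1.mul hi₂).add (e2.mul hi₁)
  have hη0 : η ≠ 0 := by
    rw [hη]
    have a1 : (n₁ : ℂ) ≠ 0 := Nat.cast_ne_zero.mpr hn₁.ne'
    have a2 : (n₂ : ℂ) ≠ 0 := Nat.cast_ne_zero.mpr hn₂.ne'
    exact div_ne_zero (mul_ne_zero (mul_ne_zero a1 a2) h0) hb0
  let g : K := ⟨γ, hγ.mem⟩
  let e : K := (n₁ : K) * n₂ * g / r.den
  have he : (e : ℂ) = η := by
    simp only [e, g, hη]
    push_cast
    rfl
  have hei : IsIntegral ℤ e := by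
    rw [← he] at hηi
    have hinj : Function.Injective (algebraMap K ℂ) := (algebraMap K ℂ).injective
    exact (isIntegral_algebraMap_iff hinj).mp hηi
  let β : 𝓞 K := ⟨e, hei⟩
  have hβe : (β : K) = e := rfl
  have hβ : β ≠ 0 := by
    intro hz
    apply hη0
    rw [← he, ← hβe, hz]
    simp
  have hbp : (0 : ℝ) < r.den := by exact_mod_cast r.den_pos
  have hcp : 0 ≤ Real.exp (3 * B) / r.den := by positivity
  have key := BsRat_one_le (algebraMap K ℂ) hβ hcp (by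
    intro σ
    rw [hβe]
    have h1 : σ e = (n₁ : ℂ) * n₂ * σ g / r.den := by
      simp only [e]
      rw [map_div₀, map_mul, map_mul, map_natCast, map_natCast, map_natCast]
    rw [h1, norm_div, norm_mul, norm_mul, Complex.norm_natCast, Complex.norm_natCast,
      Complex.norm_natCast]
    refine div_le_div_of_nonneg_right ?_ hbp.le
    have h2 : Real.exp (3 * B) = Real.exp B * Real.exp B * Real.exp B := by
      rw [← Real.exp_add, ← Real.exp_add]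
      congr 1
      ring
    rw [h2]
    exact mul_le_mul (mul_le_mul hn₁B hn₂B (Nat.cast_nonneg _) (Real.exp_pos _).le)
      (hγ.house σ) (norm_nonneg _) (by positivity))
  rwa [le_div_iff₀ hbp, one_mul] at key

theorem rat_case {K : IntermediateField ℚ ℂ} [FiniteDimensional ℚ K] {M B B' t : ℝ}
    {w₁ τ₁ w₂ τ₂ γ : ℂ} {r : ℚ} (hM : 0 ≤ M) (h₂ : Cur K M B' t w₂ τ₂)
    (hg : Gen γ (Lt w₁ τ₁) (Lt w₂ τ₂)) (hγ : Bd K B γ) (hr : Bd K B (r * γ))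
    (hn : ∀ r : ℚ, w₂ ≠ r * γ * w₁) :
    ‖w₂‖ ≤ M * Real.exp (3 * B) * ‖w₂ - r * γ * w₁‖ := by
  have hb0 : (r.den : ℂ) ≠ 0 := Nat.cast_ne_zero.mpr r.den_nz
  have hrc : (r : ℂ) = (r.num : ℂ) / (r.den : ℂ) := Rat.cast_def r
  have hw1 : w₁ ∈ Lt w₁ τ₁ := ⟨1, 0, by push_cast; ring⟩
  have hw2 : w₂ ∈ Lt w₂ τ₂ := ⟨1, 0, by push_cast; ring⟩
  have h1 : γ * w₁ ∈ Lt w₂ τ₂ := hg.mp w₁ hw1
  have h2 : (r.den : ℤ) • w₂ - r.num • (γ * w₁) ∈ Lt w₂ τ₂ :=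
    AddSubgroup.sub_mem _ (AddSubgroup.zsmul_mem _ hw2 _) (AddSubgroup.zsmul_mem _ h1 _)
  have h3 : (r.den : ℤ) • w₂ - r.num • (γ * w₁) = (r.den : ℂ) * (w₂ - r * γ * w₁) := by
    rw [zsmul_eq_mul, zsmul_eq_mul, hrc]
    push_cast
    field_simp
  have h4 : (r.den : ℂ) * (w₂ - r * γ * w₁) ≠ 0 :=
    mul_ne_zero hb0 (sub_ne_zero.mpr (hn r))
  rw [h3] at h2
  have h5 := h₂.sh _ h2 h4
  rw [norm_mul, Complex.norm_natCast] at h5
  have h6 := mul_le_mul_of_nonneg_left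
    (mul_le_mul_of_nonneg_right (den_le hγ hg.ne hr) (norm_nonneg (w₂ - r * γ * w₁))) hM
  calc ‖w₂‖ ≤ M * ((r.den : ℝ) * ‖w₂ - r * γ * w₁‖) := h5
    _ ≤ M * (Real.exp (3 * B) * ‖w₂ - r * γ * w₁‖) := h6
    _ = M * Real.exp (3 * B) * ‖w₂ - r * γ * w₁‖ := by ring

end Pool.Agent.LGO.Bs
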