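import Mathlib
import Pool.Agent.LGO.A.BsE1
import Pool.Agent.LGO.A.BsRat

/-!
# LGO: proof of engine 2

If `ξ = r γ` with a rational `r`: `rat_case`, so
`‖w₂ / w₁ - ξ‖ = ‖w₂ - ξ w₁‖ / ‖w₁‖ ≥ ‖w₂‖ / (M exp(3 M T) ‖w₁‖)`, and `‖w₂‖ ≥ exp(-C M T)`,
`‖w₁‖ ≤ exp(C M² T)` (`cu_lower`, `cu_upper` for the scaled curves, `w_i = c (w_i / c)`; the factor `c`
cancels in the quotient).  Otherwise `ξ ≠ 0` and the lattices are not commensurable via `ξ`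
(`Mul.not_comm_of_gen`, for the scaled lattices: `Gen` is the same by `mp_scale`), so by
`Mul.exists_iteratedDeriv_ne_zero` and `gm_ne` some `gm D L c O ≠ 0` with `O ≤ 400 L²`; for the smallest
such `O` `common` gives `‖w₂/c - ξ w₁/c‖ ≥ exp(-(7 O² T / L)) ≥ exp(-(7 * 160000 L³ T))`,
`L ≤ M ^ C` (`num_L`).  Constants: everything is `≥ exp(-(T M^C'))` because `M ≥ 2`, `M T ≥ 1`
(`M ≤ exp(M) ≤ exp(M² T)` etc.).
-/

namespace Pool.Agent.LGO.Bs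

open Pool.Agent.EllSch NumberField

private lemma BsE2_div {x y E F : ℝ} (hx : Real.exp (-E) ≤ x) (hy : 0 < y)
    (hy' : y ≤ Real.exp F) : Real.exp (-(E + F)) ≤ x / y := by
  rw [le_div_iff₀ hy]
  calc Real.exp (-(E + F)) * y ≤ Real.exp (-(E + F)) * Real.exp F :=
        mul_le_mul_of_nonneg_left hy' (Real.exp_pos _).le
    _ = Real.exp (-E) := by rw [← Real.exp_add]; congr 1; ring
    _ ≤ x := hx

private lemma BsE2_le_exp (x : ℝ) : x ≤ Real.exp x := by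
  have := Real.add_one_le_exp x
  linarith

private lemma BsE2_nf (K : IntermediateField ℚ ℂ) [FiniteDimensional ℚ K] : NumberField K where
  to_charZero := inferInstance
  to_finiteDimensional := inferInstance

private lemma BsE2_up {C1 M T y : ℝ} (hC1 : 1 ≤ C1) (hM : 2 ≤ M) (hT : 0 < T) (hMT : 1 ≤ M * T)
    (hy : y ≤ C1 * Real.exp (M * (13 * (M * T))) / min 1 T) :
    y ≤ Real.exp (T * (M ^ 2 * (C1 + 14))) := by
  have hM0 : 0 < M := by linarith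
  have hmin : 1 / M ≤ min 1 T := by
    refine le_min ?_ ?_
    · rw [div_le_one hM0]
      linarith
    · rw [div_le_iff₀ hM0]
      linarith
  have hmin0 : 0 < min 1 T := lt_min one_pos hT
  have h1 : C1 * Real.exp (M * (13 * (M * T))) / min 1 T ≤
      C1 * Real.exp (M * (13 * (M * T))) * M := by
    rw [div_le_iff₀ hmin0]
    have h2 : 1 ≤ M * min 1 T := by
      rw [div_le_iff₀ hM0] at hmin
      linarith
    have h3 : 0 ≤ C1 * Real.exp (M * (13 * (M * T))) := by positivity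
    nlinarith
  have hMM : M ≤ T * M ^ 2 := by nlinarith
  have h4 : C1 ≤ Real.exp (T * (M ^ 2 * C1)) := by
    refine (BsE2_le_exp C1).trans (Real.exp_le_exp.2 ?_)
    nlinarith
  have h5 : M ≤ Real.exp (T * M ^ 2) := (BsE2_le_exp M).trans (Real.exp_le_exp.2 hMM)
  calc y ≤ C1 * Real.exp (M * (13 * (M * T))) * M := hy.trans h1
    _ ≤ Real.exp (T * (M ^ 2 * C1)) * Real.exp (M * (13 * (M * T))) * Real.exp (T * M ^ 2) := by
        gcongr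
    _ = Real.exp (T * (M ^ 2 * (C1 + 14))) := by
        rw [← Real.exp_add, ← Real.exp_add]
        congr 1
        ring

theorem engine2_proof : ∃ C : ℕ, ∀ (K : IntermediateField ℚ ℂ) [FiniteDimensional ℚ K] (M T : ℝ)
    (w₁ τ₁ w₂ τ₂ γ ξ : ℂ), 2 ≤ M → (Module.finrank ℚ K : ℝ) ≤ M → 0 < T → 1 ≤ M * T →
    Cur K M (M * T) T w₁ τ₁ → Cur K M (M * T) T w₂ τ₂ → Gen γ (Lt w₁ τ₁) (Lt w₂ τ₂) →
    Bd K (M * T) γ → (∀ r : ℚ, w₂ ≠ r * γ * w₁) → Bd K (M * T) ξ →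
    Real.exp (-(T * M ^ C)) ≤ ‖w₂ / w₁ - ξ‖ := by
  obtain ⟨k, hk1, hcom⟩ := common
  obtain ⟨C0, hC0⟩ := num_L k
  obtain ⟨C1, hC1, hup⟩ := cu_upper
  obtain ⟨k2, hk2⟩ := pow_unbounded_of_one_lt (1120000 + 2 * C1 + 100 : ℝ) one_lt_two
  refine ⟨3 * C0 + 2 + k2, ?_⟩
  intro K _ M T w₁ τ₁ w₂ τ₂ γ ξ hM hKM hT hMT h₁ h₂ hg hγ hne hξ
  have hM0 : 0 < M := by linarith
  have hM1 : 1 ≤ M := by linarith
  obtain ⟨ν₁, hν₁, hν₁b, H₁⟩ := cur_den h₁ hMT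
  obtain ⟨ν₂, hν₂, hν₂b, H₂⟩ := cur_den h₂ hMT
  have hc0 : 0 < ν₁ * ν₂ := Nat.mul_pos hν₁ hν₂
  have hcb : ((ν₁ * ν₂ : ℕ) : ℝ) ≤ Real.exp (6 * (M * T)) := by
    have h : Real.exp (6 * (M * T)) = Real.exp (3 * (M * T)) * Real.exp (3 * (M * T)) := by
      rw [← Real.exp_add]
      ring_nf
    rw [h]
    push_cast
    exact mul_le_mul hν₁b hν₂b (Nat.cast_nonneg _) (Real.exp_pos _).le
  have G₁ := H₁ (ν₁ * ν₂) hc0 (Nat.dvd_mul_right _ _) (6 * (M * T)) (by linarith) hcb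
  have G₂ := H₂ (ν₁ * ν₂) hc0 (Nat.dvd_mul_left _ _) (6 * (M * T)) (by linarith) hcb
  have he : M * T + 2 * (6 * (M * T)) = 13 * (M * T) := by ring
  rw [he] at G₁ G₂
  set e : ℂ := ((ν₁ * ν₂ : ℕ) : ℂ) with hedef
  have he0 : e ≠ 0 := by
    rw [hedef]
    exact Nat.cast_ne_zero.2 hc0.ne'
  have hw1 : w₁ ≠ 0 := h₁.w0
  have hw1e : w₁ / e ≠ 0 := div_ne_zero hw1 he0
  have hw2e : w₂ / e ≠ 0 := div_ne_zero h₂.w0 he0
  have hy0 : 0 < ‖w₁ / e‖ := norm_pos_iff.2 hw1e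
  have hy := BsE2_up hC1 hM hT hMT (hup K M (13 * (M * T)) T (w₁ / e) τ₁ hKM (by linarith) hT G₁)
  have hquot : ‖w₂ / w₁ - ξ‖ = ‖w₂ / e - ξ * (w₁ / e)‖ / ‖w₁ / e‖ := by
    rw [← norm_div]
    congr 1
    field_simp
  have hpowk : (1120000 + 2 * C1 + 100 : ℝ) ≤ M ^ k2 :=
    hk2.le.trans (pow_le_pow_left₀ (by norm_num) hM _)
  have hp0 : (1 : ℝ) ≤ M ^ (3 * C0) := one_le_pow₀ hM1
  have hM2 : 0 < M ^ 2 := by positivity
  have hbig : M ^ (3 * C0) * (M ^ 2 * (1120000 + 2 * C1 + 100)) ≤ M ^ (3 * C0 + 2 + k2) := by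
    rw [pow_add, pow_add, mul_assoc]
    gcongr
  rw [hquot]
  by_cases hrat : ∃ r : ℚ, ξ = r * γ
  · obtain ⟨r, hr⟩ := hrat
    have hw2m : w₂ / e ∈ Lt (w₂ / e) τ₂ := ⟨1, 0, by push_cast; ring⟩
    have hlow := cu_lower G₂ (by linarith) hw2m hw2e
    have hrc := rat_case hM0.le h₂ hg hγ (by rw [← hr]; exact hξ) hne
    rw [← hr] at hrc
    have hrc2 : ‖w₂ / e‖ ≤ M * Real.exp (3 * (M * T)) * ‖w₂ / e - ξ * (w₁ / e)‖ := by
      have h1 : w₂ / e - ξ * (w₁ / e) = (w₂ - ξ * w₁) / e := by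
        field_simp
      rw [h1, norm_div, norm_div, ← mul_div_assoc]
      exact div_le_div_of_nonneg_right hrc (norm_nonneg _)
    have hx : Real.exp (-(T * (M ^ 2 * 20))) ≤ ‖w₂ / e - ξ * (w₁ / e)‖ := by
      have h2 : M * Real.exp (3 * (M * T)) ≤ Real.exp (T * M ^ 2 + 3 * (M * T)) := by
        rw [Real.exp_add]
        refine mul_le_mul_of_nonneg_right ?_ (Real.exp_pos _).le
        refine (BsE2_le_exp M).trans (Real.exp_le_exp.2 ?_)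
        nlinarith
      have h3 : Real.exp (-(13 * (M * T) + 2)) ≤
          Real.exp (T * M ^ 2 + 3 * (M * T)) * ‖w₂ / e - ξ * (w₁ / e)‖ :=
        hlow.trans (hrc2.trans (mul_le_mul_of_nonneg_right h2 (norm_nonneg _)))
      have h4 : Real.exp (-(T * (M ^ 2 * 20))) ≤
          Real.exp (-(T * M ^ 2 + 3 * (M * T))) * Real.exp (-(13 * (M * T) + 2)) := by
        rw [← Real.exp_add, Real.exp_le_exp]
        have h5 : 2 * (M * T) ≤ T * M ^ 2 := by nlinarith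
        nlinarith
      refine h4.trans ?_
      rw [Real.exp_neg, inv_mul_le_iff₀ (Real.exp_pos _)]
      exact h3
    refine le_trans ?_ (BsE2_div hx hy0 hy)
    rw [Real.exp_le_exp, neg_le_neg_iff, ← mul_add]
    refine mul_le_mul_of_nonneg_left ?_ hT.le
    refine le_trans ?_ hbig
    have h6 : M ^ 2 * 20 + M ^ 2 * (C1 + 14) ≤ M ^ 2 * (1120000 + 2 * C1 + 100) := by nlinarith
    have h7 : 0 ≤ M ^ 2 * (1120000 + 2 * C1 + 100) := by positivity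
    nlinarith
  · push Not at hrat
    obtain ⟨D, hD, c, hc, hO⟩ := hcom K M T (w₁ / e) τ₁ (w₂ / e) τ₂ ξ hM hKM hT hMT G₁ G₂ hξ
      ⌈M⌉₊ ((k * ⌈M⌉₊) ^ 5) (4 * ⌈M⌉₊ * (k * ⌈M⌉₊) ^ 5) rfl rfl rfl
    have hL := hC0 M _ _ (4 * ⌈M⌉₊ * (k * ⌈M⌉₊) ^ 5) hM rfl rfl rfl
    set L : ℕ := 4 * ⌈M⌉₊ * (k * ⌈M⌉₊) ^ 5 with hLdef
    obtain ⟨i, hi, j, hj, hij⟩ := hc
    have hL0 : 0 < L := by omega
    have hg' : Gen γ (Lt (w₁ / e) τ₁) (Lt (w₂ / e) τ₂) :=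
      ⟨hg.ne, (mp_scale he0).2 hg.mp, fun z hz => hg.all z ((mp_scale he0).1 hz)⟩
    have hx1 : algebraMap K ℂ D.x₁ ≠ 0 := by
      intro h0
      apply hD.ne
      have h1 : (D.x₁ : K) = 0 := (map_eq_zero (algebraMap K ℂ)).1 h0
      exact_mod_cast h1
    have hξ0 : ξ ≠ 0 := by
      intro h0
      apply hrat 0
      rw [h0]
      simp
    have hx2 : algebraMap K ℂ D.x₂ ≠ 0 := by
      rw [hD.x₂]
      exact mul_ne_zero hξ0 hx1
    have hq : algebraMap K ℂ D.x₂ / algebraMap K ℂ D.x₁ = ξ := by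
      rw [hD.x₂, mul_div_cancel_right₀ _ hx1]
    obtain ⟨n, hn, hnd⟩ := Mul.exists_iteratedDeriv_ne_zero G₁.w0 G₁.im_pos G₂.w0 G₂.im_pos
      hx1 hx2 (by rw [hq]; exact Mul.not_comm_of_gen hg' hrat) (fun i j => (c i j : ℂ)) L
      ⟨i, hi, j, hj, by exact_mod_cast hij⟩
    have hgm := gm_ne (cu_ind G₁) (cu_ind G₂) hD L c hnd
    have hex : ∃ n, gm D L c n ≠ 0 := ⟨n, hgm⟩
    classical
    have h1 := hO (Nat.find hex) (fun n hn => by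
      have := Nat.find_min hex hn
      simpa using this) (Nat.find_spec hex)
    have hfle : Nat.find hex ≤ 400 * L ^ 2 := (Nat.find_min' hex hgm).trans hn
    set O : ℕ := Nat.find hex with hOdef
    have hLR : (0 : ℝ) < L := by exact_mod_cast hL0
    have hOR : (O : ℝ) ≤ 400 * (L : ℝ) ^ 2 := by exact_mod_cast hfle
    have h2 : (O : ℝ) ^ 2 * T / L ≤ 160000 * (L : ℝ) ^ 3 * T := by
      rw [div_le_iff₀ hLR]
      have h3 : (O : ℝ) ^ 2 ≤ (400 * (L : ℝ) ^ 2) ^ 2 := pow_le_pow_left₀ (Nat.cast_nonneg _) hOR 2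
      calc (O : ℝ) ^ 2 * T ≤ (400 * (L : ℝ) ^ 2) ^ 2 * T := mul_le_mul_of_nonneg_right h3 hT.le
        _ = 160000 * (L : ℝ) ^ 3 * T * L := by ring
    have h3 : (L : ℝ) ^ 3 ≤ M ^ (3 * C0) := by
      calc (L : ℝ) ^ 3 ≤ (M ^ C0) ^ 3 := pow_le_pow_left₀ hLR.le hL 3
        _ = M ^ (3 * C0) := by rw [← pow_mul, mul_comm]
    have hx : Real.exp (-(T * (1120000 * M ^ (3 * C0)))) ≤ ‖w₂ / e - ξ * (w₁ / e)‖ := by
      refine le_trans ?_ h1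
      rw [Real.exp_le_exp, neg_le_neg_iff]
      calc 7 * ((O : ℝ) ^ 2 * T / L) ≤ 7 * (160000 * (L : ℝ) ^ 3 * T) := by linarith
        _ ≤ 7 * (160000 * M ^ (3 * C0) * T) := by gcongr
        _ = T * (1120000 * M ^ (3 * C0)) := by ring
    refine le_trans ?_ (BsE2_div hx hy0 hy)
    rw [Real.exp_le_exp, neg_le_neg_iff, ← mul_add]
    refine mul_le_mul_of_nonneg_left ?_ hT.le
    refine le_trans ?_ hbig
    have h4 : (1 : ℝ) ≤ M ^ 2 := one_le_pow₀ hM1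
    have h5 : 0 ≤ M ^ 2 * (C1 + 14) := by positivity
    have h6 : 1120000 * M ^ (3 * C0) ≤ M ^ (3 * C0) * (M ^ 2 * 1120000) := by nlinarith
    have h7 : M ^ 2 * (C1 + 14) ≤ M ^ (3 * C0) * (M ^ 2 * (C1 + 14)) := by nlinarith
    calc 1120000 * M ^ (3 * C0) + M ^ 2 * (C1 + 14)
        ≤ M ^ (3 * C0) * (M ^ 2 * 1120000) + M ^ (3 * C0) * (M ^ 2 * (C1 + 14)) := add_le_add h6 h7
      _ = M ^ (3 * C0) * (M ^ 2 * (1120000 + C1 + 14)) := by ring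
      _ ≤ M ^ (3 * C0) * (M ^ 2 * (1120000 + 2 * C1 + 100)) := by
          gcongr ?_ * (?_ * ?_)
          linarith

end Pool.Agent.LGO.Bs
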