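import Mathlib
import Pool.Agent.LGO.A.BsDisc
import Pool.Agent.LGO.A.BsLi
import Pool.Agent.EllSch.Cusp

/-!
# LGO base: sizes of the periods, series of `u` for a curve `Crv`

`Crv K H w τ`: `G2 w (w τ) = 2 a`, `G3 w (w τ) = b`, so `(3/2) G2 = 3 a`, `2 G3 = 2 b` are integral and all
their conjugates are at most `3 exp H ≤ (exp H)^4` (`H ≥ 1`).

* `crv_ind`: `Ind w (w τ)`, i.e. `‖w‖² Im τ ≠ 0`.
* `crv_X`: the hypotheses of `BsDisc` with `X = exp H`.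
* `crv_lower`: `lat_lower` with `X = exp H` (`lat w (w τ)` is injective, so `x ≠ 0`).
* `crv_upper`: `G2 ≠ 0` or `G3 ≠ 0` (`EllSch.Basic.disc_ne_zero`).  If `G2 = 2 a ≠ 0`: by Liouville
  (`liou` for the ring of integers of `K`, `K` as a field with the inclusion as the place)
  `‖a‖ ≥ exp(- D H)`; and `G2 w (w τ) = G2 1 τ / w^4` (`EllSch.G2_smul`),
  `‖G2 1 τ‖ ≤ 60 ∑_(x ≠ 0) 1 / ‖lat 1 τ x‖^4 ≤ C₀` because `‖m + n τ‖ ≥ max(|m|, |n|) / 2` for reduced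
  `τ` (`|m| ≤ |n|`: `≥ |n| Im τ`, `Im τ ≥ √3/2`; otherwise `≥ |m| - |n|/2`); so `‖w‖^4 ≤ C₀ exp(D H)`.
  The same with `G3` and `w^6`.
* `crv_ser`: `U = us (3 a) (2 b)` in `K⟦X⟧`; integrality `us_int` (with `x = 1`; `K ≅ Frac 𝓞 K`), sizes
  from `us_bd` at every embedding (`us_map`): `‖σ (coeff n U)‖ ≤ exp(H n)`; `iu_tay`.
-/

namespace Pool.Agent.LGO.Bs

open Pool.Agent.EllSch Pool.Agent.Schn NumberField

variable {K : IntermediateField ℚ ℂ} {H : ℝ} {w τ : ℂ}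

private theorem BsW_ind {w τ : ℂ} (hw : w ≠ 0) (hτ : 0 < τ.im) : Ind w (w * τ) := by
  have h1 : w.re * (w * τ).im - w.im * (w * τ).re = ‖w‖ ^ 2 * τ.im := by
    rw [← Complex.normSq_eq_norm_sq, Complex.normSq_apply, Complex.mul_im, Complex.mul_re]
    ring
  unfold Ind
  rw [h1]
  have h2 : 0 < ‖w‖ := norm_pos_iff.2 hw
  have h3 : 0 < ‖w‖ ^ 2 * τ.im := by positivity
  exact h3.ne'

private theorem BsW_exp {H : ℝ} (hH : 1 ≤ H) : 2 ≤ Real.exp H := by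
  have := Real.add_one_le_exp H
  linarith

private theorem BsW_exp4 {H : ℝ} (hH : 1 ≤ H) : 3 * Real.exp H ≤ Real.exp H ^ 4 := by
  have h2 := BsW_exp hH
  have h3 : (3 : ℝ) ≤ Real.exp H ^ 3 := by
    have : (2 : ℝ) ^ 3 ≤ Real.exp H ^ 3 := pow_le_pow_left₀ (by norm_num) h2 3
    linarith
  calc 3 * Real.exp H ≤ Real.exp H ^ 3 * Real.exp H :=
        mul_le_mul_of_nonneg_right h3 (Real.exp_pos _).le
    _ = Real.exp H ^ 4 := by ring

theorem crv_ind (h : Crv K H w τ) : Ind w (w * τ) := BsW_ind h.w_ne h.red.im_pos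

theorem crv_X (h : Crv K H w τ) (hH : 1 ≤ H) :
    ‖3 / 2 * G2 w (w * τ)‖ ≤ Real.exp H ^ 4 ∧ ‖2 * G3 w (w * τ)‖ ≤ Real.exp H ^ 4 := by
  obtain ⟨a, -, ha, hab⟩ := h.g2
  obtain ⟨b, -, hb, hbb⟩ := h.g3
  have h1 : ‖(a : ℂ)‖ ≤ Real.exp H := hab (algebraMap K ℂ)
  have h2 : ‖(b : ℂ)‖ ≤ Real.exp H := hbb (algebraMap K ℂ)
  have h3 := BsW_exp4 hH
  have h4 := Real.exp_pos H
  constructor
  · have h5 : 3 / 2 * G2 w (w * τ) = 3 * (a : ℂ) := by rw [ha]; ring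
    rw [h5, norm_mul, Complex.norm_ofNat]
    linarith
  · rw [hb, norm_mul, Complex.norm_ofNat]
    linarith

theorem crv_lower (h : Crv K H w τ) (hH : 1 ≤ H) {ω : ℂ} (hω : InLat w τ ω) (h0 : ω ≠ 0) :
    Real.exp (-(3 * H)) ≤ ‖ω‖ := by
  obtain ⟨x, hx⟩ := hω
  have hx0 : x ≠ 0 := by
    rintro rfl
    exact h0 (by rw [hx]; simp [lat])
  obtain ⟨hA, hB⟩ := crv_X h hH
  have hl := lat_lower (crv_ind h) (Real.one_le_exp (by linarith)) hA hB hx0
  rw [hx]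
  refine le_trans ?_ hl.le
  have h2 := BsW_exp hH
  have h4 := Real.exp_pos H
  rw [le_div_iff₀ (by positivity), Real.exp_neg, inv_mul_le_iff₀ (Real.exp_pos _), mul_one]
  have e : Real.exp (3 * H) = Real.exp H ^ 3 := by rw [← Real.exp_nat_mul]; norm_num
  rw [e]
  have h5 : (2 : ℝ) ^ 2 ≤ Real.exp H ^ 2 := pow_le_pow_left₀ (by norm_num) h2 2
  calc 4 * Real.exp H ≤ Real.exp H ^ 2 * Real.exp H :=
        mul_le_mul_of_nonneg_right (by linarith) h4.le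
    _ = Real.exp H ^ 3 := by ring

private theorem BsW_norm {τ : ℂ} (h : Red τ) (x : ℤ × ℤ) : ‖x‖ / 2 ≤ ‖lat 1 τ x‖ := by
  obtain ⟨m, n⟩ := x
  have him : 1 / 2 ≤ τ.im := by
    have h1 : 1 ≤ τ.re ^ 2 + τ.im ^ 2 := by
      have h2 : 1 ≤ ‖τ‖ ^ 2 := by nlinarith [h.one_le]
      rw [Complex.sq_norm, Complex.normSq_apply] at h2
      nlinarith
    have h3 : τ.re ^ 2 ≤ 1 / 4 := by
      have := h.re_le
      nlinarith [abs_nonneg τ.re, sq_abs τ.re]
    nlinarith [h.im_pos]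
  rw [Prod.norm_def, Int.norm_eq_abs, Int.norm_eq_abs]
  have hre : (lat 1 τ (m, n)).re = m + n * τ.re := by simp [lat]
  have him' : (lat 1 τ (m, n)).im = n * τ.im := by simp [lat]
  rcases le_total |(m : ℝ)| |(n : ℝ)| with hc | hc
  · have h1 := Complex.abs_im_le_norm (lat 1 τ (m, n))
    rw [him', abs_mul, abs_of_pos h.im_pos] at h1
    rw [max_eq_right hc]
    nlinarith [abs_nonneg (n : ℝ)]
  · have h1 := Complex.abs_re_le_norm (lat 1 τ (m, n))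
    rw [hre] at h1
    have h2 : |(m : ℝ)| - |(n : ℝ)| * |τ.re| ≤ |(m : ℝ) + n * τ.re| := by
      rw [← abs_mul]
      have h5 := abs_sub_abs_le_abs_sub (m : ℝ) (-(n * τ.re))
      rwa [abs_neg, sub_neg_eq_add] at h5
    have h3 := h.re_le
    rw [max_eq_left hc]
    nlinarith [abs_nonneg (n : ℝ), abs_nonneg τ.re]

private theorem BsW_one_le {x : ℤ × ℤ} (hx : x ≠ 0) : 1 ≤ ‖x‖ := by
  obtain ⟨m, n⟩ := x
  rw [Prod.norm_def, Int.norm_eq_abs, Int.norm_eq_abs]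
  by_cases hm : m = 0
  · have hn : n ≠ 0 := by
      rintro rfl
      exact hx (by rw [hm]; rfl)
    exact le_max_of_le_right (by exact_mod_cast Int.one_le_abs hn)
  · exact le_max_of_le_left (by exact_mod_cast Int.one_le_abs hm)

private theorem BsW_sum {τ : ℂ} (h : Red τ) (k : ℕ) (hk : 3 ≤ k) :
    ‖∑' x : ℤ × ℤ, 1 / lat 1 τ x ^ k‖ ≤ 2 ^ k * ∑' x : ℤ × ℤ, 1 / ‖x‖ ^ 3 := by
  rw [← tsum_mul_left]
  refine tsum_of_norm_bounded (Cusp.summable_norm_cube.mul_left _).hasSum fun x => ?_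
  by_cases hx : x = 0
  · subst hx
    have h1 : lat 1 τ (0 : ℤ × ℤ) = 0 := by simp [lat]
    rw [h1, zero_pow (by omega), div_zero, norm_zero]
    positivity
  · have h1 := BsW_one_le hx
    have h2 := BsW_norm h x
    rw [norm_div, norm_one, norm_pow]
    have h3 : 0 < ‖x‖ / 2 := by linarith
    calc 1 / ‖lat 1 τ x‖ ^ k ≤ 1 / (‖x‖ / 2) ^ k :=
          one_div_le_one_div_of_le (by positivity) (pow_le_pow_left₀ h3.le h2 k)
      _ = 2 ^ k * (1 / ‖x‖ ^ k) := by rw [div_pow, one_div_div, mul_one_div]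
      _ ≤ 2 ^ k * (1 / ‖x‖ ^ 3) := by
          refine mul_le_mul_of_nonneg_left ?_ (by positivity)
          exact one_div_le_one_div_of_le (by positivity) (pow_le_pow_right₀ h1 hk)

private theorem BsW_key {C D H W : ℝ} {k : ℕ} (hC : 0 ≤ C) (hD : 1 ≤ D) (hH : 1 ≤ H)
    (hk : k ≠ 0) (h : W ^ k * Real.exp (-(D * H)) ≤ C) : W ≤ Real.exp ((1 + C) * D * H) := by
  have hDH : 1 ≤ D * H := by nlinarith
  rcases le_total W 1 with h1 | h1
  · refine h1.trans (Real.one_le_exp ?_)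
    have : 0 ≤ (1 + C) * (D * H) := by positivity
    linarith [mul_assoc (1 + C) D H]
  · have h2 : W ≤ W ^ k := le_self_pow₀ h1 hk
    have h3 : W ^ k ≤ C * Real.exp (D * H) := by
      rw [Real.exp_neg, ← div_eq_mul_inv, div_le_iff₀ (Real.exp_pos _)] at h
      exact h
    have h4 : C ≤ Real.exp C := by
      have := Real.add_one_le_exp C
      linarith
    calc W ≤ C * Real.exp (D * H) := h2.trans h3
      _ ≤ Real.exp C * Real.exp (D * H) := mul_le_mul_of_nonneg_right h4 (Real.exp_pos _).le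
      _ = Real.exp (C + D * H) := (Real.exp_add _ _).symm
      _ ≤ Real.exp ((1 + C) * D * H) := by
          refine Real.exp_le_exp.2 ?_
          have : C * 1 ≤ C * (D * H) := mul_le_mul_of_nonneg_left hDH hC
          nlinarith

private theorem BsW_liou (K : IntermediateField ℚ ℂ) [NumberField K] {D H : ℝ}
    (hD : (Module.finrank ℚ K : ℝ) ≤ D) (hH : 1 ≤ H) {a : K} (ha : IsIntegral ℤ a) (h0 : a ≠ 0)
    (hb : ∀ σ : K →+* ℂ, ‖σ a‖ ≤ Real.exp H) : Real.exp (-(D * H)) ≤ ‖(a : ℂ)‖ := by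
  have hβ : (⟨a, ha⟩ : 𝓞 K) ≠ 0 := by
    intro h
    exact h0 (congrArg Subtype.val h)
  exact liou (algebraMap K ℂ) hβ hD (by linarith) hb

theorem crv_upper : ∃ C : ℝ, 1 ≤ C ∧ ∀ (K : IntermediateField ℚ ℂ) [FiniteDimensional ℚ K]
    (D H : ℝ) (w τ : ℂ), (Module.finrank ℚ K : ℝ) ≤ D → 1 ≤ H → Crv K H w τ →
    ‖w‖ ≤ Real.exp (C * D * H) := by
  set S : ℝ := ∑' x : ℤ × ℤ, 1 / ‖x‖ ^ 3 with hS
  have hS0 : 0 ≤ S := tsum_nonneg fun x => by positivity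
  have hC0 : 0 ≤ 140 * (2 ^ 6 * S) := by positivity
  refine ⟨1 + 140 * (2 ^ 6 * S), by linarith, ?_⟩
  intro K _ D H w τ hD hH h
  have : NumberField K := { }
  have hD1 : 1 ≤ D := by
    refine le_trans ?_ hD
    have : 0 < Module.finrank ℚ K := Module.finrank_pos
    exact_mod_cast this
  have hdisc := disc_ne_zero (crv_ind h)
  have hw := h.w_ne
  have hw0 : 0 < ‖w‖ := norm_pos_iff.2 hw
  obtain ⟨a, hai, ha, hab⟩ := h.g2
  obtain ⟨b, hbi, hb, hbb⟩ := h.g3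
  have e2 : G2 1 τ = G2 w (w * τ) * w ^ 4 := by
    have := G2_smul (a := 1) (b := τ) hw
    rw [mul_one] at this
    rw [this]
    field_simp
  have e3 : G3 1 τ = G3 w (w * τ) * w ^ 6 := by
    have := G3_smul (a := 1) (b := τ) hw
    rw [mul_one] at this
    rw [this]
    field_simp
  by_cases h2 : a = 0
  · have h3 : b ≠ 0 := by
      rintro rfl
      apply hdisc
      rw [ha, hb, h2]
      simp
    refine BsW_key hC0 hD1 hH (k := 6) (by norm_num) ?_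
    have h4 := BsW_liou K hD hH hbi h3 hbb
    calc ‖w‖ ^ 6 * Real.exp (-(D * H)) ≤ ‖w‖ ^ 6 * ‖(b : ℂ)‖ :=
          mul_le_mul_of_nonneg_left h4 (by positivity)
      _ = ‖G3 1 τ‖ := by rw [e3, hb, norm_mul, norm_pow, mul_comm]
      _ ≤ 140 * (2 ^ 6 * S) := by
          rw [G3, norm_mul, Complex.norm_ofNat]
          exact mul_le_mul_of_nonneg_left (BsW_sum h.red 6 (by norm_num)) (by norm_num)
  · refine BsW_key hC0 hD1 hH (k := 4) (by norm_num) ?_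
    have h4 := BsW_liou K hD hH hai h2 hab
    have h5 : ‖(a : ℂ)‖ ≤ ‖2 * (a : ℂ)‖ := by
      rw [norm_mul, Complex.norm_ofNat]
      linarith [norm_nonneg (a : ℂ)]
    calc ‖w‖ ^ 4 * Real.exp (-(D * H)) ≤ ‖w‖ ^ 4 * ‖2 * (a : ℂ)‖ :=
          mul_le_mul_of_nonneg_left (h4.trans h5) (by positivity)
      _ = ‖G2 1 τ‖ := by rw [e2, ha, norm_mul (2 * (a : ℂ)), norm_pow, mul_comm]
      _ ≤ 60 * (2 ^ 4 * S) := by
          rw [G2, norm_mul, Complex.norm_ofNat]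
          exact mul_le_mul_of_nonneg_left (BsW_sum h.red 4 (by norm_num)) (by norm_num)
      _ ≤ 140 * (2 ^ 6 * S) := by nlinarith

theorem crv_ser (h : Crv K H w τ) (hH : 1 ≤ H) :
    ∃ U : PowerSeries K, PowerSeries.map (algebraMap K ℂ) U =
        us (3 / 2 * G2 w (w * τ)) (2 * G3 w (w * τ)) ∧
      tay (Mul.iu w (w * τ)) = PowerSeries.map (algebraMap K ℂ) U ∧
      PowerSeries.coeff 0 U = 0 ∧ PowerSeries.coeff 1 U = 0 ∧
      (∀ n : ℕ, IsIntegral ℤ ((n.factorial : K) * PowerSeries.coeff n U)) ∧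
      ∀ (n : ℕ) (σ : K →+* ℂ), ‖σ (PowerSeries.coeff n U)‖ ≤ Real.exp (H * n) := by
  obtain ⟨a, hai, ha, hab⟩ := h.g2
  obtain ⟨b, hbi, hb, hbb⟩ := h.g3
  have hmap : PowerSeries.map (algebraMap K ℂ) (us (3 * a) (2 * b)) =
      us (3 / 2 * G2 w (w * τ)) (2 * G3 w (w * τ)) := by
    rw [us_map, map_mul, map_mul, map_ofNat, map_ofNat, ha, hb]
    have e1 : (algebraMap K ℂ) a = (a : ℂ) := rfl
    have e2 : (algebraMap K ℂ) b = (b : ℂ) := rfl
    have e3 : 3 / 2 * (2 * (a : ℂ)) = 3 * (a : ℂ) := by ring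
    rw [e1, e2, e3]
  refine ⟨us (3 * a) (2 * b), hmap, ?_, us_zero _ _, us_one _ _, ?_, ?_⟩
  · rw [hmap]
    exact iu_tay (crv_ind h)
  · intro n
    obtain ⟨y, hy⟩ := us_int (K := K) (3 * ⟨a, hai⟩) (2 * ⟨b, hbi⟩) 1 n
    have e1 : (((3 * ⟨a, hai⟩ : 𝓞 K)) : K) = 3 * a := by
      rw [RingOfIntegers.coe_eq_algebraMap, map_mul, map_ofNat]
      rfl
    have e2 : (((2 * ⟨b, hbi⟩ : 𝓞 K)) : K) = 2 * b := by
      rw [RingOfIntegers.coe_eq_algebraMap, map_mul, map_ofNat]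
      rfl
    rw [e1, e2, PowerSeries.coeff_rescale] at hy
    have e3 : ((1 : 𝓞 K) : K) = 1 := by
      rw [RingOfIntegers.coe_eq_algebraMap, map_one]
    rw [e3, one_pow, one_mul] at hy
    rw [← hy]
    exact RingOfIntegers.isIntegral_coe y
  · intro n σ
    have e : σ (PowerSeries.coeff n (us (3 * a) (2 * b))) =
        PowerSeries.coeff n (us (3 * σ a) (2 * σ b)) := by
      rw [← PowerSeries.coeff_map, us_map, map_mul, map_mul, map_ofNat, map_ofNat]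
    rw [e]
    have hX : 1 ≤ Real.exp H := Real.one_le_exp (by linarith)
    have h4 := Real.exp_pos H
    have h3 := BsW_exp4 hH
    have hA : ‖3 * σ a‖ ≤ Real.exp H ^ 4 := by
      rw [norm_mul, Complex.norm_ofNat]
      linarith [hab σ]
    have hB : ‖2 * σ b‖ ≤ Real.exp H ^ 4 := by
      rw [norm_mul, Complex.norm_ofNat]
      linarith [hbb σ]
    have hn : Real.exp (H * n) = Real.exp H ^ n := by
      rw [mul_comm, Real.exp_nat_mul]
    rw [hn]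
    match n with
    | 0 => rw [us_zero, norm_zero]; positivity
    | 1 => rw [us_one, norm_zero]; positivity
    | m + 2 => exact (us_bd hX hA hB m).trans (pow_le_pow_right₀ hX (by omega))

end Pool.Agent.LGO.Bs
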