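import Mathlib
import Pool.Agent.LGO.EngDefs
import Pool.Agent.LGO.A.MulInt

/-!
# LGO (A): strong form of the multiplicity estimate

As `mult_t` (`MulInt.lean`), but the hypothesis that the lattices are not commensurable via `x₂ / x₁` is
replaced by: no `n` with `0 < n < L` satisfies `Mp (n x₂ / x₁)`.

Proof (as in `MulFin.lean`, helper35): the case distinction `P ∤ Q` gives the bound; the case `P ∣ Q`
(with `P` irreducible of degrees `< L`) gives a shift `y = u₂(ξ z + c)` which satisfies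
`P(u₁(z), y) = 0` near some point, so `ξ Λ₁` and `Λ₂` are commensurable and the index is `< L`
(compare `idx_t`).
-/

namespace Pool.Agent.LGO.Mul

open Polynomial Pool.Agent.EllSch Filter Topology
open scoped Polynomial.Bivariate

/-- the claim for one choice of the point over `y`, with the index -/
private lemma MulStr_one {a b a' b' : ℂ} (h : Ind a b) (h' : Ind a' b') {ξ : ℂ} (hξ : ξ ≠ 0)
    {P : ℂ[X][Y]} (hP : P ≠ 0) (hQ : P ∣ QQ (G2 a b) (G3 a b) (G2 a' b') (G3 a' b') ξ P) {z₀ w : ℂ}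
    (hz : Off a b z₀) (hz0 : wp a b z₀ ≠ 0) (hw : Off a' b' w) (hw0 : wp a' b' w ≠ 0)
    (h0 : P.evalEval (iu a b z₀) (iu a' b' w) = 0)
    (h1 : (pX P).evalEval (iu a b z₀) (iu a' b' w) * (-wq a b z₀ / wp a b z₀ ^ 2) -
      (pY P).evalEval (iu a b z₀) (iu a' b' w) * (ξ * (-wq a' b' w / wp a' b' w ^ 2)) ≠ 0) :
    ∃ n : ℕ, 0 < n ∧ n ≤ dY P ∧
      ∀ x : ℤ × ℤ, ∃ y : ℤ × ℤ, (n : ℂ) * (ξ * lat a b x) = lat a' b' y := by
  obtain ⟨c, hc⟩ : ∃ c, ξ * z₀ + c = w := ⟨w - ξ * z₀, by ring⟩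
  subst hc
  obtain ⟨T, hT⟩ := hQ
  have ev1 : ∀ᶠ z in 𝓝 z₀, Off a b z := (isOpen_off h).eventually_mem hz
  have ev2 : ∀ᶠ z in 𝓝 z₀, wp a b z ≠ 0 := (hasDerivAt_wp h hz).continuousAt.eventually_ne hz0
  have hlin : ContinuousAt (fun z : ℂ => ξ * z + c) z₀ := by fun_prop
  have ev3 : ∀ᶠ z in 𝓝 z₀, Off a' b' (ξ * z + c) :=
    hlin.eventually ((isOpen_off h').eventually_mem hw)
  have ev4 : ∀ᶠ z in 𝓝 z₀, wp a' b' (ξ * z + c) ≠ 0 :=
    hlin.eventually ((hasDerivAt_wp h' hw).continuousAt.eventually_ne hw0)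
  have dl : ∀ z : ℂ, HasDerivAt (fun z : ℂ => ξ * z + c) ξ z := by
    intro z
    have := ((hasDerivAt_id z).const_mul ξ).add_const c
    rwa [mul_one] at this
  have dG : ∀ z, Off a' b' (ξ * z + c) → wp a' b' (ξ * z + c) ≠ 0 →
      HasDerivAt (fun z => iu a' b' (ξ * z + c))
        (ξ * (-wq a' b' (ξ * z + c) / wp a' b' (ξ * z + c) ^ 2)) z := by
    intro z g1 g2
    have := (hasDerivAt_iu h' g1 g2).comp z (dl z)
    rw [mul_comm] at this
    exact this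
  have aF : AnalyticAt ℂ (iu a b) z₀ := analyticAt_iu h hz hz0
  have aG : AnalyticAt ℂ (fun z => iu a' b' (ξ * z + c)) z₀ := by
    have g1 : AnalyticAt ℂ (fun z : ℂ => ξ * z + c) z₀ := by fun_prop
    exact (analyticAt_iu h' hw hw0).comp_of_eq g1 rfl
  have aφ : AnalyticAt ℂ (fun z => P.evalEval (iu a b z) (iu a' b' (ξ * z + c))) z₀ :=
    analyticAt_eval P aF aG
  have aT : AnalyticAt ℂ (fun z => T.evalEval (iu a b z) (iu a' b' (ξ * z + c))) z₀ :=
    analyticAt_eval T aF aG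
  have aψ : AnalyticAt ℂ (fun z => (pX P).evalEval (iu a b z) (iu a' b' (ξ * z + c)) *
      deriv (iu a b) z - (pY P).evalEval (iu a b z) (iu a' b' (ξ * z + c)) *
      deriv (fun z => iu a' b' (ξ * z + c)) z) z₀ :=
    ((analyticAt_eval (pX P) aF aG).mul aF.deriv).sub
      ((analyticAt_eval (pY P) aF aG).mul aG.deriv)
  have key := local_zero aφ aψ aT h0 (by
    rw [(hasDerivAt_iu h hz hz0).deriv, (dG z₀ hw hw0).deriv]
    exact h1) (by
    filter_upwards [ev1, ev2, ev3, ev4] with z z1 z2 z3 z4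
    have k1 := hasDerivAt_iu h z1 z2
    have k2 := dG z z3 z4
    have k3 := (hasDerivAt_eval P k1 k2).deriv
    rw [k3, k1.deriv, k2.deriv]
    have k4 := evalEval_QQ (G2 a b) (G3 a b) (G2 a' b') (G3 a' b') ξ P (iu a b z)
      (iu a' b' (ξ * z + c))
    rw [hT, evalEval_mul, ← sq_deriv h z1 z2, ← sq_deriv h' z3 z4] at k4
    linear_combination -k4)
  exact idx_of_local h h' hξ hP hz hz0 hw hw0 key

/-- the case `P ∣ Q`, with the index -/
theorem bad_idx {a b a' b' : ℂ} (h : Ind a b) (h' : Ind a' b') {ξ : ℂ} (hξ : ξ ≠ 0) {P : ℂ[X][Y]}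
    (hP : Irreducible P) (hX : 0 < dX P) (hY : 0 < dY P)
    (hQ : P ∣ QQ (G2 a b) (G3 a b) (G2 a' b') (G3 a' b') ξ P) :
    ∃ n : ℕ, 0 < n ∧ n ≤ dY P ∧
      ∀ x : ℤ × ℤ, ∃ y : ℤ × ℤ, (n : ℂ) * (ξ * lat a b x) = lat a' b' y := by
  have hff : ff (G2 a b) (G3 a b) ≠ 0 := by
    intro h0
    have := congrArg (fun p : ℂ[X] => p.coeff 1) h0
    simp [ff, coeff_X_pow, coeff_C_mul, coeff_ofNat_mul] at this
  have hH : ¬ P ∣ pX P * C (ff (G2 a b) (G3 a b)) * (X : ℂ[X]).map C := by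
    intro hd
    rcases hP.prime.dvd_or_dvd hd with hd | hd
    · rcases hP.prime.dvd_or_dvd hd with hd | hd
      · exact not_dvd_pX hX hd
      · exact not_dvd_C hY hff hd
    · exact not_dvd_map hX X_ne_zero hd
  obtain ⟨x, y, hxy, hne⟩ := exists_point hP hY hH
  rw [evalEval_mul, evalEval_mul, evalEval_C, evalEval_map_C, eval_X] at hne
  have hy : y ≠ 0 := right_ne_zero_of_mul hne
  have hf : (ff (G2 a b) (G3 a b)).eval x ≠ 0 := right_ne_zero_of_mul (left_ne_zero_of_mul hne)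
  have hpx : (pX P).evalEval x y ≠ 0 := left_ne_zero_of_mul (left_ne_zero_of_mul hne)
  have hx : x ≠ 0 := by
    rintro rfl
    apply hf
    simp [ff]
  obtain ⟨z₀, hz, hz0, hzx⟩ := exists_iu_eq h hx
  obtain ⟨z₁, hw, hw0, hwy⟩ := exists_iu_eq h' hy
  have hw' : Off a' b' (-z₁) := off_neg.2 hw
  have hw0' : wp a' b' (-z₁) ≠ 0 := by rwa [wp_neg h']
  have hwy' : iu a' b' (-z₁) = y := by rw [iu_neg h', hwy]
  have hd : -wq a b z₀ / wp a b z₀ ^ 2 ≠ 0 := by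
    intro h0
    have := sq_deriv h hz hz0
    rw [h0, hzx] at this
    apply hf
    rw [← this]
    ring
  by_cases hc : (pX P).evalEval (iu a b z₀) (iu a' b' z₁) * (-wq a b z₀ / wp a b z₀ ^ 2) -
      (pY P).evalEval (iu a b z₀) (iu a' b' z₁) * (ξ * (-wq a' b' z₁ / wp a' b' z₁ ^ 2)) = 0
  · apply MulStr_one h h' hξ hP.ne_zero hQ hz hz0 hw' hw0' (by rw [hzx, hwy']; exact hxy)
    rw [wq_neg h', wp_neg h', hzx, hwy']
    rw [hzx, hwy] at hc
    intro h0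
    have h2 : 2 * ((pX P).evalEval x y * (-wq a b z₀ / wp a b z₀ ^ 2)) = 0 := by
      linear_combination hc + h0
    exact (mul_ne_zero two_ne_zero (mul_ne_zero hpx hd)) h2
  · exact MulStr_one h h' hξ hP.ne_zero hQ hz hz0 hw hw0 (by rw [hzx, hwy]; exact hxy) hc

/-- as `ord_of_irr`, with a bound for the degree in `Y` -/
theorem MulStr_ord_of_irr {F G : ℂ → ℂ} (hF : AnalyticAt ℂ F 0) (hG : AnalyticAt ℂ G 0) {M : ℕ}
    (h : ∀ P : ℂ[X][Y], Irreducible P → dY P < M →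
      analyticOrderAt (fun z => P.evalEval (F z) (G z)) 0 ≤ ((99 * (dX P + dY P) ^ 2 : ℕ) : ℕ∞))
    {P : ℂ[X][Y]} (hP : P ≠ 0) (hM : dY P < M) :
    analyticOrderAt (fun z => P.evalEval (F z) (G z)) 0 ≤ ((99 * (dX P + dY P) ^ 2 : ℕ) : ℕ∞) := by
  revert hP hM
  induction P using WfDvdMonoid.induction_on_irreducible with
  | zero => exact fun h0 => absurd rfl h0
  | unit u hu =>
    intro _ _
    have h1 : analyticOrderAt (fun z => u.evalEval (F z) (G z)) 0 = 0 := by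
      rw [(analyticAt_eval u hF hG).analyticOrderAt_eq_zero]
      obtain ⟨v, hv⟩ := hu.exists_right_inv
      intro h2
      have h3 := congrArg (fun S : ℂ[X][Y] => S.evalEval (F 0) (G 0)) hv
      simp only [evalEval_mul] at h3
      rw [h2, zero_mul] at h3
      have h4 : (1 : ℂ[X][Y]).evalEval (F 0) (G 0) = 1 := by simp [evalEval]
      rw [h4] at h3
      exact zero_ne_one h3
    rw [h1]
    exact zero_le
  | mul a i ha hi ih =>
    intro _ hM
    have e : (fun z => (i * a).evalEval (F z) (G z)) =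
        (fun z => i.evalEval (F z) (G z)) * fun z => a.evalEval (F z) (G z) := by
      funext z
      rw [evalEval_mul]
      rfl
    have hd := dY_mul hi.ne_zero ha
    rw [e, analyticOrderAt_mul (analyticAt_eval i hF hG) (analyticAt_eval a hF hG),
      dX_mul hi.ne_zero ha, hd]
    refine (add_le_add (h i hi (by omega)) (ih ha (by omega))).trans ?_
    have h5 : 99 * (dX i + dY i) ^ 2 + 99 * (dX a + dY a) ^ 2 ≤
        99 * (dX i + dX a + (dY i + dY a)) ^ 2 := by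
      nlinarith [mul_nonneg (Nat.zero_le (dX i + dY i)) (Nat.zero_le (dX a + dY a))]
    exact_mod_cast h5

private theorem MulStr_le {n d : ℕ} (h : n ≤ d) (e : ℕ) : 2 * n ≤ 99 * (d + e) ^ 2 := by
  rcases Nat.eq_zero_or_pos n with h0 | h0
  · subst h0; simp
  · have h1 : 1 ≤ d + e := by omega
    nlinarith

private theorem MulStr_le' {n d : ℕ} (h : n ≤ d) (e : ℕ) : 2 * n ≤ 99 * (e + d) ^ 2 := by
  rw [add_comm e d]; exact MulStr_le h e

private theorem MulStr_tendsto (ξ : ℂ) : Tendsto (fun z : ℂ => ξ * z) (𝓝 0) (𝓝 0) := by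
  have h : Tendsto (fun z : ℂ => ξ * z) (𝓝 0) (𝓝 (ξ * 0)) :=
    (continuous_const.mul continuous_id).tendsto 0
  rwa [mul_zero] at h

private theorem MulStr_lin (ξ z : ℂ) : AnalyticAt ℂ (fun z : ℂ => ξ * z) z :=
  analyticAt_const.mul analyticAt_id

private theorem MulStr_an {a' b' : ℂ} (h' : Ind a' b') (ξ : ℂ) :
    AnalyticAt ℂ (fun z => iu a' b' (ξ * z)) 0 := by
  have h1 : AnalyticAt ℂ (iu a' b') (ξ * 0) := by
    rw [mul_zero]; exact analyticAt_iu_zero h'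
  exact h1.comp (MulStr_lin ξ 0)

private theorem MulStr_order {a' b' : ℂ} (h' : Ind a' b') {ξ : ℂ} (hξ : ξ ≠ 0) :
    analyticOrderAt (fun z => iu a' b' (ξ * z)) 0 = 2 := by
  have hd : deriv (fun z : ℂ => ξ * z) 0 ≠ 0 := by
    have : deriv (fun z : ℂ => ξ * z) 0 = ξ := by simp
    rw [this]; exact hξ
  have h := analyticOrderAt_comp_of_deriv_ne_zero (f := iu a' b') (MulStr_lin ξ 0) hd
  have e : (iu a' b') ∘ (fun z : ℂ => ξ * z) = fun z => iu a' b' (ξ * z) := rfl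
  rw [e, mul_zero, order_iu_zero h'] at h
  exact h

private theorem MulStr_ode {a' b' : ℂ} (h' : Ind a' b') (ξ : ℂ) : ∀ᶠ z in 𝓝 (0 : ℂ),
    deriv (fun z => iu a' b' (ξ * z)) z ^ 2 =
      ξ ^ 2 * (ff (G2 a' b') (G3 a' b')).eval (iu a' b' (ξ * z)) := by
  filter_upwards [(MulStr_tendsto ξ).eventually (ode_iu h')] with z hz
  rw [deriv_comp_mul_left, smul_eq_mul, mul_pow, hz]

/-- **multiplicity estimate**, with the index -/
theorem MulStr_mult {a b a' b' : ℂ} (h : Ind a b) (h' : Ind a' b') {ξ : ℂ} (hξ : ξ ≠ 0) {M : ℕ}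
    (hn : ¬ ∃ n : ℕ, 0 < n ∧ n < M ∧
      ∀ x : ℤ × ℤ, ∃ y : ℤ × ℤ, (n : ℂ) * (ξ * lat a b x) = lat a' b' y)
    {P : ℂ[X][Y]} (hP : P ≠ 0) (hM : dY P < M) :
    analyticOrderAt (fun z => P.evalEval (iu a b z) (iu a' b' (ξ * z))) 0 ≤
      ((99 * (dX P + dY P) ^ 2 : ℕ) : ℕ∞) := by
  have hF := analyticAt_iu_zero h
  have hG := MulStr_an h' ξ
  refine MulStr_ord_of_irr (F := iu a b) (G := fun z => iu a' b' (ξ * z)) hF hG
    (fun P hP hM => ?_) hP hM
  rcases Nat.eq_zero_or_pos (dY P) with hY | hY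
  · obtain ⟨p, rfl⟩ := eq_C_of_dY_eq_zero hY
    have hp : p ≠ 0 := by
      rintro rfl
      exact hP.ne_zero (by simp)
    have h1 := ord_one hF (order_iu_zero h) hp
    have h2 : p.natDegree ≤ dX (C p) := by
      have := natDegree_coeff_le (C p) 0
      rwa [coeff_C_zero] at this
    refine le_trans ?_ (Nat.cast_le.2 (MulStr_le h2 (dY (C p))))
    refine le_trans (le_of_eq ?_) h1
    congr 1
    funext z
    rw [evalEval_C]
  rcases Nat.eq_zero_or_pos (dX P) with hX | hX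
  · obtain ⟨p, rfl⟩ := eq_map_of_dX_eq_zero hX
    have hp : p ≠ 0 := by
      rintro rfl
      exact hP.ne_zero (by simp)
    have h1 := ord_one hG (MulStr_order h' hξ) hp
    have h2 : p.natDegree ≤ dY (p.map C) := by
      unfold dY
      rw [natDegree_map_eq_of_injective C_injective]
    refine le_trans ?_ (Nat.cast_le.2 (MulStr_le' h2 (dX (p.map C))))
    refine le_trans (le_of_eq ?_) h1
    congr 1
    funext z
    rw [evalEval_map_C]
  · refine ord_irr hF hG (order_iu_zero h) (ode_iu h) (MulStr_ode h' ξ) hP hY fun hd => hn ?_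
    obtain ⟨n, n0, n1, n2⟩ := bad_idx h h' hξ hP hX hY hd
    exact ⟨n, n0, lt_of_le_of_lt n1 hM, n2⟩

private theorem MulStr_natDegree_coeff_sumP (p : ℕ → ℕ → ℂ) (L k : ℕ) :
    ((sumP p L).coeff k).natDegree ≤ L := by
  unfold sumP
  rw [finsetSum_coeff]
  refine natDegree_sum_le_of_forall_le _ _ fun i hi => ?_
  rw [finsetSum_coeff]
  refine natDegree_sum_le_of_forall_le _ _ fun j _ => ?_
  rw [coeff_monomial]
  split_ifs
  · exact (natDegree_monomial_le _).trans (Finset.mem_range.1 hi).le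
  · simp

theorem mult_str {w₁ τ₁ w₂ τ₂ : ℂ} (hw₁ : w₁ ≠ 0) (hτ₁ : 0 < τ₁.im) (hw₂ : w₂ ≠ 0)
    (hτ₂ : 0 < τ₂.im) {x₁ x₂ : ℂ} (hx₁ : x₁ ≠ 0) (hx₂ : x₂ ≠ 0) (p : ℕ → ℕ → ℂ) (L : ℕ)
    (hp : ∃ i < L, ∃ j < L, p i j ≠ 0)
    (hn : ¬ ∃ n : ℕ, 0 < n ∧ n < L ∧ Mp (n * (x₂ / x₁)) (Lt w₁ τ₁) (Lt w₂ τ₂)) :
    analyticOrderAt (fun t => ∑ i ∈ Finset.range L, ∑ j ∈ Finset.range L,
      p i j * iu w₁ (w₁ * τ₁) (x₁ * t) ^ i * iu w₂ (w₂ * τ₂) (x₂ * t) ^ j) 0 ≤
      ((400 * L ^ 2 : ℕ) : ℕ∞) := by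
  have hP : sumP p L ≠ 0 := by
    obtain ⟨i, hi, j, hj, hij⟩ := hp
    intro h
    have h1 := coeff_sumP p hi hj
    rw [h, coeff_zero, coeff_zero] at h1
    exact hij h1.symm
  have hL : 0 < L := by
    obtain ⟨i, hi, -⟩ := hp
    omega
  have hdY := dY_sumP p hL
  have hdX : dX (sumP p L) ≤ L := dX_le_of_coeff _ _ fun k => MulStr_natDegree_coeff_sumP p L k
  have hm := MulStr_mult (ind_of_im hw₁ hτ₁) (ind_of_im hw₂ hτ₂) (div_ne_zero hx₂ hx₁) (M := L)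
    (by
      rintro ⟨n, n0, n1, n2⟩
      refine hn ⟨n, n0, n1, ?_⟩
      intro z hz
      obtain ⟨x, rfl⟩ := (mem_Lt z).1 hz
      obtain ⟨y, hy⟩ := n2 x
      exact (mem_Lt _).2 ⟨y, by rw [← hy]; ring⟩) hP hdY
  have h4 : 99 * (dX (sumP p L) + dY (sumP p L)) ^ 2 ≤ 400 * L ^ 2 := by
    have h5 : dX (sumP p L) + dY (sumP p L) ≤ 2 * L := by omega
    calc 99 * (dX (sumP p L) + dY (sumP p L)) ^ 2 ≤ 99 * (2 * L) ^ 2 := by gcongr
      _ ≤ 400 * L ^ 2 := by nlinarith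
  have h0 : analyticOrderAt (fun z => ∑ i ∈ Finset.range L, ∑ j ∈ Finset.range L,
      p i j * iu w₁ (w₁ * τ₁) z ^ i * iu w₂ (w₂ * τ₂) (x₂ / x₁ * z) ^ j) 0 ≤
      ((400 * L ^ 2 : ℕ) : ℕ∞) := by
    refine le_trans (le_of_eq ?_) (hm.trans (Nat.cast_le.2 h4))
    congr 1
    funext z
    rw [evalEval_sumP]
  refine le_of_eq_of_le ?_ h0
  have hlin : AnalyticAt ℂ (fun t : ℂ => x₁ * t) 0 := by fun_prop
  have hder : deriv (fun t : ℂ => x₁ * t) 0 ≠ 0 := by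
    have h1 : HasDerivAt (fun t : ℂ => x₁ * t) x₁ 0 := by
      simpa using (hasDerivAt_id (0 : ℂ)).const_mul x₁
    rw [h1.deriv]
    exact hx₁
  have h1 := analyticOrderAt_comp_of_deriv_ne_zero
    (f := fun z => ∑ i ∈ Finset.range L, ∑ j ∈ Finset.range L,
      p i j * iu w₁ (w₁ * τ₁) z ^ i * iu w₂ (w₂ * τ₂) (x₂ / x₁ * z) ^ j) hlin hder
  rw [mul_zero] at h1
  rw [← h1]
  congr 1
  funext t
  simp only [Function.comp_apply]
  refine Finset.sum_congr rfl fun i _ => Finset.sum_congr rfl fun j _ => ?_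
  have e : x₂ / x₁ * (x₁ * t) = x₂ * t := by
    field_simp
  rw [e]

end Pool.Agent.LGO.Mul
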